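import Mathlib
import Pool.Agent.Helper94.HSDefs

/-!
Basic facts about the square of the Frobenius norm.
-/

namespace Pool.Agent.Helper94.HS

open Matrix

variable {X Y Z : Type} [Fintype X] [Fintype Y] [Fintype Z]

lemma hsSq_nonneg (M : Matrix X Y ℂ) : 0 ≤ hsSq M := by
  unfold hsSq
  positivity

lemma hsSq_eq_trace (M : Matrix X Y ℂ) : ((hsSq M : ℝ) : ℂ) = trace (Mᴴ * M) := by
  unfold hsSq
  rw [trace]
  simp only [diag_apply, mul_apply, conjTranspose_apply]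
  rw [Finset.sum_comm]
  push_cast
  apply Finset.sum_congr rfl
  intro j _
  apply Finset.sum_congr rfl
  intro i _
  rw [Complex.star_def, Complex.conj_mul']

lemma hsSq_eq_re (M : Matrix X Y ℂ) : hsSq M = (trace (Mᴴ * M)).re := by
  rw [← hsSq_eq_trace, Complex.ofReal_re]

lemma hsSq_eq_zero {M : Matrix X Y ℂ} (h : hsSq M = 0) : M = 0 := by
  unfold hsSq at h
  ext i j
  rw [Finset.sum_eq_zero_iff_of_nonneg (fun i _ => Finset.sum_nonneg (fun j _ => by positivity))]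
    at h
  have h1 := h i (Finset.mem_univ i)
  rw [Finset.sum_eq_zero_iff_of_nonneg (fun j _ => by positivity)] at h1
  have h2 := h1 j (Finset.mem_univ j)
  simpa using h2

lemma hsSq_zero : hsSq (0 : Matrix X Y ℂ) = 0 := by
  unfold hsSq
  simp

lemma hsSq_conjTranspose (M : Matrix X Y ℂ) : hsSq Mᴴ = hsSq M := by
  unfold hsSq
  rw [Finset.sum_comm]
  simp

lemma hsSq_neg (M : Matrix X Y ℂ) : hsSq (-M) = hsSq M := by
  unfold hsSq
  simp

lemma hsSq_sub_comm (M N : Matrix X Y ℂ) : hsSq (M - N) = hsSq (N - M) := by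
  rw [← hsSq_neg, neg_sub]

lemma hsSq_add_le (M N : Matrix X Y ℂ) : hsSq (M + N) ≤ 2 * hsSq M + 2 * hsSq N := by
  unfold hsSq
  rw [Finset.mul_sum, Finset.mul_sum, ← Finset.sum_add_distrib]
  apply Finset.sum_le_sum
  intro i _
  rw [Finset.mul_sum, Finset.mul_sum, ← Finset.sum_add_distrib]
  apply Finset.sum_le_sum
  intro j _
  rw [Matrix.add_apply]
  have h1 := norm_add_le (M i j) (N i j)
  have h2 := norm_nonneg (M i j + N i j)
  nlinarith [sq_nonneg (‖M i j‖ - ‖N i j‖)]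

/-- left multiplication by an isometry -/
lemma hsSq_isometry_mul [DecidableEq Y] (U : Matrix Z Y ℂ) (hU : Uᴴ * U = 1) (M : Matrix Y X ℂ) :
    hsSq (U * M) = hsSq M := by
  rw [hsSq_eq_re, hsSq_eq_re, conjTranspose_mul, Matrix.mul_assoc, ← Matrix.mul_assoc Uᴴ, hU,
    Matrix.one_mul]

/-- right multiplication by a coisometry -/
lemma hsSq_mul_coisometry [DecidableEq Y] (U : Matrix Y Z ℂ) (hU : U * Uᴴ = 1)
    (M : Matrix X Y ℂ) : hsSq (M * U) = hsSq M := by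
  rw [← hsSq_conjTranspose, conjTranspose_mul, hsSq_isometry_mul, hsSq_conjTranspose]
  rw [conjTranspose_conjTranspose, hU]

/-- Pythagoras for a projection -/
lemma hsSq_proj_add [DecidableEq Y] (E : Matrix Y Y ℂ) (hE : Eᴴ = E) (hE2 : E * E = E)
    (M : Matrix Y X ℂ) : hsSq (E * M) + hsSq ((1 - E) * M) = hsSq M := by
  rw [hsSq_eq_re, hsSq_eq_re, hsSq_eq_re, ← Complex.add_re, ← trace_add]
  congr 2
  rw [conjTranspose_mul, conjTranspose_mul, conjTranspose_sub, conjTranspose_one, hE]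
  have h1 : (1 - E) * (1 - E) = 1 - E := by
    rw [Matrix.sub_mul, Matrix.mul_sub, Matrix.mul_sub, hE2]
    simp
  calc Mᴴ * E * (E * M) + Mᴴ * (1 - E) * ((1 - E) * M)
      = Mᴴ * (E * E) * M + Mᴴ * ((1 - E) * (1 - E)) * M := by
        simp only [Matrix.mul_assoc]
    _ = Mᴴ * M := by
        rw [hE2, h1, ← Matrix.add_mul, ← Matrix.mul_add]
        simp

lemma hsSq_proj_mul_le [DecidableEq Y] (E : Matrix Y Y ℂ) (hE : Eᴴ = E) (hE2 : E * E = E)
    (M : Matrix Y X ℂ) : hsSq (E * M) ≤ hsSq M := by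
  have h1 := hsSq_proj_add E hE hE2 M
  have h2 := hsSq_nonneg ((1 - E) * M)
  linarith

/-- multiplication by the adjoint of an isometry -/
lemma hsSq_coisometry_mul_le [DecidableEq Y] [DecidableEq Z] (J : Matrix Z Y ℂ) (hJ : Jᴴ * J = 1)
    (M : Matrix Z X ℂ) : hsSq (Jᴴ * M) ≤ hsSq M := by
  have h1 : hsSq (Jᴴ * M) = hsSq (J * Jᴴ * M) := by
    rw [Matrix.mul_assoc, hsSq_isometry_mul J hJ]
  rw [h1]
  apply hsSq_proj_mul_le
  · rw [conjTranspose_mul, conjTranspose_conjTranspose]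
  · rw [Matrix.mul_assoc, ← Matrix.mul_assoc Jᴴ, hJ, Matrix.one_mul]

/-- the trace of a projection -/
lemma hsSq_proj (E : Matrix X X ℂ) (hE : Eᴴ = E) (hE2 : E * E = E) :
    ((hsSq E : ℝ) : ℂ) = trace E := by
  rw [hsSq_eq_trace, hE, hE2]

/-- finite sums -/
lemma hsSq_sum_le {ι : Type} [Fintype ι] (M : ι → Matrix X Y ℂ) :
    hsSq (∑ k, M k) ≤ Fintype.card ι * ∑ k, hsSq (M k) := by
  unfold hsSq
  have h : ∀ i j, ‖(∑ k, M k) i j‖ ^ 2 ≤ Fintype.card ι * ∑ k, ‖M k i j‖ ^ 2 := by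
    intro i j
    rw [Matrix.sum_apply]
    have h1 : ‖∑ k, M k i j‖ ≤ ∑ k, ‖M k i j‖ := norm_sum_le _ _
    have h2 : (∑ k, ‖M k i j‖) ^ 2 ≤ Fintype.card ι * ∑ k, ‖M k i j‖ ^ 2 := by
      have := sq_sum_le_card_mul_sum_sq (s := (Finset.univ : Finset ι)) (f := fun k => ‖M k i j‖)
      rwa [Finset.card_univ] at this
    have h3 := norm_nonneg (∑ k, M k i j)
    nlinarith
  calc ∑ i, ∑ j, ‖(∑ k, M k) i j‖ ^ 2
      ≤ ∑ i, ∑ j, (Fintype.card ι * ∑ k, ‖M k i j‖ ^ 2) :=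
        Finset.sum_le_sum (fun i _ => Finset.sum_le_sum (fun j _ => h i j))
    _ = Fintype.card ι * ∑ k, ∑ i, ∑ j, ‖M k i j‖ ^ 2 := by
        simp only [← Finset.mul_sum]
        congr 1
        have h5 : ∀ i, ∑ j, ∑ k, ‖M k i j‖ ^ 2 = ∑ k, ∑ j, ‖M k i j‖ ^ 2 :=
          fun i => Finset.sum_comm
        simp only [h5]
        exact Finset.sum_comm

lemma hsSq_smul (c : ℝ) (M : Matrix X Y ℂ) : hsSq ((c : ℂ) • M) = c ^ 2 * hsSq M := by
  unfold hsSq
  rw [Finset.mul_sum]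
  apply Finset.sum_congr rfl
  intro i _
  rw [Finset.mul_sum]
  apply Finset.sum_congr rfl
  intro j _
  rw [Matrix.smul_apply, smul_eq_mul, norm_mul, mul_pow, Complex.norm_real, Real.norm_eq_abs, sq_abs]

end Pool.Agent.Helper94.HS
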