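import Mathlib
import Pool.Agent.Helper94.HS.Frob

/-!
Spectral decomposition, projections, polar decomposition with threshold.
-/

namespace Pool.Agent.Helper94.HS

open Matrix

variable {X Y Z : Type} [Fintype X] [Fintype Y] [Fintype Z]

lemma exists_spec [DecidableEq X] (M : Matrix X X ℂ) (hM : Mᴴ = M) :
    ∃ (V : Matrix X X ℂ) (d : X → ℝ), Vᴴ * V = 1 ∧ V * Vᴴ = 1 ∧
      M = V * diagonal (fun i => (d i : ℂ)) * Vᴴ := by
  have hA : M.IsHermitian := hM
  refine ⟨hA.eigenvectorUnitary.1, hA.eigenvalues, ?_, ?_, ?_⟩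
  · exact (Matrix.mem_unitaryGroup_iff'.1 hA.eigenvectorUnitary.2)
  · exact (Matrix.mem_unitaryGroup_iff.1 hA.eigenvectorUnitary.2)
  · have h := hA.spectral_theorem
    rw [Unitary.conjStarAlgAut_apply] at h
    exact h

/-- functional calculus -/
noncomputable def fc [DecidableEq X] (V : Matrix X X ℂ) (d : X → ℝ) (f : ℝ → ℝ) :
    Matrix X X ℂ :=
  V * diagonal (fun i => (f (d i) : ℂ)) * Vᴴ

section fc

variable [DecidableEq X] {V : Matrix X X ℂ} {d : X → ℝ}

lemma fc_mul (hV : Vᴴ * V = 1) (f g : ℝ → ℝ) : fc V d f * fc V d g = fc V d (fun x => f x * g x) := by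
  unfold fc
  calc V * diagonal (fun i => (f (d i) : ℂ)) * Vᴴ * (V * diagonal (fun i => (g (d i) : ℂ)) * Vᴴ)
      = V * (diagonal (fun i => (f (d i) : ℂ)) * (Vᴴ * V) * diagonal (fun i => (g (d i) : ℂ))) *
          Vᴴ := by
        simp only [Matrix.mul_assoc]
    _ = _ := by
        rw [hV, Matrix.mul_one, diagonal_mul_diagonal]
        simp only [Complex.ofReal_mul]

lemma fc_one (hV : V * Vᴴ = 1) : fc V d (fun _ => 1) = 1 := by
  unfold fc
  simp [hV]

lemma fc_conjTranspose (f : ℝ → ℝ) : (fc V d f)ᴴ = fc V d f := by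
  unfold fc
  rw [conjTranspose_mul, conjTranspose_mul, conjTranspose_conjTranspose, diagonal_conjTranspose,
    Matrix.mul_assoc]
  congr 3
  funext i
  simp

lemma fc_sub (f g : ℝ → ℝ) : fc V d f - fc V d g = fc V d (fun x => f x - g x) := by
  unfold fc
  rw [← Matrix.sub_mul, ← Matrix.mul_sub, diagonal_sub]
  simp only [Complex.ofReal_sub]

lemma trace_fc (hV : Vᴴ * V = 1) (f : ℝ → ℝ) : trace (fc V d f) = ((∑ i, f (d i) : ℝ) : ℂ) := by
  unfold fc
  rw [trace_mul_comm, ← Matrix.mul_assoc, hV, Matrix.one_mul, trace_diagonal]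
  push_cast
  rfl

lemma fc_commute (hV : Vᴴ * V = 1) (hV' : V * Vᴴ = 1) (f : ℝ → ℝ) (C : Matrix X X ℂ)
    (hC : C * fc V d id = fc V d id * C) : C * fc V d f = fc V d f * C := by
  have h1 : (Vᴴ * C * V) * diagonal (fun i => (d i : ℂ)) =
      diagonal (fun i => (d i : ℂ)) * (Vᴴ * C * V) := by
    have h2 : Vᴴ * (C * fc V d id) * V = Vᴴ * (fc V d id * C) * V := by rw [hC]
    unfold fc at h2
    simp only [id] at h2
    calc (Vᴴ * C * V) * diagonal (fun i => (d i : ℂ))
        = Vᴴ * C * V * diagonal (fun i => (d i : ℂ)) * (Vᴴ * V) := by rw [hV, Matrix.mul_one]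
      _ = Vᴴ * (C * (V * diagonal (fun i => (d i : ℂ)) * Vᴴ)) * V := by
          simp only [Matrix.mul_assoc]
      _ = Vᴴ * (V * diagonal (fun i => (d i : ℂ)) * Vᴴ * C) * V := h2
      _ = (Vᴴ * V) * diagonal (fun i => (d i : ℂ)) * (Vᴴ * C * V) := by
          simp only [Matrix.mul_assoc]
      _ = _ := by rw [hV, Matrix.one_mul]
  have h3 : (Vᴴ * C * V) * diagonal (fun i => (f (d i) : ℂ)) =
      diagonal (fun i => (f (d i) : ℂ)) * (Vᴴ * C * V) := by
    ext i j
    have h4 := congrFun (congrFun h1 i) j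
    rw [mul_diagonal, diagonal_mul] at h4 ⊢
    by_cases h5 : (Vᴴ * C * V) i j = 0
    · rw [h5]
      simp
    · have h6 : (d i : ℂ) = (d j : ℂ) := by
        have h7 : ((d i : ℂ) - (d j : ℂ)) * (Vᴴ * C * V) i j = 0 := by
          rw [sub_mul, ← h4]
          ring
        rcases mul_eq_zero.1 h7 with h8 | h8
        · exact sub_eq_zero.1 h8
        · exact absurd h8 h5
      have h7 : d i = d j := by exact_mod_cast h6
      rw [h7]
      ring
  unfold fc
  calc C * (V * diagonal (fun i => (f (d i) : ℂ)) * Vᴴ)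
      = (V * Vᴴ) * C * (V * diagonal (fun i => (f (d i) : ℂ)) * Vᴴ) := by
        rw [hV', Matrix.one_mul]
    _ = V * ((Vᴴ * C * V) * diagonal (fun i => (f (d i) : ℂ))) * Vᴴ := by
        simp only [Matrix.mul_assoc]
    _ = V * (diagonal (fun i => (f (d i) : ℂ)) * (Vᴴ * C * V)) * Vᴴ := by rw [h3]
    _ = V * diagonal (fun i => (f (d i) : ℂ)) * Vᴴ * C * (V * Vᴴ) := by
        simp only [Matrix.mul_assoc]
    _ = _ := by rw [hV', Matrix.mul_one]

end fc

/-- A projection is `S Sᴴ` for an isometry `S`. -/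
lemma exists_isometry_of_proj [DecidableEq X] (E : Matrix X X ℂ) (hE : Eᴴ = E) (hE2 : E * E = E) :
    ∃ (Y : Type) (_ : Fintype Y) (_ : DecidableEq Y) (S : Matrix X Y ℂ), Sᴴ * S = 1 ∧
      S * Sᴴ = E := by
  classical
  obtain ⟨V, d, hV, hV', hM⟩ := exists_spec E hE
  have hd : ∀ i, d i = 0 ∨ d i = 1 := by
    intro i
    have h1 : fc V d (fun x => x * x) = fc V d id := by
      rw [← fc_mul hV (fun x => x) (fun x => x)]
      have h2 : fc V d (fun x => x) = E := hM.symm
      have h3 : fc V d id = E := hM.symm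
      rw [h2, h3, hE2]
    unfold fc at h1
    have h2 : diagonal (fun i => (((fun x : ℝ => x * x) (d i) : ℝ) : ℂ)) =
        diagonal (fun i => ((id (d i) : ℝ) : ℂ)) := by
      have h3 : Vᴴ * (V * diagonal (fun i => (((fun x : ℝ => x * x) (d i) : ℝ) : ℂ)) * Vᴴ) * V =
          Vᴴ * (V * diagonal (fun i => ((id (d i) : ℝ) : ℂ)) * Vᴴ) * V := by rw [h1]
      have h4 : ∀ D : Matrix X X ℂ, Vᴴ * (V * D * Vᴴ) * V = D := by
        intro D
        calc Vᴴ * (V * D * Vᴴ) * V = (Vᴴ * V) * D * (Vᴴ * V) := by simp only [Matrix.mul_assoc]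
          _ = D := by rw [hV, Matrix.one_mul, Matrix.mul_one]
      rwa [h4, h4] at h3
    have h3 := congrFun (congrFun h2 i) i
    rw [diagonal_apply_eq, diagonal_apply_eq] at h3
    have h4 : d i * d i = d i := by exact_mod_cast h3
    have h5 : d i * (d i - 1) = 0 := by linarith
    rcases mul_eq_zero.1 h5 with h | h
    · exact Or.inl h
    · exact Or.inr (by linarith)
  refine ⟨{i // d i = 1}, inferInstance, inferInstance, V.submatrix id Subtype.val, ?_, ?_⟩
  · have h1 : (V.submatrix id (Subtype.val : {i // d i = 1} → X))ᴴ *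
        V.submatrix id (Subtype.val : {i // d i = 1} → X) =
        (Vᴴ * V).submatrix Subtype.val Subtype.val := by
      ext i j
      simp [mul_apply]
    rw [h1, hV]
    ext i j
    rw [submatrix_apply, one_apply, one_apply]
    simp only [Subtype.ext_iff]
  · ext i j
    rw [hM, mul_apply, mul_apply]
    simp only [submatrix_apply, conjTranspose_apply, id, mul_diagonal]
    have h1 : ∑ k : {i // d i = 1}, V i k.1 * star (V j k.1) =
        ∑ k ∈ Finset.univ.filter (fun k => d k = 1), V i k * star (V j k) :=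
      (Finset.sum_subtype (Finset.univ.filter (fun k => d k = 1)) (by simp)
        (fun k => V i k * star (V j k))).symm
    rw [h1, Finset.sum_filter]
    apply Finset.sum_congr rfl
    intro k _
    rcases hd k with h | h
    · rw [h]
      simp
    · rw [h]
      simp

/-- threshold inverse square root -/
noncomputable def pth (θ : ℝ) (x : ℝ) : ℝ := if θ < x then 1 / Real.sqrt x else 0

/-- threshold indicator -/
noncomputable def ith (θ : ℝ) (x : ℝ) : ℝ := if θ < x then 1 else 0

/-- Polar decomposition with a threshold. -/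
lemma exists_polar [DecidableEq X] [DecidableEq Y] (θ : ℝ) (hθ : 0 ≤ θ) (T : Matrix Y X ℂ) :
    ∃ (V : Matrix X X ℂ) (d : X → ℝ), Vᴴ * V = 1 ∧ V * Vᴴ = 1 ∧ (∀ i, 0 ≤ d i) ∧
      Tᴴ * T = fc V d id ∧ (T * fc V d (pth θ))ᴴ * (T * fc V d (pth θ)) = fc V d (ith θ) ∧
      T * fc V d (pth θ) * fc V d (ith θ) = T * fc V d (pth θ) := by
  obtain ⟨V, d, hV, hV', hM⟩ := exists_spec (Tᴴ * T) (by
    rw [conjTranspose_mul, conjTranspose_conjTranspose])
  have hM' : Tᴴ * T = fc V d id := hM
  have hd : ∀ i, 0 ≤ d i := by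
    intro i
    have h1 : (T * V)ᴴ * (T * V) = diagonal (fun i => (d i : ℂ)) := by
      rw [conjTranspose_mul]
      calc Vᴴ * Tᴴ * (T * V) = Vᴴ * (Tᴴ * T) * V := by simp only [Matrix.mul_assoc]
        _ = (Vᴴ * V) * diagonal (fun i => (d i : ℂ)) * (Vᴴ * V) := by
            rw [hM]
            simp only [Matrix.mul_assoc]
        _ = _ := by rw [hV, Matrix.one_mul, Matrix.mul_one]
    have h2 := congrFun (congrFun h1 i) i
    rw [diagonal_apply_eq, mul_apply] at h2
    have h3 : ((∑ k, ‖(T * V) k i‖ ^ 2 : ℝ) : ℂ) = (d i : ℂ) := by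
      rw [← h2]
      push_cast
      apply Finset.sum_congr rfl
      intro k _
      rw [conjTranspose_apply, Complex.star_def, Complex.conj_mul']
    have h4 : ∑ k, ‖(T * V) k i‖ ^ 2 = d i := by exact_mod_cast h3
    rw [← h4]
    positivity
  refine ⟨V, d, hV, hV', hd, hM', ?_, ?_⟩
  · rw [conjTranspose_mul, fc_conjTranspose]
    calc fc V d (pth θ) * Tᴴ * (T * fc V d (pth θ))
        = fc V d (pth θ) * (Tᴴ * T) * fc V d (pth θ) := by simp only [Matrix.mul_assoc]
      _ = fc V d (ith θ) := by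
          rw [hM', fc_mul hV, fc_mul hV]
          congr 1
          funext x
          unfold pth ith
          by_cases hx : θ < x
          · simp only [hx, if_true, id]
            have hx0 : 0 < x := lt_of_le_of_lt hθ hx
            have h5 : Real.sqrt x ≠ 0 := (Real.sqrt_pos.2 hx0).ne'
            field_simp
            exact (Real.sq_sqrt hx0.le).symm
          · simp only [hx, if_false]
            ring
  · rw [Matrix.mul_assoc, fc_mul hV]
    congr 2
    funext x
    unfold pth ith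
    by_cases hx : θ < x
    · simp only [hx, if_true]
      ring
    · simp only [hx, if_false]
      ring

end Pool.Agent.Helper94.HS
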