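import Mathlib
import Pool.Agent.Helper94.HS.Spec

/-!
Finite-dimensional unitary representations as matrices; intertwiners.
-/

namespace Pool.Agent.Helper94.HS

open Matrix

/-- A finite-dimensional unitary representation. -/
structure URep (G : Type) [Group G] where
  X : Type
  [ft : Fintype X]
  [de : DecidableEq X]
  a : G → Matrix X X ℂ
  one : a 1 = 1
  mul : ∀ g h, a (g * h) = a g * a h
  star : ∀ g, (a g)ᴴ = a g⁻¹

attribute [instance] URep.ft URep.de

/-- dimension -/
def URep.dim {G : Type} [Group G] (A : URep G) : ℕ := Fintype.card A.X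

/-- character -/
noncomputable def URep.chi {G : Type} [Group G] (A : URep G) (g : G) : ℂ := trace (A.a g)

/-- restriction -/
@[reducible] def URep.res {G H : Type} [Group G] [Group H] (A : URep G) (i : H →* G) : URep H where
  X := A.X
  a := fun h => A.a (i h)
  one := by rw [map_one, A.one]
  mul := fun g h => by rw [map_mul, A.mul]
  star := fun g => by rw [map_inv, A.star]

lemma URep.chi_one {G : Type} [Group G] (A : URep G) : A.chi 1 = A.dim := by
  unfold URep.chi URep.dim
  rw [A.one, trace_one]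

lemma URep.chi_res {G H : Type} [Group G] [Group H] (A : URep G) (i : H →* G) (h : H) :
    (A.res i).chi h = A.chi (i h) := rfl

lemma URep.a_mul_a_inv {G : Type} [Group G] (A : URep G) (g : G) : A.a g * A.a g⁻¹ = 1 := by
  rw [← A.mul, mul_inv_cancel, A.one]

lemma URep.a_inv_mul_a {G : Type} [Group G] (A : URep G) (g : G) : A.a g⁻¹ * A.a g = 1 := by
  rw [← A.mul, inv_mul_cancel, A.one]

/-- direct sum -/
@[reducible] def URep.add {G : Type} [Group G] (A B : URep G) : URep G where
  X := A.X ⊕ B.X
  a := fun g => fromBlocks (A.a g) 0 0 (B.a g)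
  one := by rw [A.one, B.one, fromBlocks_one]
  mul := fun g h => by
    rw [fromBlocks_multiply, A.mul, B.mul]
    simp
  star := fun g => by
    rw [fromBlocks_conjTranspose, A.star, B.star]
    simp

lemma URep.chi_add {G : Type} [Group G] (A B : URep G) (g : G) :
    (A.add B).chi g = A.chi g + B.chi g := by
  unfold URep.chi URep.add trace
  simp only [diag_apply]
  rw [Fintype.sum_sum_type]
  simp

lemma URep.dim_add {G : Type} [Group G] (A B : URep G) : (A.add B).dim = A.dim + B.dim := by
  unfold URep.dim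
  exact Fintype.card_sum

/-- trivial representation of given dimension -/
def URep.triv (G : Type) [Group G] (k : ℕ) : URep G where
  X := Fin k
  a := fun _ => 1
  one := rfl
  mul := fun _ _ => (Matrix.one_mul 1).symm
  star := fun _ => conjTranspose_one

lemma URep.chi_triv {G : Type} [Group G] (k : ℕ) (g : G) : (URep.triv G k).chi g = k := by
  unfold URep.chi URep.triv
  simp

lemma URep.dim_triv {G : Type} [Group G] (k : ℕ) : (URep.triv G k).dim = k := by
  unfold URep.dim URep.triv
  simp

/-- intertwiner -/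
def IsInt {H : Type} [Group H] (A B : URep H) (T : Matrix B.X A.X ℂ) : Prop :=
  ∀ h, B.a h * T = T * A.a h

lemma IsInt.star {H : Type} [Group H] {A B : URep H} {T : Matrix B.X A.X ℂ} (hT : IsInt A B T)
    (h : H) : A.a h * Tᴴ = Tᴴ * B.a h := by
  have h1 := congrArg conjTranspose (hT h⁻¹)
  rw [conjTranspose_mul, conjTranspose_mul, A.star, B.star, inv_inv] at h1
  exact h1.symm

lemma IsInt.comm {H : Type} [Group H] {A B : URep H} {T : Matrix B.X A.X ℂ} (hT : IsInt A B T)
    (h : H) : A.a h * (Tᴴ * T) = (Tᴴ * T) * A.a h := by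
  rw [← Matrix.mul_assoc, hT.star, Matrix.mul_assoc, hT, Matrix.mul_assoc]

/-- The partial isometry part of an intertwiner. -/
lemma exists_polar_int {H : Type} [Group H] {A B : URep H} (θ : ℝ) (hθ : 0 ≤ θ)
    (T : Matrix B.X A.X ℂ) (hT : IsInt A B T) :
    ∃ (V : Matrix A.X A.X ℂ) (d : A.X → ℝ), Vᴴ * V = 1 ∧ V * Vᴴ = 1 ∧ (∀ i, 0 ≤ d i) ∧
      Tᴴ * T = fc V d id ∧ (T * fc V d (pth θ))ᴴ * (T * fc V d (pth θ)) = fc V d (ith θ) ∧
      T * fc V d (pth θ) * fc V d (ith θ) = T * fc V d (pth θ) ∧
      IsInt A B (T * fc V d (pth θ)) := by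
  obtain ⟨V, d, hV, hV', hd, hM, hW, hWE⟩ := exists_polar θ hθ T
  refine ⟨V, d, hV, hV', hd, hM, hW, hWE, ?_⟩
  intro h
  have h1 : A.a h * fc V d (pth θ) = fc V d (pth θ) * A.a h := by
    apply fc_commute hV hV'
    rw [← hM]
    exact hT.comm h
  rw [← Matrix.mul_assoc, hT, Matrix.mul_assoc, h1, Matrix.mul_assoc]

lemma mul_single_mul_apply {X Y : Type} [Fintype X] [DecidableEq X] [Fintype Y] [DecidableEq Y]
    (M : Matrix Y Y ℂ) (N : Matrix X X ℂ) (i : Y) (j : X) :
    (M * Matrix.single i j (1:ℂ) * N) i j = M i i * N j j := by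
  rw [mul_apply, Finset.sum_eq_single j]
  · rw [mul_apply, Finset.sum_eq_single i]
    · simp
    · intro b _ hb
      rw [single_apply_of_row_ne (Ne.symm hb), mul_zero]
    · intro h
      exact absurd (Finset.mem_univ _) h
  · intro b _ hb
    rw [mul_apply]
    have : ∑ k, M i k * Matrix.single i j (1:ℂ) k b = 0 := by
      apply Finset.sum_eq_zero
      intro k _
      rw [single_apply_of_col_ne _ _ (Ne.symm hb), mul_zero]
    rw [this, zero_mul]
  · intro h
    exact absurd (Finset.mem_univ _) h

/-- Averaging gives nonzero intertwiners between subrepresentations which are not orthogonal. -/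
lemma exists_int_ne_zero {H : Type} [Group H] [Fintype H] (A B : URep H)
    (E : Matrix A.X A.X ℂ) (hE : E * E = E) (hEc : ∀ h, A.a h * E = E * A.a h)
    (F : Matrix B.X B.X ℂ) (hF : F * F = F) (hFc : ∀ h, B.a h * F = F * B.a h)
    (hne : ∑ h, trace (B.a h * F) * trace (E * A.a h⁻¹) ≠ 0) :
    ∃ T : Matrix B.X A.X ℂ, IsInt A B T ∧ T ≠ 0 ∧ F * T = T ∧ T * E = T := by
  let T : B.X → A.X → Matrix B.X A.X ℂ := fun i j =>
    ∑ h, B.a h * F * Matrix.single i j (1:ℂ) * (E * A.a h⁻¹)
  have hint : ∀ i j, IsInt A B (T i j) := by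
    intro i j k
    change B.a k * (∑ h, B.a h * F * Matrix.single i j (1:ℂ) * (E * A.a h⁻¹)) =
      (∑ h, B.a h * F * Matrix.single i j (1:ℂ) * (E * A.a h⁻¹)) * A.a k
    rw [Matrix.mul_sum, Matrix.sum_mul]
    refine Fintype.sum_equiv (Equiv.mulLeft k) _ _ ?_
    intro h
    simp only [Equiv.coe_mulLeft]
    rw [B.mul, _root_.mul_inv_rev, A.mul]
    calc B.a k * (B.a h * F * Matrix.single i j (1:ℂ) * (E * A.a h⁻¹))
        = B.a k * B.a h * F * Matrix.single i j (1:ℂ) * (E * (A.a h⁻¹ * 1)) := by
          simp only [Matrix.mul_assoc, Matrix.mul_one]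
      _ = B.a k * B.a h * F * Matrix.single i j (1:ℂ) * (E * (A.a h⁻¹ * (A.a k⁻¹ * A.a k))) := by
          rw [A.a_inv_mul_a]
      _ = _ := by simp only [Matrix.mul_assoc]
  have hFT : ∀ i j, F * T i j = T i j := by
    intro i j
    change F * (∑ h, B.a h * F * Matrix.single i j (1:ℂ) * (E * A.a h⁻¹)) = _
    rw [Matrix.mul_sum]
    apply Finset.sum_congr rfl
    intro h _
    calc F * (B.a h * F * Matrix.single i j (1:ℂ) * (E * A.a h⁻¹))
        = (F * B.a h) * F * Matrix.single i j (1:ℂ) * (E * A.a h⁻¹) := by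
          simp only [Matrix.mul_assoc]
      _ = B.a h * (F * F) * Matrix.single i j (1:ℂ) * (E * A.a h⁻¹) := by
          rw [← hFc]
          simp only [Matrix.mul_assoc]
      _ = _ := by rw [hF]
  have hTE : ∀ i j, T i j * E = T i j := by
    intro i j
    change (∑ h, B.a h * F * Matrix.single i j (1:ℂ) * (E * A.a h⁻¹)) * E = _
    rw [Matrix.sum_mul]
    apply Finset.sum_congr rfl
    intro h _
    calc B.a h * F * Matrix.single i j (1:ℂ) * (E * A.a h⁻¹) * E
        = B.a h * F * Matrix.single i j (1:ℂ) * (E * (A.a h⁻¹ * E)) := by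
          simp only [Matrix.mul_assoc]
      _ = B.a h * F * Matrix.single i j (1:ℂ) * ((E * E) * A.a h⁻¹) := by
          rw [hEc]
          simp only [Matrix.mul_assoc]
      _ = _ := by rw [hE]
  by_contra hcon
  push Not at hcon
  apply hne
  have hzero : ∀ i j, T i j = 0 := by
    intro i j
    by_contra h
    exact hcon (T i j) (hint i j) h (hFT i j) (hTE i j)
  have hentry : ∀ i j, (T i j) i j = ∑ h, (B.a h * F) i i * (E * A.a h⁻¹) j j := by
    intro i j
    change (∑ h, B.a h * F * Matrix.single i j (1:ℂ) * (E * A.a h⁻¹)) i j = _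
    rw [Matrix.sum_apply]
    apply Finset.sum_congr rfl
    intro h _
    exact mul_single_mul_apply _ _ i j
  calc ∑ h, trace (B.a h * F) * trace (E * A.a h⁻¹)
      = ∑ h, ∑ i, ∑ j, (B.a h * F) i i * (E * A.a h⁻¹) j j := by
        apply Finset.sum_congr rfl
        intro h _
        unfold trace
        simp only [diag_apply]
        rw [Finset.sum_mul_sum]
    _ = ∑ i, ∑ j, ∑ h, (B.a h * F) i i * (E * A.a h⁻¹) j j := by
        rw [Finset.sum_comm]
        apply Finset.sum_congr rfl
        intro i _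
        rw [Finset.sum_comm]
    _ = 0 := by
        apply Finset.sum_eq_zero
        intro i _
        apply Finset.sum_eq_zero
        intro j _
        rw [← hentry, hzero]
        rfl

end Pool.Agent.Helper94.HS
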