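import Mathlib
import Pool.Agent.Helper94.HS.URep
import Pool.Agent.Helper94.HSDefs

/-!
Working form of flexible Hilbert-Schmidt stability, word estimates, independence of generators.
-/

namespace Pool.Agent.Helper94.HS

open Matrix

/-- Working form of the definition. -/
def FlexHSOn' {G : Type} [Group G] (S : Type) (g : S → G) : Prop :=
  ∀ ε : ℝ, 0 < ε → ∃ δ : ℝ, 0 < δ ∧ ∃ E : Finset (FreeGroup S),
    (∀ e ∈ E, FreeGroup.lift g e = 1) ∧
    ∀ (X : Type) [Fintype X] [DecidableEq X] [Nonempty X]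
      (φ : FreeGroup S →* Matrix.unitaryGroup X ℂ),
      (∀ e ∈ E, hsSq ((φ e : Matrix X X ℂ) - 1) ≤ δ * Fintype.card X) →
      ∃ (A : URep G) (J : Matrix A.X X ℂ), Jᴴ * J = 1 ∧
        (A.dim : ℝ) ≤ (1 + ε) * (Fintype.card X : ℝ) ∧
        ∀ s : S, hsSq (A.a (g s) * J - J * (φ (FreeGroup.of s) : Matrix X X ℂ)) ≤
          ε * Fintype.card X

section words

variable {G S X : Type} [Group G] [Fintype X] [DecidableEq X]

lemma uni_star_mul (U : Matrix.unitaryGroup X ℂ) : (U : Matrix X X ℂ)ᴴ * U = 1 :=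
  Matrix.mem_unitaryGroup_iff'.1 U.2

lemma uni_mul_star (U : Matrix.unitaryGroup X ℂ) : (U : Matrix X X ℂ) * (U : Matrix X X ℂ)ᴴ = 1 :=
  Matrix.mem_unitaryGroup_iff.1 U.2

lemma URep.st_mul (A : URep G) (g : G) : (A.a g)ᴴ * A.a g = 1 := by
  rw [A.star, A.a_inv_mul_a]

lemma URep.mul_st (A : URep G) (g : G) : A.a g * (A.a g)ᴴ = 1 := by
  rw [A.star, A.a_mul_a_inv]

/-- defect for two unitaries -/
lemma defect_mul (A : URep G) (J : Matrix A.X X ℂ) (a b : G) (u v : Matrix.unitaryGroup X ℂ) :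
    hsSq (A.a (a * b) * J - J * ((u * v : Matrix.unitaryGroup X ℂ) : Matrix X X ℂ)) ≤
      2 * hsSq (A.a a * J - J * (u : Matrix X X ℂ)) +
      2 * hsSq (A.a b * J - J * (v : Matrix X X ℂ)) := by
  have h1 : A.a (a * b) * J - J * ((u * v : Matrix.unitaryGroup X ℂ) : Matrix X X ℂ) =
      (A.a a * J - J * (u : Matrix X X ℂ)) * (v : Matrix X X ℂ) +
      A.a a * (A.a b * J - J * (v : Matrix X X ℂ)) := by
    have h2 : ((u * v : Matrix.unitaryGroup X ℂ) : Matrix X X ℂ) =
      (u : Matrix X X ℂ) * (v : Matrix X X ℂ) := rfl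
    rw [h2, A.mul, Matrix.sub_mul, Matrix.mul_sub]
    simp only [Matrix.mul_assoc]
    abel
  rw [h1]
  refine (hsSq_add_le _ _).trans (le_of_eq ?_)
  rw [hsSq_mul_coisometry _ (uni_mul_star v), hsSq_isometry_mul _ (A.st_mul a)]

lemma defect_inv (A : URep G) (J : Matrix A.X X ℂ) (a : G) (u : Matrix.unitaryGroup X ℂ) :
    hsSq (A.a a⁻¹ * J - J * ((u⁻¹ : Matrix.unitaryGroup X ℂ) : Matrix X X ℂ)) =
      hsSq (A.a a * J - J * (u : Matrix X X ℂ)) := by
  have h2 : ((u⁻¹ : Matrix.unitaryGroup X ℂ) : Matrix X X ℂ) = (u : Matrix X X ℂ)ᴴ := rfl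
  have h1 : A.a a⁻¹ * J - J * ((u⁻¹ : Matrix.unitaryGroup X ℂ) : Matrix X X ℂ) =
      -(A.a a⁻¹ * (A.a a * J - J * (u : Matrix X X ℂ)) * (u : Matrix X X ℂ)ᴴ) := by
    rw [h2, Matrix.mul_sub, Matrix.sub_mul, ← Matrix.mul_assoc (A.a a⁻¹) (A.a a), A.a_inv_mul_a,
      Matrix.one_mul]
    have h3 : A.a a⁻¹ * (J * (u : Matrix X X ℂ)) * (u : Matrix X X ℂ)ᴴ = A.a a⁻¹ * J := by
      rw [Matrix.mul_assoc, Matrix.mul_assoc, uni_mul_star, Matrix.mul_one]
    rw [h3]
    abel
  rw [h1, hsSq_neg, hsSq_mul_coisometry, hsSq_isometry_mul _ (A.st_mul a⁻¹)]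
  rw [conjTranspose_conjTranspose]
  exact uni_star_mul u

lemma exists_word_bound (w : FreeGroup S) : ∃ L : ℕ, ∀ (G X : Type) [Group G] [Fintype X]
    [DecidableEq X] (g : S → G) (φ : FreeGroup S →* Matrix.unitaryGroup X ℂ) (A : URep G)
    (J : Matrix A.X X ℂ) (B : ℝ),
    (∀ s, hsSq (A.a (g s) * J - J * (φ (FreeGroup.of s) : Matrix X X ℂ)) ≤ B) → 0 ≤ B →
    hsSq (A.a (FreeGroup.lift g w) * J - J * (φ w : Matrix X X ℂ)) ≤ L * B := by
  induction w using FreeGroup.induction_on with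
  | C1 =>
    refine ⟨0, ?_⟩
    intro G X _ _ _ g φ A J B _ _
    rw [map_one, map_one, A.one, Matrix.one_mul]
    have h1 : ((1 : Matrix.unitaryGroup X ℂ) : Matrix X X ℂ) = 1 := rfl
    rw [h1, Matrix.mul_one, sub_self, hsSq_zero]
    simp
  | of s =>
    refine ⟨1, ?_⟩
    intro G X _ _ _ g φ A J B hB _
    rw [Nat.cast_one, one_mul]
    rw [FreeGroup.lift_apply_of]
    exact hB s
  | inv_of s _ =>
    refine ⟨1, ?_⟩
    intro G X _ _ _ g φ A J B hB _
    rw [Nat.cast_one, one_mul, map_inv, map_inv, defect_inv]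
    rw [FreeGroup.lift_apply_of]
    exact hB s
  | mul v w hv hw =>
    obtain ⟨L₁, h₁⟩ := hv
    obtain ⟨L₂, h₂⟩ := hw
    refine ⟨2 * L₁ + 2 * L₂, ?_⟩
    intro G X _ _ _ g φ A J B hB hB0
    have := h₁ G X g φ A J B hB hB0
    have := h₂ G X g φ A J B hB hB0
    rw [map_mul, map_mul]
    refine (defect_mul A J _ _ _ _).trans ?_
    push_cast
    linarith

end words

/-- Independence of the generating family. -/
lemma flexHSOn'_indep {G S T : Type} [Group G] [Finite T] (g : S → G) (t : T → G)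
    (hg : Subgroup.closure (Set.range g) = ⊤) (ht : Subgroup.closure (Set.range t) = ⊤)
    (h : FlexHSOn' S g) : FlexHSOn' T t := by
  classical
  have := Fintype.ofFinite T
  rw [← FreeGroup.lift_surjective_iff_closure_range_eq_top] at hg ht
  choose w hw using fun s : S => ht (g s)
  choose v hv using fun x : T => hg (t x)
  let θ : FreeGroup S →* FreeGroup T := FreeGroup.lift w
  have hθ : (FreeGroup.lift t).comp θ = FreeGroup.lift g := by
    apply FreeGroup.ext_hom
    intro s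
    rw [MonoidHom.comp_apply, FreeGroup.lift_apply_of, FreeGroup.lift_apply_of, hw]
  choose L hL using fun x : T => exists_word_bound (v x)
  intro ε hε
  set M : ℝ := ∑ x : T, (L x : ℝ) with hM
  have hM0 : 0 ≤ M := Finset.sum_nonneg (fun x _ => Nat.cast_nonneg _)
  have hLM : ∀ x, (L x : ℝ) ≤ M := fun x =>
    Finset.single_le_sum (f := fun x => (L x : ℝ)) (fun y _ => Nat.cast_nonneg _)
      (Finset.mem_univ x)
  set ε' : ℝ := ε / (4 * (M + 1)) with hε'
  have hM1 : 0 < 4 * (M + 1) := by linarith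
  have hε'0 : 0 < ε' := div_pos hε hM1
  have hε'eq : ε' * (4 * (M + 1)) = ε := div_mul_cancel₀ _ hM1.ne'
  have hMε : 0 ≤ M * ε' := mul_nonneg hM0 hε'0.le
  obtain ⟨δ, hδ, E, hE, hmain⟩ := h ε' hε'0
  refine ⟨min δ (ε / 4), lt_min hδ (by linarith),
    E.image θ ∪ Finset.univ.image (fun x : T => (θ (v x))⁻¹ * FreeGroup.of x), ?_, ?_⟩
  · intro e he
    rw [Finset.mem_union, Finset.mem_image, Finset.mem_image] at he
    rcases he with ⟨e', he', rfl⟩ | ⟨x, _, rfl⟩
    · have : FreeGroup.lift t (θ e') = ((FreeGroup.lift t).comp θ) e' := rfl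
      rw [this, hθ, hE e' he']
    · rw [map_mul, map_inv, FreeGroup.lift_apply_of]
      have : FreeGroup.lift t (θ (v x)) = ((FreeGroup.lift t).comp θ) (v x) := rfl
      rw [this, hθ, hv, inv_mul_cancel]
  · intro X _ _ _ φ hφ
    have hX : (0 : ℝ) < Fintype.card X := by exact_mod_cast Fintype.card_pos
    obtain ⟨A, J, hJ, h1, h2⟩ := hmain X (φ.comp θ) (by
      intro e he
      refine (hφ (θ e) (Finset.mem_union_left _ (Finset.mem_image_of_mem _ he))).trans ?_
      exact mul_le_mul_of_nonneg_right (min_le_left _ _) hX.le)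
    refine ⟨A, J, hJ, ?_, ?_⟩
    · refine h1.trans ?_
      apply mul_le_mul_of_nonneg_right _ hX.le
      nlinarith
    · intro x
      have h3 := hL x G X g (φ.comp θ) A J (ε' * Fintype.card X) h2
        (mul_nonneg hε'0.le hX.le)
      have h4 := hφ ((θ (v x))⁻¹ * FreeGroup.of x)
        (Finset.mem_union_right _ (Finset.mem_image_of_mem _ (Finset.mem_univ x)))
      rw [hv] at h3
      have h5 : A.a (t x) * J - J * (φ (FreeGroup.of x) : Matrix X X ℂ) =
          (A.a (t x) * J - J * ((φ.comp θ) (v x) : Matrix X X ℂ)) +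
          -(J * ((φ (θ (v x)) : Matrix X X ℂ) *
            ((φ ((θ (v x))⁻¹ * FreeGroup.of x) : Matrix X X ℂ) - 1))) := by
        have h6 : (φ (θ (v x)) : Matrix X X ℂ) * (φ ((θ (v x))⁻¹ * FreeGroup.of x) : Matrix X X ℂ) =
            (φ (FreeGroup.of x) : Matrix X X ℂ) := by
          have h7 : φ (θ (v x)) * φ ((θ (v x))⁻¹ * FreeGroup.of x) = φ (FreeGroup.of x) := by
            rw [← map_mul, mul_inv_cancel_left]
          rw [← h7]
          rfl
        rw [Matrix.mul_sub, h6, Matrix.mul_one, Matrix.mul_sub]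
        have h8 : ((φ.comp θ) (v x) : Matrix X X ℂ) = (φ (θ (v x)) : Matrix X X ℂ) := rfl
        rw [h8]
        abel
      have h6 : hsSq (A.a (t x) * J - J * (φ (FreeGroup.of x) : Matrix X X ℂ)) ≤
          2 * hsSq (A.a (t x) * J - J * ((φ.comp θ) (v x) : Matrix X X ℂ)) +
          2 * hsSq ((φ ((θ (v x))⁻¹ * FreeGroup.of x) : Matrix X X ℂ) - 1) := by
        rw [h5]
        refine (hsSq_add_le _ _).trans (le_of_eq ?_)
        rw [hsSq_neg, hsSq_isometry_mul J hJ, hsSq_isometry_mul _ (uni_star_mul _)]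
      have h7 : min δ (ε / 4) * (Fintype.card X : ℝ) ≤ ε / 4 * Fintype.card X :=
        mul_le_mul_of_nonneg_right (min_le_right _ _) hX.le
      have h8 : (L x : ℝ) * (ε' * Fintype.card X) ≤ ε / 4 * Fintype.card X := by
        rw [← mul_assoc]
        apply mul_le_mul_of_nonneg_right _ hX.le
        have := mul_le_mul_of_nonneg_right (hLM x) hε'0.le
        nlinarith
      have h9 : ε * (Fintype.card X : ℝ) = 2 * (ε / 4 * Fintype.card X) +
        2 * (ε / 4 * Fintype.card X) := by ring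
      linarith

end Pool.Agent.Helper94.HS
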