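import Mathlib
import Pool.Agent.Helper94.HS.Words

/-!
The working form of flexible Hilbert-Schmidt stability is equivalent to the definition.
-/

namespace Pool.Agent.Helper94.HS

open Matrix

section homs

variable {G : Type} [Group G]

/-- homomorphism to the unitary group -/
def URep.toHom (A : URep G) : G →* Matrix.unitaryGroup A.X ℂ where
  toFun g := ⟨A.a g, Matrix.mem_unitaryGroup_iff.2 (A.mul_st g)⟩
  map_one' := Subtype.ext A.one
  map_mul' g h := Subtype.ext (A.mul g h)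

/-- from a homomorphism to the unitary group -/
def URep.ofHom {Y : Type} [Fintype Y] [DecidableEq Y] (ψ : G →* Matrix.unitaryGroup Y ℂ) :
    URep G where
  X := Y
  a := fun g => (ψ g : Matrix Y Y ℂ)
  one := by rw [map_one]; rfl
  mul := fun g h => by rw [map_mul]; rfl
  star := fun g => by rw [map_inv]; rfl

/-- change of basis -/
def URep.conj (A : URep G) {Z : Type} [Fintype Z] [DecidableEq Z] (U : Matrix A.X Z ℂ)
    (h1 : Uᴴ * U = 1) (h2 : U * Uᴴ = 1) : URep G where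
  X := Z
  a := fun g => Uᴴ * A.a g * U
  one := by rw [A.one, Matrix.mul_one, h1]
  mul := fun g h => by
    rw [A.mul]
    calc Uᴴ * (A.a g * A.a h) * U = Uᴴ * A.a g * (1 * A.a h) * U := by
          rw [Matrix.one_mul]
          simp only [Matrix.mul_assoc]
      _ = Uᴴ * A.a g * ((U * Uᴴ) * A.a h) * U := by rw [h2]
      _ = _ := by simp only [Matrix.mul_assoc]
  star := fun g => by
    rw [conjTranspose_mul, conjTranspose_mul, conjTranspose_conjTranspose, A.star,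
      Matrix.mul_assoc]

end homs

section incl

variable {X Y : Type} [Fintype X] [DecidableEq X] [Fintype Y] [DecidableEq Y]

/-- inclusion matrix -/
def inclM (ι : X ↪ Y) : Matrix Y X ℂ := (1 : Matrix Y Y ℂ).submatrix id ι

omit [Fintype X] in
lemma inclM_iso (ι : X ↪ Y) : (inclM ι)ᴴ * inclM ι = 1 := by
  ext i j
  rw [mul_apply, Finset.sum_eq_single (ι i)]
  · unfold inclM
    simp [one_apply, Matrix.submatrix_apply]
  · intro y _ hy
    unfold inclM
    simp [one_apply, hy]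
  · intro h
    exact absurd (Finset.mem_univ _) h

omit [Fintype X] [DecidableEq X] in
lemma inclM_compr (ι : X ↪ Y) (M : Matrix Y Y ℂ) : (inclM ι)ᴴ * (M * inclM ι) =
    M.submatrix ι ι := by
  ext i j
  rw [mul_apply, Finset.sum_eq_single (ι i)]
  · rw [mul_apply, Finset.sum_eq_single (ι j)]
    · unfold inclM
      simp [one_apply, Matrix.submatrix_apply]
    · intro y _ hy
      unfold inclM
      simp [one_apply, hy]
    · intro h
      exact absurd (Finset.mem_univ _) h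
  · intro y _ hy
    unfold inclM
    simp [one_apply, hy]
  · intro h
    exact absurd (Finset.mem_univ _) h

end incl

lemma hsSq_add_le' {X Y : Type} [Fintype X] [Fintype Y] (t : ℝ) (ht : 0 < t)
    (M N : Matrix X Y ℂ) : hsSq (M + N) ≤ (1 + t) * hsSq M + (1 + 1 / t) * hsSq N := by
  unfold hsSq
  rw [Finset.mul_sum, Finset.mul_sum, ← Finset.sum_add_distrib]
  apply Finset.sum_le_sum
  intro i _
  rw [Finset.mul_sum, Finset.mul_sum, ← Finset.sum_add_distrib]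
  apply Finset.sum_le_sum
  intro j _
  rw [Matrix.add_apply]
  have h1 := norm_add_le (M i j) (N i j)
  have h2 := norm_nonneg (M i j + N i j)
  have h3 : 2 * ‖M i j‖ * ‖N i j‖ ≤ t * ‖M i j‖ ^ 2 + 1 / t * ‖N i j‖ ^ 2 := by
    have h4 : 0 ≤ (t * ‖M i j‖ - ‖N i j‖) ^ 2 / t := by positivity
    have h5 : (t * ‖M i j‖ - ‖N i j‖) ^ 2 / t =
        t * ‖M i j‖ ^ 2 + 1 / t * ‖N i j‖ ^ 2 - 2 * ‖M i j‖ * ‖N i j‖ := by
      field_simp
      ring
    linarith
  nlinarith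

lemma hsSq_unitary {X : Type} [Fintype X] [DecidableEq X] (U : Matrix X X ℂ) (hU : Uᴴ * U = 1) :
    hsSq U = Fintype.card X := by
  have h1 := hsSq_eq_trace U
  rw [hU, trace_one] at h1
  exact_mod_cast h1

lemma hsSq_isometry {X Y : Type} [Fintype X] [DecidableEq X] [Fintype Y] (J : Matrix Y X ℂ)
    (hJ : Jᴴ * J = 1) : hsSq J = Fintype.card X := by
  have h1 := hsSq_eq_trace J
  rw [hJ, trace_one] at h1
  exact_mod_cast h1

/-- comparison of the two defects -/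
lemma defect_le {X Y : Type} [Fintype X] [DecidableEq X] [Fintype Y] [DecidableEq Y]
    (J : Matrix Y X ℂ) (hJ : Jᴴ * J = 1) (Ψ : Matrix Y Y ℂ) (hΨ : Ψᴴ * Ψ = 1)
    (U : Matrix X X ℂ) (hU : Uᴴ * U = 1) (ε : ℝ) (hε : 0 < ε) (hε1 : ε ≤ 1)
    (h : hsSq (U - Jᴴ * (Ψ * J)) ≤ ε ^ 2 * Fintype.card X) :
    hsSq (Ψ * J - J * U) ≤ 4 * ε * Fintype.card X := by
  have hX : (0 : ℝ) ≤ Fintype.card X := Nat.cast_nonneg _
  have hE1 : (J * Jᴴ)ᴴ = J * Jᴴ := by rw [conjTranspose_mul, conjTranspose_conjTranspose]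
  have hE2 : (J * Jᴴ) * (J * Jᴴ) = J * Jᴴ := by
    calc J * Jᴴ * (J * Jᴴ) = J * (Jᴴ * J) * Jᴴ := by simp only [Matrix.mul_assoc]
      _ = _ := by rw [hJ, Matrix.mul_one]
  have h1 := hsSq_proj_add (J * Jᴴ) hE1 hE2 (Ψ * J - J * U)
  have h2 := hsSq_proj_add (J * Jᴴ) hE1 hE2 (Ψ * J)
  have h3 : (1 - J * Jᴴ) * (Ψ * J - J * U) = (1 - J * Jᴴ) * (Ψ * J) := by
    have h4 : (1 - J * Jᴴ) * (J * U) = 0 := by
      rw [← Matrix.mul_assoc, Matrix.sub_mul, Matrix.one_mul, Matrix.mul_assoc J, hJ,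
        Matrix.mul_one, sub_self, Matrix.zero_mul]
    rw [Matrix.mul_sub, h4, sub_zero]
  have h4 : hsSq (J * Jᴴ * (Ψ * J - J * U)) = hsSq (U - Jᴴ * (Ψ * J)) := by
    rw [Matrix.mul_assoc, hsSq_isometry_mul J hJ, Matrix.mul_sub, ← Matrix.mul_assoc Jᴴ J U, hJ,
      Matrix.one_mul, hsSq_sub_comm]
  have h5 : hsSq (J * Jᴴ * (Ψ * J)) = hsSq (Jᴴ * (Ψ * J)) := by
    rw [Matrix.mul_assoc, hsSq_isometry_mul J hJ]
  have h6 : hsSq (Ψ * J) = Fintype.card X := by
    rw [hsSq_isometry_mul Ψ hΨ, hsSq_isometry J hJ]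
  rw [h3, h4] at h1
  rw [h5, h6] at h2
  have h7 := hsSq_add_le' ε hε (Jᴴ * (Ψ * J)) (U - Jᴴ * (Ψ * J))
  rw [add_sub_cancel, hsSq_unitary U hU] at h7
  have h8 : (1 + 1 / ε) * hsSq (U - Jᴴ * (Ψ * J)) ≤ (1 + 1 / ε) * (ε ^ 2 * Fintype.card X) :=
    mul_le_mul_of_nonneg_left h (by positivity)
  have h9 : (1 + 1 / ε) * (ε ^ 2 * Fintype.card X) = (ε ^ 2 + ε) * Fintype.card X := by
    field_simp
  have h10 := hsSq_nonneg ((1 - J * Jᴴ) * (Ψ * J))
  have h11 : ε * hsSq (Jᴴ * (Ψ * J)) ≤ ε * Fintype.card X :=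
    mul_le_mul_of_nonneg_left (by linarith) hε.le
  have h12 : ε ^ 2 * (Fintype.card X : ℝ) ≤ ε * Fintype.card X := by
    apply mul_le_mul_of_nonneg_right _ hX
    nlinarith
  nlinarith

lemma flexHSOn'_of_flexHSStableOn {G S : Type} [Group G] (g : S → G)
    (h : FlexHSStableOn S g) : FlexHSOn' S g := by
  intro ε hε
  set ε₁ : ℝ := min 1 (ε / 4) with hε₁
  have hε₁0 : 0 < ε₁ := lt_min one_pos (by linarith)
  have hε₁1 : ε₁ ≤ 1 := min_le_left _ _
  have hε₁2 : 4 * ε₁ ≤ ε := by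
    have : ε₁ ≤ ε / 4 := min_le_right _ _
    linarith
  obtain ⟨δ, hδ, E, hE, hmain⟩ := h ε₁ hε₁0
  refine ⟨δ ^ 2, by positivity, E, hE, ?_⟩
  intro X _ _ _ φ hφ
  have hX : (0 : ℝ) < Fintype.card X := by exact_mod_cast Fintype.card_pos
  obtain ⟨Y, _, _, ι, ψ, h1, h2⟩ := hmain X φ (by
    intro e he
    unfold hsDist
    rw [Real.sqrt_le_left hδ.le, div_le_iff₀ hX]
    exact hφ e he)
  refine ⟨URep.ofHom ψ, inclM ι, inclM_iso ι, ?_, ?_⟩
  · refine h1.trans ?_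
    apply mul_le_mul_of_nonneg_right _ hX.le
    linarith
  · intro s
    have h3 := h2 s
    unfold hsDist at h3
    rw [Real.sqrt_le_left hε₁0.le, div_le_iff₀ hX, ← inclM_compr] at h3
    have h4 := defect_le (inclM ι) (inclM_iso ι) (ψ (g s) : Matrix Y Y ℂ) (uni_star_mul _)
      (φ (FreeGroup.of s) : Matrix X X ℂ) (uni_star_mul _) ε₁ hε₁0 hε₁1 h3
    refine h4.trans ?_
    exact mul_le_mul_of_nonneg_right hε₁2 hX.le

lemma flexHSStableOn_of_flexHSOn' {G S : Type} [Group G] (g : S → G)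
    (h : FlexHSOn' S g) : FlexHSStableOn S g := by
  intro ε hε
  set ε₁ : ℝ := min ε (ε ^ 2) with hε₁
  have hε₁0 : 0 < ε₁ := lt_min hε (by positivity)
  have hε₁1 : ε₁ ≤ ε := min_le_left _ _
  have hε₁2 : ε₁ ≤ ε ^ 2 := min_le_right _ _
  obtain ⟨δ, hδ, E, hE, hmain⟩ := h ε₁ hε₁0
  refine ⟨Real.sqrt δ, Real.sqrt_pos.2 hδ, E, hE, ?_⟩
  intro X _ _ _ φ hφ
  have hX : (0 : ℝ) < Fintype.card X := by exact_mod_cast Fintype.card_pos
  obtain ⟨A, J, hJ, h1, h2⟩ := hmain X φ (by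
    intro e he
    have h3 := hφ e he
    unfold hsDist at h3
    rw [Real.sqrt_le_sqrt_iff hδ.le, div_le_iff₀ hX] at h3
    exact h3)
  have hE1 : (1 - J * Jᴴ)ᴴ = 1 - J * Jᴴ := by
    rw [conjTranspose_sub, conjTranspose_one, conjTranspose_mul, conjTranspose_conjTranspose]
  have hE2 : (J * Jᴴ) * (J * Jᴴ) = J * Jᴴ := by
    calc J * Jᴴ * (J * Jᴴ) = J * (Jᴴ * J) * Jᴴ := by simp only [Matrix.mul_assoc]
      _ = _ := by rw [hJ, Matrix.mul_one]
  have hE3 : (1 - J * Jᴴ) * (1 - J * Jᴴ) = 1 - J * Jᴴ := by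
    rw [Matrix.sub_mul, Matrix.mul_sub, Matrix.mul_sub, hE2]
    simp
  obtain ⟨Z, _, _, S', hS, hSS⟩ := exists_isometry_of_proj _ hE1 hE3
  have hJS : Jᴴ * S' = 0 := by
    have h3 : Jᴴ * (S' * S'ᴴ) * S' = 0 := by
      rw [hSS, Matrix.mul_sub, Matrix.mul_one, ← Matrix.mul_assoc, hJ, Matrix.one_mul, sub_self,
        Matrix.zero_mul]
    rw [Matrix.mul_assoc, Matrix.mul_assoc, hS, Matrix.mul_one] at h3
    exact h3
  have hSJ : S'ᴴ * J = 0 := by
    have := congrArg conjTranspose hJS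
    rw [conjTranspose_mul, conjTranspose_conjTranspose, conjTranspose_zero] at this
    exact this
  have hU1 : (fromCols J S')ᴴ * fromCols J S' = 1 := by
    rw [conjTranspose_fromCols_eq_fromRows_conjTranspose, fromRows_mul_fromCols, hJ, hJS, hSJ, hS,
      fromBlocks_one]
  have hU2 : fromCols J S' * (fromCols J S')ᴴ = 1 := by
    rw [conjTranspose_fromCols_eq_fromRows_conjTranspose, fromCols_mul_fromRows, hSS]
    abel
  refine ⟨X ⊕ Z, inferInstance, inferInstance, Function.Embedding.inl,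
    (A.conj (fromCols J S') hU1 hU2).toHom, ?_, ?_⟩
  · have h3 : (Fintype.card (X ⊕ Z) : ℂ) = A.dim := by
      rw [← trace_one (n := X ⊕ Z) (R := ℂ), ← hU1, trace_mul_comm, hU2, trace_one]
      rfl
    have h4 : (Fintype.card (X ⊕ Z) : ℝ) = A.dim := by exact_mod_cast h3
    rw [h4]
    refine h1.trans ?_
    apply mul_le_mul_of_nonneg_right _ hX.le
    linarith
  · intro s
    have h3 : ((fromCols J S')ᴴ * A.a (g s) * fromCols J S').submatrix Sum.inl Sum.inl =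
        Jᴴ * (A.a (g s) * J) := by
      rw [conjTranspose_fromCols_eq_fromRows_conjTranspose, fromRows_mul, fromRows_mul_fromCols]
      ext i j
      rw [submatrix_apply, fromBlocks_apply₁₁, Matrix.mul_assoc]
    change hsDist _ (((fromCols J S')ᴴ * A.a (g s) * fromCols J S').submatrix Sum.inl Sum.inl) ≤ ε
    rw [h3]
    unfold hsDist
    rw [Real.sqrt_le_left hε.le, div_le_iff₀ hX, hsSq_sub_comm]
    have h4 : Jᴴ * (A.a (g s) * J) - (φ (FreeGroup.of s) : Matrix X X ℂ) =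
        Jᴴ * (A.a (g s) * J - J * (φ (FreeGroup.of s) : Matrix X X ℂ)) := by
      rw [Matrix.mul_sub, ← Matrix.mul_assoc Jᴴ J, hJ, Matrix.one_mul]
    rw [h4]
    refine (hsSq_coisometry_mul_le J hJ _).trans ((h2 s).trans ?_)
    exact mul_le_mul_of_nonneg_right hε₁2 hX.le

end Pool.Agent.Helper94.HS
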