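import Mathlib
import Pool.Agent.Helper94.StabDefs
import Pool.Agent.Helper94.HS.URep

/-!
Finite-dimensional representations of a finitely generated group kill the finite residual.
-/

namespace Pool.Agent.Helper94.HS

open Matrix

lemma isJacobsonRing_int : IsJacobsonRing ℤ := by
  rw [isJacobsonRing_iff_prime_eq]
  intro P hP
  by_cases h : P = ⊥
  · subst h
    rw [eq_bot_iff]
    intro x hx
    rw [Ideal.mem_jacobson_bot] at hx
    have h1 := hx x
    rw [Int.isUnit_iff] at h1
    rw [Ideal.mem_bot]
    rcases h1 with h1 | h1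
    · have h2 : x * x = 0 := by omega
      exact mul_self_eq_zero.1 h2
    · nlinarith [mul_self_nonneg x]
  · have : P.IsMaximal := hP.isMaximal h
    exact Ideal.jacobson_eq_self_of_isMaximal

lemma finite_of_finiteType_int (K : Type) [Field K] [Algebra.FiniteType ℤ K] : Finite K := by
  have := isJacobsonRing_int
  have hfin : Module.Finite ℤ K := finite_of_finite_type_of_isJacobsonRing ℤ K
  obtain ⟨p, hp⟩ := CharP.exists K
  by_cases h0 : p = 0
  · subst h0
    have : CharZero K := CharP.charP_to_charZero K
    exfalso
    have h1 : IsField ℤ := isField_of_isIntegral_of_isField (R := ℤ) (S := K)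
      (FaithfulSMul.algebraMap_injective ℤ K) (Field.toIsField K)
    exact Int.not_isField h1
  · have hpp : p.Prime := (CharP.char_is_prime_or_zero K p).resolve_right h0
    have : Fact p.Prime := ⟨hpp⟩
    let _ : Algebra (ZMod p) K := ZMod.algebra K p
    have : Module.Finite (ZMod p) K := Module.Finite.of_restrictScalars_finite ℤ (ZMod p) K
    exact Module.finite_of_finite (ZMod p)

/-- Finite-dimensional unitary representations of a finitely generated group kill its finite
residual. -/
theorem malcev {G : Type} [Group G] (hG : Group.FG G) (A : URep G) (g : G) (hg : InRes G g) :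
    A.a g = 1 := by
  classical
  have := isJacobsonRing_int
  obtain ⟨T, hT, hTf⟩ := Group.fg_iff.1 hG
  have : Finite T := hTf
  let S : Set ℂ := Set.range (fun x : T × A.X × A.X => A.a x.1 x.2.1 x.2.2) ∪
    Set.range (fun x : T × A.X × A.X => A.a x.1.1⁻¹ x.2.1 x.2.2)
  have hS : S.Finite := (Set.finite_range _).union (Set.finite_range _)
  let R := Algebra.adjoin ℤ S
  have hR : Algebra.FiniteType ℤ R := Algebra.FiniteType.adjoin_of_finite hS
  have hJ : IsJacobsonRing R := isJacobsonRing_of_finiteType (A := ℤ)
  have hmem : ∀ x : G, ∀ i j, A.a x i j ∈ R := by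
    intro x
    have hx : x ∈ Subgroup.closure T := by
      rw [hT]
      trivial
    induction hx using Subgroup.closure_induction'' with
    | mem x hx =>
      intro i j
      exact Algebra.subset_adjoin (Or.inl ⟨(⟨x, hx⟩, i, j), rfl⟩)
    | inv_mem x hx =>
      intro i j
      exact Algebra.subset_adjoin (Or.inr ⟨(⟨x, hx⟩, i, j), rfl⟩)
    | one =>
      intro i j
      rw [A.one, one_apply]
      split_ifs
      · exact one_mem _
      · exact zero_mem _
    | mul x y _ _ hx hy =>
      intro i j
      rw [A.mul, mul_apply]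
      exact sum_mem (fun k _ => mul_mem (hx i k) (hy k j))
  let ρ : G →* Matrix A.X A.X R :=
    { toFun := fun x => Matrix.of (fun i j => ⟨A.a x i j, hmem x i j⟩)
      map_one' := by
        ext i j
        simp only [of_apply, A.one, one_apply]
        split_ifs <;> rfl
      map_mul' := fun x y => by
        ext i j
        rw [of_apply, mul_apply]
        push_cast
        rw [A.mul, mul_apply]
        rfl }
  have key : ∀ i j, ρ g i j - (1 : Matrix A.X A.X R) i j ∈ Ideal.jacobson (⊥ : Ideal R) := by
    intro i j
    rw [Ideal.jacobson, Ideal.mem_sInf]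
    rintro m ⟨_, hm⟩
    have h0 : Algebra.FiniteType ℤ (R ⧸ m) :=
      Algebra.FiniteType.of_surjective (RingHom.toIntAlgHom (Ideal.Quotient.mk m))
        Ideal.Quotient.mk_surjective
    have : Finite (R ⧸ m) := @finite_of_finiteType_int (R ⧸ m) (Ideal.Quotient.field m) h0
    let F : G →* (Matrix A.X A.X (R ⧸ m))ˣ :=
      MonoidHom.toHomUnits (((Ideal.Quotient.mk m).mapMatrix.toMonoidHom).comp ρ)
    have : Finite (Matrix A.X A.X (R ⧸ m)) := inferInstanceAs (Finite (A.X → A.X → R ⧸ m))
    have h1 := hg _ F
    have h2 : (Ideal.Quotient.mk m).mapMatrix (ρ g) = 1 := by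
      have := congrArg Units.val h1
      exact this
    have h3 := congrFun (congrFun h2 i) j
    rw [← Ideal.Quotient.eq_zero_iff_mem, map_sub, sub_eq_zero]
    rw [RingHom.mapMatrix_apply, Matrix.map_apply] at h3
    rw [h3, one_apply, one_apply]
    split_ifs <;> simp
  have hbot : Ideal.jacobson (⊥ : Ideal R) = ⊥ :=
    isJacobsonRing_iff_prime_eq.1 hJ ⊥ Ideal.isPrime_bot
  ext i j
  have h1 := key i j
  rw [hbot, Ideal.mem_bot, sub_eq_zero] at h1
  have h2 := congrArg Subtype.val h1
  have h3 : (ρ g i j : ℂ) = A.a g i j := rfl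
  rw [h3] at h2
  rw [h2, one_apply, one_apply]
  split_ifs <;> rfl

end Pool.Agent.Helper94.HS
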