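import Mathlib
import Pool.Agent.Helper94.HS.URep

/-!
Subrepresentations, tensor products, regular representations of finite quotients.
-/

namespace Pool.Agent.Helper94.HS

open Matrix Kronecker

variable {G : Type} [Group G]

lemma exists_sub (A : URep G) (E : Matrix A.X A.X ℂ) (hE : Eᴴ = E) (hE2 : E * E = E)
    (hc : ∀ g, A.a g * E = E * A.a g) : ∃ C : URep G, ∀ g, C.chi g = trace (A.a g * E) := by
  obtain ⟨Y, _, _, S, hS, hSS⟩ := exists_isometry_of_proj E hE hE2
  have hSE : Sᴴ * E = Sᴴ := by
    rw [← hSS, ← Matrix.mul_assoc, hS, Matrix.one_mul]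
  refine ⟨⟨Y, fun g => Sᴴ * A.a g * S, ?_, ?_, ?_⟩, ?_⟩
  · rw [A.one, Matrix.mul_one, hS]
  · intro g h
    calc Sᴴ * A.a (g * h) * S = (Sᴴ * E) * A.a g * A.a h * S := by
          rw [A.mul, hSE]
          simp only [Matrix.mul_assoc]
      _ = Sᴴ * (E * A.a g) * A.a h * S := by simp only [Matrix.mul_assoc]
      _ = Sᴴ * (A.a g * (S * Sᴴ)) * A.a h * S := by rw [← hc, hSS]
      _ = _ := by simp only [Matrix.mul_assoc]
  · intro g
    rw [conjTranspose_mul, conjTranspose_mul, conjTranspose_conjTranspose, A.star,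
      Matrix.mul_assoc]
  · intro g
    change trace (Sᴴ * A.a g * S) = _
    rw [Matrix.mul_assoc, trace_mul_comm, Matrix.mul_assoc, hSS]

/-- tensor product -/
@[reducible] def URep.tens (A B : URep G) : URep G where
  X := A.X × B.X
  a := fun g => A.a g ⊗ₖ B.a g
  one := by rw [A.one, B.one, one_kronecker_one]
  mul := fun g h => by rw [A.mul, B.mul, mul_kronecker_mul]
  star := fun g => by rw [conjTranspose_kronecker, A.star, B.star]

lemma URep.chi_tens (A B : URep G) (g : G) : (A.tens B).chi g = A.chi g * B.chi g :=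
  trace_kronecker _ _

/-- regular representation of a finite quotient -/
@[reducible] def URep.reg {Q : Type} [Group Q] [Fintype Q] [DecidableEq Q] (q : G →* Q) : URep G where
  X := Q
  a := fun g => Matrix.of (fun x y => if x = q g * y then 1 else 0)
  one := by
    ext x y
    rw [of_apply, map_one, one_mul, one_apply]
  mul := fun g h => by
    ext x y
    rw [mul_apply]
    simp only [of_apply]
    rw [Finset.sum_eq_single (q h * y)]
    · rw [map_mul, mul_assoc]
      simp
    · intro z _ hz
      rw [if_neg hz, mul_zero]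
    · intro hz
      exact absurd (Finset.mem_univ _) hz
  star := fun g => by
    ext x y
    rw [conjTranspose_apply, of_apply, of_apply, map_inv]
    by_cases h : y = q g * x
    · rw [if_pos h, if_pos (by rw [h, inv_mul_cancel_left])]
      simp
    · rw [if_neg h, if_neg (by
        intro h'
        apply h
        rw [h', mul_inv_cancel_left])]
      simp

lemma URep.chi_reg {Q : Type} [Group Q] [Fintype Q] [DecidableEq Q] (q : G →* Q) (g : G) :
    (URep.reg q).chi g = if q g = 1 then (Fintype.card Q : ℂ) else 0 := by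
  change ∑ x : Q, (Matrix.of (fun x y => if x = q g * y then (1:ℂ) else 0)) x x = _
  simp only [of_apply]
  by_cases h : q g = 1
  · rw [if_pos h]
    simp [h]
  · rw [if_neg h]
    apply Finset.sum_eq_zero
    intro x _
    rw [if_neg]
    intro h'
    exact h (right_eq_mul.1 h')

/-- the complement of `V` in the tensor product of the regular representation and `V` -/
lemma exists_compl {Q : Type} [Group Q] [Fintype Q] [DecidableEq Q] (q : G →* Q) (V : URep G) :
    ∃ C : URep G, ∀ g, V.chi g + C.chi g = (URep.reg q).chi g * V.chi g := by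
  have hQ : (Fintype.card Q : ℂ) ≠ 0 := by
    exact_mod_cast Fintype.card_ne_zero
  let O : Matrix Q Q ℂ := Matrix.of (fun _ _ => (Fintype.card Q : ℂ)⁻¹)
  have hO1 : Oᴴ = O := by
    ext x y
    simp [O]
  have hO2 : O * O = O := by
    ext x y
    rw [mul_apply]
    simp only [O, of_apply, Finset.sum_const, Finset.card_univ, nsmul_eq_mul]
    field_simp
  have hO3 : ∀ g, (URep.reg q).a g * O = O := by
    intro g
    ext x y
    change ∑ z : Q, (Matrix.of (fun x y => if x = q g * y then (1:ℂ) else 0)) x z * O z y = O x y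
    rw [Finset.sum_eq_single ((q g)⁻¹ * x)]
    · simp [O]
    · intro z _ hz
      rw [of_apply, if_neg, zero_mul]
      intro h
      apply hz
      rw [h, inv_mul_cancel_left]
    · intro hz
      exact absurd (Finset.mem_univ _) hz
  have hO4 : ∀ g, O * (URep.reg q).a g = O := by
    intro g
    have h1 := congrArg conjTranspose (hO3 g⁻¹)
    rw [conjTranspose_mul, hO1, (URep.reg q).star, inv_inv] at h1
    exact h1
  have hO5 : trace O = 1 := by
    unfold trace
    simp only [diag_apply, O, of_apply, Finset.sum_const, Finset.card_univ, nsmul_eq_mul]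
    exact mul_inv_cancel₀ hQ
  let T := (URep.reg q).tens V
  have hTa : ∀ g, T.a g = (URep.reg q).a g ⊗ₖ V.a g := fun g => rfl
  let E : Matrix T.X T.X ℂ := O ⊗ₖ (1 : Matrix V.X V.X ℂ)
  have hE1 : Eᴴ = E := by
    change (O ⊗ₖ (1 : Matrix V.X V.X ℂ))ᴴ = O ⊗ₖ (1 : Matrix V.X V.X ℂ)
    rw [conjTranspose_kronecker, hO1, conjTranspose_one]
  have hE2 : E * E = E := by
    change (O ⊗ₖ (1 : Matrix V.X V.X ℂ)) * (O ⊗ₖ (1 : Matrix V.X V.X ℂ)) =
      O ⊗ₖ (1 : Matrix V.X V.X ℂ)
    rw [← mul_kronecker_mul, hO2, Matrix.one_mul]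
  have hTE : ∀ g, T.a g * E = O ⊗ₖ V.a g := by
    intro g
    change ((URep.reg q).a g ⊗ₖ V.a g) * (O ⊗ₖ (1 : Matrix V.X V.X ℂ)) = _
    rw [← mul_kronecker_mul, hO3, Matrix.mul_one]
  have hET : ∀ g, E * T.a g = O ⊗ₖ V.a g := by
    intro g
    change (O ⊗ₖ (1 : Matrix V.X V.X ℂ)) * ((URep.reg q).a g ⊗ₖ V.a g) = _
    rw [← mul_kronecker_mul, hO4, Matrix.one_mul]
  obtain ⟨C, hC⟩ := exists_sub T (1 - E) (by rw [conjTranspose_sub, conjTranspose_one, hE1])
    (by rw [Matrix.sub_mul, Matrix.mul_sub, Matrix.mul_sub, hE2]; simp)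
    (by intro g; rw [Matrix.mul_sub, Matrix.sub_mul, hTE, hET]; simp)
  refine ⟨C, fun g => ?_⟩
  have h1 : trace (T.a g) = (URep.reg q).chi g * V.chi g := URep.chi_tens _ _ g
  have h2 : trace (O ⊗ₖ V.a g) = V.chi g := by
    rw [trace_kronecker, hO5, one_mul]
    rfl
  rw [hC, Matrix.mul_sub, hTE, Matrix.mul_one, trace_sub, h1, h2]
  ring

end Pool.Agent.Helper94.HS
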