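import Mathlib
import Pool.Agent.Helper94.HS.Reps

/-!
Additive invariants with values in the natural numbers which determine the character.
-/

namespace Pool.Agent.Helper94.HS

open Matrix

lemma trace_proj_nat {X : Type} [Fintype X] [DecidableEq X] (E : Matrix X X ℂ) (hE : Eᴴ = E)
    (hE2 : E * E = E) : ∃ m : ℕ, trace E = m ∧ m ≤ Fintype.card X := by
  obtain ⟨Y, _, _, S, hS, hSS⟩ := exists_isometry_of_proj E hE hE2
  refine ⟨Fintype.card Y, ?_, ?_⟩
  · rw [← hSS, trace_mul_comm, hS, trace_one]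
  · have h1 := hsSq_proj_add E hE hE2 (1 : Matrix X X ℂ)
    have h2 : ((hsSq (1 : Matrix X X ℂ) : ℝ) : ℂ) = Fintype.card X := by
      rw [hsSq_proj _ conjTranspose_one (Matrix.one_mul 1), trace_one]
    have h3 : ((hsSq E : ℝ) : ℂ) = Fintype.card Y := by
      rw [hsSq_proj E hE hE2, ← hSS, trace_mul_comm, hS, trace_one]
    have h4 : hsSq (1 : Matrix X X ℂ) = Fintype.card X := by exact_mod_cast h2
    have h5 : hsSq E = Fintype.card Y := by exact_mod_cast h3
    have h6 := hsSq_nonneg ((1 - E) * (1 : Matrix X X ℂ))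
    rw [Matrix.mul_one, h4, h5] at h1
    have h7 : (Fintype.card Y : ℝ) ≤ Fintype.card X := by linarith
    exact_mod_cast h7

lemma avg_pow_proj {X : Type} [Fintype X] [DecidableEq X] (B : Matrix X X ℂ) (hB : Bᴴ * B = 1)
    (n : ℕ) (hn : 0 < n) (hBn : B ^ n = 1) :
    ((n : ℂ)⁻¹ • ∑ i ∈ Finset.range n, B ^ i)ᴴ = (n : ℂ)⁻¹ • ∑ i ∈ Finset.range n, B ^ i ∧
    ((n : ℂ)⁻¹ • ∑ i ∈ Finset.range n, B ^ i) * ((n : ℂ)⁻¹ • ∑ i ∈ Finset.range n, B ^ i) =
      (n : ℂ)⁻¹ • ∑ i ∈ Finset.range n, B ^ i := by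
  have hn0 : (n : ℂ) ≠ 0 := by exact_mod_cast hn.ne'
  set E := (n : ℂ)⁻¹ • ∑ i ∈ Finset.range n, B ^ i with hE
  have h1 : B * ∑ i ∈ Finset.range n, B ^ i = ∑ i ∈ Finset.range n, B ^ i := by
    rw [Finset.mul_sum]
    have h2 : ∑ i ∈ Finset.range n, B * B ^ i = ∑ i ∈ Finset.range n, B ^ (i + 1) := by
      apply Finset.sum_congr rfl
      intro i _
      rw [pow_succ']
    rw [h2]
    have h3 := Finset.sum_range_succ (fun i => B ^ i) n
    have h4 := Finset.sum_range_succ' (fun i => B ^ i) n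
    rw [h3, hBn, pow_zero] at h4
    exact (add_right_cancel h4).symm
  have h2 : B * E = E := by
    rw [hE, Matrix.mul_smul, h1]
  have h3 : ∀ i : ℕ, B ^ i * E = E := by
    intro i
    induction i with
    | zero => rw [pow_zero, Matrix.one_mul]
    | succ i ih => rw [pow_succ, Matrix.mul_assoc, h2, ih]
  have h4 : Bᴴ * E = E := by
    conv_lhs => rw [← h2]
    rw [← Matrix.mul_assoc, hB, Matrix.one_mul]
  have h5 : ∀ i : ℕ, (B ^ i)ᴴ * E = E := by
    intro i
    induction i with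
    | zero => rw [pow_zero, conjTranspose_one, Matrix.one_mul]
    | succ i ih => rw [pow_succ, conjTranspose_mul, Matrix.mul_assoc, ih, h4]
  have h6 : E * E = E := by
    conv_lhs => rw [hE]
    rw [← hE, Matrix.smul_mul, Matrix.sum_mul]
    simp only [h3, Finset.sum_const, Finset.card_range]
    rw [← Nat.cast_smul_eq_nsmul ℂ, smul_smul, inv_mul_cancel₀ hn0, one_smul]
  have h7 : Eᴴ * E = E := by
    have : Eᴴ = (n : ℂ)⁻¹ • ∑ i ∈ Finset.range n, (B ^ i)ᴴ := by
      rw [hE, conjTranspose_smul, conjTranspose_sum]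
      simp
    rw [this, Matrix.smul_mul, Matrix.sum_mul]
    simp only [h5, Finset.sum_const, Finset.card_range]
    rw [← Nat.cast_smul_eq_nsmul ℂ, smul_smul, inv_mul_cancel₀ hn0, one_smul]
  refine ⟨?_, h6⟩
  rw [← h7, conjTranspose_mul, conjTranspose_conjTranspose]

section

variable {H : Type} [Group H] [Fintype H]

omit [Fintype H] in
lemma URep.a_pow (A : URep H) (h : H) (i : ℕ) : A.a (h ^ i) = A.a h ^ i := by
  induction i with
  | zero => rw [pow_zero, pow_zero, A.one]
  | succ i ih => rw [pow_succ, pow_succ, A.mul, ih]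

/-- the order of the roots of unity -/
def ordN (H : Type) [Fintype H] : ℕ := 2 * Fintype.card H

lemma ordN_ge : 2 ≤ ordN H := by
  unfold ordN
  have : 0 < Fintype.card H := Fintype.card_pos
  omega

/-- root of unity -/
noncomputable def rt (H : Type) [Fintype H] : ℂ :=
  Complex.exp (2 * Real.pi * Complex.I / (ordN H : ℂ))

lemma rt_prim : IsPrimitiveRoot (rt H) (ordN H) :=
  Complex.isPrimitiveRoot_exp _ (by have := ordN_ge (H := H); omega)

lemma exists_mult (A : URep H) (h : H) (k : ℕ) : ∃ m : ℕ, m ≤ A.dim ∧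
    (m : ℂ) = (ordN H : ℂ)⁻¹ * ∑ i ∈ Finset.range (ordN H), (rt H ^ k) ^ i * A.chi (h ^ i) := by
  have hn : 0 < ordN H := by have := ordN_ge (H := H); omega
  have hz : ‖rt H ^ k‖ = 1 := by
    rw [norm_pow, rt_prim.norm'_eq_one hn.ne', one_pow]
  have hz2 : star (rt H ^ k) * (rt H ^ k) = 1 := by
    rw [Complex.star_def, Complex.conj_mul', hz]
    norm_num
  have hB : ((rt H ^ k) • A.a h)ᴴ * ((rt H ^ k) • A.a h) = 1 := by
    rw [conjTranspose_smul, Matrix.smul_mul, Matrix.mul_smul, smul_smul, hz2, one_smul, A.star,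
      A.a_inv_mul_a]
  have hBn : ((rt H ^ k) • A.a h) ^ (ordN H) = 1 := by
    rw [smul_pow, ← A.a_pow, ← pow_mul, mul_comm k, pow_mul, rt_prim.pow_eq_one, one_pow, one_smul]
    have : h ^ (ordN H) = 1 := by
      unfold ordN
      rw [mul_comm, pow_mul, pow_card_eq_one, one_pow]
    rw [this, A.one]
  obtain ⟨h1, h2⟩ := avg_pow_proj _ hB _ hn hBn
  obtain ⟨m, hm, hm2⟩ := trace_proj_nat _ h1 h2
  refine ⟨m, hm2, ?_⟩
  rw [← hm, trace_smul, trace_sum, smul_eq_mul]
  congr 1
  apply Finset.sum_congr rfl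
  intro i _
  rw [smul_pow, trace_smul, ← A.a_pow, smul_eq_mul]
  rfl

/-- additive invariants -/
noncomputable def mult (A : URep H) (x : H × Fin (ordN H)) : ℕ := (exists_mult A x.1 x.2).choose

lemma mult_le (A : URep H) (x : H × Fin (ordN H)) : mult A x ≤ A.dim :=
  (exists_mult A x.1 x.2).choose_spec.1

lemma mult_spec (A : URep H) (x : H × Fin (ordN H)) : (mult A x : ℂ) =
    (ordN H : ℂ)⁻¹ * ∑ i ∈ Finset.range (ordN H), (rt H ^ (x.2 : ℕ)) ^ i * A.chi (x.1 ^ i) :=
  (exists_mult A x.1 x.2).choose_spec.2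

lemma mult_add_of_chi (A B C D : URep H) (h : ∀ g, A.chi g + B.chi g = C.chi g + D.chi g)
    (x : H × Fin (ordN H)) : mult A x + mult B x = mult C x + mult D x := by
  have h1 : ((mult A x + mult B x : ℕ) : ℂ) = ((mult C x + mult D x : ℕ) : ℂ) := by
    push_cast
    rw [mult_spec, mult_spec, mult_spec, mult_spec, ← mul_add, ← mul_add,
      ← Finset.sum_add_distrib, ← Finset.sum_add_distrib]
    congr 1
    apply Finset.sum_congr rfl
    intro i _
    rw [← mul_add, ← mul_add, h]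
  exact_mod_cast h1

lemma mult_add (A B : URep H) (x : H × Fin (ordN H)) :
    mult (A.add B) x = mult A x + mult B x := by
  have h1 : ((mult (A.add B) x : ℕ) : ℂ) = ((mult A x + mult B x : ℕ) : ℂ) := by
    push_cast
    rw [mult_spec, mult_spec, mult_spec, ← mul_add, ← Finset.sum_add_distrib]
    congr 1
    apply Finset.sum_congr rfl
    intro i _
    rw [← mul_add, URep.chi_add]
  exact_mod_cast h1

lemma chi_add_of_mult (A B C D : URep H)
    (h : ∀ x, mult A x + mult B x = mult C x + mult D x) (g : H) :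
    A.chi g + B.chi g = C.chi g + D.chi g := by
  have hn : ((ordN H : ℕ) : ℂ) ≠ 0 := by
    have := ordN_ge (H := H)
    have h2 : ordN H ≠ 0 := by omega
    exact_mod_cast h2
  have key : (fun i : Fin (ordN H) => (A.chi (g ^ (i : ℕ)) + B.chi (g ^ (i : ℕ))) -
      (C.chi (g ^ (i : ℕ)) + D.chi (g ^ (i : ℕ)))) = 0 := by
    apply Matrix.eq_zero_of_forall_index_sum_pow_mul_eq_zero
      (f := fun k : Fin (ordN H) => rt H ^ (k : ℕ))
    · intro k k' hkk
      apply Fin.ext
      exact rt_prim.pow_inj k.2 k'.2 hkk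
    · intro k
      have h1 : ((mult A (g, k) + mult B (g, k) : ℕ) : ℂ) =
        ((mult C (g, k) + mult D (g, k) : ℕ) : ℂ) := by rw [h]
      push_cast at h1
      rw [mult_spec, mult_spec, mult_spec, mult_spec, ← mul_add, ← mul_add] at h1
      have h2 := mul_left_cancel₀ (inv_ne_zero hn) h1
      simp only at h2
      rw [← sub_eq_zero, ← Finset.sum_add_distrib, ← Finset.sum_add_distrib,
        ← Finset.sum_sub_distrib, Finset.sum_range] at h2
      rw [← h2]
      apply Finset.sum_congr rfl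
      intro i _
      ring
  have h1 := congrFun key ⟨1, by have := ordN_ge (H := H); omega⟩
  simp only [Pi.zero_apply, pow_one] at h1
  exact sub_eq_zero.1 h1

end

end Pool.Agent.Helper94.HS
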