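import Mathlib
import Pool.Agent.Helper94.HS.Mult
import Pool.Agent.Helper94.HS.Malcev
import Pool.Agent.Helper94.Match

/-!
Matching the restrictions of finite-dimensional unitary representations of two groups to a common
finite subgroup, with a linear bound.
-/

namespace Pool.Agent.Helper94.HS

open Matrix

section two

variable {G₁ G₂ H : Type} [Group G₁] [Group G₂] [Group H] [Fintype H]

omit [Fintype H] in
lemma chi_match_aux {G F : Type} [Group G] [Group F] [Fintype F] [DecidableEq F]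
    (hG : Group.FG G) (i : H →* G) (f : G →* F) (hf : ∀ h : H, f (i h) = 1 ↔ InRes G (i h))
    (A : URep G) (N : ℕ) (hN : A.dim ≤ N) : ∃ B : URep G, ∀ h : H,
      (InRes G (i h) → A.chi (i h) + B.chi (i h) = (Fintype.card F : ℂ) * N) ∧
      (¬ InRes G (i h) → A.chi (i h) + B.chi (i h) = 0) := by
  obtain ⟨C, hC⟩ := exists_compl f A
  refine ⟨C.add ((URep.reg f).tens (URep.triv G (N - A.dim))), fun h => ?_⟩
  have h1 : A.chi (i h) + (C.add ((URep.reg f).tens (URep.triv G (N - A.dim)))).chi (i h) =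
      (URep.reg f).chi (i h) * (A.chi (i h) + ((N - A.dim : ℕ) : ℂ)) := by
    rw [URep.chi_add, URep.chi_tens, URep.chi_triv, ← add_assoc, hC, mul_add]
  rw [h1]
  constructor
  · intro hh
    have h2 : A.a (i h) = 1 := malcev hG A _ hh
    have h3 : A.chi (i h) = A.dim := by
      unfold URep.chi URep.dim
      rw [h2, trace_one]
    rw [URep.chi_reg, if_pos ((hf h).2 hh), h3]
    congr 1
    have h4 : A.dim + (N - A.dim) = N := by omega
    exact_mod_cast h4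
  · intro hh
    rw [URep.chi_reg, if_neg (fun h' => hh ((hf h).1 h')), zero_mul]

/-- Any two representations can be completed to representations with the same restriction. -/
theorem exists_match (hf₁ : Group.FG G₁) (hf₂ : Group.FG G₂) (i₁ : H →* G₁) (i₂ : H →* G₂)
    (hres : ∀ h, InRes G₁ (i₁ h) ↔ InRes G₂ (i₂ h)) (A₁ : URep G₁) (A₂ : URep G₂) :
    ∃ (B₁ : URep G₁) (B₂ : URep G₂), ∀ h : H,
      A₁.chi (i₁ h) + B₁.chi (i₁ h) = A₂.chi (i₂ h) + B₂.chi (i₂ h) := by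
  classical
  obtain ⟨F₁, _, _, f₁, hd₁⟩ := exists_detect i₁
  obtain ⟨F₂, _, _, f₂, hd₂⟩ := exists_detect i₂
  have := Fintype.ofFinite F₁
  have := Fintype.ofFinite F₂
  have p₁ : 0 < Fintype.card F₁ := Fintype.card_pos
  have p₂ : 0 < Fintype.card F₂ := Fintype.card_pos
  obtain ⟨B₁, hB₁⟩ := chi_match_aux hf₁ i₁ f₁ hd₁ A₁ (Fintype.card F₂ * (A₁.dim + A₂.dim))
    (by nlinarith)
  obtain ⟨B₂, hB₂⟩ := chi_match_aux hf₂ i₂ f₂ hd₂ A₂ (Fintype.card F₁ * (A₁.dim + A₂.dim))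
    (by nlinarith)
  refine ⟨B₁, B₂, fun h => ?_⟩
  by_cases hh : InRes G₁ (i₁ h)
  · rw [(hB₁ h).1 hh, (hB₂ h).1 ((hres h).1 hh)]
    push_cast
    ring
  · rw [(hB₁ h).2 hh, (hB₂ h).2 (fun h' => hh ((hres h).2 h'))]

/-- multiplicities of the restriction -/
noncomputable def rm {G : Type} [Group G] (i : H →* G) (A : URep G) : H × Fin (ordN H) → ℕ :=
  mult (A.res i)

lemma rm_add {G : Type} [Group G] (i : H →* G) (A B : URep G) (x : H × Fin (ordN H)) :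
    rm i (A.add B) x = rm i A x + rm i B x :=
  mult_add (A.res i) (B.res i) x

lemma rm_zero {G : Type} [Group G] (i : H →* G) (x : H × Fin (ordN H)) :
    rm i (URep.triv G 0) x = 0 := by
  have h1 := mult_le ((URep.triv G 0).res i) x
  have h2 : ((URep.triv G 0).res i).dim = 0 := URep.dim_triv 0
  unfold rm
  omega

/-- Matching pairs. -/
def mSub (i₁ : H →* G₁) (i₂ : H →* G₂) :
    AddSubmonoid ((H × Fin (ordN H) → ℕ) × (H × Fin (ordN H) → ℕ)) where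
  carrier := {x | ∃ (R₁ : URep G₁) (R₂ : URep G₂), ∀ J,
    x.1 J + rm i₁ R₁ J = x.2 J + rm i₂ R₂ J}
  zero_mem' := ⟨URep.triv G₁ 0, URep.triv G₂ 0, fun J => by simp [rm_zero]⟩
  add_mem' := by
    rintro x y ⟨R₁, R₂, hR⟩ ⟨S₁, S₂, hS⟩
    refine ⟨R₁.add S₁, R₂.add S₂, fun J => ?_⟩
    have h1 := hR J
    have h2 := hS J
    rw [rm_add, rm_add]
    simp only [Prod.fst_add, Prod.snd_add, Pi.add_apply]
    omega

lemma rm_match (hf₁ : Group.FG G₁) (hf₂ : Group.FG G₂) (i₁ : H →* G₁) (i₂ : H →* G₂)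
    (hres : ∀ h, InRes G₁ (i₁ h) ↔ InRes G₂ (i₂ h)) (A₁ : URep G₁) (A₂ : URep G₂) :
    ∃ (B₁ : URep G₁) (B₂ : URep G₂), ∀ J,
      rm i₁ A₁ J + rm i₁ B₁ J = rm i₂ A₂ J + rm i₂ B₂ J := by
  obtain ⟨B₁, B₂, hB⟩ := exists_match hf₁ hf₂ i₁ i₂ hres A₁ A₂
  exact ⟨B₁, B₂, fun J => mult_add_of_chi (A₁.res i₁) (B₁.res i₁) (A₂.res i₂) (B₂.res i₂) hB J⟩

lemma mSub_subtractive (hf₁ : Group.FG G₁) (hf₂ : Group.FG G₂) (i₁ : H →* G₁) (i₂ : H →* G₂)
    (hres : ∀ h, InRes G₁ (i₁ h) ↔ InRes G₂ (i₂ h)) :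
    ∀ x ∈ mSub i₁ i₂, ∀ y, x + y ∈ mSub i₁ i₂ → y ∈ mSub i₁ i₂ := by
  rintro x ⟨R₁, R₂, hR⟩ y ⟨S₁, S₂, hS⟩
  obtain ⟨B₁, B₂, hB⟩ := rm_match hf₁ hf₂ i₁ i₂ hres R₁ R₂
  refine ⟨S₁.add B₁, S₂.add B₂, fun J => ?_⟩
  have h1 := hR J
  have h2 := hS J
  have h3 := hB J
  rw [rm_add, rm_add]
  simp only [Prod.fst_add, Prod.snd_add, Pi.add_apply] at h2
  omega

theorem mSub_fg (hf₁ : Group.FG G₁) (hf₂ : Group.FG G₂) (i₁ : H →* G₁) (i₂ : H →* G₂)
    (hres : ∀ h, InRes G₁ (i₁ h) ↔ InRes G₂ (i₂ h)) : (mSub i₁ i₂).FG :=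
  AddSubmonoid.fg_of_subtractive (mSub_subtractive hf₁ hf₂ i₁ i₂ hres)

/-- Linear bound for matching. -/
theorem exists_bound (hf₁ : Group.FG G₁) (hf₂ : Group.FG G₂) (i₁ : H →* G₁) (i₂ : H →* G₂)
    (hres : ∀ h, InRes G₁ (i₁ h) ↔ InRes G₂ (i₂ h)) :
    ∃ C : ℕ, ∀ x ∈ mSub i₁ i₂, ∃ (R₁ : URep G₁) (R₂ : URep G₂),
      (∀ J, x.1 J + rm i₁ R₁ J = x.2 J + rm i₂ R₂ J) ∧
      R₁.dim + R₂.dim ≤ C * ∑ J, (x.1 J + x.2 J) := by
  classical
  obtain ⟨S, hS⟩ := mSub_fg hf₁ hf₂ i₁ i₂ hres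
  have hmem : ∀ x ∈ S, x ∈ mSub i₁ i₂ := fun x hx => by
    rw [← hS]
    exact AddSubmonoid.subset_closure hx
  have hch : ∀ x : {x // x ∈ S}, ∃ (R₁ : URep G₁) (R₂ : URep G₂),
      ∀ J, x.1.1 J + rm i₁ R₁ J = x.1.2 J + rm i₂ R₂ J := fun x => hmem x.1 x.2
  choose R₁ R₂ hR using hch
  refine ⟨∑ x : {x // x ∈ S}, ((R₁ x).dim + (R₂ x).dim), ?_⟩
  set C := ∑ x : {x // x ∈ S}, ((R₁ x).dim + (R₂ x).dim) with hC
  intro x hx
  rw [← hS] at hx
  induction hx using AddSubmonoid.closure_induction with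
  | mem x hx =>
    by_cases h0 : x = 0
    · refine ⟨URep.triv G₁ 0, URep.triv G₂ 0, fun J => ?_, ?_⟩
      · rw [h0, rm_zero, rm_zero]
        rfl
      · rw [URep.dim_triv, URep.dim_triv]
        exact Nat.zero_le _
    · refine ⟨R₁ ⟨x, hx⟩, R₂ ⟨x, hx⟩, hR ⟨x, hx⟩, ?_⟩
      have h1 : (R₁ ⟨x, hx⟩).dim + (R₂ ⟨x, hx⟩).dim ≤ C := by
        rw [hC]
        exact Finset.single_le_sum (f := fun x : {x // x ∈ S} =>
          ((R₁ x).dim + (R₂ x).dim)) (fun _ _ => Nat.zero_le _)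
          (Finset.mem_univ (⟨x, hx⟩ : {x // x ∈ S}))
      have h2 : 1 ≤ ∑ J, (x.1 J + x.2 J) := by
        by_contra hcon
        apply h0
        have h3 : ∑ J, (x.1 J + x.2 J) = 0 := by omega
        rw [Finset.sum_eq_zero_iff] at h3
        ext J
        · have := h3 J (Finset.mem_univ _)
          simp only [Prod.fst_zero, Pi.zero_apply]
          omega
        · have := h3 J (Finset.mem_univ _)
          simp only [Prod.snd_zero, Pi.zero_apply]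
          omega
      calc _ ≤ C := h1
        _ = C * 1 := (mul_one _).symm
        _ ≤ _ := Nat.mul_le_mul_left _ h2
  | zero =>
    refine ⟨URep.triv G₁ 0, URep.triv G₂ 0, fun J => ?_, ?_⟩
    · rw [rm_zero, rm_zero]
      rfl
    · rw [URep.dim_triv, URep.dim_triv]
      exact Nat.zero_le _
  | add x y _ _ ihx ihy =>
    obtain ⟨A₁, A₂, hA, hAc⟩ := ihx
    obtain ⟨B₁, B₂, hB, hBc⟩ := ihy
    refine ⟨A₁.add B₁, A₂.add B₂, fun J => ?_, ?_⟩
    · have h1 := hA J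
      have h2 := hB J
      rw [rm_add, rm_add]
      simp only [Prod.fst_add, Prod.snd_add, Pi.add_apply]
      omega
    · rw [URep.dim_add, URep.dim_add]
      have e : ∑ J, ((x + y).1 J + (x + y).2 J) =
          ∑ J, (x.1 J + x.2 J) + ∑ J, (y.1 J + y.2 J) := by
        rw [← Finset.sum_add_distrib]
        apply Finset.sum_congr rfl
        intro J _
        simp only [Prod.fst_add, Prod.snd_add, Pi.add_apply]
        omega
      rw [e, mul_add]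
      omega

/-- Linear bound for matching, in terms of complements `Z₁`, `Z₂`. -/
theorem exists_bound' (hf₁ : Group.FG G₁) (hf₂ : Group.FG G₂) (i₁ : H →* G₁) (i₂ : H →* G₂)
    (hres : ∀ h, InRes G₁ (i₁ h) ↔ InRes G₂ (i₂ h)) :
    ∃ C : ℕ, ∀ (A₁ : URep G₁) (A₂ : URep G₂) (Z₁ Z₂ : URep H),
      (∀ h, A₁.chi (i₁ h) + Z₂.chi h = A₂.chi (i₂ h) + Z₁.chi h) →
      ∃ (R₁ : URep G₁) (R₂ : URep G₂),
      (∀ h, A₁.chi (i₁ h) + R₁.chi (i₁ h) = A₂.chi (i₂ h) + R₂.chi (i₂ h)) ∧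
      R₁.dim + R₂.dim ≤ C * (Z₁.dim + Z₂.dim) := by
  classical
  obtain ⟨C, hC⟩ := exists_bound hf₁ hf₂ i₁ i₂ hres
  refine ⟨C * Fintype.card (H × Fin (ordN H)), ?_⟩
  intro A₁ A₂ Z₁ Z₂ hZ
  have hZ' : ∀ J, rm i₁ A₁ J + mult Z₂ J = rm i₂ A₂ J + mult Z₁ J := fun J =>
    mult_add_of_chi (A₁.res i₁) Z₂ (A₂.res i₂) Z₁ hZ J
  obtain ⟨B₁, B₂, hB⟩ := rm_match hf₁ hf₂ i₁ i₂ hres A₁ A₂
  obtain ⟨R₁, R₂, hR, hd⟩ := hC (mult Z₁, mult Z₂) ⟨B₁, B₂, fun J => by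
    have h1 := hZ' J
    have h2 := hB J
    simp only
    omega⟩
  refine ⟨R₁, R₂, ?_, ?_⟩
  · intro h
    apply chi_add_of_mult (A₁.res i₁) (R₁.res i₁) (A₂.res i₂) (R₂.res i₂)
    intro J
    have h1 := hZ' J
    have h2 := hR J
    simp only [rm] at h1 h2
    omega
  · refine hd.trans ?_
    rw [mul_assoc]
    apply Nat.mul_le_mul_left
    calc ∑ J, (mult Z₁ J + mult Z₂ J) ≤ ∑ _J : H × Fin (ordN H), (Z₁.dim + Z₂.dim) := by
          apply Finset.sum_le_sum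
          intro J _
          exact add_le_add (mult_le _ _) (mult_le _ _)
      _ = _ := by rw [Finset.sum_const, Finset.card_univ, smul_eq_mul]

end two

end Pool.Agent.Helper94.HS
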