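import Mathlib
import Pool.Agent.Helper94.HS.Mult

/-!
Extension of partial isometric intertwiners to unitary intertwiners.
-/

namespace Pool.Agent.Helper94.HS

open Matrix

variable {H : Type} [Group H] [Fintype H]

lemma exists_unitary_ext_aux (A B : URep H) (hchi : ∀ h, A.chi h = B.chi h) :
    ∀ (n : ℕ) (W : Matrix B.X A.X ℂ), IsInt A B W → W * (Wᴴ * W) = W →
      trace (1 - Wᴴ * W) = (n : ℂ) →
    ∃ Θ : Matrix B.X A.X ℂ, IsInt A B Θ ∧ Θᴴ * Θ = 1 ∧ Θ * Θᴴ = 1 ∧ Θ * (Wᴴ * W) = W := by
  intro n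
  induction n using Nat.strong_induction_on with
  | _ n ih =>
  intro W hW hWp hn
  set P := Wᴴ * W with hP
  set Q := W * Wᴴ with hQ
  have hP1 : Pᴴ = P := by rw [hP, conjTranspose_mul, conjTranspose_conjTranspose]
  have hQ1 : Qᴴ = Q := by rw [hQ, conjTranspose_mul, conjTranspose_conjTranspose]
  have hP2 : P * P = P := by
    conv_lhs => rw [hP]
    rw [← hP, Matrix.mul_assoc, hWp]
  have hQW : Q * W = W := by rw [hQ, Matrix.mul_assoc, ← hP, hWp]
  have hQ2 : Q * Q = Q := by
    conv_lhs => rw [hQ]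
    rw [← hQ, ← Matrix.mul_assoc, hQW]
  have hE1 : (1 - P)ᴴ = 1 - P := by rw [conjTranspose_sub, conjTranspose_one, hP1]
  have hE2 : (1 - P) * (1 - P) = 1 - P := by
    rw [Matrix.sub_mul, Matrix.mul_sub, Matrix.mul_sub, hP2]
    simp
  have hF1 : (1 - Q)ᴴ = 1 - Q := by rw [conjTranspose_sub, conjTranspose_one, hQ1]
  have hF2 : (1 - Q) * (1 - Q) = 1 - Q := by
    rw [Matrix.sub_mul, Matrix.mul_sub, Matrix.mul_sub, hQ2]
    simp
  have hPc : ∀ h, A.a h * P = P * A.a h := fun h => hW.comm h
  have hQc : ∀ h, B.a h * Q = Q * B.a h := by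
    intro h
    rw [hQ, ← Matrix.mul_assoc, hW, Matrix.mul_assoc, hW.star, ← Matrix.mul_assoc]
  have htr : ∀ h, trace (B.a h * (1 - Q)) = trace (A.a h * (1 - P)) := by
    intro h
    rw [Matrix.mul_sub, Matrix.mul_sub, trace_sub, trace_sub, Matrix.mul_one, Matrix.mul_one]
    have h1 : trace (B.a h) = trace (A.a h) := (hchi h).symm
    have h2 : trace (B.a h * Q) = trace (A.a h * P) := by
      rw [hQ, ← Matrix.mul_assoc, hW, Matrix.mul_assoc, trace_mul_comm, Matrix.mul_assoc]
    rw [h1, h2]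
  by_cases hn0 : n = 0
  · subst hn0
    have h1 : (1 - P) = 0 := by
      apply hsSq_eq_zero
      have h2 := hsSq_proj _ hE1 hE2
      rw [hn] at h2
      exact_mod_cast h2
    have h2 : (1 - Q) = 0 := by
      apply hsSq_eq_zero
      have h3 := hsSq_proj _ hF1 hF2
      have h4 := htr 1
      rw [A.one, B.one, Matrix.one_mul, Matrix.one_mul] at h4
      rw [h4, hn] at h3
      exact_mod_cast h3
    exact ⟨W, hW, (sub_eq_zero.1 h1).symm, (sub_eq_zero.1 h2).symm, hWp⟩
  · obtain ⟨T, hT, hT0, hFT, hTE⟩ := exists_int_ne_zero A B (1 - P) hE2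
      (fun h => by rw [Matrix.mul_sub, Matrix.sub_mul, hPc]; simp) (1 - Q) hF2
      (fun h => by rw [Matrix.mul_sub, Matrix.sub_mul, hQc]; simp) (by
        have h1 : ∀ h, trace (B.a h * (1 - Q)) * trace ((1 - P) * A.a h⁻¹) =
            ((‖trace (A.a h * (1 - P))‖ ^ 2 : ℝ) : ℂ) := by
          intro h
          have h2 : trace ((1 - P) * A.a h⁻¹) = star (trace (A.a h * (1 - P))) := by
            rw [← trace_conjTranspose, conjTranspose_mul, hE1, A.star]
          rw [htr, h2, Complex.star_def, Complex.mul_conj']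
          push_cast
          rfl
        simp only [h1]
        rw [← Complex.ofReal_sum]
        intro h2
        have h3 : ∑ h, ‖trace (A.a h * (1 - P))‖ ^ 2 = 0 := by exact_mod_cast h2
        rw [Finset.sum_eq_zero_iff_of_nonneg (fun h _ => by positivity)] at h3
        have h4 := h3 1 (Finset.mem_univ _)
        rw [A.one, Matrix.one_mul, hn] at h4
        have h5 : ‖(n : ℂ)‖ = 0 := by
          exact pow_eq_zero_iff (two_ne_zero) |>.1 h4
        rw [norm_eq_zero] at h5
        exact hn0 (by exact_mod_cast h5))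
    obtain ⟨V, d, hV, hV', hd, hM, hWW, hWE, hint⟩ := exists_polar_int 0 le_rfl T hT
    set W' := T * fc V d (pth 0) with hW'
    set P' := fc V d (ith 0) with hP'
    have hP'1 : P'ᴴ = P' := fc_conjTranspose _
    have hFW' : (1 - Q) * W' = W' := by rw [hW', ← Matrix.mul_assoc, hFT]
    have hW'E : W' * (1 - P) = W' := by
      have h1 : (1 - P) * fc V d (pth 0) = fc V d (pth 0) * (1 - P) := by
        apply fc_commute hV hV'
        rw [← hM]
        have h2 : (1 - P) * (Tᴴ * T) = Tᴴ * T := by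
          have h3 : (1 - P) * Tᴴ = Tᴴ := by
            have := congrArg conjTranspose hTE
            rw [conjTranspose_mul, hE1] at this
            exact this
          rw [← Matrix.mul_assoc, h3]
        rw [h2, Matrix.mul_assoc, hTE]
      rw [hW', Matrix.mul_assoc, ← h1, ← Matrix.mul_assoc, hTE]
    have hP'E : P' * (1 - P) = P' := by
      rw [← hWW, Matrix.mul_assoc, hW'E]
    have hEP' : (1 - P) * P' = P' := by
      have := congrArg conjTranspose hP'E
      rw [conjTranspose_mul, hE1, hP'1] at this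
      exact this
    have hWE0 : W * (1 - P) = 0 := by
      rw [Matrix.mul_sub, Matrix.mul_one, hWp, sub_self]
    have hFW0 : (1 - Q) * W = 0 := by
      rw [Matrix.sub_mul, Matrix.one_mul, hQW, sub_self]
    have hEP0 : (1 - P) * P = 0 := by
      rw [Matrix.sub_mul, Matrix.one_mul, hP2, sub_self]
    have hWW'0 : Wᴴ * W' = 0 := by
      rw [← hFW', ← Matrix.mul_assoc]
      have := congrArg conjTranspose hFW0
      rw [conjTranspose_mul, hF1, conjTranspose_zero] at this
      rw [this, Matrix.zero_mul]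
    have hW'W0 : W'ᴴ * W = 0 := by
      have := congrArg conjTranspose hWW'0
      rw [conjTranspose_mul, conjTranspose_conjTranspose, conjTranspose_zero] at this
      exact this
    have hW'P : W' * P = 0 := by
      rw [← hW'E, Matrix.mul_assoc, hEP0, Matrix.mul_zero]
    have hP'P : P' * P = 0 := by
      rw [← hP'E, Matrix.mul_assoc, hEP0, Matrix.mul_zero]
    have hWP' : W * P' = 0 := by
      rw [← hEP', ← Matrix.mul_assoc, hWE0, Matrix.zero_mul]
    have h11 : (W + W')ᴴ * (W + W') = P + P' := by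
      rw [conjTranspose_add, Matrix.add_mul, Matrix.mul_add, Matrix.mul_add, hWW'0, hW'W0, hWW,
        ← hP]
      simp
    have h12 : (W + W') * ((W + W')ᴴ * (W + W')) = W + W' := by
      rw [h11, Matrix.add_mul, Matrix.mul_add, Matrix.mul_add, hWp, hWP', hW'P, hWE]
      simp
    have hPP1 : (1 - (P + P'))ᴴ = 1 - (P + P') := by
      rw [conjTranspose_sub, conjTranspose_one, conjTranspose_add, hP1, hP'1]
    have hP'2 : P' * P' = P' := by
      rw [hP', fc_mul hV]
      congr 1
      funext x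
      unfold ith
      split_ifs <;> simp
    have hPP' : P * P' = 0 := by
      have := congrArg conjTranspose hP'P
      rw [conjTranspose_mul, hP1, hP'1, conjTranspose_zero] at this
      exact this
    have hPPP : (P + P') * (P + P') = P + P' := by
      rw [Matrix.add_mul, Matrix.mul_add, Matrix.mul_add, hP2, hPP', hP'P, hP'2]
      simp
    have hPP2 : (1 - (P + P')) * (1 - (P + P')) = 1 - (P + P') := by
      rw [Matrix.sub_mul, Matrix.mul_sub, Matrix.mul_sub, hPPP]
      simp
    obtain ⟨n₁, hn₁, _⟩ := trace_proj_nat _ hPP1 hPP2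
    obtain ⟨m, hm, _⟩ := trace_proj_nat _ hP'1 hP'2
    have hsum : n₁ + m = n := by
      have h1 : ((n₁ + m : ℕ) : ℂ) = (n : ℂ) := by
        push_cast
        rw [← hn₁, ← hm, ← hn, ← trace_add]
        congr 1
        abel
      exact_mod_cast h1
    have hm0 : m ≠ 0 := by
      intro hm0
      apply hT0
      apply hsSq_eq_zero
      have h1 := trace_fc (d := d) hV (ith 0)
      rw [← hP', hm, hm0] at h1
      have h2 : ∑ i, ith 0 (d i) = 0 := by exact_mod_cast h1.symm
      rw [Finset.sum_eq_zero_iff_of_nonneg (fun i _ => by unfold ith; split_ifs <;> norm_num)]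
        at h2
      have h3 : ∀ i, d i = 0 := by
        intro i
        have h4 := h2 i (Finset.mem_univ _)
        unfold ith at h4
        by_contra hcon
        rw [if_pos (lt_of_le_of_ne (hd i) (Ne.symm hcon))] at h4
        exact one_ne_zero h4
      have h5 := hsSq_eq_trace T
      rw [hM, trace_fc hV] at h5
      have h6 : hsSq T = ∑ i, id (d i) := by exact_mod_cast h5
      rw [h6]
      apply Finset.sum_eq_zero
      intro i _
      exact h3 i
    obtain ⟨Θ, hΘ1, hΘ2, hΘ3, hΘ4⟩ := ih n₁ (by omega) (W + W')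
      (fun h => by rw [Matrix.mul_add, Matrix.add_mul, hW, hint]) h12 (by rw [h11]; exact hn₁)
    refine ⟨Θ, hΘ1, hΘ2, hΘ3, ?_⟩
    rw [h11] at hΘ4
    calc Θ * P = Θ * ((P + P') * P) := by rw [Matrix.add_mul, hP2, hP'P, add_zero]
      _ = (W + W') * P := by rw [← Matrix.mul_assoc, hΘ4]
      _ = W := by rw [Matrix.add_mul, hWp, hW'P, add_zero]

/-- Extension of partial isometric intertwiners. -/
theorem exists_unitary_ext (A B : URep H) (hchi : ∀ h, A.chi h = B.chi h)
    (W : Matrix B.X A.X ℂ) (hW : IsInt A B W) (hWp : W * (Wᴴ * W) = W) :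
    ∃ Θ : Matrix B.X A.X ℂ, IsInt A B Θ ∧ Θᴴ * Θ = 1 ∧ Θ * Θᴴ = 1 ∧ Θ * (Wᴴ * W) = W := by
  have h1 : (1 - Wᴴ * W)ᴴ = 1 - Wᴴ * W := by
    rw [conjTranspose_sub, conjTranspose_one, conjTranspose_mul, conjTranspose_conjTranspose]
  have h2 : (Wᴴ * W) * (Wᴴ * W) = Wᴴ * W := by rw [Matrix.mul_assoc, hWp]
  have h3 : (1 - Wᴴ * W) * (1 - Wᴴ * W) = 1 - Wᴴ * W := by
    rw [Matrix.sub_mul, Matrix.mul_sub, Matrix.mul_sub, h2]
    simp
  obtain ⟨n, hn, _⟩ := trace_proj_nat _ h1 h3
  exact exists_unitary_ext_aux A B hchi n W hW hWp hn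

end Pool.Agent.Helper94.HS
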