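import Mathlib
import Pool.Agent.Helper94.HS.Extend

/-!
From approximate intertwiners to partial isometric intertwiners.
-/

namespace Pool.Agent.Helper94.HS

open Matrix

section norms

variable {X Y Z : Type} [Fintype X] [Fintype Y] [Fintype Z]

lemma hsSq_mul_isometry_le [DecidableEq X] [DecidableEq Y] (J : Matrix Y X ℂ) (hJ : Jᴴ * J = 1)
    (M : Matrix Z Y ℂ) : hsSq (M * J) ≤ hsSq M := by
  rw [← hsSq_conjTranspose, conjTranspose_mul, ← hsSq_conjTranspose M]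
  exact hsSq_coisometry_mul_le J hJ _

lemma hsSq_avg_le {ι : Type} [Fintype ι] [Nonempty ι] (M : ι → Matrix X Y ℂ) (c : ℝ)
    (h : ∀ k, hsSq (M k) ≤ c) :
    hsSq ((((Fintype.card ι : ℝ)⁻¹ : ℝ) : ℂ) • ∑ k, M k) ≤ c := by
  have hn : (0 : ℝ) < Fintype.card ι := by exact_mod_cast Fintype.card_pos
  rw [hsSq_smul]
  have h1 : hsSq (∑ k, M k) ≤ Fintype.card ι * (Fintype.card ι * c) := by
    refine (hsSq_sum_le M).trans ?_
    apply mul_le_mul_of_nonneg_left _ hn.le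
    calc ∑ k, hsSq (M k) ≤ ∑ _k : ι, c := Finset.sum_le_sum (fun k _ => h k)
      _ = _ := by rw [Finset.sum_const, Finset.card_univ, nsmul_eq_mul]
  calc _ ≤ ((Fintype.card ι : ℝ)⁻¹) ^ 2 * (Fintype.card ι * (Fintype.card ι * c)) :=
        mul_le_mul_of_nonneg_left h1 (by positivity)
    _ = c := by field_simp

omit [Fintype X] [Fintype Y] in
lemma avg_const {ι : Type} [Fintype ι] [Nonempty ι] (M : Matrix X Y ℂ) :
    (((Fintype.card ι : ℝ)⁻¹ : ℝ) : ℂ) • ∑ _k : ι, M = M := by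
  have hn : ((Fintype.card ι : ℕ) : ℂ) ≠ 0 := by exact_mod_cast Fintype.card_ne_zero
  rw [Finset.sum_const, Finset.card_univ, ← Nat.cast_smul_eq_nsmul ℂ, smul_smul]
  push_cast
  rw [inv_mul_cancel₀ hn, one_smul]

lemma hsSq_fc [DecidableEq X] {V : Matrix X X ℂ} {d : X → ℝ} (hV : Vᴴ * V = 1) (f : ℝ → ℝ) :
    hsSq (fc V d f) = ∑ i, f (d i) ^ 2 := by
  have h1 := hsSq_eq_trace (fc V d f)
  rw [fc_conjTranspose, fc_mul hV, trace_fc hV] at h1
  have h2 : hsSq (fc V d f) = ∑ i, f (d i) * f (d i) := by exact_mod_cast h1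
  rw [h2]
  simp only [sq]

lemma hsSq_mul_fc [DecidableEq X] {V : Matrix X X ℂ} {d : X → ℝ} (hV : Vᴴ * V = 1)
    (T : Matrix Y X ℂ) (hT : Tᴴ * T = fc V d id) (f : ℝ → ℝ) :
    hsSq (T * fc V d f) = ∑ i, d i * f (d i) ^ 2 := by
  have h1 := hsSq_eq_trace (T * fc V d f)
  rw [conjTranspose_mul, fc_conjTranspose] at h1
  have h2 : fc V d f * Tᴴ * (T * fc V d f) = fc V d (fun x => f x * x * f x) := by
    calc fc V d f * Tᴴ * (T * fc V d f) = fc V d f * (Tᴴ * T) * fc V d f := by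
          simp only [Matrix.mul_assoc]
      _ = _ := by
          rw [hT, fc_mul hV, fc_mul hV]
          rfl
  rw [h2, trace_fc hV] at h1
  have h3 : hsSq (T * fc V d f) = ∑ i, f (d i) * d i * f (d i) := by exact_mod_cast h1
  rw [h3]
  apply Finset.sum_congr rfl
  intro i _
  ring

end norms

lemma pth_est (x : ℝ) (hx : 0 ≤ x) : x * (1 - pth (1 / 2) x) ^ 2 ≤ 2 * (1 - x) ^ 2 := by
  unfold pth
  by_cases h : 1 / 2 < x
  · rw [if_pos h]
    have hs : 0 < Real.sqrt x := Real.sqrt_pos.2 (by linarith)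
    have h1 : Real.sqrt x * Real.sqrt x = x := Real.mul_self_sqrt hx
    have h2 : x * (1 - 1 / Real.sqrt x) ^ 2 = (Real.sqrt x - 1) ^ 2 := by
      conv_lhs => rw [← h1]
      rw [Real.sqrt_mul_self hs.le]
      field_simp
    rw [h2]
    have h3 : (1 - x) ^ 2 = (Real.sqrt x - 1) ^ 2 * (Real.sqrt x + 1) ^ 2 := by
      rw [← mul_pow]
      have : (Real.sqrt x - 1) * (Real.sqrt x + 1) = x - 1 := by
        nlinarith
      rw [this]
      ring
    rw [h3]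
    have h4 : 1 ≤ (Real.sqrt x + 1) ^ 2 := by nlinarith
    have h5 : 0 ≤ (Real.sqrt x - 1) ^ 2 := sq_nonneg _
    nlinarith
  · rw [if_neg h]
    nlinarith

lemma ith_est (x : ℝ) : 1 - ith (1 / 2) x ≤ 4 * (1 - x) ^ 2 := by
  unfold ith
  by_cases h : 1 / 2 < x
  · rw [if_pos h]
    nlinarith [sq_nonneg (1 - x)]
  · rw [if_neg h]
    nlinarith

/-- From approximate intertwiners to partial isometric intertwiners. -/
theorem exists_pi_int {H : Type} [Group H] [Fintype H] (A B : URep H) {X : Type} [Fintype X]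
    [DecidableEq X] (J₁ : Matrix A.X X ℂ) (J₂ : Matrix B.X X ℂ) (hJ₁ : J₁ᴴ * J₁ = 1)
    (hJ₂ : J₂ᴴ * J₂ = 1) (η : ℝ)
    (hD : ∀ h, hsSq (B.a h * (J₂ * J₁ᴴ) - (J₂ * J₁ᴴ) * A.a h) ≤ η) :
    ∃ (W : Matrix B.X A.X ℂ) (r : ℕ), IsInt A B W ∧ W * (Wᴴ * W) = W ∧
      trace (1 - Wᴴ * W) = (r : ℂ) ∧
      (r : ℝ) ≤ 4 * (2 * ((A.dim : ℝ) - Fintype.card X) + 8 * η) ∧
      hsSq (W * J₁ - J₂) ≤ 4 * (2 * ((A.dim : ℝ) - Fintype.card X) + 8 * η) + 2 * η := by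
  classical
  set D := J₂ * J₁ᴴ with hDdef
  set T : Matrix B.X A.X ℂ := (((Fintype.card H : ℝ)⁻¹ : ℝ) : ℂ) • ∑ h, B.a h * D * A.a h⁻¹ with hT
  have hTint : IsInt A B T := by
    intro k
    rw [hT, Matrix.mul_smul, Matrix.smul_mul, Matrix.mul_sum, Matrix.sum_mul]
    congr 1
    refine Fintype.sum_equiv (Equiv.mulLeft k) _ _ ?_
    intro h
    simp only [Equiv.coe_mulLeft]
    rw [B.mul, _root_.mul_inv_rev, A.mul]
    calc B.a k * (B.a h * D * A.a h⁻¹)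
        = B.a k * B.a h * D * (A.a h⁻¹ * 1) := by
          simp only [Matrix.mul_assoc, Matrix.mul_one]
      _ = B.a k * B.a h * D * (A.a h⁻¹ * (A.a k⁻¹ * A.a k)) := by
          rw [A.a_inv_mul_a]
      _ = _ := by simp only [Matrix.mul_assoc]
  have hAco : ∀ h, A.a h * (A.a h)ᴴ = 1 := fun h => by rw [A.star, A.a_mul_a_inv]
  have hTD : hsSq (T - D) ≤ η := by
    have h1 : T - D = (((Fintype.card H : ℝ)⁻¹ : ℝ) : ℂ) • ∑ h, (B.a h * D * A.a h⁻¹ - D) := by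
      rw [Finset.sum_sub_distrib, smul_sub, avg_const]
    rw [h1]
    apply hsSq_avg_le
    intro h
    have h2 : B.a h * D * A.a h⁻¹ - D = (B.a h * D - D * A.a h) * A.a h⁻¹ := by
      rw [Matrix.sub_mul, Matrix.mul_assoc D, A.a_mul_a_inv, Matrix.mul_one]
    rw [h2, hsSq_mul_coisometry _ (hAco _)]
    exact hD h
  have hη : 0 ≤ η := (hsSq_nonneg _).trans hTD
  have hDT : hsSq (D - T) ≤ η := by rw [hsSq_sub_comm]; exact hTD
  have hJ₁co : J₁ᴴ * (J₁ᴴ)ᴴ = 1 := by rw [conjTranspose_conjTranspose, hJ₁]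
  -- the defect
  have hβ : hsSq (1 - Tᴴ * T) ≤ 2 * ((A.dim : ℝ) - Fintype.card X) + 8 * η := by
    have h1 : 1 - Tᴴ * T = (1 - Dᴴ * D) + (Dᴴ * (D - T) + (D - T)ᴴ * T) := by
      rw [Matrix.mul_sub, conjTranspose_sub, Matrix.sub_mul]
      abel
    rw [h1]
    have h2 : Dᴴ * D = J₁ * J₁ᴴ := by
      rw [hDdef, conjTranspose_mul, conjTranspose_conjTranspose]
      calc J₁ * J₂ᴴ * (J₂ * J₁ᴴ) = J₁ * (J₂ᴴ * J₂) * J₁ᴴ := by simp only [Matrix.mul_assoc]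
        _ = _ := by rw [hJ₂, Matrix.mul_one]
    have h3 : hsSq (1 - Dᴴ * D) = (A.dim : ℝ) - Fintype.card X := by
      have h4 : (1 - Dᴴ * D)ᴴ = 1 - Dᴴ * D := by
        rw [conjTranspose_sub, conjTranspose_one, conjTranspose_mul, conjTranspose_conjTranspose]
      have h5 : (Dᴴ * D) * (Dᴴ * D) = Dᴴ * D := by
        rw [h2]
        calc J₁ * J₁ᴴ * (J₁ * J₁ᴴ) = J₁ * (J₁ᴴ * J₁) * J₁ᴴ := by simp only [Matrix.mul_assoc]
          _ = _ := by rw [hJ₁, Matrix.mul_one]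
      have h6 : (1 - Dᴴ * D) * (1 - Dᴴ * D) = 1 - Dᴴ * D := by
        rw [Matrix.sub_mul, Matrix.mul_sub, Matrix.mul_sub, h5]
        simp
      have h7 := hsSq_proj _ h4 h6
      rw [trace_sub, trace_one, h2, trace_mul_comm, hJ₁, trace_one, ← h2] at h7
      have h8 : ((hsSq (1 - Dᴴ * D) : ℝ) : ℂ) = (((A.dim : ℝ) - Fintype.card X : ℝ) : ℂ) := by
        rw [h7]
        push_cast
        rfl
      exact_mod_cast h8
    have h4 : hsSq (Dᴴ * (D - T)) ≤ η := by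
      refine le_trans ?_ hDT
      have h5 : Dᴴ * (D - T) = J₁ * (J₂ᴴ * (D - T)) := by
        conv_lhs => rw [hDdef, conjTranspose_mul, conjTranspose_conjTranspose, Matrix.mul_assoc]
      rw [h5, hsSq_isometry_mul J₁ hJ₁]
      exact hsSq_coisometry_mul_le J₂ hJ₂ _
    have h5 : hsSq ((D - T)ᴴ * T) ≤ η := by
      refine le_trans ?_ hDT
      have h6 : (D - T)ᴴ * T = (((Fintype.card H : ℝ)⁻¹ : ℝ) : ℂ) •
          ∑ h, (D - T)ᴴ * (B.a h * D * A.a h⁻¹) := by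
        rw [← Matrix.mul_sum, ← Matrix.mul_smul]
      rw [h6]
      apply hsSq_avg_le
      intro h
      have h7 : (D - T)ᴴ * (B.a h * D * A.a h⁻¹) = ((D - T)ᴴ * B.a h * J₂) * J₁ᴴ * A.a h⁻¹ := by
        calc (D - T)ᴴ * (B.a h * D * A.a h⁻¹)
            = (D - T)ᴴ * (B.a h * (J₂ * J₁ᴴ) * A.a h⁻¹) := rfl
          _ = _ := by simp only [Matrix.mul_assoc]
      rw [h7, hsSq_mul_coisometry _ (hAco _), hsSq_mul_coisometry _ hJ₁co]
      refine (hsSq_mul_isometry_le J₂ hJ₂ _).trans ?_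
      rw [hsSq_mul_coisometry _ (by rw [B.star, B.a_mul_a_inv]), hsSq_conjTranspose]
    have h6 := hsSq_add_le (1 - Dᴴ * D) (Dᴴ * (D - T) + (D - T)ᴴ * T)
    have h7 := hsSq_add_le (Dᴴ * (D - T)) ((D - T)ᴴ * T)
    linarith
  obtain ⟨V, d, hV, hV', hd, hM, hWW, hWE, hint⟩ := exists_polar_int (1 / 2) (by norm_num) T hTint
  set W := T * fc V d (pth (1 / 2)) with hW
  have hβ2 : hsSq (1 - Tᴴ * T) = ∑ i, (1 - d i) ^ 2 := by
    rw [hM, ← fc_one (d := d) hV', fc_sub, hsSq_fc hV]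
    rfl
  rw [hβ2] at hβ
  have hP1 : (Wᴴ * W)ᴴ = Wᴴ * W := by
    rw [conjTranspose_mul, conjTranspose_conjTranspose]
  have hP2 : W * (Wᴴ * W) = W := by rw [hWW, hWE]
  have hP3 : (Wᴴ * W) * (Wᴴ * W) = Wᴴ * W := by rw [Matrix.mul_assoc, hP2]
  obtain ⟨r, hr, _⟩ := trace_proj_nat (1 - Wᴴ * W) (by
    rw [conjTranspose_sub, conjTranspose_one, hP1]) (by
    rw [Matrix.sub_mul, Matrix.mul_sub, Matrix.mul_sub, hP3]; simp)
  refine ⟨W, r, hint, hP2, hr, ?_, ?_⟩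
  · have h1 : trace (1 - Wᴴ * W) = ((∑ i, (1 - ith (1 / 2) (d i)) : ℝ) : ℂ) := by
      rw [hWW, ← fc_one (d := d) hV', fc_sub, trace_fc hV]
    rw [hr] at h1
    have h2 : (r : ℝ) = ∑ i, (1 - ith (1 / 2) (d i)) := by exact_mod_cast h1
    rw [h2]
    calc ∑ i, (1 - ith (1 / 2) (d i)) ≤ ∑ i, 4 * (1 - d i) ^ 2 :=
          Finset.sum_le_sum (fun i _ => ith_est _)
      _ = 4 * ∑ i, (1 - d i) ^ 2 := by rw [Finset.mul_sum]
      _ ≤ _ := by linarith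
  · have h1 : W * J₁ - J₂ = (W - D) * J₁ := by
      rw [Matrix.sub_mul]
      congr 1
      rw [hDdef, Matrix.mul_assoc, hJ₁, Matrix.mul_one]
    rw [h1]
    refine (hsSq_mul_isometry_le J₁ hJ₁ _).trans ?_
    have h2 : W - D = (W - T) + (T - D) := by abel
    rw [h2]
    refine (hsSq_add_le _ _).trans ?_
    have h3 : hsSq (W - T) ≤ 2 * ∑ i, (1 - d i) ^ 2 := by
      have h4 : T - W = T * fc V d (fun x => 1 - pth (1 / 2) x) := by
        rw [← fc_sub, fc_one hV', Matrix.mul_sub, Matrix.mul_one]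
      rw [hsSq_sub_comm, h4, hsSq_mul_fc hV T hM, Finset.mul_sum]
      exact Finset.sum_le_sum (fun i _ => pth_est _ (hd i))
    linarith

end Pool.Agent.Helper94.HS
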