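import Mathlib
import Pool.Agent.Helper94.HS.Est
import Pool.Agent.Helper94.HS.Bound

/-!
Gluing almost matching representations of two groups.
-/

namespace Pool.Agent.Helper94.HS

open Matrix

lemma hsSq_fromRows {X Y Z : Type} [Fintype X] [Fintype Y] [Fintype Z] (M : Matrix X Z ℂ)
    (N : Matrix Y Z ℂ) : hsSq (fromRows M N) = hsSq M + hsSq N := by
  unfold hsSq
  rw [Fintype.sum_sum_type]
  rfl

section two

variable {G₁ G₂ H : Type} [Group G₁] [Group G₂] [Group H] [Fintype H]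

/-- Core gluing statement with a linear bound. -/
theorem exists_core (hf₁ : Group.FG G₁) (hf₂ : Group.FG G₂) (i₁ : H →* G₁) (i₂ : H →* G₂)
    (hres : ∀ h, InRes G₁ (i₁ h) ↔ InRes G₂ (i₂ h)) :
    ∃ C : ℕ, ∀ (A₁ : URep G₁) (A₂ : URep G₂) (X : Type) [Fintype X] [DecidableEq X]
      (J₁ : Matrix A₁.X X ℂ) (J₂ : Matrix A₂.X X ℂ) (_ : J₁ᴴ * J₁ = 1) (_ : J₂ᴴ * J₂ = 1)
      (κ : ℝ) (_ : (A₁.dim : ℝ) - Fintype.card X ≤ κ) (_ : (A₂.dim : ℝ) - Fintype.card X ≤ κ)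
      (_ : ∀ h, hsSq (A₂.a (i₂ h) * (J₂ * J₁ᴴ) - (J₂ * J₁ᴴ) * A₁.a (i₁ h)) ≤ κ),
      ∃ (R₁ : URep G₁) (R₂ : URep G₂) (Θ : Matrix (A₂.X ⊕ R₂.X) (A₁.X ⊕ R₁.X) ℂ),
        Θᴴ * Θ = 1 ∧ Θ * Θᴴ = 1 ∧
        (∀ h, fromBlocks (A₂.a (i₂ h)) 0 0 (R₂.a (i₂ h)) * Θ =
          Θ * fromBlocks (A₁.a (i₁ h)) 0 0 (R₁.a (i₁ h))) ∧
        (R₁.dim : ℝ) ≤ C * κ ∧
        hsSq (Θ * fromRows J₁ (0 : Matrix R₁.X X ℂ) - fromRows J₂ (0 : Matrix R₂.X X ℂ)) ≤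
          164 * κ := by
  classical
  obtain ⟨C, hC⟩ := exists_bound' hf₁ hf₂ i₁ i₂ hres
  refine ⟨C * 82, ?_⟩
  intro A₁ A₂ X _ _ J₁ J₂ hJ₁ hJ₂ κ hκ₁ hκ₂ hD
  have hκ : 0 ≤ κ := (hsSq_nonneg _).trans (hD 1)
  obtain ⟨W, r, hW, hWp, hr, hr2, hWJ⟩ := exists_pi_int (A₁.res i₁) (A₂.res i₂) J₁ J₂ hJ₁ hJ₂ κ hD
  have hdim₁ : ((A₁.res i₁).dim : ℝ) = A₁.dim := rfl
  rw [hdim₁] at hr2 hWJ
  have hr3 : (r : ℝ) ≤ 40 * κ := by linarith
  have hX₁ : (Fintype.card X : ℝ) ≤ A₁.dim := by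
    have h1 : (hsSq (J₁ * J₁ᴴ) : ℝ) ≤ hsSq (1 : Matrix A₁.X A₁.X ℂ) := by
      have h2 : (J₁ * J₁ᴴ) * (J₁ * J₁ᴴ) = J₁ * J₁ᴴ := by
        calc J₁ * J₁ᴴ * (J₁ * J₁ᴴ) = J₁ * (J₁ᴴ * J₁) * J₁ᴴ := by simp only [Matrix.mul_assoc]
          _ = _ := by rw [hJ₁, Matrix.mul_one]
      have h3 := hsSq_proj_mul_le (J₁ * J₁ᴴ) (by
        rw [conjTranspose_mul, conjTranspose_conjTranspose]) h2 (1 : Matrix A₁.X A₁.X ℂ)
      rwa [Matrix.mul_one] at h3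
    have h2 : hsSq (J₁ * J₁ᴴ) = Fintype.card X := by
      rw [hsSq_isometry_mul J₁ hJ₁]
      have h3 := hsSq_eq_trace (J₁ᴴ)
      rw [conjTranspose_conjTranspose, trace_mul_comm, hJ₁, trace_one] at h3
      exact_mod_cast h3
    have h3 : hsSq (1 : Matrix A₁.X A₁.X ℂ) = A₁.dim := by
      have h4 := hsSq_proj (1 : Matrix A₁.X A₁.X ℂ) conjTranspose_one (Matrix.one_mul 1)
      rw [trace_one] at h4
      exact_mod_cast h4
    rwa [h2, h3] at h1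
  -- projections
  set P := Wᴴ * W with hP
  set Q := W * Wᴴ with hQ
  have hP1 : Pᴴ = P := by rw [hP, conjTranspose_mul, conjTranspose_conjTranspose]
  have hQ1 : Qᴴ = Q := by rw [hQ, conjTranspose_mul, conjTranspose_conjTranspose]
  have hP2 : P * P = P := by
    conv_lhs => rw [hP]
    rw [← hP, Matrix.mul_assoc, hWp]
  have hQW : Q * W = W := by rw [hQ, Matrix.mul_assoc, ← hP, hWp]
  have hQ2 : Q * Q = Q := by
    conv_lhs => rw [hQ]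
    rw [← hQ, ← Matrix.mul_assoc, hQW]
  have hE1 : (1 - P)ᴴ = 1 - P := by rw [conjTranspose_sub, conjTranspose_one, hP1]
  have hE2 : (1 - P) * (1 - P) = 1 - P := by
    rw [Matrix.sub_mul, Matrix.mul_sub, Matrix.mul_sub, hP2]
    simp
  have hF1 : (1 - Q)ᴴ = 1 - Q := by rw [conjTranspose_sub, conjTranspose_one, hQ1]
  have hF2 : (1 - Q) * (1 - Q) = 1 - Q := by
    rw [Matrix.sub_mul, Matrix.mul_sub, Matrix.mul_sub, hQ2]
    simp
  have hPc : ∀ h, (A₁.res i₁).a h * P = P * (A₁.res i₁).a h := fun h => hW.comm h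
  have hQc : ∀ h, (A₂.res i₂).a h * Q = Q * (A₂.res i₂).a h := by
    intro h
    rw [hQ, ← Matrix.mul_assoc, hW, Matrix.mul_assoc, hW.star, ← Matrix.mul_assoc]
  have htrPQ : ∀ h, trace ((A₂.res i₂).a h * Q) = trace ((A₁.res i₁).a h * P) := by
    intro h
    rw [hQ, ← Matrix.mul_assoc, hW, Matrix.mul_assoc, trace_mul_comm, Matrix.mul_assoc]
  obtain ⟨Z₁, hZ₁⟩ := exists_sub (A₁.res i₁) (1 - P) hE1 hE2
    (fun h => by rw [Matrix.mul_sub, Matrix.sub_mul, hPc]; simp)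
  obtain ⟨Z₂, hZ₂⟩ := exists_sub (A₂.res i₂) (1 - Q) hF1 hF2
    (fun h => by rw [Matrix.mul_sub, Matrix.sub_mul, hQc]; simp)
  have hZ : ∀ h, A₁.chi (i₁ h) + Z₂.chi h = A₂.chi (i₂ h) + Z₁.chi h := by
    intro h
    rw [hZ₁, hZ₂, Matrix.mul_sub, Matrix.mul_sub, trace_sub, trace_sub, Matrix.mul_one,
      Matrix.mul_one, htrPQ]
    have h1 : A₁.chi (i₁ h) = trace ((A₁.res i₁).a h) := rfl
    have h2 : A₂.chi (i₂ h) = trace ((A₂.res i₂).a h) := rfl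
    rw [h1, h2]
    ring
  obtain ⟨R₁, R₂, hR, hRd⟩ := hC A₁ A₂ Z₁ Z₂ hZ
  have hZ₁d : (Z₁.dim : ℝ) = r := by
    have h1 := hZ₁ 1
    rw [URep.chi_one, (A₁.res i₁).one, Matrix.one_mul, hr] at h1
    exact_mod_cast h1
  have hZ₂d : (Z₂.dim : ℝ) = A₂.dim - A₁.dim + r := by
    have h1 := hZ 1
    rw [map_one, map_one, URep.chi_one, URep.chi_one, URep.chi_one, URep.chi_one] at h1
    have h2 : (A₁.dim : ℝ) + Z₂.dim = A₂.dim + Z₁.dim := by exact_mod_cast h1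
    linarith
  -- the extension
  set T : Matrix (A₂.X ⊕ R₂.X) (A₁.X ⊕ R₁.X) ℂ := fromBlocks W 0 0 0 with hTdef
  have hTT : Tᴴ * T = fromBlocks P 0 0 0 := by
    rw [hTdef, fromBlocks_conjTranspose, fromBlocks_multiply]
    simp [hP]
  obtain ⟨Θ, hΘint, hΘ1, hΘ2, hΘ3⟩ := exists_unitary_ext ((A₁.add R₁).res i₁) ((A₂.add R₂).res i₂)
    (fun h => by
      have h1 := hR h
      rw [← URep.chi_add, ← URep.chi_add] at h1
      exact h1) T (fun h => by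
      change fromBlocks (A₂.a (i₂ h)) 0 0 (R₂.a (i₂ h)) * fromBlocks W 0 0 0 =
        fromBlocks W 0 0 0 * fromBlocks (A₁.a (i₁ h)) 0 0 (R₁.a (i₁ h))
      rw [fromBlocks_multiply, fromBlocks_multiply]
      have h1 : A₂.a (i₂ h) * W = W * A₁.a (i₁ h) := hW h
      simp [h1]) (by
      rw [hTT, hTdef, fromBlocks_multiply]
      simp [hWp])
  refine ⟨R₁, R₂, Θ, hΘ1, hΘ2, hΘint, ?_, ?_⟩
  · have h1 : (R₁.dim : ℝ) + R₂.dim ≤ C * (Z₁.dim + Z₂.dim) := by exact_mod_cast hRd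
    have h2 : (0 : ℝ) ≤ R₂.dim := Nat.cast_nonneg _
    have h3 : (C : ℝ) * (Z₁.dim + Z₂.dim) ≤ C * (81 * κ) := by
      apply mul_le_mul_of_nonneg_left _ (Nat.cast_nonneg _)
      rw [hZ₁d, hZ₂d]
      linarith
    have h4 : (C : ℝ) * (81 * κ) ≤ C * (82 * κ) := by
      apply mul_le_mul_of_nonneg_left _ (Nat.cast_nonneg _)
      linarith
    push_cast
    linarith
  · have h1 : Θ * fromRows J₁ (0 : Matrix R₁.X X ℂ) - fromRows J₂ (0 : Matrix R₂.X X ℂ) =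
        fromRows (W * J₁ - J₂) (0 : Matrix R₂.X X ℂ) +
          Θ * fromRows ((1 - P) * J₁) (0 : Matrix R₁.X X ℂ) := by
      have h2 : fromRows J₁ (0 : Matrix R₁.X X ℂ) = (Tᴴ * T) * fromRows J₁ (0 : Matrix R₁.X X ℂ) +
          fromRows ((1 - P) * J₁) (0 : Matrix R₁.X X ℂ) := by
        rw [hTT, fromBlocks_mul_fromRows]
        ext i j
        cases i with
        | inl i =>
          simp [Matrix.sub_mul]
        | inr i =>
          simp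
      conv_lhs => rw [h2]
      rw [Matrix.mul_add, ← Matrix.mul_assoc, hΘ3, hTdef, fromBlocks_mul_fromRows]
      have h3 : fromRows (W * J₁ + (0 : Matrix A₂.X R₁.X ℂ) * (0 : Matrix R₁.X X ℂ))
          ((0 : Matrix R₂.X A₁.X ℂ) * J₁ + (0 : Matrix R₂.X R₁.X ℂ) * (0 : Matrix R₁.X X ℂ)) -
          fromRows J₂ (0 : Matrix R₂.X X ℂ) = fromRows (W * J₁ - J₂) (0 : Matrix R₂.X X ℂ) := by
        ext i j
        cases i with
        | inl i => simp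
        | inr i => simp
      rw [← h3]
      abel
    rw [h1]
    refine (hsSq_add_le _ _).trans ?_
    rw [hsSq_isometry_mul Θ hΘ1, hsSq_fromRows, hsSq_fromRows, hsSq_zero, hsSq_zero]
    have h2 : hsSq ((1 - P) * J₁) ≤ r := by
      refine (hsSq_mul_isometry_le J₁ hJ₁ _).trans (le_of_eq ?_)
      have h3 := hsSq_proj _ hE1 hE2
      rw [hr] at h3
      exact_mod_cast h3
    linarith

end two

end Pool.Agent.Helper94.HS
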