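import Mathlib
import Pool.Agent.Helper94.HS.Glue
import Pool.Agent.Helper94.HS.Conv
import Pool.Agent.Helper94.Main

/-!
Flexible Hilbert-Schmidt stability of amalgamated free products over finite groups.
-/

namespace Pool.Agent.Helper94.HS

open Matrix

section

variable {G₁ G₂ H : Type} [Group G₁] [Group G₂] [Group H] [Finite H]

/-- Main estimate. -/
theorem flexHSOn'_amalgam (hf₁ : Group.FG G₁) (hf₂ : Group.FG G₂) (i₁ : H →* G₁) (i₂ : H →* G₂)
    (hres : ∀ h, InRes G₁ (i₁ h) ↔ InRes G₂ (i₂ h)) {S₁ S₂ : Type}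
    (g₁ : S₁ → G₁) (g₂ : S₂ → G₂)
    (hg₁ : Subgroup.closure (Set.range g₁) = ⊤) (hg₂ : Subgroup.closure (Set.range g₂) = ⊤)
    (hw₁ : FlexHSOn' S₁ g₁) (hw₂ : FlexHSOn' S₂ g₂) :
    FlexHSOn' (S₁ ⊕ S₂) (Sum.elim (am₁ i₁ i₂ ∘ g₁) (am₂ i₁ i₂ ∘ g₂)) := by
  classical
  have := Fintype.ofFinite H
  obtain ⟨C, hC⟩ := exists_core hf₁ hf₂ i₁ i₂ hres
  rw [← FreeGroup.lift_surjective_iff_closure_range_eq_top] at hg₁ hg₂
  choose u hu using fun h : H => hg₁ (i₁ h)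
  choose v hv using fun h : H => hg₂ (i₂ h)
  choose L₁ hL₁ using fun h : H => exists_word_bound (u h)
  choose L₂ hL₂ using fun h : H => exists_word_bound (v h)
  let a₁ : FreeGroup S₁ →* FreeGroup (S₁ ⊕ S₂) := FreeGroup.map Sum.inl
  let a₂ : FreeGroup S₂ →* FreeGroup (S₁ ⊕ S₂) := FreeGroup.map Sum.inr
  set g : S₁ ⊕ S₂ → Amalgam i₁ i₂ := Sum.elim (am₁ i₁ i₂ ∘ g₁) (am₂ i₁ i₂ ∘ g₂) with hgdef
  have ha₁ : ∀ w, FreeGroup.lift g (a₁ w) = am₁ i₁ i₂ (FreeGroup.lift g₁ w) := by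
    have : (FreeGroup.lift g).comp a₁ = (am₁ i₁ i₂).comp (FreeGroup.lift g₁) := by
      apply FreeGroup.ext_hom
      intro s
      simp [a₁, hgdef]
    intro w
    exact DFunLike.congr_fun this w
  have ha₂ : ∀ w, FreeGroup.lift g (a₂ w) = am₂ i₁ i₂ (FreeGroup.lift g₂ w) := by
    have : (FreeGroup.lift g).comp a₂ = (am₂ i₁ i₂).comp (FreeGroup.lift g₂) := by
      apply FreeGroup.ext_hom
      intro s
      simp [a₂, hgdef]
    intro w
    exact DFunLike.congr_fun this w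
  intro ε hε
  set L : ℝ := ∑ h : H, ((L₁ h : ℝ) + (L₂ h : ℝ)) with hL
  have hL0 : 0 ≤ L := Finset.sum_nonneg (fun x _ => by positivity)
  have hLh : ∀ h, (L₁ h : ℝ) + (L₂ h : ℝ) ≤ L := fun h =>
    Finset.single_le_sum (f := fun h => ((L₁ h : ℝ) + (L₂ h : ℝ))) (fun y _ => by positivity)
      (Finset.mem_univ h)
  have hC0 : (0 : ℝ) ≤ C := Nat.cast_nonneg _
  set K : ℝ := 4 * L + 4 with hK
  have hK0 : 0 ≤ K := by positivity
  have hK1 : 1 ≤ K := by linarith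
  set M : ℝ := 2 + C * K + 1312 * K with hM
  have hCK : 0 ≤ (C : ℝ) * K := mul_nonneg hC0 hK0
  have hM0 : 0 < M := by positivity
  set ε' : ℝ := ε / M with hε'
  have hε'0 : 0 < ε' := div_pos hε hM0
  have hε'eq : ε' * M = ε := div_mul_cancel₀ _ hM0.ne'
  obtain ⟨δ₁, hδ₁, E₁, hE₁, hmain₁⟩ := hw₁ ε' hε'0
  obtain ⟨δ₂, hδ₂, E₂, hE₂, hmain₂⟩ := hw₂ ε' hε'0
  refine ⟨min ε' (min δ₁ δ₂), lt_min hε'0 (lt_min hδ₁ hδ₂),
    (E₁.image a₁ ∪ E₂.image a₂) ∪ Finset.univ.image (fun h : H => (a₂ (v h))⁻¹ * a₁ (u h)),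
    ?_, ?_⟩
  · intro e he
    rw [Finset.mem_union, Finset.mem_union, Finset.mem_image, Finset.mem_image,
      Finset.mem_image] at he
    rcases he with (⟨e', he', rfl⟩ | ⟨e', he', rfl⟩) | ⟨h, _, rfl⟩
    · rw [ha₁, hE₁ e' he', map_one]
    · rw [ha₂, hE₂ e' he', map_one]
    · rw [map_mul, map_inv, ha₁, ha₂, hu, hv, am_eq, inv_mul_cancel]
  · intro X _ _ _ φ hφ
    have hX : (0 : ℝ) < Fintype.card X := by exact_mod_cast Fintype.card_pos
    set N : ℝ := (Fintype.card X : ℝ) with hN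
    set δ : ℝ := min ε' (min δ₁ δ₂) with hδdef
    have hδε : δ ≤ ε' := min_le_left _ _
    have hδδ₁ : δ ≤ δ₁ := (min_le_right _ _).trans (min_le_left _ _)
    have hδδ₂ : δ ≤ δ₂ := (min_le_right _ _).trans (min_le_right _ _)
    obtain ⟨A₁, J₁, hJ₁, hc₁, hb₁⟩ := hmain₁ X (φ.comp a₁) (by
      intro e he
      refine (hφ (a₁ e) (Finset.mem_union_left _ (Finset.mem_union_left _
        (Finset.mem_image_of_mem _ he)))).trans ?_
      exact mul_le_mul_of_nonneg_right hδδ₁ hX.le)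
    obtain ⟨A₂, J₂, hJ₂, hc₂, hb₂⟩ := hmain₂ X (φ.comp a₂) (by
      intro e he
      refine (hφ (a₂ e) (Finset.mem_union_left _ (Finset.mem_union_right _
        (Finset.mem_image_of_mem _ he)))).trans ?_
      exact mul_le_mul_of_nonneg_right hδδ₂ hX.le)
    have hε'N : 0 ≤ ε' * N := by positivity
    have hKN : ε' * N ≤ K * (ε' * N) := by nlinarith
    have hQ : ∀ h, hsSq (A₂.a (i₂ h) * (J₂ * J₁ᴴ) - (J₂ * J₁ᴴ) * A₁.a (i₁ h)) ≤
        K * (ε' * N) := by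
      intro h
      have b1 := hL₁ h G₁ X g₁ (φ.comp a₁) A₁ J₁ (ε' * N) hb₁ (by positivity)
      have b2 := hL₂ h G₂ X g₂ (φ.comp a₂) A₂ J₂ (ε' * N) hb₂ (by positivity)
      have b3 := hφ ((a₂ (v h))⁻¹ * a₁ (u h)) (Finset.mem_union_right _
        (Finset.mem_image_of_mem _ (Finset.mem_univ h)))
      rw [hu] at b1
      rw [hv] at b2
      set P : Matrix X X ℂ := (φ (a₁ (u h)) : Matrix X X ℂ) with hP
      set Q : Matrix X X ℂ := (φ (a₂ (v h)) : Matrix X X ℂ) with hQ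
      have hPst : Pᴴ * P = 1 := uni_star_mul _
      have hPst' : P * Pᴴ = 1 := uni_mul_star _
      have hQst : Qᴴ * Q = 1 := uni_star_mul _
      have c1 : (((φ.comp a₁) (u h) : Matrix.unitaryGroup X ℂ) : Matrix X X ℂ) = P := rfl
      have c2 : (((φ.comp a₂) (v h) : Matrix.unitaryGroup X ℂ) : Matrix X X ℂ) = Q := rfl
      rw [c1] at b1
      rw [c2] at b2
      have c3 : hsSq (Q - P) ≤ δ * N := by
        have c4 : Q - P = -(Q * ((φ ((a₂ (v h))⁻¹ * a₁ (u h)) : Matrix X X ℂ) - 1)) := by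
          have c5 : Q * (φ ((a₂ (v h))⁻¹ * a₁ (u h)) : Matrix X X ℂ) = P := by
            have c6 : φ (a₂ (v h)) * φ ((a₂ (v h))⁻¹ * a₁ (u h)) = φ (a₁ (u h)) := by
              rw [← map_mul, mul_inv_cancel_left]
            rw [hP, ← c6]
            rfl
          rw [Matrix.mul_sub, c5, Matrix.mul_one]
          abel
        rw [c4, hsSq_neg, hsSq_isometry_mul Q hQst]
        exact b3
      have c7 : A₂.a (i₂ h) * (J₂ * J₁ᴴ) - (J₂ * J₁ᴴ) * A₁.a (i₁ h) =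
          (A₂.a (i₂ h) * J₂ - J₂ * Q) * J₁ᴴ +
          (J₂ * (Q - P) * J₁ᴴ + J₂ * (P * J₁ᴴ - J₁ᴴ * A₁.a (i₁ h))) := by
        rw [Matrix.sub_mul, Matrix.mul_sub, Matrix.sub_mul, Matrix.mul_sub]
        simp only [Matrix.mul_assoc]
        abel
      have c8 : hsSq ((A₂.a (i₂ h) * J₂ - J₂ * Q) * J₁ᴴ) = hsSq (A₂.a (i₂ h) * J₂ - J₂ * Q) := by
        apply hsSq_mul_coisometry
        rw [conjTranspose_conjTranspose, hJ₁]
      have c9 : hsSq (J₂ * (Q - P) * J₁ᴴ) = hsSq (Q - P) := by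
        rw [hsSq_mul_coisometry _ (by rw [conjTranspose_conjTranspose, hJ₁]),
          hsSq_isometry_mul J₂ hJ₂]
      have c10 : hsSq (J₂ * (P * J₁ᴴ - J₁ᴴ * A₁.a (i₁ h))) =
          hsSq (A₁.a (i₁ h) * J₁ - J₁ * P) := by
        rw [hsSq_isometry_mul J₂ hJ₂]
        have c11 : P * J₁ᴴ - J₁ᴴ * A₁.a (i₁ h) =
            P * (A₁.a (i₁ h) * J₁ - J₁ * P)ᴴ * A₁.a (i₁ h) := by
          rw [conjTranspose_sub, conjTranspose_mul, conjTranspose_mul, Matrix.mul_sub,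
            Matrix.sub_mul, ← Matrix.mul_assoc P Pᴴ, hPst', Matrix.one_mul, Matrix.mul_assoc P,
            Matrix.mul_assoc J₁ᴴ, A₁.st_mul, Matrix.mul_one]
        rw [c11, hsSq_mul_coisometry _ (A₁.mul_st _), hsSq_isometry_mul P hPst,
          hsSq_conjTranspose]
      rw [c7]
      have d1 := hsSq_add_le ((A₂.a (i₂ h) * J₂ - J₂ * Q) * J₁ᴴ)
        (J₂ * (Q - P) * J₁ᴴ + J₂ * (P * J₁ᴴ - J₁ᴴ * A₁.a (i₁ h)))
      have d2 := hsSq_add_le (J₂ * (Q - P) * J₁ᴴ) (J₂ * (P * J₁ᴴ - J₁ᴴ * A₁.a (i₁ h)))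
      rw [c8] at d1
      rw [c9, c10] at d2
      have d3 : δ * N ≤ ε' * N := mul_le_mul_of_nonneg_right hδε hX.le
      have d4 : ((L₁ h : ℝ) + (L₂ h : ℝ)) * (ε' * N) ≤ L * (ε' * N) :=
        mul_le_mul_of_nonneg_right (hLh h) hε'N
      have d5 : 0 ≤ (L₂ h : ℝ) * (ε' * N) := by positivity
      have d6 : K * (ε' * N) = 4 * (L * (ε' * N)) + 4 * (ε' * N) := by rw [hK]; ring
      rw [d6]
      linarith
    obtain ⟨R₁, R₂, Θ, hΘ1, hΘ2, hΘint, hRd, hΘJ⟩ := hC A₁ A₂ X J₁ J₂ hJ₁ hJ₂ (K * (ε' * N))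
      (by linarith) (by linarith) hQ
    set Δ := Θ * fromRows J₁ (0 : Matrix R₁.X X ℂ) - fromRows J₂ (0 : Matrix R₂.X X ℂ) with hΔ
    let b₁ : G₁ →* Matrix.unitaryGroup (A₁.X ⊕ R₁.X) ℂ := (A₁.add R₁).toHom
    let b₂ : G₂ →* Matrix.unitaryGroup (A₁.X ⊕ R₁.X) ℂ := ((A₂.add R₂).conj Θ hΘ1 hΘ2).toHom
    have hbb : ∀ h, b₁ (i₁ h) = b₂ (i₂ h) := by
      intro h
      apply Subtype.ext
      change fromBlocks (A₁.a (i₁ h)) 0 0 (R₁.a (i₁ h)) =
        Θᴴ * fromBlocks (A₂.a (i₂ h)) 0 0 (R₂.a (i₂ h)) * Θ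
      rw [Matrix.mul_assoc, hΘint, ← Matrix.mul_assoc, hΘ1, Matrix.one_mul]
    have hJJ : (fromRows J₁ (0 : Matrix R₁.X X ℂ))ᴴ * fromRows J₁ (0 : Matrix R₁.X X ℂ) = 1 := by
      rw [conjTranspose_fromRows_eq_fromCols_conjTranspose, fromCols_mul_fromRows, hJ₁]
      simp
    refine ⟨URep.ofHom (amLift i₁ i₂ b₁ b₂ hbb), fromRows J₁ (0 : Matrix R₁.X X ℂ), hJJ, ?_, ?_⟩
    · have e1 : ((URep.ofHom (amLift i₁ i₂ b₁ b₂ hbb)).dim : ℝ) = A₁.dim + R₁.dim := by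
        have e2 : (URep.ofHom (amLift i₁ i₂ b₁ b₂ hbb)).dim = A₁.dim + R₁.dim :=
          Fintype.card_sum
        exact_mod_cast e2
      rw [e1]
      have e3 : (1 + ε) * N = N + (2 + C * K + 1312 * K) * (ε' * N) := by
        rw [← hM, ← hε'eq]; ring
      rw [e3]
      have e4 : 0 ≤ K * (ε' * N) := by positivity
      have e5 : (C : ℝ) * (K * (ε' * N)) = C * K * (ε' * N) := by ring
      rw [e5] at hRd
      have e6 : (2 + C * K + 1312 * K) * (ε' * N) = 2 * (ε' * N) + C * K * (ε' * N) +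
        1312 * (K * (ε' * N)) := by ring
      rw [e6]
      linarith
    · rintro (s | s)
      · have e1 : hsSq (A₁.a (g₁ s) * J₁ - J₁ * (φ (FreeGroup.of (Sum.inl s)) : Matrix X X ℂ)) ≤
            ε' * N := by
          have := hb₁ s
          have e2 : (φ.comp a₁) (FreeGroup.of s) = φ (FreeGroup.of (Sum.inl s)) := by
            simp [a₁]
          rw [e2] at this
          exact this
        have e3 : hsSq (fromBlocks (A₁.a (g₁ s)) 0 0 (R₁.a (g₁ s)) *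
            fromRows J₁ (0 : Matrix R₁.X X ℂ) - fromRows J₁ (0 : Matrix R₁.X X ℂ) *
            (φ (FreeGroup.of (Sum.inl s)) : Matrix X X ℂ)) =
            hsSq (A₁.a (g₁ s) * J₁ - J₁ * (φ (FreeGroup.of (Sum.inl s)) : Matrix X X ℂ)) := by
          have e4 : fromBlocks (A₁.a (g₁ s)) 0 0 (R₁.a (g₁ s)) *
            fromRows J₁ (0 : Matrix R₁.X X ℂ) - fromRows J₁ (0 : Matrix R₁.X X ℂ) *
            (φ (FreeGroup.of (Sum.inl s)) : Matrix X X ℂ) =
            fromRows (A₁.a (g₁ s) * J₁ - J₁ * (φ (FreeGroup.of (Sum.inl s)) : Matrix X X ℂ))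
            (0 : Matrix R₁.X X ℂ) := by
            rw [fromBlocks_mul_fromRows, fromRows_mul]
            ext i j
            cases i with
            | inl i => simp
            | inr i => simp
          rw [e4, hsSq_fromRows, hsSq_zero, add_zero]
        change hsSq (fromBlocks (A₁.a (g₁ s)) 0 0 (R₁.a (g₁ s)) *
            fromRows J₁ (0 : Matrix R₁.X X ℂ) - fromRows J₁ (0 : Matrix R₁.X X ℂ) *
            (φ (FreeGroup.of (Sum.inl s)) : Matrix X X ℂ)) ≤ ε * N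
        refine (e3.trans_le e1).trans ?_
        have e6 : ε * N = (2 + C * K + 1312 * K) * (ε' * N) := by
          rw [← hM, ← hε'eq]; ring
        have e7 : (2 + C * K + 1312 * K) * (ε' * N) = 2 * (ε' * N) + C * K * (ε' * N) +
          1312 * (K * (ε' * N)) := by ring
        have e8 : 0 ≤ C * K * (ε' * N) := by positivity
        have e9 : 0 ≤ K * (ε' * N) := by positivity
        rw [e6, e7]
        linarith
      · have e1 : hsSq (A₂.a (g₂ s) * J₂ - J₂ * (φ (FreeGroup.of (Sum.inr s)) : Matrix X X ℂ)) ≤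
            ε' * N := by
          have := hb₂ s
          have e2 : (φ.comp a₂) (FreeGroup.of s) = φ (FreeGroup.of (Sum.inr s)) := by
            simp [a₂]
          rw [e2] at this
          exact this
        set U : Matrix X X ℂ := (φ (FreeGroup.of (Sum.inr s)) : Matrix X X ℂ) with hU
        have hU1 : U * Uᴴ = 1 := uni_mul_star _
        set F : Matrix (A₂.X ⊕ R₂.X) (A₂.X ⊕ R₂.X) ℂ :=
          fromBlocks (A₂.a (g₂ s)) 0 0 (R₂.a (g₂ s)) with hF
        have hF1 : Fᴴ * F = 1 := (A₂.add R₂).st_mul (g₂ s)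
        have e3 : hsSq (F * fromRows J₂ (0 : Matrix R₂.X X ℂ) -
            fromRows J₂ (0 : Matrix R₂.X X ℂ) * U) = hsSq (A₂.a (g₂ s) * J₂ - J₂ * U) := by
          have e4 : F * fromRows J₂ (0 : Matrix R₂.X X ℂ) -
            fromRows J₂ (0 : Matrix R₂.X X ℂ) * U =
            fromRows (A₂.a (g₂ s) * J₂ - J₂ * U) (0 : Matrix R₂.X X ℂ) := by
            rw [hF, fromBlocks_mul_fromRows, fromRows_mul]
            ext i j
            cases i with
            | inl i => simp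
            | inr i => simp
          rw [e4, hsSq_fromRows, hsSq_zero, add_zero]
        have e4 : Θᴴ * F * Θ * fromRows J₁ (0 : Matrix R₁.X X ℂ) -
            fromRows J₁ (0 : Matrix R₁.X X ℂ) * U =
            Θᴴ * ((F * fromRows J₂ (0 : Matrix R₂.X X ℂ) -
            fromRows J₂ (0 : Matrix R₂.X X ℂ) * U) + (F * Δ + -(Δ * U))) := by
          have e5 : fromRows J₁ (0 : Matrix R₁.X X ℂ) * U =
              Θᴴ * (Θ * fromRows J₁ (0 : Matrix R₁.X X ℂ) * U) := by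
            rw [Matrix.mul_assoc Θ, ← Matrix.mul_assoc Θᴴ, hΘ1, Matrix.one_mul]
          rw [e5, Matrix.mul_assoc, Matrix.mul_assoc, ← Matrix.mul_sub]
          congr 1
          rw [hΔ, Matrix.mul_sub, Matrix.sub_mul]
          abel
        have hΘc : Θᴴᴴ * Θᴴ = 1 := by rw [conjTranspose_conjTranspose, hΘ2]
        have e6 : hsSq (Θᴴ * F * Θ * fromRows J₁ (0 : Matrix R₁.X X ℂ) -
            fromRows J₁ (0 : Matrix R₁.X X ℂ) * U) ≤ 2 * (ε' * N) + 8 * hsSq Δ := by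
          rw [e4, hsSq_isometry_mul Θᴴ hΘc]
          refine (hsSq_add_le _ _).trans ?_
          rw [e3]
          have e7 := hsSq_add_le (F * Δ) (-(Δ * U))
          rw [hsSq_isometry_mul F hF1, hsSq_neg, hsSq_mul_coisometry U hU1] at e7
          linarith
        change hsSq (Θᴴ * F * Θ * fromRows J₁ (0 : Matrix R₁.X X ℂ) -
            fromRows J₁ (0 : Matrix R₁.X X ℂ) * U) ≤ ε * N
        refine e6.trans ?_
        have e8 : ε * N = (2 + C * K + 1312 * K) * (ε' * N) := by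
          rw [← hM, ← hε'eq]; ring
        have e9 : (2 + C * K + 1312 * K) * (ε' * N) = 2 * (ε' * N) + C * K * (ε' * N) +
          1312 * (K * (ε' * N)) := by ring
        have e10 : 0 ≤ C * K * (ε' * N) := by positivity
        rw [e8, e9]
        linarith

/-- Flexible Hilbert-Schmidt stability passes to amalgamated free products over a finite group
if both factors detect the same elements of the finite group in finite quotients. -/
theorem flexHSStable_amalgam (i₁ : H →* G₁) (i₂ : H →* G₂)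
    (hres : ∀ h, InRes G₁ (i₁ h) ↔ InRes G₂ (i₂ h))
    (h₁ : FlexHSStable G₁) (h₂ : FlexHSStable G₂) : FlexHSStable (Amalgam i₁ i₂) := by
  obtain ⟨hfg₁, h₁⟩ := h₁
  obtain ⟨hfg₂, h₂⟩ := h₂
  obtain ⟨T₁, hT₁, hT₁f⟩ := Group.fg_iff.1 hfg₁
  obtain ⟨T₂, hT₂, hT₂f⟩ := Group.fg_iff.1 hfg₂
  have : Finite T₁ := hT₁f
  have : Finite T₂ := hT₂f
  have hr₁ : Subgroup.closure (Set.range (Subtype.val : T₁ → G₁)) = ⊤ := by
    rw [Subtype.range_coe]
    exact hT₁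
  have hr₂ : Subgroup.closure (Set.range (Subtype.val : T₂ → G₂)) = ⊤ := by
    rw [Subtype.range_coe]
    exact hT₂
  have k₁ := flexHSOn'_of_flexHSStableOn _ (h₁ T₁ Subtype.val hr₁)
  have k₂ := flexHSOn'_of_flexHSStableOn _ (h₂ T₂ Subtype.val hr₂)
  have k := flexHSOn'_amalgam hfg₁ hfg₂ i₁ i₂ hres _ _ hr₁ hr₂ k₁ k₂
  have hcl := closure_am i₁ i₂ (Subtype.val : T₁ → G₁) (Subtype.val : T₂ → G₂) hr₁ hr₂
  refine ⟨?_, ?_⟩
  · rw [Group.fg_iff]
    exact ⟨_, hcl, Set.finite_range _⟩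
  · intro S _ g hg
    exact flexHSStableOn_of_flexHSOn' g (flexHSOn'_indep _ g hcl hg k)

end

end Pool.Agent.Helper94.HS
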