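import Mathlib
import Pool.Agent.Helper94.HS.MainHS

/-!
Hilbert-Schmidt stability implies flexible Hilbert-Schmidt stability.
-/

namespace Pool.Agent.Helper94.HS

open Matrix Filter

lemma hsDist_nonneg {X : Type} [Fintype X] (A B : Matrix X X ℂ) : 0 ≤ hsDist A B :=
  Real.sqrt_nonneg _

lemma hsDist_sq {X : Type} [Fintype X] (A B : Matrix X X ℂ) :
    hsDist A B ^ 2 = hsSq (A - B) / Fintype.card X := by
  unfold hsDist
  rw [Real.sq_sqrt]
  exact div_nonneg (hsSq_nonneg _) (Nat.cast_nonneg _)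

lemma hsSq_uni_sub {X : Type} [Fintype X] [DecidableEq X] (u v : Matrix.unitaryGroup X ℂ) :
    hsSq ((u : Matrix X X ℂ) - (v : Matrix X X ℂ)) =
      hsSq (((v⁻¹ * u : Matrix.unitaryGroup X ℂ) : Matrix X X ℂ) - 1) := by
  have h1 : (u : Matrix X X ℂ) - (v : Matrix X X ℂ) =
      (v : Matrix X X ℂ) * (((v⁻¹ * u : Matrix.unitaryGroup X ℂ) : Matrix X X ℂ) - 1) := by
    have h2 : ((v⁻¹ * u : Matrix.unitaryGroup X ℂ) : Matrix X X ℂ) =
      (v : Matrix X X ℂ)ᴴ * (u : Matrix X X ℂ) := rfl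
    rw [h2, Matrix.mul_sub, ← Matrix.mul_assoc, uni_mul_star, Matrix.one_mul, Matrix.mul_one]
  rw [h1, hsSq_isometry_mul _ (uni_star_mul v)]

theorem flexHSOn'_of_hsStable {G S : Type} [Group G] [Finite S] (g : S → G)
    (hg : Subgroup.closure (Set.range g) = ⊤) (h : HSStable G) : FlexHSOn' S g := by
  classical
  have := Fintype.ofFinite S
  rw [← FreeGroup.lift_surjective_iff_closure_range_eq_top] at hg
  choose σ hσ using hg
  by_contra hcon
  unfold FlexHSOn' at hcon
  push Not at hcon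
  obtain ⟨ε, hε, hcon⟩ := hcon
  have : Countable (FreeGroup S) := by
    have : Countable (List (S × Bool)) := inferInstance
    exact Function.Surjective.countable (f := FreeGroup.mk) (by
      intro x
      exact ⟨x.toWord, FreeGroup.mk_toWord⟩)
  obtain ⟨f, hf⟩ := exists_surjective_nat (FreeGroup S)
  let E : ℕ → Finset (FreeGroup S) := fun n =>
    ((Finset.range (n + 1)).image f).filter (fun e => FreeGroup.lift g e = 1)
  have hE : ∀ n, ∀ e ∈ E n, FreeGroup.lift g e = 1 := fun n e he => (Finset.mem_filter.1 he).2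
  choose X fX dX nX φ hφ hno using fun n : ℕ => hcon (1 / ((n : ℝ) + 1)) (by positivity) (E n)
    (hE n)
  have hcard : ∀ n, (0 : ℝ) < Fintype.card (X n) := fun n => by exact_mod_cast Fintype.card_pos
  have hker : ∀ k : FreeGroup S, FreeGroup.lift g k = 1 →
      Tendsto (fun n => hsSq ((φ n k : Matrix (X n) (X n) ℂ) - 1) / Fintype.card (X n)) atTop
        (nhds 0) := by
    intro k hk
    obtain ⟨j, hj⟩ := hf k
    have h1 : ∀ᶠ n : ℕ in atTop, hsSq ((φ n k : Matrix (X n) (X n) ℂ) - 1) /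
        Fintype.card (X n) ≤ 1 / ((n : ℝ) + 1) := by
      filter_upwards [eventually_ge_atTop j] with n hn
      rw [div_le_iff₀ (hcard n)]
      apply hφ n k
      rw [Finset.mem_filter, Finset.mem_image]
      exact ⟨⟨j, Finset.mem_range.2 (by omega), hj⟩, hk⟩
    refine squeeze_zero' (Eventually.of_forall (fun n => div_nonneg (hsSq_nonneg _)
      (Nat.cast_nonneg _))) h1 ?_
    exact tendsto_one_div_add_atTop_nhds_zero_nat
  obtain ⟨ψ, hψ⟩ := h X (fun n a => φ n (σ a)) (by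
    intro a b
    have h1 : ∀ n, hsDist ((φ n (σ a) : Matrix (X n) (X n) ℂ) * (φ n (σ b) : Matrix (X n) (X n) ℂ))
        (φ n (σ (a * b)) : Matrix (X n) (X n) ℂ) =
        Real.sqrt (hsSq ((φ n ((σ (a * b))⁻¹ * (σ a * σ b)) : Matrix (X n) (X n) ℂ) - 1) /
          Fintype.card (X n)) := by
      intro n
      have h2 := hsSq_uni_sub (φ n (σ a * σ b)) (φ n (σ (a * b)))
      rw [← map_inv, ← map_mul] at h2
      rw [← h2, map_mul]
      rfl
    simp only [h1]
    have h3 := (Real.continuous_sqrt.tendsto 0).comp (hker ((σ (a * b))⁻¹ * (σ a * σ b)) (by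
      rw [map_mul, map_inv, map_mul, hσ, hσ, hσ, inv_mul_cancel]))
    rw [Real.sqrt_zero] at h3
    exact h3)
  have hs : ∀ s : S, Tendsto (fun n => hsSq ((φ n (FreeGroup.of s) : Matrix (X n) (X n) ℂ) -
      (ψ n (g s) : Matrix (X n) (X n) ℂ)) / Fintype.card (X n)) atTop (nhds 0) := by
    intro s
    have h1 : Tendsto (fun n => 2 * (hsSq ((φ n ((σ (g s))⁻¹ * FreeGroup.of s) :
        Matrix (X n) (X n) ℂ) - 1) / Fintype.card (X n)) +
        2 * (hsDist (φ n (σ (g s)) : Matrix (X n) (X n) ℂ) (ψ n (g s))) ^ 2) atTop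
        (nhds (2 * 0 + 2 * 0 ^ 2)) := by
      apply Tendsto.add
      · apply Tendsto.const_mul
        apply hker
        rw [map_mul, map_inv, hσ, FreeGroup.lift_apply_of, inv_mul_cancel]
      · apply Tendsto.const_mul
        apply Tendsto.pow
        exact hψ (g s)
    have h2 : (2 * 0 + 2 * 0 ^ 2 : ℝ) = 0 := by norm_num
    rw [h2] at h1
    refine squeeze_zero (fun n => div_nonneg (hsSq_nonneg _) (Nat.cast_nonneg _))
      (fun n => ?_) h1
    rw [hsDist_sq, ← mul_div_assoc, ← mul_div_assoc, ← add_div]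
    apply div_le_div_of_nonneg_right _ (Nat.cast_nonneg _)
    have h3 : (φ n (FreeGroup.of s) : Matrix (X n) (X n) ℂ) - (ψ n (g s) : Matrix (X n) (X n) ℂ) =
        ((φ n (FreeGroup.of s) : Matrix (X n) (X n) ℂ) - (φ n (σ (g s)) : Matrix (X n) (X n) ℂ)) +
        ((φ n (σ (g s)) : Matrix (X n) (X n) ℂ) - (ψ n (g s) : Matrix (X n) (X n) ℂ)) := by abel
    rw [h3]
    refine (hsSq_add_le _ _).trans (le_of_eq ?_)
    rw [hsSq_uni_sub (φ n (FreeGroup.of s)) (φ n (σ (g s))), ← map_inv, ← map_mul]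
  have hall : ∀ᶠ n in atTop, ∀ s : S, hsSq ((φ n (FreeGroup.of s) : Matrix (X n) (X n) ℂ) -
      (ψ n (g s) : Matrix (X n) (X n) ℂ)) / Fintype.card (X n) < ε := by
    rw [eventually_all]
    intro s
    exact (hs s).eventually (gt_mem_nhds hε)
  obtain ⟨n, hn⟩ := hall.exists
  have hone : (1 : Matrix (X n) (X n) ℂ)ᴴ * 1 = 1 := by rw [conjTranspose_one, Matrix.one_mul]
  obtain ⟨s, hs1⟩ := hno n (URep.ofHom (ψ n)) (1 : Matrix (X n) (X n) ℂ) hone (by
      have h1 : ((URep.ofHom (ψ n)).dim : ℝ) = Fintype.card (X n) := rfl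
      rw [h1]
      have := hcard n
      nlinarith)
  have h1 := hn s
  rw [div_lt_iff₀ (hcard n)] at h1
  have hs2 : ε * (Fintype.card (X n) : ℝ) < hsSq ((ψ n (g s) : Matrix (X n) (X n) ℂ) *
      (1 : Matrix (X n) (X n) ℂ) -
      (1 : Matrix (X n) (X n) ℂ) * (φ n (FreeGroup.of s) : Matrix (X n) (X n) ℂ)) := hs1
  rw [Matrix.mul_one, Matrix.one_mul, hsSq_sub_comm] at hs2
  linarith

theorem flexHSStable_of_hsStable {G : Type} [Group G] (hfg : Group.FG G) (h : HSStable G) :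
    FlexHSStable G :=
  ⟨hfg, fun _ _ g hg => flexHSStableOn_of_flexHSOn' g (flexHSOn'_of_hsStable g hg h)⟩

end Pool.Agent.Helper94.HS
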