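import Mathlib
import Pool.Agent.Helper94.SoficDefs
import Pool.Agent.Helper94.HS.StabHS

/-!
Hyperlinear flexibly Hilbert-Schmidt stable groups are residually finite.
-/

namespace Pool.Agent.Helper94.HS

open Matrix Filter

section

variable {G S : Type} [Group G] (g : S → G) (X : ℕ → Type) [∀ n, Fintype (X n)]
  [∀ n, DecidableEq (X n)]

/-- normalized square of the distance of two unitaries -/
noncomputable def ud {X : Type} [Fintype X] [DecidableEq X] (u v : Matrix.unitaryGroup X ℂ) : ℝ :=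
  hsSq ((u : Matrix X X ℂ) - (v : Matrix X X ℂ)) / Fintype.card X

lemma ud_nonneg {X : Type} [Fintype X] [DecidableEq X] (u v : Matrix.unitaryGroup X ℂ) :
    0 ≤ ud u v := div_nonneg (hsSq_nonneg _) (Nat.cast_nonneg _)

lemma ud_self {X : Type} [Fintype X] [DecidableEq X] (u : Matrix.unitaryGroup X ℂ) :
    ud u u = 0 := by
  unfold ud
  rw [sub_self, hsSq_zero, zero_div]

lemma ud_comm {X : Type} [Fintype X] [DecidableEq X] (u v : Matrix.unitaryGroup X ℂ) :
    ud u v = ud v u := by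
  unfold ud
  rw [hsSq_sub_comm]

lemma ud_triangle {X : Type} [Fintype X] [DecidableEq X] (u v w : Matrix.unitaryGroup X ℂ) :
    ud u w ≤ 2 * ud u v + 2 * ud v w := by
  unfold ud
  rw [← mul_div_assoc, ← mul_div_assoc, ← add_div]
  apply div_le_div_of_nonneg_right _ (Nat.cast_nonneg _)
  have h1 : (u : Matrix X X ℂ) - (w : Matrix X X ℂ) =
      ((u : Matrix X X ℂ) - (v : Matrix X X ℂ)) + ((v : Matrix X X ℂ) - (w : Matrix X X ℂ)) := by
    abel
  rw [h1]
  exact hsSq_add_le _ _

lemma ud_mul_left {X : Type} [Fintype X] [DecidableEq X] (u v w : Matrix.unitaryGroup X ℂ) :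
    ud (w * u) (w * v) = ud u v := by
  unfold ud
  have h1 : ((w * u : Matrix.unitaryGroup X ℂ) : Matrix X X ℂ) -
      ((w * v : Matrix.unitaryGroup X ℂ) : Matrix X X ℂ) =
      (w : Matrix X X ℂ) * ((u : Matrix X X ℂ) - (v : Matrix X X ℂ)) := by
    rw [Matrix.mul_sub]
    rfl
  rw [h1, hsSq_isometry_mul _ (uni_star_mul w)]

lemma ud_mul_right {X : Type} [Fintype X] [DecidableEq X] (u v w : Matrix.unitaryGroup X ℂ) :
    ud (u * w) (v * w) = ud u v := by
  unfold ud
  have h1 : ((u * w : Matrix.unitaryGroup X ℂ) : Matrix X X ℂ) -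
      ((v * w : Matrix.unitaryGroup X ℂ) : Matrix X X ℂ) =
      ((u : Matrix X X ℂ) - (v : Matrix X X ℂ)) * (w : Matrix X X ℂ) := by
    rw [Matrix.sub_mul]
    rfl
  rw [h1, hsSq_mul_coisometry _ (uni_mul_star w)]

variable (φ : ∀ n, G → Matrix.unitaryGroup (X n) ℂ)
  (hφ : ∀ a b : G, Tendsto (fun n => ud (φ n a * φ n b) (φ n (a * b))) atTop (nhds 0))

include hφ

lemma ud_tendsto_one : Tendsto (fun n => ud (φ n 1) 1) atTop (nhds 0) := by
  have h1 := hφ 1 1
  refine h1.congr (fun n => ?_)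
  rw [one_mul]
  have h2 := ud_mul_left (φ n 1) 1 (φ n 1)
  rw [mul_one] at h2
  exact h2

lemma ud_tendsto_inv (a : G) : Tendsto (fun n => ud (φ n a)⁻¹ (φ n a⁻¹)) atTop (nhds 0) := by
  have h1 := ((hφ a a⁻¹).const_mul 2).add ((ud_tendsto_one X φ hφ).const_mul 2)
  rw [mul_zero, add_zero] at h1
  refine squeeze_zero (fun n => ud_nonneg _ _) (fun n => ?_) h1
  rw [← ud_mul_left _ _ (φ n a), mul_inv_cancel, ud_comm]
  have h2 := ud_triangle (φ n a * φ n a⁻¹) (φ n 1) 1
  rw [mul_inv_cancel]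
  exact h2

lemma ud_tendsto_word (w : FreeGroup S) :
    Tendsto (fun n => ud (FreeGroup.lift (fun s => φ n (g s)) w)
      (φ n (FreeGroup.lift g w))) atTop (nhds 0) := by
  induction w using FreeGroup.induction_on with
  | C1 =>
    simp only [map_one]
    refine (ud_tendsto_one X φ hφ).congr (fun n => ?_)
    rw [ud_comm]
  | of s =>
    simp only [FreeGroup.lift_apply_of, ud_self]
    exact tendsto_const_nhds
  | inv_of s _ =>
    simp only [map_inv, FreeGroup.lift_apply_of]
    exact ud_tendsto_inv X φ hφ (g s)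
  | mul v w hv hw =>
    have h1 := (((hv.const_mul 2).add (hw.const_mul 2)).const_mul 2).add
      ((hφ (FreeGroup.lift g v) (FreeGroup.lift g w)).const_mul 2)
    have h0 : (2 * (2 * 0 + 2 * 0) + 2 * 0 : ℝ) = 0 := by norm_num
    rw [h0] at h1
    refine squeeze_zero (fun n => ud_nonneg _ _) (fun n => ?_) h1
    rw [map_mul, map_mul]
    refine (ud_triangle _ (φ n (FreeGroup.lift g v) * φ n (FreeGroup.lift g w)) _).trans ?_
    apply add_le_add_left
    apply mul_le_mul_of_nonneg_left _ (by norm_num)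
    refine (ud_triangle _
      (φ n (FreeGroup.lift g v) * FreeGroup.lift (fun s => φ n (g s)) w) _).trans ?_
    rw [ud_mul_right, ud_mul_left]

end

/-- Hyperlinear flexibly Hilbert-Schmidt stable groups are residually finite. -/
theorem not_inRes_of_hyperlinear {G : Type} [Group G] (hs : IsHyperlinear G)
    (hf : FlexHSStable G) (a : G) (ha : a ≠ 1) : ¬ InRes G a := by
  classical
  intro hres
  obtain ⟨X, fX, dX, nX, φ, hφ', hsep⟩ := hs
  have hφ : ∀ a b : G, Tendsto (fun n => ud (φ n a * φ n b) (φ n (a * b))) atTop (nhds 0) := by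
    intro a b
    have h1 := (hφ' a b).pow 2
    have h2 : (0 : ℝ) ^ 2 = 0 := by norm_num
    rw [h2] at h1
    refine h1.congr (fun n => ?_)
    rw [hsDist_sq]
    rfl
  obtain ⟨hfg, hf⟩ := hf
  obtain ⟨T, hT, hTf⟩ := Group.fg_iff.1 hfg
  have : Finite T := hTf
  have hr : Subgroup.closure (Set.range (Subtype.val : T → G)) = ⊤ := by
    rw [Subtype.range_coe]
    exact hT
  have k := flexHSOn'_of_flexHSStableOn _ (hf T Subtype.val hr)
  rw [← FreeGroup.lift_surjective_iff_closure_range_eq_top] at hr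
  obtain ⟨w, hw⟩ := hr a
  obtain ⟨L, hL⟩ := exists_word_bound w
  obtain ⟨c, hc, hca⟩ := hsep a ha
  set ε : ℝ := c ^ 2 / (8 * (L + 1)) with hε
  have hL1 : (0 : ℝ) < 8 * (L + 1) := by positivity
  have hc2 : 0 < c ^ 2 := by positivity
  have hε0 : 0 < ε := div_pos hc2 hL1
  have hεL : ε * (8 * (L + 1)) = c ^ 2 := div_mul_cancel₀ _ hL1.ne'
  obtain ⟨δ, hδ, E, hE, hmain⟩ := k ε hε0
  have e1 : ∀ᶠ n in atTop, ∀ e ∈ E,
      ud (FreeGroup.lift (fun s : T => φ n (Subtype.val s)) e) 1 < δ := by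
    rw [Finset.eventually_all]
    intro e he
    have h1 := ((ud_tendsto_word (Subtype.val : T → G) X φ hφ e).const_mul 2).add
      ((ud_tendsto_one X φ hφ).const_mul 2)
    rw [mul_zero, add_zero] at h1
    filter_upwards [h1.eventually (gt_mem_nhds hδ)] with n hn
    refine lt_of_le_of_lt ?_ hn
    rw [hE e he]
    exact ud_triangle _ _ _
  have e2 : ∀ᶠ n in atTop, ud (FreeGroup.lift (fun s : T => φ n (Subtype.val s)) w)
      (φ n (FreeGroup.lift (Subtype.val : T → G) w)) < c ^ 2 / 8 :=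
    (ud_tendsto_word (Subtype.val : T → G) X φ hφ w).eventually (gt_mem_nhds (by linarith))
  obtain ⟨n, h1, h2, h3⟩ := (e1.and (e2.and hca)).exists
  have hX : (0 : ℝ) < Fintype.card (X n) := by exact_mod_cast Fintype.card_pos
  have h3' : c ^ 2 ≤ ud (φ n a) 1 := by
    have h4 : ud (φ n a) 1 = hsDist (φ n a : Matrix (X n) (X n) ℂ) 1 ^ 2 := by
      rw [hsDist_sq]
      rfl
    rw [h4]
    exact pow_le_pow_left₀ hc.le h3 2
  obtain ⟨A, J, hJ, _, hb⟩ := hmain (X n) (FreeGroup.lift (fun s : T => φ n (Subtype.val s)))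
    (fun e he => by
      have h4 := (h1 e he).le
      unfold ud at h4
      rw [div_le_iff₀ hX] at h4
      exact h4)
  have h4 := hL G (X n) (Subtype.val : T → G) (FreeGroup.lift (fun s : T => φ n (Subtype.val s)))
    A J (ε * Fintype.card (X n)) hb (by positivity)
  rw [hw, malcev hfg A a hres, Matrix.one_mul] at h4
  set U := FreeGroup.lift (fun s : T => φ n (Subtype.val s)) w with hU
  have h5 : J - J * (U : Matrix (X n) (X n) ℂ) = J * (1 - (U : Matrix (X n) (X n) ℂ)) := by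
    rw [Matrix.mul_sub, Matrix.mul_one]
  rw [h5, hsSq_isometry_mul J hJ, hsSq_sub_comm] at h4
  rw [hw] at h2
  have h6 := ud_triangle (φ n a) U 1
  rw [ud_comm (φ n a) U] at h6
  have h7 : ud U 1 * Fintype.card (X n) = hsSq ((U : Matrix (X n) (X n) ℂ) - 1) := by
    unfold ud
    rw [div_mul_cancel₀ _ hX.ne']
    rfl
  have h8 : 3 / 8 * c ^ 2 ≤ ud U 1 := by
    linarith
  have h9 : 3 / 8 * c ^ 2 * Fintype.card (X n) ≤ L * (ε * Fintype.card (X n)) := by
    rw [← h7] at h4
    exact (mul_le_mul_of_nonneg_right h8 hX.le).trans h4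
  have h10 : (L : ℝ) * (ε * Fintype.card (X n)) ≤ c ^ 2 / 8 * Fintype.card (X n) := by
    rw [← mul_assoc]
    apply mul_le_mul_of_nonneg_right _ hX.le
    have h11 : ε * (8 * (L + 1)) = 8 * (L * ε) + 8 * ε := by ring
    linarith
  have h11 : 3 / 8 * c ^ 2 * Fintype.card (X n) ≤ c ^ 2 / 8 * Fintype.card (X n) := h9.trans h10
  have h12 := le_of_mul_le_mul_right h11 hX
  linarith

end Pool.Agent.Helper94.HS
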