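import Mathlib
import Pool.Agent.Helper94.HS.Det
import Pool.Agent.Helper94.AStab

/-!
Hilbert-Schmidt stability, finite-subset form.
-/

namespace Pool.Agent.Helper94.HS

open Matrix Filter

/-- Hilbert-Schmidt stability, finite-subset form. -/
def AStabHS (G : Type) [Group G] : Prop :=
  ∀ (T : Finset G) (ε : ℝ), 0 < ε → ∃ (T' : Finset G) (δ : ℝ), 0 < δ ∧
    ∀ (X : Type) [Fintype X] [DecidableEq X] [Nonempty X] (φ : G → Matrix.unitaryGroup X ℂ),
      (∀ a ∈ T', ∀ b ∈ T', ud (φ a * φ b) (φ (a * b)) ≤ δ) →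
      ∃ ψ : G →* Matrix.unitaryGroup X ℂ, ∀ t ∈ T, ud (φ t) (ψ t) ≤ ε

lemma hsDist_eq_sqrt_ud {X : Type} [Fintype X] [DecidableEq X] (u v : Matrix.unitaryGroup X ℂ) :
    hsDist (u : Matrix X X ℂ) (v : Matrix X X ℂ) = Real.sqrt (ud u v) := rfl

theorem aStabHS_of_hsStable {G : Type} [Group G] [Countable G] (h : HSStable G) : AStabHS G := by
  classical
  by_contra hcon
  unfold AStabHS at hcon
  push Not at hcon
  obtain ⟨T, ε, hε, hcon⟩ := hcon
  obtain ⟨f, hf⟩ := exists_surjective_nat G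
  let E : ℕ → Finset G := fun n => (Finset.range (n + 1)).image f
  choose X fX dX nX φ hφ hno using fun n : ℕ => hcon (E n) (1 / ((n : ℝ) + 1)) (by positivity)
  obtain ⟨ψ, hψ⟩ := h X φ (by
    intro a b
    obtain ⟨j, hj⟩ := hf a
    obtain ⟨k, hk⟩ := hf b
    have h1 : ∀ᶠ n : ℕ in atTop, ud (φ n a * φ n b) (φ n (a * b)) ≤ 1 / ((n : ℝ) + 1) := by
      filter_upwards [eventually_ge_atTop j, eventually_ge_atTop k] with n hn1 hn2
      apply hφ n
      · exact Finset.mem_image.2 ⟨j, Finset.mem_range.2 (by omega), hj⟩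
      · exact Finset.mem_image.2 ⟨k, Finset.mem_range.2 (by omega), hk⟩
    have h2 : Tendsto (fun n => ud (φ n a * φ n b) (φ n (a * b))) atTop (nhds 0) :=
      squeeze_zero' (Eventually.of_forall (fun n => ud_nonneg _ _)) h1
        tendsto_one_div_add_atTop_nhds_zero_nat
    have h3 := (Real.continuous_sqrt.tendsto 0).comp h2
    rw [Real.sqrt_zero] at h3
    exact h3)
  have hud : ∀ t, Tendsto (fun n => ud (φ n t) (ψ n t)) atTop (nhds 0) := by
    intro t
    have h1 := (hψ t).pow 2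
    have h2 : (0 : ℝ) ^ 2 = 0 := by norm_num
    rw [h2] at h1
    refine h1.congr (fun n => ?_)
    rw [hsDist_sq]
    rfl
  have hall : ∀ᶠ n in atTop, ∀ t ∈ T, ud (φ n t) (ψ n t) < ε := by
    rw [Filter.eventually_all_finset]
    intro t _
    exact (hud t).eventually (gt_mem_nhds hε)
  obtain ⟨n, hn⟩ := hall.exists
  obtain ⟨t, ht, ht2⟩ := hno n (ψ n)
  exact absurd (hn t ht) (not_lt.2 ht2.le)

lemma ud_inv {X : Type} [Fintype X] [DecidableEq X] (u v : Matrix.unitaryGroup X ℂ) :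
    ud u⁻¹ v⁻¹ = ud u v := by
  have h1 := ud_mul_left u⁻¹ v⁻¹ u
  have h2 := ud_mul_right (u * u⁻¹) (u * v⁻¹) v
  rw [← h1, ← h2, mul_inv_cancel, one_mul, mul_assoc, inv_mul_cancel, mul_one, ud_comm]

/-- stability in terms of generators -/
def StrictHSOn {G : Type} [Group G] (S : Type) (g : S → G) : Prop :=
  ∀ ε : ℝ, 0 < ε → ∃ δ : ℝ, 0 < δ ∧ ∃ E : Finset (FreeGroup S),
    (∀ e ∈ E, FreeGroup.lift g e = 1) ∧
    ∀ (X : Type) [Fintype X] [DecidableEq X] [Nonempty X]
      (φ : FreeGroup S →* Matrix.unitaryGroup X ℂ), (∀ e ∈ E, ud (φ e) 1 ≤ δ) →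
      ∃ ψ : G →* Matrix.unitaryGroup X ℂ, ∀ s : S, ud (φ (FreeGroup.of s)) (ψ (g s)) ≤ ε

theorem hsStable_of_strictHSOn {G S : Type} [Group G] [Finite S] (g : S → G)
    (hg : Subgroup.closure (Set.range g) = ⊤) (h : StrictHSOn S g) : HSStable G := by
  classical
  choose δ hδ E hE hmain using fun k : ℕ => h (1 / ((k : ℝ) + 1)) (by positivity)
  intro X _ _ _ φ hφ'
  have hφ : ∀ a b : G, Tendsto (fun n => ud (φ n a * φ n b) (φ n (a * b))) atTop (nhds 0) := by
    intro a b
    have h1 := (hφ' a b).pow 2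
    have h2 : (0 : ℝ) ^ 2 = 0 := by norm_num
    rw [h2] at h1
    refine h1.congr (fun n => ?_)
    rw [hsDist_sq]
    rfl
  -- quality predicate
  let Q : ℕ → ℕ → Prop := fun n k => k ≠ 0 → ∃ ψ : G →* Matrix.unitaryGroup (X n) ℂ, ∀ s : S,
    ud (φ n (g s)) (ψ (g s)) ≤ 1 / ((k : ℝ) + 1)
  have hQev : ∀ k, ∀ᶠ n in atTop, Q n k := by
    intro k
    have h1 : ∀ᶠ n in atTop, ∀ e ∈ E k,
        ud (FreeGroup.lift (fun s : S => φ n (g s)) e) 1 < δ k := by
      rw [Filter.eventually_all_finset]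
      intro e he
      have h1 := ((ud_tendsto_word g X φ hφ e).const_mul 2).add
        ((ud_tendsto_one X φ hφ).const_mul 2)
      rw [mul_zero, add_zero] at h1
      filter_upwards [h1.eventually (gt_mem_nhds (hδ k))] with n hn
      refine lt_of_le_of_lt ?_ hn
      rw [hE k e he]
      exact ud_triangle _ _ _
    filter_upwards [h1] with n hn _
    obtain ⟨ψ, hψ⟩ := hmain k (X n) (FreeGroup.lift (fun s : S => φ n (g s)))
      (fun e he => (hn e he).le)
    refine ⟨ψ, fun s => ?_⟩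
    have := hψ s
    rwa [FreeGroup.lift_apply_of] at this
  have hQ0 : ∀ n, Q n 0 := fun n h0 => absurd rfl h0
  let K : ℕ → ℕ := fun n => Nat.findGreatest (Q n) n
  have hK : ∀ n, Q n (K n) := fun n => Nat.findGreatest_spec (Nat.zero_le n) (hQ0 n)
  have hK' : ∀ n, ∃ ψ : G →* Matrix.unitaryGroup (X n) ℂ, K n ≠ 0 → ∀ s : S,
      ud (φ n (g s)) (ψ (g s)) ≤ 1 / ((K n : ℝ) + 1) := by
    intro n
    by_cases h0 : K n = 0
    · exact ⟨1, fun h => absurd h0 h⟩
    · obtain ⟨ψ, hψ⟩ := hK n h0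
      exact ⟨ψ, fun _ => hψ⟩
  choose ψ hψ using hK'
  have hgen : ∀ s : S, Tendsto (fun n => ud (φ n (g s)) (ψ n (g s))) atTop (nhds 0) := by
    intro s
    rw [Metric.tendsto_atTop]
    intro ε hε
    obtain ⟨m, hm⟩ := exists_nat_one_div_lt hε
    have h1 := hQev (m + 1)
    rw [eventually_atTop] at h1
    obtain ⟨n₀, hn₀⟩ := h1
    refine ⟨max n₀ (m + 1), ?_⟩
    intro n hn
    have h2 : Q n (m + 1) := hn₀ n ((le_max_left _ _).trans hn)
    have h3 : m + 1 ≤ K n := Nat.le_findGreatest ((le_max_right _ _).trans hn) h2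
    have h4 := hψ n (by omega) s
    rw [Real.dist_eq, sub_zero, abs_of_nonneg (ud_nonneg _ _)]
    refine lt_of_le_of_lt h4 (lt_of_le_of_lt ?_ hm)
    apply one_div_le_one_div_of_le
    · positivity
    · have : ((m + 1 : ℕ) : ℝ) ≤ K n := by exact_mod_cast h3
      push_cast at this
      linarith
  refine ⟨ψ, ?_⟩
  have key : ∀ a : G, Tendsto (fun n => ud (φ n a) (ψ n a)) atTop (nhds 0) := by
    intro a
    rw [← FreeGroup.lift_surjective_iff_closure_range_eq_top] at hg
    obtain ⟨w, rfl⟩ := hg a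
    have h1 : ∀ w : FreeGroup S, Tendsto (fun n => ud (FreeGroup.lift (fun s => φ n (g s)) w)
        (ψ n (FreeGroup.lift g w))) atTop (nhds 0) := by
      intro w
      induction w using FreeGroup.induction_on with
      | C1 =>
        simp only [map_one, ud_self]
        exact tendsto_const_nhds
      | of s =>
        simp only [FreeGroup.lift_apply_of]
        exact hgen s
      | inv_of s hs =>
        simp only [map_inv, FreeGroup.lift_apply_of] at hs ⊢
        refine hs.congr (fun n => ?_)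
        exact (ud_inv _ _).symm
      | mul v w hv hw =>
        have h1 := (hv.const_mul 2).add (hw.const_mul 2)
        rw [mul_zero, add_zero] at h1
        refine squeeze_zero (fun n => ud_nonneg _ _) (fun n => ?_) h1
        rw [map_mul, map_mul, map_mul]
        refine (ud_triangle _
          (ψ n (FreeGroup.lift g v) * FreeGroup.lift (fun s => φ n (g s)) w) _).trans ?_
        rw [ud_mul_right, ud_mul_left]
    have h2 := ((ud_tendsto_word g X φ hφ w).const_mul 2).add ((h1 w).const_mul 2)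
    rw [mul_zero, add_zero] at h2
    refine squeeze_zero (fun n => ud_nonneg _ _) (fun n => ?_) h2
    refine (ud_triangle _ (FreeGroup.lift (fun s => φ n (g s)) w) _).trans ?_
    rw [ud_comm (φ n (FreeGroup.lift g w))]
  intro a
  have h3 := (Real.continuous_sqrt.tendsto 0).comp (key a)
  rw [Real.sqrt_zero] at h3
  exact h3

end Pool.Agent.Helper94.HS
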