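import Mathlib
import Pool.Agent.Helper94.HS.Est

/-!
Powers-Stormer inequality, commutators with functions of a positive matrix, level sets.
-/

namespace Pool.Agent.Helper94.HS

open Matrix

section

variable {X : Type} [Fintype X] [DecidableEq X]

/-- commutators with functions -/
lemma comm_fc {V : Matrix X X ℂ} {d : X → ℝ} (hV : Vᴴ * V = 1) (hV' : V * Vᴴ = 1)
    (u : Matrix X X ℂ) (f : ℝ → ℝ) : hsSq (u * fc V d f - fc V d f * u) =
      ∑ i, ∑ j, ‖(Vᴴ * u * V) i j‖ ^ 2 * (f (d j) - f (d i)) ^ 2 := by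
  have h1 : hsSq (u * fc V d f - fc V d f * u) =
      hsSq (Vᴴ * (u * fc V d f - fc V d f * u) * V) := by
    rw [hsSq_mul_coisometry V hV', hsSq_isometry_mul Vᴴ]
    rw [conjTranspose_conjTranspose, hV']
  rw [h1]
  have h2 : Vᴴ * (u * fc V d f - fc V d f * u) * V =
      (Vᴴ * u * V) * diagonal (fun i => (f (d i) : ℂ)) -
        diagonal (fun i => (f (d i) : ℂ)) * (Vᴴ * u * V) := by
    unfold fc
    rw [Matrix.mul_sub, Matrix.sub_mul]
    congr 1
    · calc Vᴴ * (u * (V * diagonal (fun i => (f (d i) : ℂ)) * Vᴴ)) * V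
          = (Vᴴ * u * V) * diagonal (fun i => (f (d i) : ℂ)) * (Vᴴ * V) := by
            simp only [Matrix.mul_assoc]
        _ = _ := by rw [hV, Matrix.mul_one]
    · calc Vᴴ * (V * diagonal (fun i => (f (d i) : ℂ)) * Vᴴ * u) * V
          = (Vᴴ * V) * diagonal (fun i => (f (d i) : ℂ)) * (Vᴴ * u * V) := by
            simp only [Matrix.mul_assoc]
        _ = _ := by rw [hV, Matrix.one_mul]
  rw [h2]
  unfold hsSq
  apply Finset.sum_congr rfl
  intro i _
  apply Finset.sum_congr rfl
  intro j _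
  rw [Matrix.sub_apply, mul_diagonal, diagonal_mul]
  have h3 : (Vᴴ * u * V) i j * (f (d j) : ℂ) - (f (d i) : ℂ) * (Vᴴ * u * V) i j =
      (Vᴴ * u * V) i j * ((f (d j) - f (d i) : ℝ) : ℂ) := by
    push_cast
    ring
  rw [h3, norm_mul, mul_pow, Complex.norm_real, Real.norm_eq_abs, sq_abs]

lemma row_sum {W : Matrix X X ℂ} (hW : W * Wᴴ = 1) (i : X) : ∑ j, ‖W i j‖ ^ 2 = 1 := by
  have h1 := congrFun (congrFun hW i) i
  rw [mul_apply, one_apply_eq] at h1
  have h2 : ((∑ j, ‖W i j‖ ^ 2 : ℝ) : ℂ) = 1 := by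
    rw [← h1]
    push_cast
    apply Finset.sum_congr rfl
    intro j _
    rw [conjTranspose_apply, Complex.star_def, Complex.mul_conj']
  exact_mod_cast h2

lemma col_sum {W : Matrix X X ℂ} (hW : Wᴴ * W = 1) (j : X) : ∑ i, ‖W i j‖ ^ 2 = 1 := by
  have h1 := congrFun (congrFun hW j) j
  rw [mul_apply, one_apply_eq] at h1
  have h2 : ((∑ i, ‖W i j‖ ^ 2 : ℝ) : ℂ) = 1 := by
    rw [← h1]
    push_cast
    apply Finset.sum_congr rfl
    intro i _
    rw [conjTranspose_apply, Complex.star_def, Complex.conj_mul']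
  exact_mod_cast h2

lemma trace_psd_nonneg {V V' : Matrix X X ℂ} {d d' : X → ℝ} (hV : Vᴴ * V = 1)
    (hV2 : V'ᴴ * V' = 1) (p q : ℝ → ℝ) (hp : ∀ x, 0 ≤ p x) (hq : ∀ x, 0 ≤ q x) :
    0 ≤ (trace (fc V d p * fc V' d' q)).re := by
  have h1 : fc V d p = fc V d (fun x => Real.sqrt (p x)) * fc V d (fun x => Real.sqrt (p x)) := by
    rw [fc_mul hV]
    congr 1
    funext x
    exact (Real.mul_self_sqrt (hp x)).symm
  have h2 : fc V' d' q = fc V' d' (fun x => Real.sqrt (q x)) * fc V' d' (fun x => Real.sqrt (q x)) := by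
    rw [fc_mul hV2]
    congr 1
    funext x
    exact (Real.mul_self_sqrt (hq x)).symm
  set P := fc V d (fun x => Real.sqrt (p x)) with hP
  set Q := fc V' d' (fun x => Real.sqrt (q x)) with hQ
  have hP1 : Pᴴ = P := fc_conjTranspose _
  have hQ1 : Qᴴ = Q := fc_conjTranspose _
  have h3 : trace (P * P * (Q * Q)) = trace ((Q * P)ᴴ * (Q * P)) := by
    rw [conjTranspose_mul, hP1, hQ1]
    rw [Matrix.mul_assoc, trace_mul_comm]
    congr 1
    simp only [Matrix.mul_assoc]
  rw [h1, h2, h3, ← hsSq_eq_re]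
  exact hsSq_nonneg _

/-- Powers-Stormer inequality -/
lemma powers_stormer {V₁ V₂ : Matrix X X ℂ} {d₁ d₂ : X → ℝ} (h₁ : V₁ᴴ * V₁ = 1)
    (h₂ : V₂ᴴ * V₂ = 1) (f₁ f₂ : ℝ → ℝ) (hf₁ : ∀ x, 0 ≤ f₁ x) (hf₂ : ∀ x, 0 ≤ f₂ x) :
    ∃ σ : Matrix X X ℂ, σᴴ = σ ∧ σ * σ = 1 ∧
      hsSq (fc V₁ d₁ f₁ - fc V₂ d₂ f₂) ≤
        (trace (σ * (fc V₁ d₁ f₁ * fc V₁ d₁ f₁ - fc V₂ d₂ f₂ * fc V₂ d₂ f₂))).re := by
  set h := fc V₁ d₁ f₁ with hh
  set k := fc V₂ d₂ f₂ with hk
  have hh1 : hᴴ = h := fc_conjTranspose _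
  have hk1 : kᴴ = k := fc_conjTranspose _
  obtain ⟨V, d, hV, hV', hx⟩ := exists_spec (h - k) (by rw [conjTranspose_sub, hh1, hk1])
  have hx' : h - k = fc V d id := hx
  let sg : ℝ → ℝ := fun x => if 0 < x then 1 else -1
  have hsg1 : ∀ x, sg x * sg x = 1 := by
    intro x
    simp only [sg]
    split_ifs <;> norm_num
  have hsg2 : ∀ x, sg x * x = max x 0 + max (-x) 0 := by
    intro x
    simp only [sg]
    split_ifs with hx0
    · rw [max_eq_left hx0.le, max_eq_right (by linarith)]
      ring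
    · rw [max_eq_right (by linarith), max_eq_left (by linarith)]
      ring
  refine ⟨fc V d sg, fc_conjTranspose _, ?_, ?_⟩
  · rw [fc_mul hV]
    simp only [hsg1]
    exact fc_one hV'
  · have e1 : h * h - k * k = (h - k) * h + k * (h - k) := by
      rw [Matrix.sub_mul, Matrix.mul_sub]
      abel
    have e2 : fc V d sg * (h - k) = fc V d (fun x => max x 0) + fc V d (fun x => max (-x) 0) := by
      rw [hx', fc_mul hV]
      have e3 : (fun x => sg x * id x) = fun x => max x 0 - (- max (-x) 0) := by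
        funext x
        rw [sub_neg_eq_add]
        exact hsg2 x
      rw [e3, ← fc_sub]
      have e4 : fc V d (fun x => -max (-x) 0) = -fc V d (fun x => max (-x) 0) := by
        have := fc_sub (V := V) (d := d) (fun _ => 0) (fun x => max (-x) 0)
        have e5 : fc V d (fun _ => (0 : ℝ)) = 0 := by
          unfold fc
          simp
        rw [e5, zero_sub] at this
        rw [this]
        congr 1
        funext x
        ring
      rw [e4, sub_neg_eq_add]
    have e3 : (h - k) * fc V d sg = fc V d (fun x => max x 0) + fc V d (fun x => max (-x) 0) := by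
      rw [← e2, hx', fc_mul hV, fc_mul hV]
      congr 1
      funext x
      exact mul_comm _ _
    have e4 : trace (fc V d sg * (h * h - k * k)) =
        trace ((fc V d (fun x => max x 0) + fc V d (fun x => max (-x) 0)) * h) +
        trace ((fc V d (fun x => max x 0) + fc V d (fun x => max (-x) 0)) * k) := by
      rw [e1, Matrix.mul_add, trace_add, ← Matrix.mul_assoc, e2]
      congr 1
      rw [← Matrix.mul_assoc, trace_mul_comm, ← Matrix.mul_assoc, e3]
    set P := fc V d (fun x => max x 0) with hP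
    set Q := fc V d (fun x => max (-x) 0) with hQ
    have e5 : h - k = P - Q := by
      rw [hx', hP, hQ, fc_sub]
      congr 1
      funext x
      simp only [id]
      rcases le_total 0 x with h0 | h0
      · rw [max_eq_left h0, max_eq_right (by linarith)]
        ring
      · rw [max_eq_right h0, max_eq_left (by linarith)]
        ring
    have e6 : (P + Q) * h + (P + Q) * k = (P - Q) * (h - k) + ((P * k + P * k) + (Q * h + Q * h)) := by
      rw [Matrix.add_mul, Matrix.add_mul, Matrix.sub_mul, Matrix.mul_sub, Matrix.mul_sub]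
      abel
    have e7 : (trace (fc V d sg * (h * h - k * k))).re =
        (trace ((P - Q) * (h - k))).re + ((trace (P * k)).re + (trace (P * k)).re +
          ((trace (Q * h)).re + (trace (Q * h)).re)) := by
      rw [e4, ← trace_add, e6, trace_add, trace_add, trace_add, trace_add]
      simp only [Complex.add_re]
    have e8 : (trace ((P - Q) * (h - k))).re = hsSq (h - k) := by
      rw [hsSq_eq_re, conjTranspose_sub, hh1, hk1, ← e5]
    have e9 : 0 ≤ (trace (P * k)).re := trace_psd_nonneg hV h₂ _ _ (fun x => le_max_right _ _) hf₂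
    have e10 : 0 ≤ (trace (Q * h)).re := trace_psd_nonneg hV h₁ _ _ (fun x => le_max_right _ _) hf₁
    rw [e7, e8]
    linarith

/-- Connes' estimate for level sets -/
lemma connes_est {V : Matrix X X ℂ} {d : X → ℝ} (hV : Vᴴ * V = 1) (hV' : V * Vᴴ = 1)
    (hd : ∀ i, 0 ≤ d i) (u : Matrix X X ℂ) (hu : uᴴ * u = 1) (hu' : u * uᴴ = 1) (ε : ℝ)
    (h : ∀ σ : Matrix X X ℂ, σᴴ = σ → σ * σ = 1 →
      (trace (σ * (u * fc V d id * uᴴ - fc V d id))).re ≤ ε) :
    ∑ i, ∑ j, ‖(Vᴴ * u * V) i j‖ ^ 2 * |d j - d i| ≤ 2 * Real.sqrt (ε * ∑ i, d i) := by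
  set r : ℝ → ℝ := fun x => Real.sqrt (max x 0) with hr
  have hr0 : ∀ x, 0 ≤ r x := fun x => Real.sqrt_nonneg _
  have hrr : ∀ i, r (d i) * r (d i) = d i := by
    intro i
    simp only [hr]
    rw [max_eq_left (hd i)]
    exact Real.mul_self_sqrt (hd i)
  have hW1 : (Vᴴ * u * V) * (Vᴴ * u * V)ᴴ = 1 := by
    rw [conjTranspose_mul, conjTranspose_mul, conjTranspose_conjTranspose]
    calc Vᴴ * u * V * (Vᴴ * (uᴴ * V)) = Vᴴ * (u * ((V * Vᴴ) * uᴴ)) * V := by
          simp only [Matrix.mul_assoc]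
      _ = 1 := by rw [hV', Matrix.one_mul, hu', Matrix.mul_one, hV]
  have hW2 : (Vᴴ * u * V)ᴴ * (Vᴴ * u * V) = 1 := by
    rw [conjTranspose_mul, conjTranspose_mul, conjTranspose_conjTranspose]
    calc Vᴴ * (uᴴ * V) * (Vᴴ * u * V) = Vᴴ * (uᴴ * ((V * Vᴴ) * u)) * V := by
          simp only [Matrix.mul_assoc]
      _ = 1 := by rw [hV', Matrix.one_mul, hu, Matrix.mul_one, hV]
  have h1 : hsSq (u * fc V d r - fc V d r * u) ≤ ε := by
    have hUV : (u * V)ᴴ * (u * V) = 1 := by
      rw [conjTranspose_mul]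
      calc Vᴴ * uᴴ * (u * V) = Vᴴ * ((uᴴ * u) * V) := by simp only [Matrix.mul_assoc]
        _ = 1 := by rw [hu, Matrix.one_mul, hV]
    obtain ⟨σ, hσ1, hσ2, hσ3⟩ := powers_stormer (d₁ := d) (d₂ := d) hUV hV r r hr0 hr0
    have e1 : ∀ f : ℝ → ℝ, fc (u * V) d f = u * fc V d f * uᴴ := by
      intro f
      unfold fc
      rw [conjTranspose_mul]
      simp only [Matrix.mul_assoc]
    have e2 : fc V d r * fc V d r = fc V d id := by
      rw [fc_mul hV]
      unfold fc
      congr 3
      funext i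
      simp only [id]
      rw [hrr]
    have e3 : fc (u * V) d r * fc (u * V) d r = u * fc V d id * uᴴ := by
      rw [e1]
      calc u * fc V d r * uᴴ * (u * fc V d r * uᴴ)
          = u * (fc V d r * ((uᴴ * u) * fc V d r)) * uᴴ := by simp only [Matrix.mul_assoc]
        _ = _ := by rw [hu, Matrix.one_mul, e2]
    rw [e3, e2, e1] at hσ3
    have e4 : hsSq (u * fc V d r - fc V d r * u) = hsSq (u * fc V d r * uᴴ - fc V d r) := by
      have e5 : u * fc V d r - fc V d r * u = (u * fc V d r * uᴴ - fc V d r) * u := by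
        rw [Matrix.sub_mul, Matrix.mul_assoc (u * fc V d r), hu, Matrix.mul_one]
      rw [e5, hsSq_mul_coisometry u hu']
    rw [e4]
    exact hσ3.trans (h σ hσ1 hσ2)
  rw [comm_fc hV hV'] at h1
  have hε : 0 ≤ ε := le_trans (Finset.sum_nonneg (fun i _ => Finset.sum_nonneg
    (fun j _ => by positivity))) h1
  set W := Vᴴ * u * V with hW
  have h2 : ∑ i, ∑ j, ‖W i j‖ ^ 2 * |d j - d i| =
      ∑ x : X × X, (‖W x.1 x.2‖ * |r (d x.2) - r (d x.1)|) *
        (‖W x.1 x.2‖ * (r (d x.2) + r (d x.1))) := by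
    rw [Fintype.sum_prod_type]
    apply Finset.sum_congr rfl
    intro i _
    apply Finset.sum_congr rfl
    intro j _
    have e1 : |d j - d i| = |r (d j) - r (d i)| * (r (d j) + r (d i)) := by
      have e2 : d j - d i = (r (d j) - r (d i)) * (r (d j) + r (d i)) := by
        have := hrr i
        have := hrr j
        linarith
      rw [e2, abs_mul, abs_of_nonneg (add_nonneg (hr0 (d j)) (hr0 (d i)))]
    rw [e1]
    ring
  have h3 := Finset.sum_mul_sq_le_sq_mul_sq Finset.univ
    (fun x : X × X => ‖W x.1 x.2‖ * |r (d x.2) - r (d x.1)|)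
    (fun x : X × X => ‖W x.1 x.2‖ * (r (d x.2) + r (d x.1)))
  have h4 : ∑ x : X × X, (‖W x.1 x.2‖ * |r (d x.2) - r (d x.1)|) ^ 2 ≤ ε := by
    refine le_trans (le_of_eq ?_) h1
    rw [Fintype.sum_prod_type]
    apply Finset.sum_congr rfl
    intro i _
    apply Finset.sum_congr rfl
    intro j _
    rw [mul_pow, sq_abs]
  have h5 : ∑ x : X × X, (‖W x.1 x.2‖ * (r (d x.2) + r (d x.1))) ^ 2 ≤ 4 * ∑ i, d i := by
    have e1 : ∀ x : X × X, (‖W x.1 x.2‖ * (r (d x.2) + r (d x.1))) ^ 2 ≤
        ‖W x.1 x.2‖ ^ 2 * (2 * d x.2) + ‖W x.1 x.2‖ ^ 2 * (2 * d x.1) := by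
      intro x
      rw [mul_pow, ← mul_add]
      apply mul_le_mul_of_nonneg_left _ (by positivity)
      have e2 := hrr x.1
      have e3 := hrr x.2
      nlinarith [sq_nonneg (r (d x.2) - r (d x.1))]
    refine (Finset.sum_le_sum (fun x _ => e1 x)).trans (le_of_eq ?_)
    rw [Finset.sum_add_distrib, Fintype.sum_prod_type, Fintype.sum_prod_type]
    have e2 : ∑ i, ∑ j, ‖W i j‖ ^ 2 * (2 * d i) = 2 * ∑ i, d i := by
      rw [Finset.mul_sum]
      apply Finset.sum_congr rfl
      intro i _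
      rw [← Finset.sum_mul, row_sum hW1, one_mul]
    have e3 : ∑ i, ∑ j, ‖W i j‖ ^ 2 * (2 * d j) = 2 * ∑ i, d i := by
      rw [Finset.sum_comm, Finset.mul_sum]
      apply Finset.sum_congr rfl
      intro j _
      rw [← Finset.sum_mul, col_sum hW2, one_mul]
    simp only
    rw [e2, e3]
    ring
  have hS : 0 ≤ ∑ i, d i := Finset.sum_nonneg (fun i _ => hd i)
  rw [h2]
  have h6 : (∑ x : X × X, (‖W x.1 x.2‖ * |r (d x.2) - r (d x.1)|) *
      (‖W x.1 x.2‖ * (r (d x.2) + r (d x.1)))) ^ 2 ≤ ε * (4 * ∑ i, d i) := by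
    refine h3.trans (mul_le_mul h4 h5 (Finset.sum_nonneg (fun x _ => sq_nonneg _)) hε)
  refine (Real.le_sqrt_of_sq_le h6).trans (le_of_eq ?_)
  have h7 : ε * (4 * ∑ i, d i) = 2 ^ 2 * (ε * ∑ i, d i) := by ring
  rw [h7, Real.sqrt_mul (by norm_num), Real.sqrt_sq (by norm_num)]

/-- layer cake decomposition -/
lemma layer_cake (D : Finset ℝ) (hD : ∀ x ∈ D, 0 ≤ x) : ∃ (K : Finset ℝ) (w : ℝ → ℝ),
    (∀ t ∈ K, 0 < w t ∧ 0 ≤ t) ∧ ∀ x ∈ D, ∑ t ∈ K, w t * (if t < x then 1 else 0) = x := by
  classical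
  induction D using Finset.induction_on_max with
  | empty => exact ⟨∅, fun _ => 0, by simp, by simp⟩
  | insert a D' ha ih =>
    obtain ⟨K, w, hK, hw⟩ := ih (fun x hx => hD x (Finset.mem_insert_of_mem hx))
    by_cases hne : D'.Nonempty
    · set m := D'.max' hne with hm
      have hmD : m ∈ D' := D'.max'_mem hne
      have hma : m < a := ha m hmD
      have hm0 : 0 ≤ m := hD m (Finset.mem_insert_of_mem hmD)
      refine ⟨insert m (K.filter (fun t => t < m)), fun t => if t = m then a - m else w t, ?_, ?_⟩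
      · intro t ht
        rw [Finset.mem_insert, Finset.mem_filter] at ht
        rcases ht with rfl | ⟨ht, htm⟩
        · simp only [if_true]
          exact ⟨by linarith, hm0⟩
        · simp only [if_neg htm.ne]
          exact hK t ht
      · have hnot : m ∉ K.filter (fun t => t < m) := by
          rw [Finset.mem_filter]
          rintro ⟨_, h⟩
          exact lt_irrefl _ h
        have key : ∀ x, x ≥ m → ∑ t ∈ K.filter (fun t => t < m),
            (if t = m then a - m else w t) * (if t < x then 1 else 0) = m := by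
          intro x hx
          have h1 := hw m hmD
          rw [Finset.sum_filter]
          refine Eq.trans ?_ h1
          apply Finset.sum_congr rfl
          intro t _
          by_cases htm : t < m
          · rw [if_pos htm, if_neg htm.ne, if_pos (lt_of_lt_of_le htm hx), if_pos htm]
          · rw [if_neg htm, if_neg htm, mul_zero]
        intro x hx
        rw [Finset.sum_insert hnot]
        simp only [if_true]
        rw [Finset.mem_insert] at hx
        rcases hx with rfl | hx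
        · rw [if_pos hma, key x hma.le]
          ring
        · have hxm : x ≤ m := D'.le_max' x hx
          rw [if_neg (not_lt.2 hxm), mul_zero, zero_add]
          refine Eq.trans ?_ (hw x hx)
          rw [Finset.sum_filter]
          apply Finset.sum_congr rfl
          intro t _
          by_cases htm : t < m
          · rw [if_pos htm, if_neg htm.ne]
          · rw [if_neg htm, if_neg (not_lt.2 (hxm.trans (not_lt.1 htm))), mul_zero]
    · rw [Finset.not_nonempty_iff_eq_empty] at hne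
      subst hne
      have ha0 : 0 ≤ a := hD a (Finset.mem_insert_self _ _)
      rcases ha0.eq_or_lt with h0 | h0
      · refine ⟨∅, fun _ => 0, by simp, ?_⟩
        intro x hx
        rw [insert_empty_eq, Finset.mem_singleton] at hx
        rw [hx, ← h0]
        simp
      · refine ⟨{0}, fun _ => a, ?_, ?_⟩
        · intro t ht
          rw [Finset.mem_singleton] at ht
          exact ⟨h0, ht.ge⟩
        · intro x hx
          rw [insert_empty_eq, Finset.mem_singleton] at hx
          rw [hx]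
          simp [h0]

/-- layer cake for differences -/
lemma layer_cake_abs {K : Finset ℝ} {w : ℝ → ℝ} (_hK : ∀ t ∈ K, 0 < w t ∧ 0 ≤ t) {x y : ℝ}
    (hx : ∑ t ∈ K, w t * (if t < x then 1 else 0) = x)
    (hy : ∑ t ∈ K, w t * (if t < y then 1 else 0) = y) :
    ∑ t ∈ K, w t * ((if t < y then (1 : ℝ) else 0) - (if t < x then 1 else 0)) ^ 2 = |y - x| := by
  have aux : ∀ x y : ℝ, x ≤ y → (∑ t ∈ K, w t * (if t < x then 1 else 0) = x) →
      (∑ t ∈ K, w t * (if t < y then 1 else 0) = y) →
      ∑ t ∈ K, w t * ((if t < y then (1 : ℝ) else 0) - (if t < x then 1 else 0)) ^ 2 = y - x := by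
    intro x y hxy hx hy
    rw [← hx, ← hy, hx, hy]
    have h1 : y - x = ∑ t ∈ K, (w t * (if t < y then 1 else 0) -
        w t * (if t < x then 1 else 0)) := by
      rw [Finset.sum_sub_distrib, hx, hy]
    rw [h1]
    apply Finset.sum_congr rfl
    intro t _
    by_cases h2 : t < x
    · rw [if_pos h2, if_pos (lt_of_lt_of_le h2 hxy)]
      ring
    · by_cases h3 : t < y
      · rw [if_neg h2, if_pos h3]
        ring
      · rw [if_neg h2, if_neg h3]
        ring
  rcases le_total x y with h | h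
  · rw [abs_of_nonneg (by linarith)]
    exact aux x y h hx hy
  · rw [abs_sub_comm, abs_of_nonneg (by linarith), ← aux y x h hy hx]
    apply Finset.sum_congr rfl
    intro t _
    ring

end

end Pool.Agent.Helper94.HS
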