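import Mathlib
import Pool.Agent.Helper94.HS.PS
import Pool.Agent.Helper94.HS.Words

/-!
Almost invariant projections of bounded rank which average to the identity.
-/

namespace Pool.Agent.Helper94.HS

open Matrix

section

variable {X Y : Type} [Fintype X] [DecidableEq X] [Fintype Y]

/-- spectral decomposition of `M Mᴴ` with the rank bound -/
lemma exists_psd (M : Matrix X Y ℂ) : ∃ (V : Matrix X X ℂ) (d : X → ℝ), Vᴴ * V = 1 ∧
    V * Vᴴ = 1 ∧ (∀ i, 0 ≤ d i) ∧ M * Mᴴ = fc V d id ∧
    (Finset.univ.filter (fun i => d i ≠ 0)).card ≤ Fintype.card Y := by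
  classical
  obtain ⟨V, d, hV, hV', hd, hM, -, -⟩ := exists_polar 0 le_rfl Mᴴ
  rw [conjTranspose_conjTranspose] at hM
  refine ⟨V, d, hV, hV', hd, hM, ?_⟩
  have h1 : (diagonal (fun i => (d i : ℂ))).rank ≤ Fintype.card Y := by
    have h2 : diagonal (fun i => (d i : ℂ)) = Vᴴ * (M * Mᴴ) * V := by
      rw [hM]
      unfold fc
      calc diagonal (fun i => (d i : ℂ)) = 1 * diagonal (fun i => (d i : ℂ)) * 1 := by
            rw [Matrix.one_mul, Matrix.mul_one]
        _ = (Vᴴ * V) * diagonal (fun i => (d i : ℂ)) * (Vᴴ * V) := by rw [hV]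
        _ = _ := by simp only [Matrix.mul_assoc, id]
    rw [h2]
    refine (rank_mul_le_left _ _).trans ((rank_mul_le_right _ _).trans
      ((rank_mul_le_left _ _).trans (rank_le_card_width M)))
  rw [rank_diagonal] at h1
  rw [Fintype.card_subtype] at h1
  refine le_trans (le_of_eq ?_) h1
  congr 1
  ext i
  simp

lemma trace_re_le (σ : Matrix X X ℂ) (hσ : σᴴ = σ) (hσ2 : σ * σ = 1) (b : X → ℂ)
    (hb : ∑ i, ‖b i‖ ^ 2 = 1) :
    |(trace (σ * (of (fun (i : X) (_ : Unit) => b i) *
      (of (fun (i : X) (_ : Unit) => b i))ᴴ))).re| ≤ 1 := by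
  set B : Matrix X Unit ℂ := of (fun (i : X) (_ : Unit) => b i) with hB
  have hB1 : hsSq B = 1 := by
    unfold hsSq
    rw [← hb]
    apply Finset.sum_congr rfl
    intro i _
    simp [hB]
  have h1 : trace (σ * (B * Bᴴ)) = trace (Bᴴ * (σ * B)) := by
    rw [← Matrix.mul_assoc, trace_mul_comm]
  have h2 : hsSq (σ * B) = 1 := by
    rw [hsSq_isometry_mul σ (by rw [hσ, hσ2]), hB1]
  have h3 : hsSq (B + σ * B) = 2 + 2 * (trace (Bᴴ * (σ * B))).re := by
    rw [hsSq_eq_re, conjTranspose_add, Matrix.add_mul, Matrix.mul_add, Matrix.mul_add, trace_add,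
      trace_add, trace_add]
    have e1 : trace ((σ * B)ᴴ * B) = star (trace (Bᴴ * (σ * B))) := by
      rw [← trace_conjTranspose, conjTranspose_mul Bᴴ, conjTranspose_conjTranspose]
    have e2 : (trace (Bᴴ * B)).re = 1 := by rw [← hsSq_eq_re, hB1]
    have e3 : (trace ((σ * B)ᴴ * (σ * B))).re = 1 := by rw [← hsSq_eq_re, h2]
    rw [e1]
    simp only [Complex.add_re, Complex.star_def, Complex.conj_re]
    linarith
  have h4 : hsSq (B - σ * B) = 2 - 2 * (trace (Bᴴ * (σ * B))).re := by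
    rw [hsSq_eq_re, conjTranspose_sub, Matrix.sub_mul, Matrix.mul_sub, Matrix.mul_sub, trace_sub,
      trace_sub, trace_sub]
    have e1 : trace ((σ * B)ᴴ * B) = star (trace (Bᴴ * (σ * B))) := by
      rw [← trace_conjTranspose, conjTranspose_mul Bᴴ, conjTranspose_conjTranspose]
    have e2 : (trace (Bᴴ * B)).re = 1 := by rw [← hsSq_eq_re, hB1]
    have e3 : (trace ((σ * B)ᴴ * (σ * B))).re = 1 := by rw [← hsSq_eq_re, h2]
    rw [e1]
    simp only [Complex.sub_re, Complex.star_def, Complex.conj_re]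
    linarith
  rw [h1, abs_le]
  have h5 := hsSq_nonneg (B + σ * B)
  have h6 := hsSq_nonneg (B - σ * B)
  constructor <;> linarith

end

section

variable {G : Type} [Group G]

/-- the orbit vectors of a basis vector -/
def orb (A : URep G) (F : Finset G) (x : A.X) : Matrix A.X F ℂ := of (fun i f => A.a f i x)

/-- the rank one projection on `A f e_x` -/
noncomputable def rk (A : URep G) (x : A.X) (g : G) : Matrix A.X A.X ℂ :=
  of (fun (i : A.X) (_ : Unit) => A.a g i x) * (of (fun (i : A.X) (_ : Unit) => A.a g i x))ᴴ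

lemma orb_mul (A : URep G) (F : Finset G) (x : A.X) :
    orb A F x * (orb A F x)ᴴ = ∑ f ∈ F, rk A x f := by
  ext i j
  rw [mul_apply, Matrix.sum_apply]
  have h1 : ∀ f : G, rk A x f i j = A.a f i x * star (A.a f j x) := by
    intro f
    unfold rk
    rw [mul_apply]
    simp
  simp only [h1]
  rw [← Finset.sum_coe_sort F (fun f => A.a f i x * star (A.a f j x))]
  rfl

lemma col_norm (A : URep G) (x : A.X) (g : G) : ∑ i, ‖A.a g i x‖ ^ 2 = 1 :=
  col_sum (A.st_mul g) x

lemma conj_rk (A : URep G) (x : A.X) (s f : G) :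
    A.a s * rk A x f * (A.a s)ᴴ = rk A x (s * f) := by
  unfold rk
  have h1 : (of (fun (i : A.X) (_ : Unit) => A.a (s * f) i x) : Matrix A.X Unit ℂ) =
      A.a s * of (fun (i : A.X) (_ : Unit) => A.a f i x) := by
    ext i j
    rw [mul_apply, A.mul]
    simp [mul_apply]
  rw [h1, conjTranspose_mul]
  simp only [Matrix.mul_assoc]

lemma sum_rk (A : URep G) (g : G) : ∑ x, rk A x g = 1 := by
  have h1 := A.mul_st g
  rw [← h1]
  ext i j
  rw [Matrix.sum_apply, mul_apply]
  apply Finset.sum_congr rfl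
  intro x _
  unfold rk
  rw [mul_apply]
  simp

lemma trace_rk (A : URep G) (x : A.X) (g : G) : trace (rk A x g) = 1 := by
  unfold rk
  rw [trace_mul_comm, ← hsSq_eq_trace]
  have h1 : hsSq (of (fun (i : A.X) (_ : Unit) => A.a g i x) : Matrix A.X Unit ℂ) = 1 := by
    unfold hsSq
    rw [← col_norm A x g]
    apply Finset.sum_congr rfl
    intro i _
    simp
  rw [h1]
  simp

/-- almost invariance of the orbit operators in trace norm -/
lemma orb_inv (A : URep G) (F : Finset G) (x : A.X) (s : G) (κ : ℝ) [DecidableEq G]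
    (hs : ((F.filter (fun f => s * f ∉ F)).card : ℝ) ≤ κ * F.card)
    (σ : Matrix A.X A.X ℂ) (hσ : σᴴ = σ) (hσ2 : σ * σ = 1) :
    (trace (σ * (A.a s * (orb A F x * (orb A F x)ᴴ) * (A.a s)ᴴ -
      orb A F x * (orb A F x)ᴴ))).re ≤ 2 * κ * F.card := by
  have hr : ∀ g, |(trace (σ * rk A x g)).re| ≤ 1 := fun g =>
    trace_re_le σ hσ hσ2 _ (col_norm A x g)
  set τ : G → ℝ := fun g => (trace (σ * rk A x g)).re with hτ
  have h1 : (trace (σ * (A.a s * (orb A F x * (orb A F x)ᴴ) * (A.a s)ᴴ -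
      orb A F x * (orb A F x)ᴴ))).re = ∑ f ∈ F, τ (s * f) - ∑ f ∈ F, τ f := by
    rw [orb_mul, Matrix.mul_sub, trace_sub, Complex.sub_re]
    congr 1
    · rw [Matrix.mul_sum, Matrix.sum_mul, Matrix.mul_sum, trace_sum, Complex.re_sum]
      apply Finset.sum_congr rfl
      intro f _
      rw [conj_rk]
    · rw [Matrix.mul_sum, trace_sum, Complex.re_sum]
  rw [h1]
  set F₁ := F.filter (fun f => s * f ∈ F) with hF₁
  set F₂ := F.filter (fun f => s * f ∉ F) with hF₂
  have h2 : ∑ f ∈ F, τ (s * f) = ∑ f ∈ F₁, τ (s * f) + ∑ f ∈ F₂, τ (s * f) :=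
    (Finset.sum_filter_add_sum_filter_not F _ _).symm
  set F₃ := F₁.image (fun f => s * f) with hF₃
  have h3 : ∑ f ∈ F₁, τ (s * f) = ∑ f ∈ F₃, τ f := by
    rw [hF₃, Finset.sum_image]
    intro a _ b _ hab
    exact mul_left_cancel hab
  have h4 : F₃ ⊆ F := by
    intro f hf
    rw [hF₃, Finset.mem_image] at hf
    obtain ⟨f', hf', rfl⟩ := hf
    exact (Finset.mem_filter.1 hf').2
  have h5 : ∑ f ∈ F, τ f = ∑ f ∈ F \ F₃, τ f + ∑ f ∈ F₃, τ f :=
    (Finset.sum_sdiff h4).symm
  have h6 : F₁.card + F₂.card = F.card := Finset.card_filter_add_card_filter_not _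
  have h7 : F₃.card = F₁.card := Finset.card_image_of_injective _ (mul_right_injective s)
  have h8 : (F \ F₃).card = F₂.card := by
    rw [Finset.card_sdiff_of_subset h4]
    omega
  have h9 : ∑ f ∈ F₂, τ (s * f) ≤ F₂.card := by
    have : ∑ f ∈ F₂, τ (s * f) ≤ ∑ f ∈ F₂, (1 : ℝ) :=
      Finset.sum_le_sum (fun f _ => (abs_le.1 (hr (s * f))).2)
    simpa using this
  have h10 : -((F \ F₃).card : ℝ) ≤ ∑ f ∈ F \ F₃, τ f := by
    have : ∑ f ∈ F \ F₃, (-1 : ℝ) ≤ ∑ f ∈ F \ F₃, τ f :=
      Finset.sum_le_sum (fun f _ => (abs_le.1 (hr f)).1)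
    simpa using this
  have h11 : ((F \ F₃).card : ℝ) = F₂.card := by exact_mod_cast h8
  rw [h2, h3, h5]
  linarith

/-- tiles -/
theorem exists_tiles (A : URep G) (F : Finset G) (κ : ℝ) (S' : Finset G) [DecidableEq G]
    (hF : ∀ s ∈ S', ((F.filter (fun f => s * f ∉ F)).card : ℝ) ≤ κ * F.card) :
    ∃ (ι : Type) (_ : Fintype ι) (w : ι → ℝ) (P : ι → Matrix A.X A.X ℂ), (∀ a, 0 < w a) ∧
      (∀ a, (P a)ᴴ = P a ∧ P a * P a = P a) ∧ (∀ a, hsSq (P a) ≤ F.card) ∧
      (∑ a, ((w a : ℝ) : ℂ) • P a = ((F.card : ℝ) : ℂ) • (1 : Matrix A.X A.X ℂ)) ∧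
      ∀ s ∈ S', ∑ a, w a * hsSq (A.a s * P a - P a * A.a s) ≤
        2 * Real.sqrt (2 * κ) * (F.card * A.dim) := by
  classical
  choose V d hV hV' hd hM hrk using fun x : A.X => exists_psd (orb A F x)
  choose K w hK hw using fun x : A.X => layer_cake (Finset.univ.image (d x)) (by
    intro y hy
    rw [Finset.mem_image] at hy
    obtain ⟨i, _, rfl⟩ := hy
    exact hd x i)
  have hwd : ∀ x i, ∑ t ∈ K x, w x t * (if t < d x i then 1 else 0) = d x i := fun x i =>
    hw x _ (Finset.mem_image_of_mem _ (Finset.mem_univ i))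
  have hsd : ∀ x, ∑ i, d x i = F.card := by
    intro x
    have h1 : trace (orb A F x * (orb A F x)ᴴ) = (F.card : ℂ) := by
      rw [orb_mul, trace_sum]
      simp only [trace_rk]
      simp
    rw [hM, trace_fc (hV x)] at h1
    exact_mod_cast h1
  let ι : Type := Σ x : A.X, {t // t ∈ K x}
  refine ⟨ι, inferInstance, fun a => w a.1 a.2.1, fun a => fc (V a.1) (d a.1) (ith a.2.1),
    fun a => (hK a.1 a.2.1 a.2.2).1, ?_, ?_, ?_, ?_⟩
  · intro a
    refine ⟨fc_conjTranspose _, ?_⟩
    rw [fc_mul (hV a.1)]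
    congr 1
    funext y
    unfold ith
    split_ifs <;> norm_num
  · intro a
    rw [hsSq_fc (hV a.1)]
    have h1 : ∑ i, ith a.2.1 (d a.1 i) ^ 2 ≤
        ∑ i, (if d a.1 i ≠ 0 then (1 : ℝ) else 0) := by
      apply Finset.sum_le_sum
      intro i _
      unfold ith
      by_cases h2 : a.2.1 < d a.1 i
      · have h3 : d a.1 i ≠ 0 := by
          have := (hK a.1 a.2.1 a.2.2).2
          exact (lt_of_le_of_lt this h2).ne'
        rw [if_pos h2, if_pos h3]
        norm_num
      · rw [if_neg h2]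
        split_ifs <;> norm_num
    refine h1.trans ?_
    rw [← Finset.sum_filter, Finset.sum_const, nsmul_eq_mul, mul_one]
    have h4 := hrk a.1
    rw [Fintype.card_coe] at h4
    exact_mod_cast h4
  · have h1 : ∑ a : ι, ((w a.1 a.2.1 : ℝ) : ℂ) • fc (V a.1) (d a.1) (ith a.2.1) =
        ∑ x : A.X, ∑ t ∈ K x, ((w x t : ℝ) : ℂ) • fc (V x) (d x) (ith t) := by
      rw [Fintype.sum_sigma]
      apply Finset.sum_congr rfl
      intro x _
      exact Finset.sum_coe_sort (K x) (fun t => ((w x t : ℝ) : ℂ) • fc (V x) (d x) (ith t))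
    rw [h1]
    have h2 : ∀ x, ∑ t ∈ K x, ((w x t : ℝ) : ℂ) • fc (V x) (d x) (ith t) =
        orb A F x * (orb A F x)ᴴ := by
      intro x
      rw [hM x]
      unfold fc
      have h3 : ∀ t, ((w x t : ℝ) : ℂ) • (V x * diagonal (fun i => ((ith t (d x i) : ℝ) : ℂ)) *
          (V x)ᴴ) = V x * diagonal (fun i => ((w x t * ith t (d x i) : ℝ) : ℂ)) * (V x)ᴴ := by
        intro t
        rw [← Matrix.smul_mul, ← Matrix.mul_smul]
        congr 2
        ext i j
        rw [Matrix.smul_apply, diagonal_apply, diagonal_apply]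
        split_ifs
        · push_cast
          simp
        · simp
      simp only [h3]
      rw [← Matrix.sum_mul, ← Matrix.mul_sum]
      congr 2
      ext i j
      rw [Matrix.sum_apply]
      by_cases hij : i = j
      · subst hij
        simp only [diagonal_apply_eq, id]
        have h4 : ∑ t ∈ K x, w x t * ith t (d x i) = d x i := hwd x i
        have h5 : ∑ t ∈ K x, ((w x t * ith t (d x i) : ℝ) : ℂ) =
            ((∑ t ∈ K x, w x t * ith t (d x i) : ℝ) : ℂ) := by
          push_cast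
          rfl
        rw [h5, h4]
      · simp only [diagonal_apply_ne _ hij]
        simp
    simp only [h2, orb_mul]
    rw [Finset.sum_comm]
    simp only [sum_rk]
    rw [Finset.sum_const, ← Nat.cast_smul_eq_nsmul ℂ]
    push_cast
    rfl
  · intro s hs
    have h1 : ∑ a : ι, w a.1 a.2.1 * hsSq (A.a s * fc (V a.1) (d a.1) (ith a.2.1) -
        fc (V a.1) (d a.1) (ith a.2.1) * A.a s) =
        ∑ x : A.X, ∑ t ∈ K x, w x t * hsSq (A.a s * fc (V x) (d x) (ith t) -
        fc (V x) (d x) (ith t) * A.a s) := by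
      rw [Fintype.sum_sigma]
      apply Finset.sum_congr rfl
      intro x _
      exact Finset.sum_coe_sort (K x) (fun t => w x t * hsSq (A.a s * fc (V x) (d x) (ith t) -
        fc (V x) (d x) (ith t) * A.a s))
    rw [h1]
    have h2 : ∀ x, ∑ t ∈ K x, w x t * hsSq (A.a s * fc (V x) (d x) (ith t) -
        fc (V x) (d x) (ith t) * A.a s) ≤ 2 * Real.sqrt (2 * κ) * F.card := by
      intro x
      have h3 : ∑ t ∈ K x, w x t * hsSq (A.a s * fc (V x) (d x) (ith t) -
          fc (V x) (d x) (ith t) * A.a s) =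
          ∑ i, ∑ j, ‖((V x)ᴴ * A.a s * V x) i j‖ ^ 2 * |d x j - d x i| := by
        simp only [comm_fc (hV x) (hV' x), Finset.mul_sum]
        rw [Finset.sum_comm]
        apply Finset.sum_congr rfl
        intro i _
        rw [Finset.sum_comm]
        apply Finset.sum_congr rfl
        intro j _
        rw [← layer_cake_abs (hK x) (hwd x i) (hwd x j), Finset.mul_sum]
        apply Finset.sum_congr rfl
        intro t _
        unfold ith
        ring
      rw [h3]
      have h4 := connes_est (hV x) (hV' x) (hd x) (A.a s) (A.st_mul s) (A.mul_st s)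
        (2 * κ * F.card) (by
          intro σ hσ hσ2
          rw [← hM x]
          exact orb_inv A F x s κ (hF s hs) σ hσ hσ2)
      refine h4.trans (le_of_eq ?_)
      rw [hsd x]
      have h5 : 2 * κ * (F.card : ℝ) * F.card = 2 * κ * (F.card : ℝ) ^ 2 := by ring
      rw [h5, Real.sqrt_mul' _ (by positivity), Real.sqrt_sq (by positivity)]
      ring
    refine (Finset.sum_le_sum (fun x _ => h2 x)).trans (le_of_eq ?_)
    rw [Finset.sum_const, Finset.card_univ, nsmul_eq_mul]
    unfold URep.dim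
    ring

end

end Pool.Agent.Helper94.HS
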