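import Mathlib
import Pool.Agent.Helper94.HS.Tile
import Pool.Agent.Helper94.HS.Conv

/-!
Greedy choice of almost orthogonal almost invariant projections.
-/

namespace Pool.Agent.Helper94.HS

open Matrix

section

variable {X Y : Type} [Fintype X] [Fintype Y]

/-- Cauchy-Schwarz inequality -/
lemma trace_cs (M N : Matrix X Y ℂ) : ‖trace (Mᴴ * N)‖ ^ 2 ≤ hsSq M * hsSq N := by
  have h1 : ‖trace (Mᴴ * N)‖ ≤ ∑ x : X × Y, ‖M x.1 x.2‖ * ‖N x.1 x.2‖ := by
    unfold trace
    simp only [diag_apply, mul_apply, conjTranspose_apply]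
    rw [Finset.sum_comm, Fintype.sum_prod_type]
    refine (norm_sum_le _ _).trans (Finset.sum_le_sum (fun i _ => ?_))
    refine (norm_sum_le _ _).trans (Finset.sum_le_sum (fun j _ => ?_))
    rw [norm_mul, norm_star]
  have h2 := Finset.sum_mul_sq_le_sq_mul_sq Finset.univ
    (fun x : X × Y => ‖M x.1 x.2‖) (fun x : X × Y => ‖N x.1 x.2‖)
  have h3 : ∑ x : X × Y, ‖M x.1 x.2‖ ^ 2 = hsSq M := by
    rw [Fintype.sum_prod_type]
    rfl
  have h4 : ∑ x : X × Y, ‖N x.1 x.2‖ ^ 2 = hsSq N := by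
    rw [Fintype.sum_prod_type]
    rfl
  rw [h3, h4] at h2
  refine le_trans ?_ h2
  exact pow_le_pow_left₀ (norm_nonneg _) h1 2

lemma trace_cs_le (M N : Matrix X Y ℂ) (a : ℝ) (ha : 0 ≤ a) (h : hsSq M * hsSq N ≤ a ^ 2) :
    ‖trace (Mᴴ * N)‖ ≤ a := by
  have h1 := trace_cs M N
  exact (pow_le_pow_iff_left₀ (norm_nonneg _) ha two_ne_zero).1 (h1.trans h)

variable [DecidableEq X]

omit [DecidableEq X] in
lemma hsSq_proj_trace (P : Matrix X X ℂ) (hP : Pᴴ = P ∧ P * P = P) :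
    (trace P) = ((hsSq P : ℝ) : ℂ) := (hsSq_proj P hP.1 hP.2).symm

/-- trace of a unitary times a projection -/
lemma trace_unitary_proj (v P : Matrix X X ℂ) (hv : vᴴ * v = 1) (hP : Pᴴ = P ∧ P * P = P) :
    ‖trace (v * P)‖ ≤ hsSq P := by
  have h1 : trace (v * P) = trace (Pᴴ * (v * P)) := by
    rw [hP.1, trace_mul_comm P, Matrix.mul_assoc, hP.2]
  rw [h1]
  apply trace_cs_le _ _ _ (hsSq_nonneg P)
  rw [hsSq_isometry_mul v hv, sq]

lemma trace_unitary_le (v : Matrix X X ℂ) (hv : vᴴ * v = 1) :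
    ‖trace v‖ ≤ Fintype.card X := by
  have h1 : trace v = trace ((1 : Matrix X X ℂ)ᴴ * v) := by
    rw [conjTranspose_one, Matrix.one_mul]
  rw [h1]
  apply trace_cs_le _ _ _ (Nat.cast_nonneg _)
  rw [hsSq_unitary v hv, hsSq_unitary (1 : Matrix X X ℂ) (by simp), sq]

/-- trace norm estimate for the conjugate of a projection -/
lemma proj_comm_trace (u P σ : Matrix X X ℂ) (hu : uᴴ * u = 1) (hu' : u * uᴴ = 1)
    (hP : Pᴴ = P ∧ P * P = P) (hσ : σᴴ = σ) (hσ2 : σ * σ = 1) (θ : ℝ) (hθ : 0 < θ) :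
    (trace (σ * (u * P * uᴴ - P))).re ≤ θ * hsSq P + θ⁻¹ * hsSq (u * P - P * u) := by
  set q := u * P * uᴴ with hq
  have hq1 : qᴴ = q := by
    rw [hq, conjTranspose_mul, conjTranspose_mul, conjTranspose_conjTranspose, hP.1,
      Matrix.mul_assoc]
  have hq2 : q * q = q := by
    rw [hq]
    calc u * P * uᴴ * (u * P * uᴴ) = u * P * (uᴴ * u) * (P * uᴴ) := by
          simp only [Matrix.mul_assoc]
      _ = u * (P * P) * uᴴ := by
          rw [hu, Matrix.mul_one]
          simp only [Matrix.mul_assoc]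
      _ = _ := by rw [hP.2]
  have hqr : hsSq q = hsSq P := by
    rw [hq, hsSq_mul_coisometry uᴴ (by rw [conjTranspose_conjTranspose, hu]),
      hsSq_isometry_mul u hu]
  have hx : hsSq (q - P) = hsSq (u * P - P * u) := by
    have h1 : (q - P) * u = u * P - P * u := by
      rw [hq, Matrix.sub_mul, Matrix.mul_assoc (u * P), hu, Matrix.mul_one]
    rw [← h1, hsSq_mul_coisometry u hu']
  have hσσ : σᴴ * σ = 1 := by rw [hσ, hσ2]
  have hσσ' : σ * σᴴ = 1 := by rw [hσ, hσ2]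
  have h1 : trace (σ * (q - P)) = trace ((q * σ)ᴴ * (q - P)) + trace ((σ * P)ᴴ * (q - P)) := by
    have e1 : (q * σ)ᴴ = σ * q := by rw [conjTranspose_mul, hσ, hq1]
    have e2 : (σ * P)ᴴ = P * σ := by rw [conjTranspose_mul, hσ, hP.1]
    have e3 : trace (P * σ * (q - P)) = trace (σ * ((q - P) * P)) := by
      rw [Matrix.mul_assoc, trace_mul_comm, Matrix.mul_assoc]
    rw [e1, e2, e3, Matrix.mul_assoc, ← trace_add, ← Matrix.mul_add]
    congr 2
    rw [Matrix.mul_sub, Matrix.sub_mul, hq2, hP.2]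
    abel
  have hr0 := hsSq_nonneg P
  have hx0 := hsSq_nonneg (q - P)
  set a := Real.sqrt (hsSq P * hsSq (q - P)) with ha
  have ha0 : 0 ≤ a := Real.sqrt_nonneg _
  have ha2 : a ^ 2 = hsSq P * hsSq (q - P) := Real.sq_sqrt (mul_nonneg hr0 hx0)
  have h2 : ‖trace ((q * σ)ᴴ * (q - P))‖ ≤ a := by
    apply trace_cs_le _ _ _ ha0
    rw [hsSq_mul_coisometry σ hσσ', hqr, ha2]
  have h3 : ‖trace ((σ * P)ᴴ * (q - P))‖ ≤ a := by
    apply trace_cs_le _ _ _ ha0
    rw [hsSq_isometry_mul σ hσσ, ha2]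
  have h4 : (trace (σ * (q - P))).re ≤ 2 * a := by
    rw [h1, Complex.add_re]
    have e1 := (Complex.re_le_norm (trace ((q * σ)ᴴ * (q - P)))).trans h2
    have e2 := (Complex.re_le_norm (trace ((σ * P)ᴴ * (q - P)))).trans h3
    linarith
  refine h4.trans ?_
  rw [hx] at ha2 hx0
  rw [← pow_le_pow_iff_left₀ (by positivity) (by positivity) (two_ne_zero)]
  have hθθ : θ * θ⁻¹ = 1 := mul_inv_cancel₀ hθ.ne'
  have h5 : (θ * hsSq P + θ⁻¹ * hsSq (u * P - P * u)) ^ 2 =
      (θ * hsSq P - θ⁻¹ * hsSq (u * P - P * u)) ^ 2 +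
        4 * (θ * θ⁻¹) * (hsSq P * hsSq (u * P - P * u)) := by ring
  rw [h5, hθθ, mul_pow, ha2]
  nlinarith [sq_nonneg (θ * hsSq P - θ⁻¹ * hsSq (u * P - P * u))]

omit [DecidableEq X] in
lemma hsSq_fromCols {Y₁ Y₂ : Type} [Fintype Y₁] [Fintype Y₂] (B : Matrix X Y₁ ℂ)
    (R : Matrix X Y₂ ℂ) : hsSq (fromCols B R) = hsSq B + hsSq R := by
  unfold hsSq
  rw [← Finset.sum_add_distrib]
  apply Finset.sum_congr rfl
  intro i _
  rw [Fintype.sum_sum_type]
  simp

lemma hsSq_fromBlocks {X₁ X₂ Y₁ Y₂ : Type} [Fintype X₁] [Fintype X₂] [Fintype Y₁] [Fintype Y₂]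
    (A : Matrix X₁ Y₁ ℂ) (B : Matrix X₁ Y₂ ℂ) (C : Matrix X₂ Y₁ ℂ) (D : Matrix X₂ Y₂ ℂ) :
    hsSq (fromBlocks A B C D) = hsSq A + hsSq B + (hsSq C + hsSq D) := by
  unfold hsSq
  rw [Fintype.sum_sum_type]
  simp only [Fintype.sum_sum_type, fromBlocks_apply₁₁, fromBlocks_apply₁₂, fromBlocks_apply₂₁,
    fromBlocks_apply₂₂, Finset.sum_add_distrib]

end

section pick

variable {X S Hx : Type} [Fintype X] [DecidableEq X] [Fintype S] [Fintype Hx]

/-- deviation from proportionality -/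
noncomputable def dev (v : Hx → Matrix X X ℂ) (T : Matrix X X ℂ) (r : ℝ) (h : Hx) : ℂ :=
  trace (v h * T) - ((r / Fintype.card X : ℝ) : ℂ) * trace (v h)

/-- state of the greedy choice -/
structure PickSt (u : S → Matrix X X ℂ) (v : Hx → Matrix X X ℂ) (A₀ B₀ θ Λ : ℝ) (Y : Type)
    [Fintype Y] [DecidableEq Y] (B : Matrix X Y ℂ) (I : ℝ) : Prop where
  nonneg : 0 ≤ I
  card : hsSq B = Fintype.card Y
  inv : ∀ (s : S) (σ : Matrix X X ℂ), σᴴ = σ → σ * σ = 1 →
    (trace (σ * (u s * (B * Bᴴ) * (u s)ᴴ - B * Bᴴ))).re ≤ θ * Fintype.card Y + θ⁻¹ * I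
  pot : A₀ * I + B₀ / 2 * hsSq (1 - Bᴴ * B) +
    1 / 2 * ∑ h, ‖dev v (B * Bᴴ) (Fintype.card Y) h‖ ^ 2 ≤ Λ * Fintype.card Y

/-- adding one projection -/
lemma pick_add {u : S → Matrix X X ℂ} {v : Hx → Matrix X X ℂ} {A₀ B₀ θ Λ : ℝ} (hθ : 0 < θ)
    (hu : ∀ s, (u s)ᴴ * u s = 1) (hu' : ∀ s, u s * (u s)ᴴ = 1) {Y : Type}
    [Fintype Y] [DecidableEq Y] {B : Matrix X Y ℂ} {I : ℝ} (hst : PickSt u v A₀ B₀ θ Λ Y B I)
    (P : Matrix X X ℂ) (hP : Pᴴ = P ∧ P * P = P)
    (hinc : A₀ * ∑ s, hsSq (u s * P - P * u s) + B₀ * (trace (P * (B * Bᴴ))).re +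
      (∑ h, (star (dev v (B * Bᴴ) (Fintype.card Y) h) * dev v P (hsSq P) h).re +
        1 / 2 * ∑ h, ‖dev v P (hsSq P) h‖ ^ 2) ≤ Λ * hsSq P) :
    ∃ (Y' : Type) (_ : Fintype Y') (_ : DecidableEq Y') (B' : Matrix X Y' ℂ) (I' : ℝ),
      PickSt u v A₀ B₀ θ Λ Y' B' I' ∧ (Fintype.card Y' : ℝ) = Fintype.card Y + hsSq P := by
  obtain ⟨Z, _, _, R, hR1, hR2⟩ := exists_isometry_of_proj P hP.1 hP.2
  have hZ : (Fintype.card Z : ℝ) = hsSq P := by
    have h1 : hsSq R = Fintype.card Z := hsSq_isometry R hR1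
    have h2 := hsSq_proj P hP.1 hP.2
    rw [← hR2, trace_mul_comm, hR1, trace_one] at h2
    rw [← hR2]
    exact_mod_cast h2.symm
  have hcard : (Fintype.card (Y ⊕ Z) : ℝ) = Fintype.card Y + hsSq P := by
    rw [Fintype.card_sum, Nat.cast_add, hZ]
  have hT : fromCols B R * (fromCols B R)ᴴ = B * Bᴴ + P := by
    rw [conjTranspose_fromCols_eq_fromRows_conjTranspose, fromCols_mul_fromRows, hR2]
  refine ⟨Y ⊕ Z, inferInstance, inferInstance, fromCols B R,
    I + ∑ s, hsSq (u s * P - P * u s), ?_, hcard⟩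
  have hs0 : ∀ s, 0 ≤ hsSq (u s * P - P * u s) := fun s => hsSq_nonneg _
  refine ⟨add_nonneg hst.nonneg (Finset.sum_nonneg (fun s _ => hs0 s)), ?_, ?_, ?_⟩
  · rw [hsSq_fromCols, hst.card, hcard]
    congr 1
    rw [hsSq_isometry R hR1, hZ]
  · intro s σ hσ hσ2
    have h1 := hst.inv s σ hσ hσ2
    have h2 := proj_comm_trace (u s) P σ (hu s) (hu' s) hP hσ hσ2 θ hθ
    have h3 : hsSq (u s * P - P * u s) ≤ ∑ s, hsSq (u s * P - P * u s) :=
      Finset.single_le_sum (f := fun s => hsSq (u s * P - P * u s)) (fun s _ => hs0 s)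
        (Finset.mem_univ s)
    have h4 : θ⁻¹ * hsSq (u s * P - P * u s) ≤ θ⁻¹ * ∑ s, hsSq (u s * P - P * u s) :=
      mul_le_mul_of_nonneg_left h3 (inv_nonneg.2 hθ.le)
    rw [hT, hcard]
    have h5 : σ * (u s * (B * Bᴴ + P) * (u s)ᴴ - (B * Bᴴ + P)) =
        σ * (u s * (B * Bᴴ) * (u s)ᴴ - B * Bᴴ) + σ * (u s * P * (u s)ᴴ - P) := by
      rw [← Matrix.mul_add]
      congr 1
      rw [Matrix.mul_add, Matrix.add_mul]
      abel
    rw [h5, trace_add, Complex.add_re]
    rw [mul_add, mul_add]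
    linarith
  · rw [hT, hcard]
    have h1 : hsSq (1 - (fromCols B R)ᴴ * fromCols B R) =
        hsSq (1 - Bᴴ * B) + 2 * (trace (P * (B * Bᴴ))).re := by
      have e1 : 1 - (fromCols B R)ᴴ * fromCols B R =
          fromBlocks (1 - Bᴴ * B) (-(Bᴴ * R)) (-(Rᴴ * B)) 0 := by
        rw [conjTranspose_fromCols_eq_fromRows_conjTranspose, fromRows_mul_fromCols, hR1]
        ext i j
        rcases i with i | i <;> rcases j with j | j <;> simp [Matrix.one_apply]
      have e2 : hsSq (Rᴴ * B) = (trace (P * (B * Bᴴ))).re := by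
        rw [hsSq_eq_re, conjTranspose_mul, conjTranspose_conjTranspose]
        congr 1
        calc trace (Bᴴ * R * (Rᴴ * B)) = trace (Bᴴ * ((R * Rᴴ) * B)) := by
              simp only [Matrix.mul_assoc]
          _ = trace (P * (B * Bᴴ)) := by
              rw [hR2, trace_mul_comm, Matrix.mul_assoc]
      have e3 : hsSq (Bᴴ * R) = hsSq (Rᴴ * B) := by
        rw [← hsSq_conjTranspose, conjTranspose_mul, conjTranspose_conjTranspose]
      rw [e1, hsSq_fromBlocks, hsSq_neg, hsSq_neg, hsSq_zero, e3, e2]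
      ring
    have h2 : ∀ h, dev v (B * Bᴴ + P) (Fintype.card Y + hsSq P) h =
        dev v (B * Bᴴ) (Fintype.card Y) h + dev v P (hsSq P) h := by
      intro h
      unfold dev
      rw [Matrix.mul_add, trace_add, add_div]
      push_cast
      ring
    have h3 : ∀ h, ‖dev v (B * Bᴴ + P) (Fintype.card Y + hsSq P) h‖ ^ 2 =
        ‖dev v (B * Bᴴ) (Fintype.card Y) h‖ ^ 2 +
        2 * (star (dev v (B * Bᴴ) (Fintype.card Y) h) * dev v P (hsSq P) h).re +
        ‖dev v P (hsSq P) h‖ ^ 2 := by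
      intro h
      rw [h2 h]
      rw [← Complex.normSq_eq_norm_sq, ← Complex.normSq_eq_norm_sq, ← Complex.normSq_eq_norm_sq,
        Complex.normSq_add]
      have e1 : (star (dev v (B * Bᴴ) (Fintype.card Y) h) * dev v P (hsSq P) h).re =
          (dev v (B * Bᴴ) (Fintype.card Y) h * (starRingEnd ℂ) (dev v P (hsSq P) h)).re := by
        rw [← Complex.conj_re, map_mul, Complex.star_def, Complex.conj_conj]
      rw [e1]
      ring
    rw [h1]
    simp only [h3]
    rw [Finset.sum_add_distrib, Finset.sum_add_distrib, ← Finset.mul_sum]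
    have h4 := hst.pot
    rw [mul_add, mul_add, mul_add Λ]
    linarith

/-- A weighted family of projections of bounded rank with average a multiple of the identity. -/
structure Tiles {ι : Type} [Fintype ι] (u : S → Matrix X X ℂ) (w : ι → ℝ)
    (P : ι → Matrix X X ℂ) (m : ℕ) (c η' : ℝ) : Prop where
  c_pos : 0 < c
  w_pos : ∀ a, 0 < w a
  proj : ∀ a, (P a)ᴴ = P a ∧ P a * P a = P a
  rank : ∀ a, hsSq (P a) ≤ m
  sum : ∑ a, ((w a : ℝ) : ℂ) • P a = ((c : ℝ) : ℂ) • (1 : Matrix X X ℂ)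
  comm : ∑ a, w a * ∑ s, hsSq (u s * P a - P a * u s) ≤ η' * (c * Fintype.card X)

section tiles

variable {ι : Type} [Fintype ι] {u : S → Matrix X X ℂ} {w : ι → ℝ}
  {P : ι → Matrix X X ℂ} {m : ℕ} {c η' : ℝ}

lemma Tiles.sum_mul (hT : Tiles u w P m c η') (M : Matrix X X ℂ) :
    ∑ a, ((w a : ℝ) : ℂ) * trace (M * P a) = (c : ℂ) * trace M := by
  have h1 : trace (M * ∑ a, ((w a : ℝ) : ℂ) • P a) = (c : ℂ) * trace M := by
    rw [hT.sum, Matrix.mul_smul, Matrix.mul_one, trace_smul, smul_eq_mul]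
  rw [← h1, Matrix.mul_sum, trace_sum]
  apply Finset.sum_congr rfl
  intro a _
  rw [Matrix.mul_smul, trace_smul, smul_eq_mul]

lemma Tiles.sum_rank (hT : Tiles u w P m c η') :
    ∑ a, w a * hsSq (P a) = c * Fintype.card X := by
  have h1 := hT.sum_mul 1
  rw [trace_one] at h1
  have h2 : ∑ a, ((w a : ℝ) : ℂ) * trace (1 * P a) = ((∑ a, w a * hsSq (P a) : ℝ) : ℂ) := by
    push_cast
    apply Finset.sum_congr rfl
    intro a _
    rw [Matrix.one_mul, hsSq_proj _ (hT.proj a).1 (hT.proj a).2]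
  rw [h2] at h1
  exact_mod_cast h1

omit [Fintype Hx] in
lemma dev_le (v : Hx → Matrix X X ℂ) (hv : ∀ h, (v h)ᴴ * v h = 1) [Nonempty X]
    (Q : Matrix X X ℂ) (hQ : Qᴴ = Q ∧ Q * Q = Q) (h : Hx) :
    ‖dev v Q (hsSq Q) h‖ ≤ 2 * hsSq Q := by
  have hN : (0 : ℝ) < Fintype.card X := by exact_mod_cast Fintype.card_pos
  unfold dev
  refine (norm_sub_le _ _).trans ?_
  have h1 := trace_unitary_proj (v h) Q (hv h) hQ
  have h2 : ‖((hsSq Q / Fintype.card X : ℝ) : ℂ) * trace (v h)‖ ≤ hsSq Q := by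
    rw [norm_mul, Complex.norm_real, Real.norm_eq_abs, abs_of_nonneg (by
      have := hsSq_nonneg Q
      positivity)]
    have h3 := trace_unitary_le (v h) (hv h)
    calc hsSq Q / Fintype.card X * ‖trace (v h)‖ ≤ hsSq Q / Fintype.card X * Fintype.card X :=
          mul_le_mul_of_nonneg_left h3 (by
            have := hsSq_nonneg Q
            positivity)
      _ = hsSq Q := div_mul_cancel₀ _ hN.ne'
  linarith

/-- the averaging argument -/
lemma exists_good [Nonempty X] (hT : Tiles u w P m c η') {v : Hx → Matrix X X ℂ}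
    (hv : ∀ h, (v h)ᴴ * v h = 1) {A₀ B₀ θ Λ γ : ℝ} (hA : 0 ≤ A₀) (hB : 0 ≤ B₀)
    (hΛ : Λ = A₀ * η' + B₀ * γ + 2 * Fintype.card Hx * m) {Y : Type}
    [Fintype Y] [DecidableEq Y] {B : Matrix X Y ℂ} {I : ℝ} (hst : PickSt u v A₀ B₀ θ Λ Y B I)
    (hY : (Fintype.card Y : ℝ) ≤ γ * Fintype.card X) :
    ∃ a, P a ≠ 0 ∧ A₀ * ∑ s, hsSq (u s * P a - P a * u s) +
      B₀ * (trace (P a * (B * Bᴴ))).re +
      (∑ h, (star (dev v (B * Bᴴ) (Fintype.card Y) h) * dev v (P a) (hsSq (P a)) h).re +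
        1 / 2 * ∑ h, ‖dev v (P a) (hsSq (P a)) h‖ ^ 2) ≤ Λ * hsSq (P a) := by
  by_contra hcon
  push Not at hcon
  have hN : (0 : ℝ) < Fintype.card X := by exact_mod_cast Fintype.card_pos
  set inc : ι → ℝ := fun a => A₀ * ∑ s, hsSq (u s * P a - P a * u s) +
      B₀ * (trace (P a * (B * Bᴴ))).re +
      (∑ h, (star (dev v (B * Bᴴ) (Fintype.card Y) h) * dev v (P a) (hsSq (P a)) h).re +
        1 / 2 * ∑ h, ‖dev v (P a) (hsSq (P a)) h‖ ^ 2) with hinc
  have hzero : ∀ a, P a = 0 → inc a = Λ * hsSq (P a) := by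
    intro a ha
    have h1 : ∀ h, dev v (0 : Matrix X X ℂ) 0 h = 0 := by
      intro h
      unfold dev
      simp
    simp only [hinc, ha, Matrix.mul_zero, Matrix.zero_mul, sub_self, hsSq_zero, h1]
    simp
  have hle : ∀ a, w a * (Λ * hsSq (P a)) ≤ w a * inc a := by
    intro a
    apply mul_le_mul_of_nonneg_left _ (hT.w_pos a).le
    by_cases ha : P a = 0
    · exact (hzero a ha).ge
    · exact (hcon a ha).le
  obtain ⟨a₀, ha₀⟩ : ∃ a, P a ≠ 0 := by
    by_contra h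
    push Not at h
    have h1 := hT.sum_rank
    have h2 : ∑ a, w a * hsSq (P a) = 0 := by
      apply Finset.sum_eq_zero
      intro a _
      rw [h a, hsSq_zero, mul_zero]
    rw [h2] at h1
    have h3 := mul_pos hT.c_pos hN
    linarith
  have hlt : ∑ a, w a * (Λ * hsSq (P a)) < ∑ a, w a * inc a :=
    Finset.sum_lt_sum (fun a _ => hle a) ⟨a₀, Finset.mem_univ _,
      mul_lt_mul_of_pos_left (hcon a₀ ha₀) (hT.w_pos a₀)⟩
  have hsum1 : ∑ a, w a * (Λ * hsSq (P a)) = Λ * (c * Fintype.card X) := by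
    rw [← hT.sum_rank, Finset.mul_sum]
    apply Finset.sum_congr rfl
    intro a _
    ring
  -- the four parts
  have hp1 : ∑ a, w a * (A₀ * ∑ s, hsSq (u s * P a - P a * u s)) ≤
      A₀ * (η' * (c * Fintype.card X)) := by
    have : ∑ a, w a * (A₀ * ∑ s, hsSq (u s * P a - P a * u s)) =
        A₀ * ∑ a, w a * ∑ s, hsSq (u s * P a - P a * u s) := by
      rw [Finset.mul_sum]
      apply Finset.sum_congr rfl
      intro a _
      ring
    rw [this]
    exact mul_le_mul_of_nonneg_left hT.comm hA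
  have hp2 : ∑ a, w a * (B₀ * (trace (P a * (B * Bᴴ))).re) = B₀ * (c * Fintype.card Y) := by
    have h1 := hT.sum_mul (B * Bᴴ)
    have h2 : trace (B * Bᴴ) = ((Fintype.card Y : ℝ) : ℂ) := by
      rw [trace_mul_comm, ← hsSq_eq_trace, hst.card]
    rw [h2] at h1
    have h3 := congrArg Complex.re h1
    rw [Complex.re_sum] at h3
    have h4 : ∑ a, (((w a : ℝ) : ℂ) * trace (B * Bᴴ * P a)).re =
        ∑ a, w a * (trace (P a * (B * Bᴴ))).re := by
      apply Finset.sum_congr rfl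
      intro a _
      rw [Complex.re_ofReal_mul, trace_mul_comm]
    rw [h4] at h3
    have h5 : ((c : ℂ) * ((Fintype.card Y : ℝ) : ℂ)).re = c * Fintype.card Y := by
      rw [← Complex.ofReal_mul, Complex.ofReal_re]
    rw [h5] at h3
    rw [← h3, Finset.mul_sum]
    apply Finset.sum_congr rfl
    intro a _
    ring
  have hp3 : ∑ a, w a * ∑ h, (star (dev v (B * Bᴴ) (Fintype.card Y) h) *
      dev v (P a) (hsSq (P a)) h).re = 0 := by
    simp only [Finset.mul_sum]
    rw [Finset.sum_comm]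
    apply Finset.sum_eq_zero
    intro h _
    have h1 : ∑ a, ((w a : ℝ) : ℂ) * dev v (P a) (hsSq (P a)) h = 0 := by
      unfold dev
      simp only [mul_sub]
      rw [Finset.sum_sub_distrib, hT.sum_mul (v h)]
      have h2 : ∑ a, ((w a : ℝ) : ℂ) * (((hsSq (P a) / Fintype.card X : ℝ) : ℂ) * trace (v h)) =
          (((∑ a, w a * hsSq (P a)) / Fintype.card X : ℝ) : ℂ) * trace (v h) := by
        rw [Finset.sum_div]
        push_cast
        rw [Finset.sum_mul]
        apply Finset.sum_congr rfl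
        intro a _
        ring
      rw [h2, hT.sum_rank, mul_div_assoc, div_self hN.ne', mul_one, sub_self]
    have h2 : ∑ a, w a * (star (dev v (B * Bᴴ) (Fintype.card Y) h) *
        dev v (P a) (hsSq (P a)) h).re = (star (dev v (B * Bᴴ) (Fintype.card Y) h) *
        ∑ a, ((w a : ℝ) : ℂ) * dev v (P a) (hsSq (P a)) h).re := by
      rw [Finset.mul_sum, Complex.re_sum]
      apply Finset.sum_congr rfl
      intro a _
      rw [← Complex.re_ofReal_mul]
      congr 1
      ring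
    rw [h2, h1, mul_zero, Complex.zero_re]
  have hp4 : ∑ a, w a * (1 / 2 * ∑ h, ‖dev v (P a) (hsSq (P a)) h‖ ^ 2) ≤
      2 * Fintype.card Hx * m * (c * Fintype.card X) := by
    have h1 : ∀ a, w a * (1 / 2 * ∑ h, ‖dev v (P a) (hsSq (P a)) h‖ ^ 2) ≤
        2 * Fintype.card Hx * m * (w a * hsSq (P a)) := by
      intro a
      have h2 : ∑ h, ‖dev v (P a) (hsSq (P a)) h‖ ^ 2 ≤
          Fintype.card Hx * (4 * m * hsSq (P a)) := by
        have h3 : ∀ h ∈ (Finset.univ : Finset Hx), ‖dev v (P a) (hsSq (P a)) h‖ ^ 2 ≤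
            4 * m * hsSq (P a) := by
          intro h _
          have h4 := dev_le v hv (P a) (hT.proj a) h
          have h5 := hT.rank a
          have h6 := hsSq_nonneg (P a)
          calc ‖dev v (P a) (hsSq (P a)) h‖ ^ 2 ≤ (2 * hsSq (P a)) ^ 2 :=
                pow_le_pow_left₀ (norm_nonneg _) h4 2
            _ = 4 * hsSq (P a) * hsSq (P a) := by ring
            _ ≤ 4 * m * hsSq (P a) := by
                apply mul_le_mul_of_nonneg_right _ h6
                linarith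
        refine (Finset.sum_le_sum h3).trans (le_of_eq ?_)
        rw [Finset.sum_const, Finset.card_univ, nsmul_eq_mul]
      have h3 := mul_le_mul_of_nonneg_left h2 (hT.w_pos a).le
      calc w a * (1 / 2 * ∑ h, ‖dev v (P a) (hsSq (P a)) h‖ ^ 2)
          = 1 / 2 * (w a * ∑ h, ‖dev v (P a) (hsSq (P a)) h‖ ^ 2) := by ring
        _ ≤ 1 / 2 * (w a * (Fintype.card Hx * (4 * m * hsSq (P a)))) :=
            mul_le_mul_of_nonneg_left h3 (by norm_num)
        _ = _ := by ring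
    refine (Finset.sum_le_sum (fun a _ => h1 a)).trans (le_of_eq ?_)
    rw [← Finset.mul_sum, hT.sum_rank]
  have hsum2 : ∑ a, w a * inc a ≤ Λ * (c * Fintype.card X) := by
    have h1 : ∑ a, w a * inc a = ∑ a, w a * (A₀ * ∑ s, hsSq (u s * P a - P a * u s)) +
        ∑ a, w a * (B₀ * (trace (P a * (B * Bᴴ))).re) +
        (∑ a, w a * ∑ h, (star (dev v (B * Bᴴ) (Fintype.card Y) h) *
          dev v (P a) (hsSq (P a)) h).re +
        ∑ a, w a * (1 / 2 * ∑ h, ‖dev v (P a) (hsSq (P a)) h‖ ^ 2)) := by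
      rw [← Finset.sum_add_distrib, ← Finset.sum_add_distrib, ← Finset.sum_add_distrib]
      apply Finset.sum_congr rfl
      intro a _
      simp only [hinc]
      ring
    rw [h1, hp2, hp3, zero_add, hΛ]
    have h2 : B₀ * (c * Fintype.card Y) ≤ B₀ * (c * (γ * Fintype.card X)) :=
      mul_le_mul_of_nonneg_left (mul_le_mul_of_nonneg_left hY hT.c_pos.le) hB
    have h3 : (A₀ * η' + B₀ * γ + 2 * (Fintype.card Hx : ℝ) * m) * (c * Fintype.card X) =
        A₀ * (η' * (c * Fintype.card X)) + B₀ * (c * (γ * Fintype.card X)) +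
          2 * Fintype.card Hx * m * (c * Fintype.card X) := by ring
    rw [h3]
    linarith
  rw [hsum1] at hlt
  exact absurd (hlt.trans_le hsum2) (lt_irrefl _)

/-- the greedy choice -/
theorem exists_pick [Nonempty X] (hT : Tiles u w P m c η') (hu : ∀ s, (u s)ᴴ * u s = 1)
    (hu' : ∀ s, u s * (u s)ᴴ = 1) (v : Hx → Matrix X X ℂ) (hv : ∀ h, (v h)ᴴ * v h = 1)
    (A₀ B₀ θ γ : ℝ) (hA : 0 ≤ A₀) (hB : 0 ≤ B₀) (hθ : 0 < θ) (hγ : 0 ≤ γ) :
    ∃ (Y : Type) (_ : Fintype Y) (_ : DecidableEq Y) (B : Matrix X Y ℂ) (I : ℝ),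
      PickSt u v A₀ B₀ θ (A₀ * η' + B₀ * γ + 2 * Fintype.card Hx * m) Y B I ∧
      γ * Fintype.card X ≤ Fintype.card Y ∧
      (Fintype.card Y : ℝ) ≤ γ * Fintype.card X + m := by
  set Λ : ℝ := A₀ * η' + B₀ * γ + 2 * Fintype.card Hx * m with hΛ
  have hγN : 0 ≤ γ * Fintype.card X := by positivity
  have key : ∀ n : ℕ, ∃ (Y : Type) (_ : Fintype Y) (_ : DecidableEq Y) (B : Matrix X Y ℂ)
      (I : ℝ), PickSt u v A₀ B₀ θ Λ Y B I ∧
      ((n : ℝ) ≤ Fintype.card Y ∨ γ * Fintype.card X ≤ Fintype.card Y) ∧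
      (Fintype.card Y : ℝ) ≤ γ * Fintype.card X + m := by
    intro n
    induction n with
    | zero =>
      refine ⟨Fin 0, inferInstance, inferInstance, 0, 0, ⟨le_rfl, ?_, ?_, ?_⟩, ?_, ?_⟩
      · rw [hsSq_zero]
        simp
      · intro s σ _ _
        simp
      · have h1 : hsSq (1 - (0 : Matrix X (Fin 0) ℂ)ᴴ * (0 : Matrix X (Fin 0) ℂ)) = 0 := by
          unfold hsSq
          simp
        have h2 : ∀ h, dev v ((0 : Matrix X (Fin 0) ℂ) * (0 : Matrix X (Fin 0) ℂ)ᴴ)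
            (Fintype.card (Fin 0)) h = 0 := by
          intro h
          unfold dev
          simp
        rw [h1]
        simp only [h2]
        simp
      · left
        simp
      · simp only [Fintype.card_fin, Nat.cast_zero]
        positivity
    | succ n ih =>
      obtain ⟨Y, _, _, B, I, hst, hn, hm⟩ := ih
      by_cases hY : γ * Fintype.card X ≤ Fintype.card Y
      · exact ⟨Y, inferInstance, inferInstance, B, I, hst, Or.inr hY, hm⟩
      · push Not at hY
        obtain ⟨a, ha, hinc⟩ := exists_good hT hv hA hB hΛ hst hY.le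
        obtain ⟨Y', _, _, B', I', hst', hcard⟩ := pick_add hθ hu hu' hst (P a) (hT.proj a) hinc
        refine ⟨Y', inferInstance, inferInstance, B', I', hst', Or.inl ?_, ?_⟩
        · have h1 : (n : ℝ) ≤ Fintype.card Y := by
            rcases hn with hn | hn
            · exact hn
            · exact absurd hn (not_le.2 hY)
          have h2 : (0 : ℝ) < hsSq (P a) := by
            rcases (hsSq_nonneg (P a)).eq_or_lt with h3 | h3
            · exact absurd (hsSq_eq_zero h3.symm) ha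
            · exact h3
          have h3 : Fintype.card Y < Fintype.card Y' := by
            have : (Fintype.card Y : ℝ) < Fintype.card Y' := by
              rw [hcard]
              linarith
            exact_mod_cast this
          have h4 : (Fintype.card Y : ℝ) + 1 ≤ Fintype.card Y' := by exact_mod_cast h3
          push_cast
          linarith
        · rw [hcard]
          have := hT.rank a
          linarith
  obtain ⟨Y, i1, i2, B, I, hst, hn, hm⟩ := key ⌈γ * Fintype.card X⌉₊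
  refine ⟨Y, i1, i2, B, I, hst, ?_, hm⟩
  rcases hn with hn | hn
  · exact (Nat.le_ceil _).trans hn
  · exact hn

end tiles

end pick

end Pool.Agent.Helper94.HS
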