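import Mathlib
import Pool.Agent.Helper94.HS.Pick

/-!
From a greedy choice to a single projection.
-/

namespace Pool.Agent.Helper94.HS

open Matrix

section

variable {X Y S Hx : Type} [Fintype X] [DecidableEq X] [Fintype Y] [DecidableEq Y] [Fintype S]
  [Fintype Hx]

/-- averaging -/
lemma exists_le_of_sum_le {K : Finset ℝ} {w F : ℝ → ℝ} (hw : ∀ t ∈ K, 0 < w t) {W C : ℝ}
    (hW : ∑ t ∈ K, w t = W) (hW0 : 0 < W) (hC : ∑ t ∈ K, w t * F t ≤ W * C) :
    ∃ t ∈ K, F t ≤ C := by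
  by_contra h
  push Not at h
  have hne : K.Nonempty := by
    rw [Finset.nonempty_iff_ne_empty]
    rintro rfl
    rw [Finset.sum_empty] at hW
    exact hW0.ne hW
  have h1 : ∑ t ∈ K, w t * C < ∑ t ∈ K, w t * F t :=
    Finset.sum_lt_sum_of_nonempty hne (fun t ht => mul_lt_mul_of_pos_left (h t ht) (hw t ht))
  rw [← Finset.sum_mul, hW] at h1
  linarith

/-- choice of a level set of a positive matrix -/
lemma exists_level {V : Matrix X X ℂ} {d : X → ℝ} (hV : Vᴴ * V = 1) (hV' : V * Vᴴ = 1)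
    (hd : ∀ i, 0 ≤ d i) (u : S → Matrix X X ℂ) (hu : ∀ s, (u s)ᴴ * u s = 1)
    (hu' : ∀ s, u s * (u s)ᴴ = 1) (ε : ℝ)
    (h : ∀ (s : S) (σ : Matrix X X ℂ), σᴴ = σ → σ * σ = 1 →
      (trace (σ * (u s * fc V d id * (u s)ᴴ - fc V d id))).re ≤ ε) :
    ∃ τ : ℝ, 1 / 4 ≤ τ ∧ τ < 1 / 2 ∧
      ∑ s, hsSq (u s * fc V d (ith τ) - fc V d (ith τ) * u s) ≤
        8 * Fintype.card S * Real.sqrt (ε * ∑ i, d i) := by
  classical
  let g : ℝ → ℝ := fun x => max (min x (1 / 2)) (1 / 4) - 1 / 4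
  have hg0 : ∀ x, 0 ≤ g x := fun x => by
    have := le_max_right (min x (1 / 2)) (1 / 4 : ℝ)
    simp only [g]
    linarith
  have hg1 : ∀ x, g x ≤ 1 / 4 := fun x => by
    have : max (min x (1 / 2)) (1 / 4 : ℝ) ≤ 1 / 2 := max_le (min_le_right _ _) (by norm_num)
    simp only [g]
    linarith
  have hgabs : ∀ x y, |g y - g x| ≤ |y - x| := by
    intro x y
    simp only [g]
    have h1 : max (min y (1 / 2)) (1 / 4) - 1 / 4 - (max (min x (1 / 2)) (1 / 4) - 1 / 4) =
        max (min y (1 / 2)) (1 / 4) - max (min x (1 / 2)) (1 / 4 : ℝ) := by ring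
    rw [h1]
    refine (abs_max_sub_max_le_abs _ _ _).trans ?_
    have h2 := abs_min_sub_min_le_max y (1 / 2) x (1 / 2 : ℝ)
    rw [sub_self, abs_zero, max_eq_left (abs_nonneg _)] at h2
    exact h2
  obtain ⟨K, w, hK, hw⟩ := layer_cake (insert (1 / 4) (Finset.univ.image (fun i => g (d i)))) (by
    intro y hy
    rw [Finset.mem_insert, Finset.mem_image] at hy
    rcases hy with rfl | ⟨i, _, rfl⟩
    · norm_num
    · exact hg0 _)
  set K' := K.filter (fun t => t < 1 / 4) with hK'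
  have hK'1 : ∀ t ∈ K', 0 < w t := fun t ht => (hK t (Finset.mem_filter.1 ht).1).1
  have hW : ∑ t ∈ K', w t = 1 / 4 := by
    have h1 := hw (1 / 4) (Finset.mem_insert_self _ _)
    rw [← h1, hK', Finset.sum_filter]
    apply Finset.sum_congr rfl
    intro t _
    split_ifs <;> simp
  have hwd : ∀ i, ∑ t ∈ K, w t * (if t < g (d i) then 1 else 0) = g (d i) := fun i =>
    hw _ (Finset.mem_insert_of_mem (Finset.mem_image_of_mem _ (Finset.mem_univ i)))
  have hith : ∀ t ∈ K', ∀ i, ith (t + 1 / 4) (d i) = if t < g (d i) then 1 else 0 := by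
    intro t ht i
    have ht1 := (Finset.mem_filter.1 ht).2
    have ht0 := (hK t (Finset.mem_filter.1 ht).1).2
    unfold ith
    have h1 : t + 1 / 4 < d i ↔ t < g (d i) := by
      simp only [g]
      rw [lt_sub_iff_add_lt, lt_max_iff, lt_min_iff]
      constructor
      · intro h2
        exact Or.inl ⟨h2, by linarith⟩
      · rintro (h2 | h2)
        · exact h2.1
        · linarith
    simp only [h1]
  have hsum : ∑ t ∈ K', w t * ∑ s, hsSq (u s * fc V d (ith (t + 1 / 4)) -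
      fc V d (ith (t + 1 / 4)) * u s) ≤ 1 / 4 * (8 * Fintype.card S * Real.sqrt (ε * ∑ i, d i)) := by
    have h1 : ∀ s, ∑ t ∈ K', w t * hsSq (u s * fc V d (ith (t + 1 / 4)) -
        fc V d (ith (t + 1 / 4)) * u s) ≤ 2 * Real.sqrt (ε * ∑ i, d i) := by
      intro s
      refine le_trans ?_ (connes_est hV hV' hd (u s) (hu s) (hu' s) ε (h s))
      simp only [comm_fc hV hV', Finset.mul_sum]
      rw [Finset.sum_comm]
      apply Finset.sum_le_sum
      intro i _
      rw [Finset.sum_comm]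
      apply Finset.sum_le_sum
      intro j _
      have h2 : ∑ t ∈ K', w t * (‖(Vᴴ * u s * V) i j‖ ^ 2 *
          (ith (t + 1 / 4) (d j) - ith (t + 1 / 4) (d i)) ^ 2) =
          ‖(Vᴴ * u s * V) i j‖ ^ 2 * ∑ t ∈ K', w t * ((if t < g (d j) then (1 : ℝ) else 0) -
            (if t < g (d i) then 1 else 0)) ^ 2 := by
        rw [Finset.mul_sum]
        apply Finset.sum_congr rfl
        intro t ht
        rw [hith t ht i, hith t ht j]
        ring
      rw [h2]
      apply mul_le_mul_of_nonneg_left _ (by positivity)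
      refine le_trans ?_ (hgabs (d i) (d j))
      rw [← layer_cake_abs hK (hwd i) (hwd j)]
      apply Finset.sum_le_sum_of_subset_of_nonneg (Finset.filter_subset _ _)
      intro t ht _
      exact mul_nonneg (hK t ht).1.le (sq_nonneg _)
    have h2 : ∑ t ∈ K', w t * ∑ s, hsSq (u s * fc V d (ith (t + 1 / 4)) -
        fc V d (ith (t + 1 / 4)) * u s) = ∑ s, ∑ t ∈ K', w t *
          hsSq (u s * fc V d (ith (t + 1 / 4)) - fc V d (ith (t + 1 / 4)) * u s) := by
      simp only [Finset.mul_sum]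
      rw [Finset.sum_comm]
    rw [h2]
    refine (Finset.sum_le_sum (fun s _ => h1 s)).trans (le_of_eq ?_)
    rw [Finset.sum_const, Finset.card_univ, nsmul_eq_mul]
    ring
  obtain ⟨t, ht, hle⟩ := exists_le_of_sum_le (F := fun t => ∑ s,
    hsSq (u s * fc V d (ith (t + 1 / 4)) - fc V d (ith (t + 1 / 4)) * u s)) hK'1 hW
    (by norm_num) hsum
  have ht1 := (Finset.mem_filter.1 ht).2
  have ht0 := (hK t (Finset.mem_filter.1 ht).1).2
  exact ⟨t + 1 / 4, by linarith, by linarith, hle⟩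

omit [DecidableEq X] in
lemma hsSq_one_sub (B : Matrix X Y ℂ) (hB : hsSq B = Fintype.card Y) :
    hsSq (1 - Bᴴ * B) = hsSq (B * Bᴴ) - Fintype.card Y := by
  have h1 : trace ((1 - Bᴴ * B)ᴴ * (1 - Bᴴ * B)) =
      trace (1 : Matrix Y Y ℂ) - trace (Bᴴ * B) - trace (Bᴴ * B) +
        trace ((B * Bᴴ)ᴴ * (B * Bᴴ)) := by
    rw [conjTranspose_sub, conjTranspose_one, conjTranspose_mul, conjTranspose_mul,
      conjTranspose_conjTranspose, Matrix.sub_mul, Matrix.mul_sub, Matrix.mul_sub]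
    rw [trace_sub, trace_sub, trace_sub, Matrix.one_mul, Matrix.mul_one, Matrix.one_mul]
    have h2 : trace (Bᴴ * B * (Bᴴ * B)) = trace (B * Bᴴ * (B * Bᴴ)) := by
      rw [Matrix.mul_assoc, trace_mul_comm]
      simp only [Matrix.mul_assoc]
    rw [h2]
    ring
  rw [hsSq_eq_re, h1, ← hsSq_eq_trace, ← hsSq_eq_trace, trace_one, hB]
  simp
  ring

/-- replacing the positive matrix by the level set -/
lemma level_est {V : Matrix X X ℂ} {d : X → ℝ} (hV : Vᴴ * V = 1)
    (hd : ∀ i, 0 ≤ d i) (R : ℝ) (hR : ∑ i, d i = R)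
    (hrk : ((Finset.univ.filter (fun i => d i ≠ 0)).card : ℝ) ≤ R) (τ : ℝ) (h1 : 1 / 4 ≤ τ)
    (h2 : τ < 1 / 2) (v : Matrix X X ℂ) (hv : vᴴ * v = 1) (b : ℝ) (hb : 0 ≤ b)
    (hb2 : R * (∑ i, d i ^ 2 - R) ≤ b ^ 2) :
    ‖trace (v * fc V d (ith τ)) - trace (v * fc V d id)‖ ≤ b := by
  have hR0 : 0 ≤ R := le_trans (Nat.cast_nonneg _) hrk
  let z : ℝ → ℝ := fun x => if x = 0 then 0 else 1
  have hz : fc V d (fun x => z x * (ith τ x - id x)) = fc V d (ith τ) - fc V d id := by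
    rw [fc_sub]
    congr 1
    funext x
    simp only [z, id]
    split_ifs with hx
    · rw [hx]
      unfold ith
      rw [if_neg (by linarith)]
      ring
    · ring
  have e1 : trace (v * fc V d (ith τ)) - trace (v * fc V d id) =
      trace ((fc V d z * vᴴ)ᴴ * (fc V d (fun x => z x * (ith τ x - id x)))) := by
    rw [conjTranspose_mul, conjTranspose_conjTranspose, fc_conjTranspose, Matrix.mul_assoc,
      fc_mul hV, ← trace_sub, ← Matrix.mul_sub, ← hz]
    congr 3
    funext x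
    simp only [z]
    split_ifs <;> ring
  rw [e1]
  apply trace_cs_le _ _ _ hb
  refine le_trans ?_ hb2
  rw [hsSq_mul_coisometry vᴴ (by rw [conjTranspose_conjTranspose, hv]), hsSq_fc hV, hsSq_fc hV]
  have e2 : ∑ i, z (d i) ^ 2 ≤ R := by
    refine le_trans (le_of_eq ?_) hrk
    rw [Finset.card_eq_sum_ones, Finset.sum_filter]
    push_cast
    apply Finset.sum_congr rfl
    intro i _
    simp only [z]
    by_cases hi : d i = 0
    · simp [hi]
    · simp [hi]
  have e3 : ∑ i, (z (d i) * (ith τ (d i) - id (d i))) ^ 2 ≤ ∑ i, d i ^ 2 - R := by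
    have e4 : ∀ i, (z (d i) * (ith τ (d i) - id (d i))) ^ 2 ≤
        d i ^ 2 - 2 * d i + z (d i) ^ 2 := by
      intro i
      simp only [z, id]
      by_cases hi : d i = 0
      · simp [hi]
      · rw [if_neg hi]
        have hdi := hd i
        unfold ith
        by_cases hτ : τ < d i
        · rw [if_pos hτ]
          nlinarith
        · rw [if_neg hτ]
          push Not at hτ
          nlinarith
    refine (Finset.sum_le_sum (fun i _ => e4 i)).trans ?_
    rw [Finset.sum_add_distrib, Finset.sum_sub_distrib, ← Finset.mul_sum, hR]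
    linarith
  exact mul_le_mul e2 e3 (Finset.sum_nonneg (fun i _ => sq_nonneg _)) hR0

variable {ι : Type} [Fintype ι] {u : S → Matrix X X ℂ} {w : ι → ℝ}
  {P : ι → Matrix X X ℂ} {m : ℕ} {c : ℝ}

/-- a single almost invariant projection of given relative rank -/
theorem exists_proj_of_tiles [Nonempty X] {ρ : ℝ} (hρ : 0 < ρ) (hT : Tiles u w P m c (ρ ^ 4))
    (hu : ∀ s, (u s)ᴴ * u s = 1) (hu' : ∀ s, u s * (u s)ᴴ = 1) (v : Hx → Matrix X X ℂ)
    (hv : ∀ h, (v h)ᴴ * v h = 1) (η B₀ : ℝ) (hη : 0 < η) (hB0 : 0 < B₀)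
    (hB : 2 * Fintype.card Hx * m ≤ B₀ * η) :
    ∃ (R : ℝ) (e : Matrix X X ℂ), eᴴ = e ∧ e * e = e ∧ η * Fintype.card X ≤ R ∧
      R ≤ η * Fintype.card X + m ∧
      ∑ s, hsSq (u s * e - e * u s) ≤ 16 * Fintype.card S * ρ * R ∧
      ∀ h, ‖trace (v h * e) - (η : ℂ) * trace (v h)‖ ≤
        Real.sqrt (6 * η) * R + Real.sqrt (6 * η * B₀ * R) + m := by
  have hρ4 : 0 < ρ ^ 4 := by positivity
  have hN : (0 : ℝ) < Fintype.card X := by exact_mod_cast Fintype.card_pos
  set A₀ := η * B₀ / ρ ^ 4 with hA₀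
  have hA0 : 0 < A₀ := by positivity
  have hAρ : A₀ * ρ ^ 4 = η * B₀ := div_mul_cancel₀ _ hρ4.ne'
  obtain ⟨Y, _, _, B, I, hst, hR1, hR2⟩ := exists_pick hT hu hu' v hv A₀ B₀ (ρ ^ 2) η hA0.le
    hB0.le (by positivity) hη.le
  set R : ℝ := (Fintype.card Y : ℝ) with hR
  have hR0 : 0 < R := lt_of_lt_of_le (by positivity) hR1
  have hΛ : A₀ * ρ ^ 4 + B₀ * η + 2 * Fintype.card Hx * m ≤ 3 * η * B₀ := by
    rw [hAρ]
    linarith
  have hpot := hst.pot
  have hdev0 : 0 ≤ ∑ h, ‖dev v (B * Bᴴ) (Fintype.card Y) h‖ ^ 2 :=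
    Finset.sum_nonneg (fun h _ => by positivity)
  have hI0 := hst.nonneg
  have hν0 := hsSq_nonneg (1 - Bᴴ * B)
  have hΛR : (A₀ * ρ ^ 4 + B₀ * η + 2 * Fintype.card Hx * m) * R ≤ 3 * η * B₀ * R :=
    mul_le_mul_of_nonneg_right hΛ hR0.le
  have hAI : A₀ * I ≤ 3 * η * B₀ * R := by
    have := mul_nonneg (by positivity : 0 ≤ B₀ / 2) hν0
    linarith
  have hI : I ≤ 3 * ρ ^ 4 * R := by
    have h1 : A₀ * I ≤ A₀ * (3 * ρ ^ 4 * R) := by
      calc A₀ * I ≤ 3 * (η * B₀) * R := by linarith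
        _ = A₀ * (3 * ρ ^ 4 * R) := by rw [← hAρ]; ring
    exact le_of_mul_le_mul_left h1 hA0
  have hν : hsSq (1 - Bᴴ * B) ≤ 6 * η * R := by
    have h1 : B₀ / 2 * hsSq (1 - Bᴴ * B) ≤ B₀ / 2 * (6 * η * R) := by
      have := mul_nonneg hA0.le hI0
      calc B₀ / 2 * hsSq (1 - Bᴴ * B) ≤ 3 * η * B₀ * R := by linarith
        _ = B₀ / 2 * (6 * η * R) := by ring
    exact le_of_mul_le_mul_left h1 (by positivity)
  obtain ⟨V, d, hV, hV', hd, hM, hrk⟩ := exists_psd B
  have hsd : ∑ i, d i = R := by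
    have h1 : trace (B * Bᴴ) = ((hsSq B : ℝ) : ℂ) := by
      rw [trace_mul_comm, hsSq_eq_trace]
    rw [hM, trace_fc hV, hst.card] at h1
    have h2 : ∑ i, id (d i) = R := by exact_mod_cast h1
    exact h2
  have hsd2 : ∑ i, d i ^ 2 - R ≤ 6 * η * R := by
    have h1 := hsSq_one_sub B hst.card
    rw [hM, hsSq_fc hV] at h1
    simp only [id] at h1
    rw [h1] at hν
    exact hν
  obtain ⟨τ, hτ1, hτ2, hτ⟩ := exists_level hV hV' hd u hu hu' (4 * ρ ^ 2 * R) (by
    intro s σ hσ hσ2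
    rw [← hM]
    refine (hst.inv s σ hσ hσ2).trans ?_
    have h1 : (ρ ^ 2)⁻¹ * I ≤ 3 * ρ ^ 2 * R := by
      have h2 : (ρ ^ 2)⁻¹ * I ≤ (ρ ^ 2)⁻¹ * (3 * ρ ^ 4 * R) :=
        mul_le_mul_of_nonneg_left hI (by positivity)
      refine h2.trans (le_of_eq ?_)
      field_simp
    linarith)
  refine ⟨R, fc V d (ith τ), fc_conjTranspose _, ?_, hR1, hR2, ?_, ?_⟩
  · rw [fc_mul hV]
    congr 1
    funext y
    unfold ith
    split_ifs <;> norm_num
  · refine hτ.trans (le_of_eq ?_)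
    rw [hsd]
    have h1 : 4 * ρ ^ 2 * R * R = (2 * ρ * R) ^ 2 := by ring
    rw [h1, Real.sqrt_sq (by positivity)]
    ring
  · intro h
    have h1 : ‖trace (v h * fc V d (ith τ)) - trace (v h * fc V d id)‖ ≤
        Real.sqrt (6 * η) * R := by
      apply level_est hV hd R hsd (by rw [hR]; exact_mod_cast hrk) τ hτ1 hτ2 (v h) (hv h) _
        (by positivity)
      rw [mul_pow, Real.sq_sqrt (by positivity)]
      calc R * (∑ i, d i ^ 2 - R) ≤ R * (6 * η * R) := mul_le_mul_of_nonneg_left hsd2 hR0.le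
        _ = 6 * η * R ^ 2 := by ring
    have h2 : ‖dev v (B * Bᴴ) (Fintype.card Y) h‖ ≤ Real.sqrt (6 * η * B₀ * R) := by
      apply Real.le_sqrt_of_sq_le
      have h3 : ‖dev v (B * Bᴴ) (Fintype.card Y) h‖ ^ 2 ≤
          ∑ h, ‖dev v (B * Bᴴ) (Fintype.card Y) h‖ ^ 2 :=
        Finset.single_le_sum (f := fun h => ‖dev v (B * Bᴴ) (Fintype.card Y) h‖ ^ 2)
          (fun h _ => by positivity) (Finset.mem_univ h)
      have h4 := mul_nonneg (by positivity : 0 ≤ B₀ / 2) hν0
      have h5 := mul_nonneg hA0.le hI0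
      linarith
    have h3 : ‖((R / Fintype.card X : ℝ) : ℂ) * trace (v h) - (η : ℂ) * trace (v h)‖ ≤ m := by
      rw [← sub_mul, norm_mul, ← Complex.ofReal_sub, Complex.norm_real, Real.norm_eq_abs]
      have h4 := trace_unitary_le (v h) (hv h)
      have h5 : |R / Fintype.card X - η| ≤ m / Fintype.card X := by
        rw [abs_le]
        constructor
        · have h6 : η ≤ R / Fintype.card X := by
            rw [le_div_iff₀ hN]
            exact hR1
          have h7 : 0 ≤ (m : ℝ) / Fintype.card X := by positivity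
          linarith
        · rw [sub_le_iff_le_add, div_add' _ _ _ hN.ne']
          apply div_le_div_of_nonneg_right _ hN.le
          linarith
      calc |R / Fintype.card X - η| * ‖trace (v h)‖ ≤ m / Fintype.card X * Fintype.card X :=
            mul_le_mul h5 h4 (norm_nonneg _) (by positivity)
        _ = m := div_mul_cancel₀ _ hN.ne'
    have h4 : trace (v h * fc V d (ith τ)) - (η : ℂ) * trace (v h) =
        (trace (v h * fc V d (ith τ)) - trace (v h * fc V d id)) +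
        dev v (B * Bᴴ) (Fintype.card Y) h +
        (((R / Fintype.card X : ℝ) : ℂ) * trace (v h) - (η : ℂ) * trace (v h)) := by
      unfold dev
      rw [hM]
      ring
    rw [h4]
    refine (norm_add_le _ _).trans (add_le_add ((norm_add_le _ _).trans (add_le_add h1 h2)) h3)

end

end Pool.Agent.Helper94.HS
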