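import Mathlib
import Pool.Agent.Helper94.HS.Proj
import Pool.Agent.Helper94.TreeDefs

/-!
Almost invariant projections of prescribed size for representations of amenable groups.
-/

namespace Pool.Agent.Helper94.HS

open Matrix

theorem exists_del_proj {G : Type} [Group G] (hG : FolnerAmenable G) (S' K : Finset G)
    (η τ ζ : ℝ) (hη : 0 < η) (hη1 : η ≤ 1) (hτ : 0 < τ) (hζ : 0 < ζ) :
    ∃ N₀ : ℕ, ∀ A : URep G, N₀ ≤ A.dim → ∃ e : Matrix A.X A.X ℂ, eᴴ = e ∧ e * e = e ∧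
      (∀ s ∈ S', hsSq (A.a s * e - e * A.a s) ≤ τ * A.dim) ∧
      ∀ k ∈ K, ‖trace (A.a k * e) - (η : ℂ) * A.chi k‖ ≤ (3 * η * Real.sqrt η + ζ) * A.dim := by
  classical
  set n : ℝ := (S'.card : ℝ) with hn
  have hn0 : 0 ≤ n := Nat.cast_nonneg _
  set ρ : ℝ := τ / (32 * (n + 1)) with hρdef
  have hρ : 0 < ρ := by positivity
  have hρeq : ρ * (32 * (n + 1)) = τ := div_mul_cancel₀ _ (by positivity)
  set κ : ℝ := (ρ ^ 4 / (2 * (n + 1))) ^ 2 / 2 with hκdef
  have hκ : 0 < κ := by positivity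
  have hκs : n * (2 * Real.sqrt (2 * κ)) ≤ ρ ^ 4 := by
    have h1 : 2 * κ = (ρ ^ 4 / (2 * (n + 1))) ^ 2 := by
      rw [hκdef]
      ring
    rw [h1, Real.sqrt_sq (by positivity)]
    have h2 : n * (2 * (ρ ^ 4 / (2 * (n + 1)))) = ρ ^ 4 * (n / (n + 1)) := by
      field_simp
    rw [h2]
    have h3 : n / (n + 1) ≤ 1 := by
      rw [div_le_one (by positivity)]
      linarith
    have h4 : 0 ≤ ρ ^ 4 := by positivity
    nlinarith
  obtain ⟨F', hF'fin, hF'ne, hF'⟩ := hG (S' : Set G) κ (Finset.finite_toSet _) hκ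
  set F : Finset G := hF'fin.toFinset with hF
  have hFmem : ∀ g, g ∈ F ↔ g ∈ F' := fun g => hF'fin.mem_toFinset
  have hFcard : Nat.card F' = F.card := by
    rw [Nat.card_coe_set_eq, Set.ncard_eq_toFinset_card F' hF'fin]
  have hFb : ∀ s ∈ S', ((F.filter (fun f => s * f ∉ F)).card : ℝ) ≤ κ * F.card := by
    intro s hs
    have h1 := hF' s (Finset.mem_coe.2 hs)
    rw [hFcard] at h1
    refine le_trans (le_of_eq ?_) h1
    congr 1
    rw [← Fintype.card_coe, ← Nat.card_eq_fintype_card]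
    apply Nat.card_congr
    apply Equiv.subtypeEquivRight
    intro f
    rw [Finset.mem_filter, hFmem, hFmem]
  set m : ℕ := F.card with hm
  have hmpos : 0 < m := by
    rw [hm, Finset.card_pos]
    obtain ⟨g, hg⟩ := hF'ne
    exact ⟨g, (hFmem g).2 hg⟩
  have hmpos' : (0 : ℝ) < m := by exact_mod_cast hmpos
  set B₀ : ℝ := 2 * K.card * m / η + 1 with hB₀
  have hB₀pos : 0 < B₀ := by positivity
  have hB₀2 : 2 * (Fintype.card {k // k ∈ K} : ℝ) * m ≤ B₀ * η := by
    rw [Fintype.card_coe, hB₀, add_mul, div_mul_cancel₀ _ hη.ne']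
    linarith
  obtain ⟨N₁, hN₁⟩ := exists_nat_gt (max (m : ℝ) (max (48 * B₀ / ζ ^ 2) (8 * m / ζ)))
  refine ⟨N₁ + 1, ?_⟩
  intro A hA
  have hAdim : (A.dim : ℝ) = Fintype.card A.X := rfl
  set N : ℝ := (A.dim : ℝ) with hN
  have hN1 : (N₁ : ℝ) + 1 ≤ N := by
    rw [hN]
    exact_mod_cast hA
  have hNm : (m : ℝ) ≤ N := by
    have := (le_max_left (m : ℝ) (max (48 * B₀ / ζ ^ 2) (8 * m / ζ))).trans hN₁.le
    linarith
  have hN2 : 48 * B₀ / ζ ^ 2 ≤ N := by
    have := ((le_max_left (48 * B₀ / ζ ^ 2) (8 * m / ζ)).trans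
      (le_max_right (m : ℝ) _)).trans hN₁.le
    linarith
  have hN3 : 8 * m / ζ ≤ N := by
    have := ((le_max_right (48 * B₀ / ζ ^ 2) (8 * m / ζ)).trans
      (le_max_right (m : ℝ) _)).trans hN₁.le
    linarith
  have hNpos : 0 < N := lt_of_lt_of_le hmpos' hNm
  have hne : Nonempty A.X := by
    have : 0 < Fintype.card A.X := by
      have h1 : (0 : ℝ) < Fintype.card A.X := by rw [← hAdim]; exact hNpos
      exact_mod_cast h1
    exact Fintype.card_pos_iff.1 this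
  obtain ⟨ι, _, w, P, hw, hP, hPr, hPs, hPc⟩ := exists_tiles A F κ S' hFb
  have hT : Tiles (fun s : {s // s ∈ S'} => A.a s.1) w P m (m : ℝ) (ρ ^ 4) := by
    refine ⟨hmpos', hw, hP, hPr, hPs, ?_⟩
    have h1 : ∑ a, w a * ∑ s : {s // s ∈ S'}, hsSq (A.a s.1 * P a - P a * A.a s.1) =
        ∑ s : {s // s ∈ S'}, ∑ a, w a * hsSq (A.a s.1 * P a - P a * A.a s.1) := by
      simp only [Finset.mul_sum]
      rw [Finset.sum_comm]
    rw [h1]
    refine (Finset.sum_le_sum (fun s _ => hPc s.1 s.2)).trans ?_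
    rw [Finset.sum_const, Finset.card_univ, Fintype.card_coe, nsmul_eq_mul, ← hAdim]
    calc (S'.card : ℝ) * (2 * Real.sqrt (2 * κ) * (m * N))
        = (n * (2 * Real.sqrt (2 * κ))) * (m * N) := by ring
      _ ≤ ρ ^ 4 * (m * N) := mul_le_mul_of_nonneg_right hκs (by positivity)
  obtain ⟨R, e, he1, he2, hR1, hR2, hec, het⟩ := exists_proj_of_tiles hρ hT
    (fun s => A.st_mul s.1) (fun s => A.mul_st s.1) (fun k : {k // k ∈ K} => A.a k.1)
    (fun k => A.st_mul k.1) η B₀ hη hB₀pos hB₀2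
  rw [← hAdim] at hR1 hR2
  have hηN : 0 < η * N := by positivity
  have hR0 : 0 < R := lt_of_lt_of_le hηN hR1
  have hR3 : R ≤ 2 * N := by nlinarith
  refine ⟨e, he1, he2, ?_, ?_⟩
  · intro s hs
    have hall : ∀ (f : {s // s ∈ S'} → ℝ) (hf : ∀ s, 0 ≤ f s), f ⟨s, hs⟩ ≤ ∑ s, f s :=
      fun f hf => Finset.single_le_sum (fun s _ => hf s) (Finset.mem_univ _)
    have h1 := hall (fun s => hsSq (A.a s.1 * e - e * A.a s.1)) (fun s => hsSq_nonneg _)
    rw [Fintype.card_coe] at hec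
    refine (h1.trans hec).trans ?_
    have h2 : 16 * n * ρ * R ≤ 16 * n * ρ * (2 * N) :=
      mul_le_mul_of_nonneg_left hR3 (by positivity)
    refine h2.trans ?_
    rw [← hρeq]
    have h3 : 0 ≤ ρ * N := by positivity
    nlinarith
  · intro k hk
    have h1 := het ⟨k, hk⟩
    have h2 : A.chi k = trace (A.a k) := rfl
    rw [h2]
    refine h1.trans ?_
    have hs0 : 0 ≤ Real.sqrt η := Real.sqrt_nonneg _
    have hs1 : Real.sqrt η ≤ 1 := by
      rw [Real.sqrt_le_one]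
      exact hη1
    have h3 : Real.sqrt (6 * η) ≤ 5 / 2 * Real.sqrt η := by
      rw [Real.sqrt_mul (by norm_num)]
      apply mul_le_mul_of_nonneg_right _ hs0
      rw [Real.sqrt_le_left (by norm_num)]
      norm_num
    have h4 : Real.sqrt (6 * η) * R ≤ 5 / 2 * η * Real.sqrt η * N + 5 / 2 * m := by
      calc Real.sqrt (6 * η) * R ≤ 5 / 2 * Real.sqrt η * (η * N + m) :=
            mul_le_mul h3 hR2 hR0.le (by positivity)
        _ = 5 / 2 * η * Real.sqrt η * N + 5 / 2 * (Real.sqrt η * m) := by ring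
        _ ≤ _ := by
            have : Real.sqrt η * m ≤ 1 * m := mul_le_mul_of_nonneg_right hs1 hmpos'.le
            linarith
    have h5 : Real.sqrt (6 * η * B₀ * R) ≤ ζ / 2 * N := by
      rw [Real.sqrt_le_left (by positivity)]
      have h6 : 48 * B₀ ≤ N * ζ ^ 2 := by
        rwa [div_le_iff₀ (by positivity)] at hN2
      have h7 : 6 * η * B₀ * R ≤ 12 * B₀ * N := by
        have : η * R ≤ 1 * (2 * N) := mul_le_mul hη1 hR3 hR0.le (by norm_num)
        calc 6 * η * B₀ * R = 6 * B₀ * (η * R) := by ring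
          _ ≤ 6 * B₀ * (1 * (2 * N)) := mul_le_mul_of_nonneg_left this (by positivity)
          _ = _ := by ring
      refine h7.trans ?_
      calc 12 * B₀ * N = (48 * B₀) * (N / 4) := by ring
        _ ≤ (N * ζ ^ 2) * (N / 4) := mul_le_mul_of_nonneg_right h6 (by positivity)
        _ = (ζ / 2 * N) ^ 2 := by ring
    have h6 : 8 * m ≤ N * ζ := by
      rwa [div_le_iff₀ hζ] at hN3
    have h7 : 0 ≤ η * Real.sqrt η * N := by positivity
    nlinarith

end Pool.Agent.Helper94.HS
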