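import Mathlib
import Pool.Agent.Helper94.HS.Glue
import Pool.Agent.Helper94.HS.Pick

/-!
Polar parts of almost unitary matrices and intertwiners.
-/

namespace Pool.Agent.Helper94.HS

open Matrix

/-- the polar part of an almost isometric intertwiner -/
lemma polar_int_est {H : Type} [Group H] {A B : URep H} (T : Matrix B.X A.X ℂ)
    (hT : IsInt A B T) : ∃ (W : Matrix B.X A.X ℂ) (r : ℕ), IsInt A B W ∧ W * (Wᴴ * W) = W ∧
      trace (1 - Wᴴ * W) = (r : ℂ) ∧ (r : ℝ) ≤ 4 * hsSq (1 - Tᴴ * T) ∧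
      hsSq (W - T) ≤ 2 * hsSq (1 - Tᴴ * T) := by
  obtain ⟨V, d, hV, hV', hd, hM, hWW, hWE, hint⟩ := exists_polar_int (1 / 2) (by norm_num) T hT
  set W := T * fc V d (pth (1 / 2)) with hW
  have hβ2 : hsSq (1 - Tᴴ * T) = ∑ i, (1 - d i) ^ 2 := by
    rw [hM, ← fc_one (d := d) hV', fc_sub, hsSq_fc hV]
    rfl
  have hP1 : (Wᴴ * W)ᴴ = Wᴴ * W := by
    rw [conjTranspose_mul, conjTranspose_conjTranspose]
  have hP2 : W * (Wᴴ * W) = W := by rw [hWW, hWE]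
  have hP3 : (Wᴴ * W) * (Wᴴ * W) = Wᴴ * W := by rw [Matrix.mul_assoc, hP2]
  obtain ⟨r, hr, _⟩ := trace_proj_nat (1 - Wᴴ * W) (by
    rw [conjTranspose_sub, conjTranspose_one, hP1]) (by
    rw [Matrix.sub_mul, Matrix.mul_sub, Matrix.mul_sub, hP3]; simp)
  refine ⟨W, r, hint, hP2, hr, ?_, ?_⟩
  · have h1 : trace (1 - Wᴴ * W) = ((∑ i, (1 - ith (1 / 2) (d i)) : ℝ) : ℂ) := by
      rw [hWW, ← fc_one (d := d) hV', fc_sub, trace_fc hV]
    rw [hr] at h1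
    have h2 : (r : ℝ) = ∑ i, (1 - ith (1 / 2) (d i)) := by exact_mod_cast h1
    rw [h2, hβ2]
    calc ∑ i, (1 - ith (1 / 2) (d i)) ≤ ∑ i, 4 * (1 - d i) ^ 2 :=
          Finset.sum_le_sum (fun i _ => ith_est _)
      _ = 4 * ∑ i, (1 - d i) ^ 2 := by rw [Finset.mul_sum]
  · have h4 : T - W = T * fc V d (fun x => 1 - pth (1 / 2) x) := by
      rw [← fc_sub, fc_one hV', Matrix.mul_sub, Matrix.mul_one]
    rw [hsSq_sub_comm, h4, hsSq_mul_fc hV T hM, hβ2, Finset.mul_sum]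
    exact Finset.sum_le_sum (fun i _ => pth_est _ (hd i))

/-- averaging an almost intertwiner -/
lemma exists_pi_int' {H : Type} [Group H] [Fintype H] (A B : URep H)
    (D : Matrix B.X A.X ℂ) (δ η : ℝ)
    (hc : ∀ (Z : Type) [Fintype Z] (M : Matrix B.X Z ℂ), hsSq (Dᴴ * M) ≤ hsSq M)
    (hδ : hsSq (1 - Dᴴ * D) ≤ δ)
    (hD : ∀ h, hsSq (B.a h * D - D * A.a h) ≤ η) :
    ∃ (W : Matrix B.X A.X ℂ) (r : ℕ), IsInt A B W ∧ W * (Wᴴ * W) = W ∧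
      trace (1 - Wᴴ * W) = (r : ℂ) ∧ (r : ℝ) ≤ 8 * δ + 32 * η ∧
      hsSq (W - D) ≤ 8 * δ + 34 * η := by
  classical
  set T : Matrix B.X A.X ℂ := (((Fintype.card H : ℝ)⁻¹ : ℝ) : ℂ) • ∑ h, B.a h * D * A.a h⁻¹ with hT
  have hTint : IsInt A B T := by
    intro k
    rw [hT, Matrix.mul_smul, Matrix.smul_mul, Matrix.mul_sum, Matrix.sum_mul]
    congr 1
    refine Fintype.sum_equiv (Equiv.mulLeft k) _ _ ?_
    intro h
    simp only [Equiv.coe_mulLeft]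
    rw [B.mul, _root_.mul_inv_rev, A.mul]
    calc B.a k * (B.a h * D * A.a h⁻¹)
        = B.a k * B.a h * D * (A.a h⁻¹ * 1) := by
          simp only [Matrix.mul_assoc, Matrix.mul_one]
      _ = B.a k * B.a h * D * (A.a h⁻¹ * (A.a k⁻¹ * A.a k)) := by
          rw [A.a_inv_mul_a]
      _ = _ := by simp only [Matrix.mul_assoc]
  have hAco : ∀ h, A.a h * (A.a h)ᴴ = 1 := fun h => by rw [A.star, A.a_mul_a_inv]
  have hTD : hsSq (T - D) ≤ η := by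
    have h1 : T - D = (((Fintype.card H : ℝ)⁻¹ : ℝ) : ℂ) • ∑ h, (B.a h * D * A.a h⁻¹ - D) := by
      rw [Finset.sum_sub_distrib, smul_sub, avg_const]
    rw [h1]
    apply hsSq_avg_le
    intro h
    have h2 : B.a h * D * A.a h⁻¹ - D = (B.a h * D - D * A.a h) * A.a h⁻¹ := by
      rw [Matrix.sub_mul, Matrix.mul_assoc D, A.a_mul_a_inv, Matrix.mul_one]
    rw [h2, hsSq_mul_coisometry _ (hAco _)]
    exact hD h
  have hη : 0 ≤ η := (hsSq_nonneg _).trans hTD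
  have hDT : hsSq (D - T) ≤ η := by rw [hsSq_sub_comm]; exact hTD
  have hc' : ∀ (Z : Type) [Fintype Z] (M : Matrix Z B.X ℂ), hsSq (M * D) ≤ hsSq M := by
    intro Z _ M
    rw [← hsSq_conjTranspose, conjTranspose_mul, ← hsSq_conjTranspose M]
    exact hc Z Mᴴ
  -- the defect
  have hβ : hsSq (1 - Tᴴ * T) ≤ 2 * δ + 8 * η := by
    have h1 : 1 - Tᴴ * T = (1 - Dᴴ * D) + (Dᴴ * (D - T) + (D - T)ᴴ * T) := by
      rw [Matrix.mul_sub, conjTranspose_sub, Matrix.sub_mul]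
      abel
    rw [h1]
    have h4 : hsSq (Dᴴ * (D - T)) ≤ η := (hc _ _).trans hDT
    have h5 : hsSq ((D - T)ᴴ * T) ≤ η := by
      refine le_trans ?_ hDT
      have h6 : (D - T)ᴴ * T = (((Fintype.card H : ℝ)⁻¹ : ℝ) : ℂ) •
          ∑ h, (D - T)ᴴ * (B.a h * D * A.a h⁻¹) := by
        rw [← Matrix.mul_sum, ← Matrix.mul_smul]
      rw [h6]
      apply hsSq_avg_le
      intro h
      have h7 : (D - T)ᴴ * (B.a h * D * A.a h⁻¹) = ((D - T)ᴴ * B.a h) * D * A.a h⁻¹ := by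
        simp only [Matrix.mul_assoc]
      rw [h7, hsSq_mul_coisometry _ (hAco _)]
      refine (hc' _ _).trans ?_
      rw [hsSq_mul_coisometry _ (by rw [B.star, B.a_mul_a_inv]), hsSq_conjTranspose]
    have h6 := hsSq_add_le (1 - Dᴴ * D) (Dᴴ * (D - T) + (D - T)ᴴ * T)
    have h7 := hsSq_add_le (Dᴴ * (D - T)) ((D - T)ᴴ * T)
    linarith
  obtain ⟨W, r, hW1, hW2, hW3, hW4, hW5⟩ := polar_int_est T hTint
  refine ⟨W, r, hW1, hW2, hW3, by linarith, ?_⟩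
  have h1 : W - D = (W - T) + (T - D) := by abel
  rw [h1]
  refine (hsSq_add_le _ _).trans ?_
  linarith

/-- the representation of the trivial group -/
@[reducible] def unitRep (X : Type) [Fintype X] [DecidableEq X] : URep (Multiplicative (Fin 1)) where
  X := X
  a := fun _ => 1
  one := rfl
  mul := fun _ _ => (Matrix.one_mul 1).symm
  star := fun _ => conjTranspose_one

/-- an almost unitary matrix is close to a unitary matrix -/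
lemma exists_near_unitary {X Y : Type} [Fintype X] [DecidableEq X] [Fintype Y] [DecidableEq Y]
    (hc : Fintype.card X = Fintype.card Y) (M : Matrix X Y ℂ) :
    ∃ Θ : Matrix X Y ℂ, Θᴴ * Θ = 1 ∧ Θ * Θᴴ = 1 ∧ hsSq (Θ - M) ≤ 12 * hsSq (1 - Mᴴ * M) := by
  have hM : IsInt (unitRep Y) (unitRep X) M := by
    intro h
    change (1 : Matrix X X ℂ) * M = M * (1 : Matrix Y Y ℂ)
    rw [Matrix.one_mul, Matrix.mul_one]
  obtain ⟨W, r, hW1, hW2, hW3, hW4, hW5⟩ := polar_int_est (A := unitRep Y) (B := unitRep X) M hM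
  obtain ⟨Θ, -, hΘ1, hΘ2, hΘ3⟩ := exists_unitary_ext (unitRep Y) (unitRep X) (fun h => by
    change trace (1 : Matrix Y Y ℂ) = trace (1 : Matrix X X ℂ)
    rw [trace_one, trace_one, hc]) W hW1 hW2
  refine ⟨Θ, hΘ1, hΘ2, ?_⟩
  have h1 : Θ - M = Θ * (1 - Wᴴ * W) + (W - M) := by
    rw [Matrix.mul_sub, Matrix.mul_one, hΘ3]
    abel
  have hP1 : (Wᴴ * W)ᴴ = Wᴴ * W := by
    rw [conjTranspose_mul, conjTranspose_conjTranspose]
  have hP3 : (Wᴴ * W) * (Wᴴ * W) = Wᴴ * W := by rw [Matrix.mul_assoc, hW2]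
  have h2 : hsSq (1 - Wᴴ * W) = r := by
    have h3 := hsSq_proj (1 - Wᴴ * W) (by
      rw [conjTranspose_sub, conjTranspose_one, hP1]) (by
      rw [Matrix.sub_mul, Matrix.mul_sub, Matrix.mul_sub, hP3]; simp)
    have h4 : trace (1 - Wᴴ * W) = (r : ℂ) := hW3
    rw [h4] at h3
    exact_mod_cast h3
  rw [h1]
  refine (hsSq_add_le _ _).trans ?_
  rw [hsSq_isometry_mul Θ hΘ1, h2]
  linarith

section two

variable {G₁ G₂ H : Type} [Group G₁] [Group G₂] [Group H] [Fintype H]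

lemma mult_sub_le (A B : URep H) (Δ : ℝ) (hΔ : ∀ h, ‖A.chi h - B.chi h‖ ≤ Δ)
    (x : H × Fin (ordN H)) : |(mult A x : ℝ) - mult B x| ≤ Δ := by
  have hn : 0 < ordN H := by have := ordN_ge (H := H); omega
  have hn' : (0 : ℝ) < ordN H := by exact_mod_cast hn
  have h1 : ((mult A x : ℂ) - mult B x) = (ordN H : ℂ)⁻¹ * ∑ i ∈ Finset.range (ordN H),
      (rt H ^ (x.2 : ℕ)) ^ i * (A.chi (x.1 ^ i) - B.chi (x.1 ^ i)) := by
    rw [mult_spec, mult_spec, ← mul_sub, ← Finset.sum_sub_distrib]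
    congr 1
    apply Finset.sum_congr rfl
    intro i _
    ring
  have h2 : |(mult A x : ℝ) - mult B x| = ‖((mult A x : ℂ) - mult B x)‖ := by
    have h3 : ((mult A x : ℂ) - mult B x) = (((mult A x : ℝ) - mult B x : ℝ) : ℂ) := by
      push_cast
      rfl
    rw [h3, Complex.norm_real, Real.norm_eq_abs]
  rw [h2, h1, norm_mul, norm_inv, Complex.norm_natCast]
  have h3 : ‖∑ i ∈ Finset.range (ordN H), (rt H ^ (x.2 : ℕ)) ^ i *
      (A.chi (x.1 ^ i) - B.chi (x.1 ^ i))‖ ≤ ordN H * Δ := by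
    have h4 : ∀ i ∈ Finset.range (ordN H), ‖(rt H ^ (x.2 : ℕ)) ^ i *
        (A.chi (x.1 ^ i) - B.chi (x.1 ^ i))‖ ≤ Δ := by
      intro i _
      rw [norm_mul, norm_pow, norm_pow, rt_prim.norm'_eq_one hn.ne', one_pow, one_pow, one_mul]
      exact hΔ _
    refine (norm_sum_le_of_le _ h4).trans (le_of_eq ?_)
    rw [Finset.sum_const, Finset.card_range, nsmul_eq_mul]
  calc (ordN H : ℝ)⁻¹ * ‖∑ i ∈ Finset.range (ordN H), (rt H ^ (x.2 : ℕ)) ^ i *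
      (A.chi (x.1 ^ i) - B.chi (x.1 ^ i))‖ ≤ (ordN H : ℝ)⁻¹ * (ordN H * Δ) :=
        mul_le_mul_of_nonneg_left h3 (by positivity)
    _ = Δ := by
        rw [← mul_assoc, inv_mul_cancel₀ hn'.ne', one_mul]

/-- Linear bound for matching, in terms of characters. -/
theorem exists_bound_chi (hf₁ : Group.FG G₁) (hf₂ : Group.FG G₂) (i₁ : H →* G₁) (i₂ : H →* G₂)
    (hres : ∀ h, InRes G₁ (i₁ h) ↔ InRes G₂ (i₂ h)) :
    ∃ C : ℝ, 0 ≤ C ∧ ∀ (A₁ : URep G₁) (A₂ : URep G₂) (Δ : ℝ),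
      (∀ h, ‖A₁.chi (i₁ h) - A₂.chi (i₂ h)‖ ≤ Δ) →
      ∃ (R₁ : URep G₁) (R₂ : URep G₂),
      (∀ h, A₁.chi (i₁ h) + R₁.chi (i₁ h) = A₂.chi (i₂ h) + R₂.chi (i₂ h)) ∧
      (R₁.dim : ℝ) ≤ C * Δ ∧ (R₂.dim : ℝ) ≤ C * Δ := by
  classical
  obtain ⟨C, hC⟩ := exists_bound hf₁ hf₂ i₁ i₂ hres
  refine ⟨C * Fintype.card (H × Fin (ordN H)), by positivity, ?_⟩
  intro A₁ A₂ Δ hΔ
  obtain ⟨B₁, B₂, hB⟩ := rm_match hf₁ hf₂ i₁ i₂ hres A₁ A₂
  obtain ⟨R₁, R₂, hR, hd⟩ := hC (fun J => rm i₁ A₁ J - rm i₂ A₂ J, fun J => rm i₂ A₂ J - rm i₁ A₁ J)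
    ⟨B₁, B₂, fun J => by
      have h2 := hB J
      simp only
      omega⟩
  simp only at hR hd
  have hsum : ((∑ J, ((rm i₁ A₁ J - rm i₂ A₂ J) + (rm i₂ A₂ J - rm i₁ A₁ J)) : ℕ) : ℝ) ≤
      Fintype.card (H × Fin (ordN H)) * Δ := by
    push_cast
    have h1 : ∀ J ∈ (Finset.univ : Finset (H × Fin (ordN H))),
        (((rm i₁ A₁ J - rm i₂ A₂ J : ℕ) : ℝ) + ((rm i₂ A₂ J - rm i₁ A₁ J : ℕ) : ℝ)) ≤ Δ := by
      intro J _
      refine le_trans (le_of_eq ?_) (mult_sub_le (A₁.res i₁) (A₂.res i₂) Δ hΔ J)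
      have e1 : mult (A₁.res i₁) J = rm i₁ A₁ J := rfl
      have e2 : mult (A₂.res i₂) J = rm i₂ A₂ J := rfl
      rw [e1, e2]
      rcases le_total (rm i₁ A₁ J) (rm i₂ A₂ J) with h | h
      · rw [Nat.sub_eq_zero_of_le h, Nat.cast_sub h, abs_of_nonpos]
        · push_cast
          ring
        · have : (rm i₁ A₁ J : ℝ) ≤ rm i₂ A₂ J := by exact_mod_cast h
          linarith
      · rw [Nat.sub_eq_zero_of_le h, Nat.cast_sub h, abs_of_nonneg]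
        · push_cast
          ring
        · have : (rm i₂ A₂ J : ℝ) ≤ rm i₁ A₁ J := by exact_mod_cast h
          linarith
    refine (Finset.sum_le_sum h1).trans (le_of_eq ?_)
    rw [Finset.sum_const, Finset.card_univ, nsmul_eq_mul]
  have hd' : (R₁.dim : ℝ) + R₂.dim ≤ C * Fintype.card (H × Fin (ordN H)) * Δ := by
    have h1 : (R₁.dim : ℝ) + R₂.dim ≤ C * ((∑ J, ((rm i₁ A₁ J - rm i₂ A₂ J) +
        (rm i₂ A₂ J - rm i₁ A₁ J)) : ℕ) : ℝ) := by exact_mod_cast hd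
    refine h1.trans ?_
    rw [mul_assoc]
    exact mul_le_mul_of_nonneg_left hsum (Nat.cast_nonneg _)
  refine ⟨R₁, R₂, ?_, ?_, ?_⟩
  · intro h
    apply chi_add_of_mult (A₁.res i₁) (R₁.res i₁) (A₂.res i₂) (R₂.res i₂)
    intro J
    have h2 := hR J
    simp only [rm] at h2
    omega
  · have : (0 : ℝ) ≤ R₂.dim := Nat.cast_nonneg _
    linarith
  · have : (0 : ℝ) ≤ R₁.dim := Nat.cast_nonneg _
    linarith

/-- Core gluing statement for representations on subspaces. -/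
theorem exists_core_del (hf₁ : Group.FG G₁) (hf₂ : Group.FG G₂) (i₁ : H →* G₁) (i₂ : H →* G₂)
    (hres : ∀ h, InRes G₁ (i₁ h) ↔ InRes G₂ (i₂ h)) :
    ∃ C : ℝ, 0 ≤ C ∧ ∀ (A₁ : URep G₁) (A₂ : URep G₂) (X : Type) [Fintype X] [DecidableEq X]
      (J₁ : Matrix X A₁.X ℂ) (J₂ : Matrix X A₂.X ℂ) (_ : J₁ᴴ * J₁ = 1) (_ : J₂ᴴ * J₂ = 1)
      (κ Δ : ℝ) (_ : hsSq (1 - J₂ * J₂ᴴ) ≤ κ)
      (_ : ∀ h, hsSq (A₂.a (i₂ h) * (J₂ᴴ * J₁) - (J₂ᴴ * J₁) * A₁.a (i₁ h)) ≤ κ)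
      (_ : ∀ h, ‖A₁.chi (i₁ h) - A₂.chi (i₂ h)‖ ≤ Δ),
      ∃ (R₁ : URep G₁) (R₂ : URep G₂) (Θ : Matrix (A₂.X ⊕ R₂.X) (A₁.X ⊕ R₁.X) ℂ),
        Θᴴ * Θ = 1 ∧ Θ * Θᴴ = 1 ∧
        (∀ h, fromBlocks (A₂.a (i₂ h)) 0 0 (R₂.a (i₂ h)) * Θ =
          Θ * fromBlocks (A₁.a (i₁ h)) 0 0 (R₁.a (i₁ h))) ∧
        (R₁.dim : ℝ) ≤ C * Δ ∧ (R₂.dim : ℝ) ≤ C * Δ ∧
        hsSq (fromCols J₂ (0 : Matrix X R₂.X ℂ) * Θ - fromCols J₁ (0 : Matrix X R₁.X ℂ)) ≤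
          252 * κ + 2 * (C * Δ) := by
  classical
  obtain ⟨C, hC0, hC⟩ := exists_bound_chi hf₁ hf₂ i₁ i₂ hres
  refine ⟨C, hC0, ?_⟩
  intro A₁ A₂ X _ _ J₁ J₂ hJ₁ hJ₂ κ Δ hκ hD hΔ
  have hJ₂co : J₂ᴴ * (J₂ᴴ)ᴴ = 1 := by rw [conjTranspose_conjTranspose, hJ₂]
  obtain ⟨W, r, hW, hWp, hr, hr2, hWJ⟩ := exists_pi_int' (A₁.res i₁) (A₂.res i₂) (J₂ᴴ * J₁) κ κ
    (by
      intro Z _ M
      rw [conjTranspose_mul, conjTranspose_conjTranspose, Matrix.mul_assoc]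
      refine (hsSq_coisometry_mul_le J₁ hJ₁ _).trans ?_
      rw [hsSq_isometry_mul J₂ hJ₂])
    (by
      have h1 : 1 - (J₂ᴴ * J₁)ᴴ * (J₂ᴴ * J₁) = J₁ᴴ * ((1 - J₂ * J₂ᴴ) * J₁) := by
        rw [conjTranspose_mul, conjTranspose_conjTranspose, Matrix.sub_mul, Matrix.mul_sub,
          Matrix.one_mul, hJ₁]
        simp only [Matrix.mul_assoc]
      rw [h1]
      refine (hsSq_coisometry_mul_le J₁ hJ₁ _).trans ?_
      exact (hsSq_mul_isometry_le J₁ hJ₁ _).trans hκ) hD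
  obtain ⟨R₁, R₂, hR, hR₁d, hR₂d⟩ := hC A₁ A₂ Δ hΔ
  set P := Wᴴ * W with hP
  have hP1 : Pᴴ = P := by rw [hP, conjTranspose_mul, conjTranspose_conjTranspose]
  have hP2 : P * P = P := by
    conv_lhs => rw [hP]
    rw [← hP, Matrix.mul_assoc, hWp]
  have hE1 : (1 - P)ᴴ = 1 - P := by rw [conjTranspose_sub, conjTranspose_one, hP1]
  have hE2 : (1 - P) * (1 - P) = 1 - P := by
    rw [Matrix.sub_mul, Matrix.mul_sub, Matrix.mul_sub, hP2]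
    simp
  set T : Matrix (A₂.X ⊕ R₂.X) (A₁.X ⊕ R₁.X) ℂ := fromBlocks W 0 0 0 with hTdef
  have hTT : Tᴴ * T = fromBlocks P 0 0 0 := by
    rw [hTdef, fromBlocks_conjTranspose, fromBlocks_multiply]
    simp [hP]
  obtain ⟨Θ, hΘint, hΘ1, hΘ2, hΘ3⟩ := exists_unitary_ext ((A₁.add R₁).res i₁) ((A₂.add R₂).res i₂)
    (fun h => by
      have h1 := hR h
      rw [← URep.chi_add, ← URep.chi_add] at h1
      exact h1) T (fun h => by
      change fromBlocks (A₂.a (i₂ h)) 0 0 (R₂.a (i₂ h)) * fromBlocks W 0 0 0 =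
        fromBlocks W 0 0 0 * fromBlocks (A₁.a (i₁ h)) 0 0 (R₁.a (i₁ h))
      rw [fromBlocks_multiply, fromBlocks_multiply]
      have h1 : A₂.a (i₂ h) * W = W * A₁.a (i₁ h) := hW h
      simp [h1]) (by
      rw [hTT, hTdef, fromBlocks_multiply]
      simp [hWp])
  refine ⟨R₁, R₂, Θ, hΘ1, hΘ2, hΘint, hR₁d, hR₂d, ?_⟩
  have h1 : fromCols J₂ (0 : Matrix X R₂.X ℂ) * Θ - fromCols J₁ (0 : Matrix X R₁.X ℂ) =
      fromCols (J₂ * W - J₁) (0 : Matrix X R₁.X ℂ) +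
        fromCols J₂ (0 : Matrix X R₂.X ℂ) * (Θ * (1 - Tᴴ * T)) := by
    have h2 : fromCols J₂ (0 : Matrix X R₂.X ℂ) * T = fromCols (J₂ * W) (0 : Matrix X R₁.X ℂ) := by
      rw [hTdef, fromCols_mul_fromBlocks]
      simp
    rw [Matrix.mul_sub, Matrix.mul_one, hΘ3, Matrix.mul_sub, h2]
    ext i j
    rcases j with j | j <;> simp
  rw [h1]
  refine (hsSq_add_le _ _).trans ?_
  have h2 : hsSq (fromCols J₂ (0 : Matrix X R₂.X ℂ) * (Θ * (1 - Tᴴ * T))) ≤ r + C * Δ := by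
    have h3 : fromCols J₂ (0 : Matrix X R₂.X ℂ) =
        J₂ * fromCols (1 : Matrix A₂.X A₂.X ℂ) (0 : Matrix A₂.X R₂.X ℂ) := by
      rw [mul_fromCols, Matrix.mul_one, Matrix.mul_zero]
    have h4 : fromCols (1 : Matrix A₂.X A₂.X ℂ) (0 : Matrix A₂.X R₂.X ℂ) =
        (fromRows (1 : Matrix A₂.X A₂.X ℂ) (0 : Matrix R₂.X A₂.X ℂ))ᴴ := by
      rw [conjTranspose_fromRows_eq_fromCols_conjTranspose, conjTranspose_one,
        conjTranspose_zero]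
    rw [h3, Matrix.mul_assoc, hsSq_isometry_mul J₂ hJ₂, h4]
    refine (hsSq_coisometry_mul_le _ (by
      rw [conjTranspose_fromRows_eq_fromCols_conjTranspose, fromCols_mul_fromRows]
      simp) _).trans ?_
    rw [hsSq_isometry_mul Θ hΘ1, hTT]
    have h5 : (1 : Matrix (A₁.X ⊕ R₁.X) (A₁.X ⊕ R₁.X) ℂ) - fromBlocks P 0 0 0 =
        fromBlocks (1 - P) 0 0 1 := by
      ext i j
      rcases i with i | i <;> rcases j with j | j <;> simp [Matrix.one_apply]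
    rw [h5, hsSq_fromBlocks, hsSq_zero, hsSq_zero]
    have h6 : hsSq (1 - P) = r := by
      have h7 := hsSq_proj _ hE1 hE2
      rw [hr] at h7
      exact_mod_cast h7
    have h7 : hsSq (1 : Matrix R₁.X R₁.X ℂ) = R₁.dim := hsSq_unitary _ (by simp)
    rw [h6, h7]
    linarith
  have h3 : hsSq (J₂ * W - J₁) ≤ 2 * (42 * κ) + 2 * κ := by
    have h4 : J₂ * W - J₁ = J₂ * (W - J₂ᴴ * J₁) + (-(1 - J₂ * J₂ᴴ) * J₁) := by
      rw [Matrix.mul_sub, Matrix.neg_mul, Matrix.sub_mul, Matrix.one_mul]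
      simp only [Matrix.mul_assoc]
      abel
    rw [h4]
    refine (hsSq_add_le _ _).trans ?_
    rw [hsSq_isometry_mul J₂ hJ₂]
    have h5 : hsSq (-(1 - J₂ * J₂ᴴ) * J₁) ≤ κ := by
      refine (hsSq_mul_isometry_le J₁ hJ₁ _).trans ?_
      rw [hsSq_neg]
      exact hκ
    linarith
  rw [hsSq_fromCols, hsSq_zero]
  linarith

end two

end Pool.Agent.Helper94.HS
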