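import Mathlib
import Pool.Agent.Helper94.HS.AStabHS
import Pool.Agent.Helper94.HS.Pi
import Pool.Agent.Helper94.HS.DelProj

/-!
Proportional deletion for unitary representations of amenable Hilbert-Schmidt stable groups.
-/

namespace Pool.Agent.Helper94.HS

open Matrix

/-- Proportional deletion. -/
def PDelHS (G : Type) [Group G] (𝓔 : Set G) : Prop :=
  ∃ (c : G → ℝ) (C η₀ : ℝ), (∀ t, 0 ≤ c t) ∧ 0 ≤ C ∧ 0 < η₀ ∧ η₀ ≤ 1 / 16 ∧
    ∀ (T K : Finset G), (∀ k ∈ K, k ∈ 𝓔) →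
    ∀ η ζ : ℝ, 0 < η → η ≤ η₀ → 0 < ζ → ∃ N₀ : ℕ, ∀ A : URep G, N₀ ≤ A.dim →
      ∃ (B : URep G) (J : Matrix A.X B.X ℂ), Jᴴ * J = 1 ∧
        |(B.dim : ℝ) - (1 - η) * A.dim| ≤ (C * η * Real.sqrt η + ζ) * A.dim ∧
        (∀ t ∈ T, hsSq (A.a t * J - J * B.a t) ≤ (c t * η + ζ) * A.dim) ∧
        ∀ k ∈ K, ‖B.chi k - ((1 - η : ℝ) : ℂ) * A.chi k‖ ≤ (C * η * Real.sqrt η + ζ) * A.dim

section compress

variable {X Y : Type} [Fintype X] [DecidableEq X] [Fintype Y] [DecidableEq Y]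

lemma comp_aux (e : Matrix X X ℂ) (he : eᴴ = e) (he2 : e * e = e) (J : Matrix X Y ℂ)
    (hJ : Jᴴ * J = 1) (hJe : J * Jᴴ = 1 - e) (u : Matrix X X ℂ) :
    hsSq (e * u * J) ≤ hsSq (u * e - e * u) := by
  have heJ : e * J = 0 := by
    have h1 : e = 1 - J * Jᴴ := by rw [hJe, sub_sub_cancel]
    rw [h1, Matrix.sub_mul, Matrix.one_mul, Matrix.mul_assoc, hJ, Matrix.mul_one, sub_self]
  have h1 : e * u * J = -(e * ((u * e - e * u) * J)) := by
    rw [Matrix.sub_mul, Matrix.mul_assoc u e J, heJ, Matrix.mul_zero, zero_sub, Matrix.mul_neg,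
      neg_neg]
    simp only [← Matrix.mul_assoc]
    rw [he2]
  rw [h1, hsSq_neg]
  refine (hsSq_proj_mul_le e he he2 _).trans ?_
  exact hsSq_mul_isometry_le J hJ _

lemma comp_iso (e : Matrix X X ℂ) (J : Matrix X Y ℂ)
    (hJ : Jᴴ * J = 1) (hJe : J * Jᴴ = 1 - e) (u : Matrix X X ℂ) (hu : uᴴ * u = 1) :
    hsSq (1 - (Jᴴ * u * J)ᴴ * (Jᴴ * u * J)) ≤ hsSq (e * u * J) := by
  have h1 : 1 - (Jᴴ * u * J)ᴴ * (Jᴴ * u * J) = Jᴴ * (uᴴ * (e * u * J)) := by
    have h2 : e = 1 - J * Jᴴ := by rw [hJe, sub_sub_cancel]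
    rw [conjTranspose_mul, conjTranspose_mul, conjTranspose_conjTranspose, h2, Matrix.sub_mul,
      Matrix.sub_mul, Matrix.one_mul, Matrix.mul_sub, Matrix.mul_sub, ← Matrix.mul_assoc uᴴ u J,
      hu, Matrix.one_mul, hJ]
    simp only [Matrix.mul_assoc]
  rw [h1]
  refine (hsSq_coisometry_mul_le J hJ _).trans ?_
  exact (hsSq_coisometry_mul_le u hu _)

lemma comp_mul (e : Matrix X X ℂ) (J : Matrix X Y ℂ)
    (hJ : Jᴴ * J = 1) (hJe : J * Jᴴ = 1 - e) (u v : Matrix X X ℂ) (hu : u * uᴴ = 1) :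
    hsSq ((Jᴴ * u * J) * (Jᴴ * v * J) - Jᴴ * (u * v) * J) ≤ hsSq (e * v * J) := by
  have h1 : (Jᴴ * u * J) * (Jᴴ * v * J) - Jᴴ * (u * v) * J = -(Jᴴ * (u * (e * v * J))) := by
    have h2 : e = 1 - J * Jᴴ := by rw [hJe, sub_sub_cancel]
    rw [h2, Matrix.sub_mul, Matrix.sub_mul, Matrix.one_mul, Matrix.mul_sub, Matrix.mul_sub]
    simp only [Matrix.mul_assoc]
    abel
  rw [h1, hsSq_neg]
  refine (hsSq_coisometry_mul_le J hJ _).trans ?_
  exact le_of_eq (hsSq_isometry_mul u (mul_eq_one_comm.1 hu) _)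

omit [DecidableEq Y] in
lemma comp_def (e : Matrix X X ℂ) (J : Matrix X Y ℂ) (hJe : J * Jᴴ = 1 - e) (u : Matrix X X ℂ) :
    u * J - J * (Jᴴ * u * J) = e * u * J := by
  have h2 : e = 1 - J * Jᴴ := by rw [hJe, sub_sub_cancel]
  rw [h2, Matrix.sub_mul, Matrix.sub_mul, Matrix.one_mul]
  simp only [Matrix.mul_assoc]

lemma trace_le_sqrt (M : Matrix Y Y ℂ) (N q : ℝ) (hN : (Fintype.card Y : ℝ) ≤ N) (hq : 0 ≤ q)
    (hM : hsSq M ≤ q ^ 2 * N) : ‖trace M‖ ≤ q * N := by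
  have hN0 : 0 ≤ N := (Nat.cast_nonneg _).trans hN
  have h1 : trace M = trace ((1 : Matrix Y Y ℂ)ᴴ * M) := by
    rw [conjTranspose_one, Matrix.one_mul]
  rw [h1]
  apply trace_cs_le _ _ _ (mul_nonneg hq hN0)
  rw [hsSq_unitary (1 : Matrix Y Y ℂ) (by simp)]
  calc (Fintype.card Y : ℝ) * hsSq M ≤ N * (q ^ 2 * N) :=
        mul_le_mul hN hM (hsSq_nonneg _) hN0
    _ = (q * N) ^ 2 := by ring

end compress

theorem pDelHS_of_amenable {G : Type} [Group G] (hG : FolnerAmenable G) (hs : AStabHS G)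
    (𝓔 : Set G) : PDelHS G 𝓔 := by
  classical
  refine ⟨fun _ => 0, 3, 1 / 16, fun _ => le_rfl, by norm_num, by norm_num, le_rfl, ?_⟩
  intro T K _ η ζ hη0 hη1 hζ
  set ζ₁ : ℝ := min (ζ / 2) (1 / 8) with hζ₁
  have hζ₁0 : 0 < ζ₁ := lt_min (by linarith) (by norm_num)
  have hζ₁a : ζ₁ ≤ ζ / 2 := min_le_left _ _
  have hζ₁b : ζ₁ ≤ 1 / 8 := min_le_right _ _
  set ε : ℝ := min (ζ / 8) (ζ ^ 2 / 16) with hε
  have hε0 : 0 < ε := lt_min (by linarith) (by positivity)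
  have hεa : ε ≤ ζ / 8 := min_le_left _ _
  have hεb : ε ≤ ζ ^ 2 / 16 := min_le_right _ _
  obtain ⟨T', δ, hδ, hstab⟩ := hs (T ∪ K) ε hε0
  set τ : ℝ := min (δ / 300) (min (ζ / 100) (ζ ^ 2 / 200)) with hτ
  have hτ0 : 0 < τ := lt_min (by linarith) (lt_min (by linarith) (by positivity))
  have hτa : τ ≤ δ / 300 := min_le_left _ _
  have hτb : τ ≤ ζ / 100 := (min_le_right _ _).trans (min_le_left _ _)
  have hτc : τ ≤ ζ ^ 2 / 200 := (min_le_right _ _).trans (min_le_right _ _)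
  obtain ⟨N₀, hN₀⟩ := exists_del_proj hG ((T ∪ K) ∪ (T' ∪ (T' ×ˢ T').image (fun q => q.1 * q.2)))
    (insert 1 K) η τ ζ₁ hη0 (by linarith) hτ0 hζ₁0
  refine ⟨N₀ + 1, ?_⟩
  intro A hA
  obtain ⟨e, he, he2, hcom, htr⟩ := hN₀ A (by omega)
  set N : ℝ := (A.dim : ℝ) with hN
  have hNpos : 0 < N := by
    rw [hN]
    exact_mod_cast (by omega : 0 < A.dim)
  obtain ⟨Y, _, _, J, hJ, hJe⟩ := exists_isometry_of_proj (1 - e)
    (by rw [conjTranspose_sub, conjTranspose_one, he])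
    (by rw [Matrix.sub_mul, Matrix.mul_sub, Matrix.mul_sub, he2]; simp)
  have hsη0 : 0 ≤ Real.sqrt η := Real.sqrt_nonneg _
  have hsη : Real.sqrt η ≤ 1 / 4 := by
    rw [Real.sqrt_le_left (by norm_num)]
    linarith
  -- traces
  have htrJ : ∀ k, trace (Jᴴ * A.a k * J) = A.chi k - trace (A.a k * e) := by
    intro k
    rw [Matrix.mul_assoc, trace_mul_comm, Matrix.mul_assoc, hJe, Matrix.mul_sub, Matrix.mul_one,
      trace_sub]
    rfl
  have hYcard : |(Fintype.card Y : ℝ) - (1 - η) * N| ≤ (3 * η * Real.sqrt η + ζ₁) * N := by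
    have h1 := htr 1 (Finset.mem_insert_self _ _)
    have h2 := htrJ 1
    rw [A.one, Matrix.mul_one, hJ, trace_one, URep.chi_one] at h2
    rw [A.one, URep.chi_one] at h1
    have h3 : ((Fintype.card Y : ℂ)) - ((1 - η : ℝ) : ℂ) * (A.dim : ℂ) =
        -(trace ((1 : Matrix A.X A.X ℂ) * e) - (η : ℂ) * (A.dim : ℂ)) := by
      rw [h2]
      push_cast
      ring
    have h4 : ‖((Fintype.card Y : ℂ)) - ((1 - η : ℝ) : ℂ) * (A.dim : ℂ)‖ ≤
        (3 * η * Real.sqrt η + ζ₁) * N := by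
      rw [h3, norm_neg]
      exact h1
    have h5 : ((Fintype.card Y : ℂ)) - ((1 - η : ℝ) : ℂ) * (A.dim : ℂ) =
        (((Fintype.card Y : ℝ) - (1 - η) * N : ℝ) : ℂ) := by
      rw [hN]
      push_cast
      rfl
    rw [h5, Complex.norm_real, Real.norm_eq_abs] at h4
    exact h4
  have hηη : η * Real.sqrt η ≤ 1 / 64 := by nlinarith
  have hYlow : N / 2 ≤ (Fintype.card Y : ℝ) := by
    have h1 := (abs_le.1 hYcard).1
    nlinarith
  have hYup : (Fintype.card Y : ℝ) ≤ N := by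
    have h1 : hsSq J ≤ hsSq (1 : Matrix A.X A.X ℂ) := by
      have h2 := hsSq_mul_isometry_le J hJ (1 : Matrix A.X A.X ℂ)
      rwa [Matrix.one_mul] at h2
    rw [hsSq_isometry J hJ, hsSq_unitary (1 : Matrix A.X A.X ℂ) (by simp)] at h1
    exact h1
  have hYpos : (0 : ℝ) < Fintype.card Y := by linarith
  have hne : Nonempty Y := Fintype.card_pos_iff.1 (by exact_mod_cast hYpos)
  -- the unitaries
  choose v hv1 hv2 hv3 using fun t : G => exists_near_unitary rfl (Jᴴ * A.a t * J)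
  have hq : ∀ t ∈ (T ∪ K) ∪ (T' ∪ (T' ×ˢ T').image (fun q => q.1 * q.2)),
      hsSq (e * A.a t * J) ≤ τ * N := fun t ht =>
    (comp_aux e he he2 J hJ hJe (A.a t)).trans (hcom t ht)
  have hvc : ∀ t ∈ (T ∪ K) ∪ (T' ∪ (T' ×ˢ T').image (fun q => q.1 * q.2)),
      hsSq (v t - Jᴴ * A.a t * J) ≤ 12 * (τ * N) := by
    intro t ht
    refine (hv3 t).trans ?_
    have h1 := comp_iso e J hJ hJe (A.a t) (A.st_mul t)
    have h2 := hq t ht
    linarith
  let φ : G → Matrix.unitaryGroup Y ℂ := fun t => ⟨v t, Matrix.mem_unitaryGroup_iff.2 (hv2 t)⟩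
  obtain ⟨ψ, hψ⟩ := hstab Y φ (by
    intro s hs t ht
    unfold ud
    rw [div_le_iff₀ hYpos]
    have m1 : s ∈ (T ∪ K) ∪ (T' ∪ (T' ×ˢ T').image (fun q => q.1 * q.2)) :=
      Finset.mem_union_right _ (Finset.mem_union_left _ hs)
    have m2 : t ∈ (T ∪ K) ∪ (T' ∪ (T' ×ˢ T').image (fun q => q.1 * q.2)) :=
      Finset.mem_union_right _ (Finset.mem_union_left _ ht)
    have m3 : s * t ∈ (T ∪ K) ∪ (T' ∪ (T' ×ˢ T').image (fun q => q.1 * q.2)) :=
      Finset.mem_union_right _ (Finset.mem_union_right _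
        (Finset.mem_image.2 ⟨(s, t), Finset.mem_product.2 ⟨hs, ht⟩, rfl⟩))
    have h0 : ((φ s * φ t : Matrix.unitaryGroup Y ℂ) : Matrix Y Y ℂ) -
        (φ (s * t) : Matrix Y Y ℂ) = v s * v t - v (s * t) := rfl
    rw [h0]
    set cs := Jᴴ * A.a s * J with hcs
    set ct := Jᴴ * A.a t * J with hct
    set cst := Jᴴ * A.a (s * t) * J with hcst
    have h1 : v s * v t - v (s * t) = ((v s - cs) * v t + cs * (v t - ct)) +
        ((cs * ct - cst) + (cst - v (s * t))) := by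
      rw [Matrix.sub_mul, Matrix.mul_sub]
      abel
    rw [h1]
    refine (hsSq_add_le _ _).trans ?_
    have b1 := hsSq_add_le ((v s - cs) * v t) (cs * (v t - ct))
    have b2 := hsSq_add_le (cs * ct - cst) (cst - v (s * t))
    have b3 : hsSq ((v s - cs) * v t) ≤ 12 * (τ * N) := by
      rw [hsSq_mul_coisometry (v t) (hv2 t)]
      exact hvc s m1
    have b4 : hsSq (cs * (v t - ct)) ≤ 12 * (τ * N) := by
      refine le_trans ?_ (hvc t m2)
      rw [hcs, Matrix.mul_assoc, Matrix.mul_assoc]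
      refine (hsSq_coisometry_mul_le J hJ _).trans ?_
      rw [hsSq_isometry_mul (A.a s) (A.st_mul s), hsSq_isometry_mul J hJ]
    have b5 : hsSq (cs * ct - cst) ≤ τ * N := by
      rw [hcs, hct, hcst, A.mul]
      exact (comp_mul e J hJ hJe (A.a s) (A.a t) (A.mul_st s)).trans (hq t m2)
    have b6 : hsSq (cst - v (s * t)) ≤ 12 * (τ * N) := by
      rw [hsSq_sub_comm]
      exact hvc (s * t) m3
    have b7 : τ * N ≤ δ / 300 * N := mul_le_mul_of_nonneg_right hτa hNpos.le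
    have b8 : δ * (N / 2) ≤ δ * Fintype.card Y := mul_le_mul_of_nonneg_left hYlow hδ.le
    have b9 : 0 ≤ δ * N := by positivity
    linarith)
  have hψ' : ∀ t ∈ T ∪ K, hsSq (v t - (ψ t : Matrix Y Y ℂ)) ≤ ε * N := by
    intro t ht
    have h1 := hψ t ht
    unfold ud at h1
    rw [div_le_iff₀ hYpos] at h1
    refine le_trans h1 (mul_le_mul_of_nonneg_left hYup hε0.le)
  have hcψ : ∀ t ∈ T ∪ K, hsSq ((ψ t : Matrix Y Y ℂ) - Jᴴ * A.a t * J) ≤
      2 * (ε * N) + 2 * (12 * (τ * N)) := by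
    intro t ht
    have h1 : (ψ t : Matrix Y Y ℂ) - Jᴴ * A.a t * J = ((ψ t : Matrix Y Y ℂ) - v t) +
        (v t - Jᴴ * A.a t * J) := by abel
    rw [h1]
    refine (hsSq_add_le _ _).trans ?_
    have h2 := hψ' t ht
    rw [hsSq_sub_comm] at h2
    have h3 := hvc t (Finset.mem_union_left _ ht)
    linarith
  refine ⟨URep.ofHom ψ, J, hJ, ?_, ?_, ?_⟩
  · have h1 : ((URep.ofHom ψ).dim : ℝ) = Fintype.card Y := rfl
    rw [h1]
    refine hYcard.trans (mul_le_mul_of_nonneg_right ?_ hNpos.le)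
    linarith
  · intro t ht
    have ht' : t ∈ T ∪ K := Finset.mem_union_left _ ht
    have h0 : A.a t * J - J * (ψ t : Matrix Y Y ℂ) =
        (A.a t * J - J * (Jᴴ * A.a t * J)) + J * (Jᴴ * A.a t * J - (ψ t : Matrix Y Y ℂ)) := by
      rw [Matrix.mul_sub]
      abel
    change hsSq (A.a t * J - J * (ψ t : Matrix Y Y ℂ)) ≤ (0 * η + ζ) * N
    rw [h0]
    refine (hsSq_add_le _ _).trans ?_
    rw [comp_def e J hJe, hsSq_isometry_mul J hJ, hsSq_sub_comm]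
    have h1 := hq t (Finset.mem_union_left _ ht')
    have h2 := hcψ t ht'
    have b7 : τ * N ≤ ζ / 100 * N := mul_le_mul_of_nonneg_right hτb hNpos.le
    have b8 : ε * N ≤ ζ / 8 * N := mul_le_mul_of_nonneg_right hεa hNpos.le
    have b9 : 0 ≤ ζ * N := by positivity
    rw [zero_mul, zero_add]
    linarith
  · intro k hk
    have hk' : k ∈ T ∪ K := Finset.mem_union_right _ hk
    have h0 : (URep.ofHom ψ).chi k - ((1 - η : ℝ) : ℂ) * A.chi k =
        trace ((ψ k : Matrix Y Y ℂ) - Jᴴ * A.a k * J) -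
          (trace (A.a k * e) - (η : ℂ) * A.chi k) := by
      rw [trace_sub, htrJ]
      have h1 : (URep.ofHom ψ).chi k = trace (ψ k : Matrix Y Y ℂ) := rfl
      rw [h1]
      push_cast
      ring
    rw [h0]
    refine (norm_sub_le _ _).trans ?_
    have h1 := htr k (Finset.mem_insert_of_mem hk)
    have h2 : ‖trace ((ψ k : Matrix Y Y ℂ) - Jᴴ * A.a k * J)‖ ≤ ζ / 2 * N := by
      apply trace_le_sqrt _ _ _ hYup (by positivity)
      refine (hcψ k hk').trans ?_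
      have b7 : τ * N ≤ ζ ^ 2 / 200 * N := mul_le_mul_of_nonneg_right hτc hNpos.le
      have b8 : ε * N ≤ ζ ^ 2 / 16 * N := mul_le_mul_of_nonneg_right hεb hNpos.le
      have b9 : 0 ≤ ζ ^ 2 * N := by positivity
      have e1 : (ζ / 2) ^ 2 * N = ζ ^ 2 * N / 4 := by ring
      rw [e1]
      linarith
    have b9 : ζ₁ * N ≤ ζ / 2 * N := mul_le_mul_of_nonneg_right hζ₁a hNpos.le
    linarith

end Pool.Agent.Helper94.HS
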