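import Mathlib
import Pool.Agent.Helper94.HS.PDelHS

/-!
Gluing representations on subspaces.
-/

namespace Pool.Agent.Helper94.HS

open Matrix

/-- an isometry into the orthogonal complement -/
lemma exists_compl_isometry {X Y R : Type} [Fintype X] [DecidableEq X] [Fintype Y]
    [DecidableEq Y] [Fintype R] [DecidableEq R] (J : Matrix X Y ℂ) (hJ : Jᴴ * J = 1)
    (h : Fintype.card Y + Fintype.card R ≤ Fintype.card X) :
    ∃ K : Matrix X R ℂ, Kᴴ * K = 1 ∧ Jᴴ * K = 0 ∧ Kᴴ * J = 0 := by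
  have hP1 : (1 - J * Jᴴ)ᴴ = 1 - J * Jᴴ := by
    rw [conjTranspose_sub, conjTranspose_one, conjTranspose_mul, conjTranspose_conjTranspose]
  have hP2 : (1 - J * Jᴴ) * (1 - J * Jᴴ) = 1 - J * Jᴴ := by
    have h1 : J * Jᴴ * (J * Jᴴ) = J * Jᴴ := by
      calc J * Jᴴ * (J * Jᴴ) = J * (Jᴴ * J) * Jᴴ := by simp only [Matrix.mul_assoc]
        _ = _ := by rw [hJ, Matrix.mul_one]
    rw [Matrix.sub_mul, Matrix.mul_sub, Matrix.mul_sub, h1]
    simp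
  obtain ⟨Z, _, _, S, hS1, hS2⟩ := exists_isometry_of_proj (1 - J * Jᴴ) hP1 hP2
  have hZ : Fintype.card Z + Fintype.card Y = Fintype.card X := by
    have h1 : trace (S * Sᴴ) = (Fintype.card Z : ℂ) := by
      rw [trace_mul_comm, hS1, trace_one]
    rw [hS2, trace_sub, trace_one, trace_mul_comm, hJ, trace_one] at h1
    have h2 : ((Fintype.card Z + Fintype.card Y : ℕ) : ℂ) = (Fintype.card X : ℕ) := by
      push_cast
      rw [← h1]
      ring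
    exact_mod_cast h2
  have hRZ : Fintype.card R ≤ Fintype.card Z := by omega
  obtain ⟨ι⟩ := Function.Embedding.nonempty_of_card_le hRZ
  have hJS : Jᴴ * S = 0 := by
    apply hsSq_eq_zero
    rw [← hsSq_conjTranspose, conjTranspose_mul, conjTranspose_conjTranspose, hsSq_eq_re,
      conjTranspose_mul, conjTranspose_conjTranspose]
    have h1 : Jᴴ * S * (Sᴴ * J) = 0 := by
      calc Jᴴ * S * (Sᴴ * J) = Jᴴ * (S * Sᴴ) * J := by simp only [Matrix.mul_assoc]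
        _ = (Jᴴ * J) * 1 - (Jᴴ * J) * (Jᴴ * J) := by
            rw [hS2, Matrix.mul_sub, Matrix.sub_mul, Matrix.mul_one, Matrix.mul_one]
            simp only [Matrix.mul_assoc]
        _ = 0 := by rw [hJ, Matrix.mul_one, sub_self]
    rw [h1, trace_zero, Complex.zero_re]
  have hJK : Jᴴ * (S * inclM ι) = 0 := by rw [← Matrix.mul_assoc, hJS, Matrix.zero_mul]
  refine ⟨S * inclM ι, ?_, hJK, ?_⟩
  · rw [conjTranspose_mul, Matrix.mul_assoc, ← Matrix.mul_assoc Sᴴ, hS1, Matrix.one_mul,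
      inclM_iso]
  · have h1 := congrArg conjTranspose hJK
    rw [conjTranspose_mul, conjTranspose_conjTranspose, conjTranspose_zero] at h1
    exact h1

section two

variable {G₁ G₂ H : Type} [Group G₁] [Group G₂] [Group H]

/-- assembling -/
theorem glue_del (i₁ : H →* G₁) (i₂ : H →* G₂) (A : URep (Amalgam i₁ i₂)) (B₁ R₁ : URep G₁)
    (B₂ R₂ : URep G₂) (J₁ : Matrix A.X B₁.X ℂ) (J₂ : Matrix A.X B₂.X ℂ)
    (hJ₁ : J₁ᴴ * J₁ = 1) (Θ : Matrix (B₂.X ⊕ R₂.X) (B₁.X ⊕ R₁.X) ℂ)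
    (hΘ1 : Θᴴ * Θ = 1) (hΘ2 : Θ * Θᴴ = 1)
    (hΘint : ∀ h, fromBlocks (B₂.a (i₂ h)) 0 0 (R₂.a (i₂ h)) * Θ =
          Θ * fromBlocks (B₁.a (i₁ h)) 0 0 (R₁.a (i₁ h)))
    (hdim : B₁.dim + R₁.dim ≤ A.dim) :
    ∃ (B : URep (Amalgam i₁ i₂)) (J : Matrix A.X B.X ℂ), Jᴴ * J = 1 ∧
      B.dim = B₁.dim + R₁.dim ∧
      (∀ t, hsSq (A.a (am₁ i₁ i₂ t) * J - J * B.a (am₁ i₁ i₂ t)) ≤
        hsSq (A.a (am₁ i₁ i₂ t) * J₁ - J₁ * B₁.a t) + 4 * R₁.dim) ∧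
      (∀ t, hsSq (A.a (am₂ i₁ i₂ t) * J - J * B.a (am₂ i₁ i₂ t)) ≤
        2 * hsSq (A.a (am₂ i₁ i₂ t) * J₂ - J₂ * B₂.a t) +
        16 * hsSq (fromCols J₂ (0 : Matrix A.X R₂.X ℂ) * Θ - fromCols J₁ (0 : Matrix A.X R₁.X ℂ)) +
        16 * R₁.dim) ∧
      (∀ t, B.chi (am₁ i₁ i₂ t) = B₁.chi t + R₁.chi t) ∧
      ∀ t, B.chi (am₂ i₁ i₂ t) = B₂.chi t + R₂.chi t := by
  classical
  obtain ⟨K, hK1, hK2, hK3⟩ := exists_compl_isometry (R := R₁.X) J₁ hJ₁ hdim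
  let b₁ : G₁ →* Matrix.unitaryGroup (B₁.X ⊕ R₁.X) ℂ := (B₁.add R₁).toHom
  let b₂ : G₂ →* Matrix.unitaryGroup (B₁.X ⊕ R₁.X) ℂ := ((B₂.add R₂).conj Θ hΘ1 hΘ2).toHom
  have hbb : ∀ h, b₁ (i₁ h) = b₂ (i₂ h) := by
    intro h
    apply Subtype.ext
    change fromBlocks (B₁.a (i₁ h)) 0 0 (R₁.a (i₁ h)) =
      Θᴴ * fromBlocks (B₂.a (i₂ h)) 0 0 (R₂.a (i₂ h)) * Θ
    rw [Matrix.mul_assoc, hΘint, ← Matrix.mul_assoc, hΘ1, Matrix.one_mul]
  have hKd : hsSq K = R₁.dim := hsSq_isometry K hK1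
  have hJJ : (fromCols J₁ K)ᴴ * fromCols J₁ K = 1 := by
    rw [conjTranspose_fromCols_eq_fromRows_conjTranspose, fromRows_mul_fromCols, hJ₁, hK1, hK2,
      hK3, fromBlocks_one]
  refine ⟨URep.ofHom (amLift i₁ i₂ b₁ b₂ hbb), fromCols J₁ K, hJJ, Fintype.card_sum, ?_, ?_, ?_, ?_⟩
  · intro t
    change hsSq (A.a (am₁ i₁ i₂ t) * fromCols J₁ K -
      fromCols J₁ K * fromBlocks (B₁.a t) 0 0 (R₁.a t)) ≤ _
    have e1 : A.a (am₁ i₁ i₂ t) * fromCols J₁ K -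
        fromCols J₁ K * fromBlocks (B₁.a t) 0 0 (R₁.a t) =
        fromCols (A.a (am₁ i₁ i₂ t) * J₁ - J₁ * B₁.a t) (A.a (am₁ i₁ i₂ t) * K - K * R₁.a t) := by
      rw [mul_fromCols, fromCols_mul_fromBlocks]
      ext i j
      rcases j with j | j <;> simp
    rw [e1, hsSq_fromCols]
    have e2 : hsSq (A.a (am₁ i₁ i₂ t) * K - K * R₁.a t) ≤ 4 * R₁.dim := by
      rw [sub_eq_add_neg]
      refine (hsSq_add_le _ _).trans ?_
      rw [hsSq_neg, hsSq_isometry_mul _ (A.st_mul _), hsSq_mul_coisometry _ (R₁.mul_st t), hKd]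
      linarith
    linarith
  · intro t
    set F : Matrix (B₂.X ⊕ R₂.X) (B₂.X ⊕ R₂.X) ℂ := fromBlocks (B₂.a t) 0 0 (R₂.a t) with hF
    have hF1 : F * Fᴴ = 1 := (B₂.add R₂).mul_st t
    set u := A.a (am₂ i₁ i₂ t) with hu
    have hu1 : uᴴ * u = 1 := A.st_mul _
    change hsSq (u * fromCols J₁ K - fromCols J₁ K * (Θᴴ * F * Θ)) ≤ _
    set L := fromCols J₂ (0 : Matrix A.X R₂.X ℂ) with hL
    set Δ := fromCols J₁ K - L * Θ with hΔ
    have e1 : u * fromCols J₁ K - fromCols J₁ K * (Θᴴ * F * Θ) =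
        (u * L - L * F) * Θ + (u * Δ + -(Δ * (Θᴴ * F * Θ))) := by
      have e2 : L * Θ * (Θᴴ * F * Θ) = L * F * Θ := by
        calc L * Θ * (Θᴴ * F * Θ) = L * ((Θ * Θᴴ) * F) * Θ := by simp only [Matrix.mul_assoc]
          _ = _ := by rw [hΘ2, Matrix.one_mul]
      rw [hΔ, Matrix.mul_sub, Matrix.sub_mul (fromCols J₁ K), e2, Matrix.sub_mul (u * L),
        Matrix.mul_assoc u L Θ]
      abel
    have e3 : u * L - L * F = fromCols (u * J₂ - J₂ * B₂.a t) (0 : Matrix A.X R₂.X ℂ) := by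
      rw [hL, hF, mul_fromCols, fromCols_mul_fromBlocks]
      ext i j
      rcases j with j | j <;> simp
    have e4 : hsSq ((u * L - L * F) * Θ) = hsSq (u * J₂ - J₂ * B₂.a t) := by
      rw [hsSq_mul_coisometry Θ hΘ2, e3, hsSq_fromCols, hsSq_zero, add_zero]
    have e5 : hsSq (u * Δ + -(Δ * (Θᴴ * F * Θ))) ≤ 4 * hsSq Δ := by
      refine (hsSq_add_le _ _).trans ?_
      have e6 : Δ * (Θᴴ * F * Θ) = Δ * Θᴴ * F * Θ := by simp only [Matrix.mul_assoc]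
      rw [hsSq_neg, hsSq_isometry_mul u hu1, e6, hsSq_mul_coisometry Θ hΘ2,
        hsSq_mul_coisometry F hF1,
        hsSq_mul_coisometry Θᴴ (by rw [conjTranspose_conjTranspose, hΘ1])]
      linarith
    have e6 : hsSq Δ ≤ 2 * R₁.dim + 2 * hsSq (L * Θ - fromCols J₁ (0 : Matrix A.X R₁.X ℂ)) := by
      have e7 : Δ = fromCols (0 : Matrix A.X B₁.X ℂ) K +
          (fromCols J₁ (0 : Matrix A.X R₁.X ℂ) - L * Θ) := by
        rw [hΔ]
        have e8 : fromCols J₁ K = fromCols (0 : Matrix A.X B₁.X ℂ) K +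
            fromCols J₁ (0 : Matrix A.X R₁.X ℂ) := by
          ext i j
          rcases j with j | j <;> simp
        rw [e8]
        abel
      rw [e7]
      refine (hsSq_add_le _ _).trans ?_
      rw [hsSq_fromCols, hsSq_zero, hKd, hsSq_sub_comm (fromCols J₁ (0 : Matrix A.X R₁.X ℂ))]
      linarith
    rw [e1]
    refine (hsSq_add_le _ _).trans ?_
    rw [e4]
    linarith
  · intro t
    rw [← URep.chi_add]
    rfl
  · intro t
    rw [← URep.chi_add]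
    change trace (Θᴴ * fromBlocks (B₂.a t) 0 0 (R₂.a t) * Θ) =
      trace (fromBlocks (B₂.a t) 0 0 (R₂.a t))
    rw [trace_mul_comm, ← Matrix.mul_assoc, hΘ2, Matrix.one_mul]

end two

end Pool.Agent.Helper94.HS
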