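import Mathlib
import Pool.Agent.Helper94.HS.GlueDel
import Pool.Agent.Helper94.GoodAmalgam

/-!
Proportional deletion passes to amalgamated free products over finite groups.
-/

namespace Pool.Agent.Helper94.HS

open Matrix

lemma exists_gen_bound {G : Type} [Group G] (U : Set G) (hU : Subgroup.closure U = ⊤) (t : G) :
    ∃ (T : Finset G) (L : ℝ), 0 ≤ L ∧ (∀ u ∈ T, u ∈ U) ∧
      ∀ (A B : URep G) (J : Matrix A.X B.X ℂ) (κ : ℝ), 0 ≤ κ →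
        (∀ u ∈ T, hsSq (A.a u * J - J * B.a u) ≤ κ) → hsSq (A.a t * J - J * B.a t) ≤ L * κ := by
  classical
  have ht : t ∈ Subgroup.closure U := by
    rw [hU]
    exact Subgroup.mem_top t
  induction ht using Subgroup.closure_induction with
  | mem u hu =>
    refine ⟨{u}, 1, zero_le_one, ?_, ?_⟩
    · intro v hv
      rw [Finset.mem_singleton.1 hv]
      exact hu
    · intro A B J κ _ h
      rw [one_mul]
      exact h u (Finset.mem_singleton_self u)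
  | one =>
    refine ⟨∅, 0, le_rfl, fun v hv => absurd hv (Finset.notMem_empty v), ?_⟩
    intro A B J κ _ _
    rw [A.one, B.one, Matrix.one_mul, Matrix.mul_one, sub_self, hsSq_zero, zero_mul]
  | mul x y _ _ ihx ihy =>
    obtain ⟨Tx, Lx, hLx, hTx, hx⟩ := ihx
    obtain ⟨Ty, Ly, hLy, hTy, hy⟩ := ihy
    refine ⟨Tx ∪ Ty, 2 * Lx + 2 * Ly, by positivity, ?_, ?_⟩
    · intro u hu
      rcases Finset.mem_union.1 hu with hu | hu
      · exact hTx u hu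
      · exact hTy u hu
    · intro A B J κ hκ h
      have h1 := hx A B J κ hκ (fun u hu => h u (Finset.mem_union_left _ hu))
      have h2 := hy A B J κ hκ (fun u hu => h u (Finset.mem_union_right _ hu))
      have h3 : A.a (x * y) * J - J * B.a (x * y) =
          A.a x * (A.a y * J - J * B.a y) + (A.a x * J - J * B.a x) * B.a y := by
        rw [A.mul, B.mul, Matrix.mul_sub, Matrix.sub_mul]
        simp only [Matrix.mul_assoc]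
        abel
      rw [h3]
      refine (hsSq_add_le _ _).trans ?_
      rw [hsSq_isometry_mul _ (A.st_mul x), hsSq_mul_coisometry _ (B.mul_st y)]
      linarith
  | inv x _ ihx =>
    obtain ⟨Tx, Lx, hLx, hTx, hx⟩ := ihx
    refine ⟨Tx, Lx, hLx, hTx, ?_⟩
    intro A B J κ hκ h
    refine le_trans (le_of_eq ?_) (hx A B J κ hκ h)
    have h3 : A.a x⁻¹ * J - J * B.a x⁻¹ = -(A.a x⁻¹ * (A.a x * J - J * B.a x) * B.a x⁻¹) := by
      rw [Matrix.mul_sub, Matrix.sub_mul, ← Matrix.mul_assoc (A.a x⁻¹) (A.a x), A.a_inv_mul_a,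
        Matrix.one_mul]
      have h4 : A.a x⁻¹ * (J * B.a x) * B.a x⁻¹ = A.a x⁻¹ * J := by
        rw [Matrix.mul_assoc, Matrix.mul_assoc, B.a_mul_a_inv, Matrix.mul_one]
      rw [h4]
      abel
    rw [h3, hsSq_neg, hsSq_mul_coisometry _ (B.mul_st _), hsSq_isometry_mul _ (A.st_mul _)]

/-- Proportional deletion with control of a subset. -/
def PDelHSOn (G : Type) [Group G] (U 𝓔 : Set G) : Prop :=
  ∃ (c : G → ℝ) (C η₀ : ℝ), (∀ t, 0 ≤ c t) ∧ 0 ≤ C ∧ 0 < η₀ ∧ η₀ ≤ 1 / 16 ∧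
    ∀ (T K : Finset G), (∀ t ∈ T, t ∈ U) → (∀ k ∈ K, k ∈ 𝓔) →
    ∀ η ζ : ℝ, 0 < η → η ≤ η₀ → 0 < ζ → ∃ N₀ : ℕ, ∀ A : URep G, N₀ ≤ A.dim →
      ∃ (B : URep G) (J : Matrix A.X B.X ℂ), Jᴴ * J = 1 ∧
        |(B.dim : ℝ) - (1 - η) * A.dim| ≤ (C * η * Real.sqrt η + ζ) * A.dim ∧
        (∀ t ∈ T, hsSq (A.a t * J - J * B.a t) ≤ (c t * η + ζ) * A.dim) ∧
        ∀ k ∈ K, ‖B.chi k - ((1 - η : ℝ) : ℂ) * A.chi k‖ ≤ (C * η * Real.sqrt η + ζ) * A.dim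

theorem pDelHS_of_gen {G : Type} [Group G] (U 𝓔 : Set G) (hU : Subgroup.closure U = ⊤)
    (h : PDelHSOn G U 𝓔) : PDelHS G 𝓔 := by
  classical
  choose S L hL hSU hS using exists_gen_bound U hU
  obtain ⟨c, C, η₀, hc0, hC0, hη₀, hη₀', hmain⟩ := h
  refine ⟨fun t => L t * ∑ u ∈ S t, c u, C, η₀, fun t => mul_nonneg (hL t)
    (Finset.sum_nonneg (fun u _ => hc0 u)), hC0, hη₀, hη₀', ?_⟩
  intro T K hK η ζ hη0 hη1 hζ
  set M : ℝ := 1 + ∑ t ∈ T, L t with hM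
  have hM1 : 1 ≤ M := by
    have := Finset.sum_nonneg (fun t (_ : t ∈ T) => hL t)
    linarith
  have hLM : ∀ t ∈ T, L t ≤ M := fun t ht => by
    have := Finset.single_le_sum (f := L) (fun t _ => hL t) ht
    linarith
  have hM0 : 0 < M := by linarith
  set ζ' : ℝ := ζ / M with hζ'
  have hζ'0 : 0 < ζ' := div_pos hζ hM0
  have hζ'eq : ζ' * M = ζ := div_mul_cancel₀ _ hM0.ne'
  have hζ'le : ζ' ≤ ζ := by nlinarith
  obtain ⟨N₀, hN₀⟩ := hmain (T.biUnion S) K (by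
    intro t ht
    obtain ⟨s, _, hs⟩ := Finset.mem_biUnion.1 ht
    exact hSU s t hs) hK η ζ' hη0 hη1 hζ'0
  refine ⟨N₀, ?_⟩
  intro A hA
  obtain ⟨B, J, hJ, h1, h2, h3⟩ := hN₀ A hA
  have hN : (0 : ℝ) ≤ A.dim := Nat.cast_nonneg _
  have hζN : ζ' * A.dim ≤ ζ * A.dim := mul_le_mul_of_nonneg_right hζ'le hN
  refine ⟨B, J, hJ, ?_, ?_, ?_⟩
  · refine h1.trans ?_
    rw [add_mul, add_mul]
    linarith
  · intro t ht
    have hκ0 : 0 ≤ ((∑ u ∈ S t, c u) * η + ζ') * A.dim := by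
      have := Finset.sum_nonneg (fun u (_ : u ∈ S t) => hc0 u)
      positivity
    have h4 := hS t A B J (((∑ u ∈ S t, c u) * η + ζ') * A.dim) hκ0 (by
      intro u hu
      refine (h2 u (Finset.mem_biUnion.2 ⟨t, ht, hu⟩)).trans ?_
      apply mul_le_mul_of_nonneg_right _ hN
      have h5 := Finset.single_le_sum (f := c) (fun u _ => hc0 u) hu
      have h6 := mul_le_mul_of_nonneg_right h5 hη0.le
      linarith)
    refine h4.trans ?_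
    rw [← mul_assoc]
    apply mul_le_mul_of_nonneg_right _ hN
    have h5 : L t * ζ' ≤ ζ := by
      rw [← hζ'eq, mul_comm ζ']
      exact mul_le_mul_of_nonneg_right (hLM t ht) hζ'0.le
    calc L t * ((∑ u ∈ S t, c u) * η + ζ') = L t * (∑ u ∈ S t, c u) * η + L t * ζ' := by ring
      _ ≤ _ := by linarith
  · intro k hk
    refine (h3 k hk).trans ?_
    rw [add_mul, add_mul]
    linarith

section two

variable {G₁ G₂ H : Type} [Group G₁] [Group G₂] [Group H] [Finite H]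

theorem pDelHSOn_amalgam (hf₁ : Group.FG G₁) (hf₂ : Group.FG G₂) (i₁ : H →* G₁) (i₂ : H →* G₂)
    (hres : ∀ h, InRes G₁ (i₁ h) ↔ InRes G₂ (i₂ h)) (𝓔₁ : Set G₁) (𝓔₂ : Set G₂)
    (he₁ : ∀ h, i₁ h ∈ 𝓔₁) (he₂ : ∀ h, i₂ h ∈ 𝓔₂) (h₁ : PDelHS G₁ 𝓔₁) (h₂ : PDelHS G₂ 𝓔₂) :
    PDelHSOn (Amalgam i₁ i₂) (Set.range (am₁ i₁ i₂) ∪ Set.range (am₂ i₁ i₂))
      (am₁ i₁ i₂ '' 𝓔₁ ∪ am₂ i₁ i₂ '' 𝓔₂) := by
  classical
  have := Fintype.ofFinite H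
  obtain ⟨c₁, C₁, η₁, hc₁, hC₁, hη₁, hη₁', hm₁⟩ := h₁
  obtain ⟨c₂, C₂, η₂, hc₂, hC₂, hη₂, _, hm₂⟩ := h₂
  obtain ⟨C₀, hC₀, hcore⟩ := exists_core_del hf₁ hf₂ i₁ i₂ hres
  set Dd : ℝ := C₁ + C₂ with hDd
  have hDd0 : 0 ≤ Dd := by linarith
  set M : ℝ := 1 + C₂ + ∑ h : H, (2 * c₁ (i₁ h) + 2 * c₂ (i₂ h)) with hM
  have hMs : 0 ≤ ∑ h : H, (2 * c₁ (i₁ h) + 2 * c₂ (i₂ h)) := Finset.sum_nonneg (fun h _ => by
    have := hc₁ (i₁ h)
    have := hc₂ (i₂ h)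
    positivity)
  have hM0 : 0 ≤ M := by linarith
  have hMh : ∀ h, 2 * c₁ (i₁ h) + 2 * c₂ (i₂ h) ≤ M := fun h => by
    have := Finset.single_le_sum (f := fun h : H => (2 * c₁ (i₁ h) + 2 * c₂ (i₂ h))) (fun h _ => by
      have := hc₁ (i₁ h)
      have := hc₂ (i₂ h)
      positivity) (Finset.mem_univ h)
    linarith
  have hC₀D : 0 ≤ C₀ * Dd := mul_nonneg hC₀ hDd0
  set C : ℝ := C₁ + C₂ + C₀ * Dd with hC
  have hCnn : 0 ≤ C := by linarith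
  set BIG : ℝ := 4032 * M + 48 * (C₀ * Dd) with hBIG
  have hBIG0 : 0 ≤ BIG := by positivity
  set η₀ : ℝ := min (min η₁ η₂) (1 / (4 * (C + 1) ^ 2)) with hη₀
  refine ⟨fun t => 2 * c₁ (Function.invFun (am₁ i₁ i₂) t) + 2 * c₂ (Function.invFun (am₂ i₁ i₂) t) +
    BIG, C, η₀, fun t => ?_, hCnn, lt_min (lt_min hη₁ hη₂) (by positivity),
    ((min_le_left _ _).trans (min_le_left _ _)).trans hη₁', ?_⟩
  · have := hc₁ (Function.invFun (am₁ i₁ i₂) t)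
    have := hc₂ (Function.invFun (am₂ i₁ i₂) t)
    positivity
  intro T K hT hK η ζ hη0 hηle hζ
  have hηη₁ : η ≤ η₁ := hηle.trans ((min_le_left _ _).trans (min_le_left _ _))
  have hηη₂ : η ≤ η₂ := hηle.trans ((min_le_left _ _).trans (min_le_right _ _))
  have hηC : η ≤ 1 / (4 * (C + 1) ^ 2) := hηle.trans (min_le_right _ _)
  have hη1 : η ≤ 1 / 16 := hηη₁.trans hη₁'
  set s : ℝ := Real.sqrt η with hs
  have hs0 : 0 ≤ s := Real.sqrt_nonneg _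
  have hs1 : s ≤ 1 := by
    rw [hs, Real.sqrt_le_one]
    linarith
  have hsC : C * s ≤ 1 / 2 := by
    have h1 : s ≤ 1 / (2 * (C + 1)) := by
      rw [hs, Real.sqrt_le_left (by positivity)]
      refine hηC.trans (le_of_eq ?_)
      rw [div_pow, one_pow]
      ring
    calc C * s ≤ (C + 1) * (1 / (2 * (C + 1))) :=
          mul_le_mul (by linarith) h1 hs0 (by linarith)
      _ = 1 / 2 := by
          field_simp
  have hηs : 0 ≤ η * s := by positivity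
  have hηs1 : η * s ≤ η := by nlinarith
  obtain ⟨ζ₁, hζ₁0, hζ₁a, hζ₁b⟩ : ∃ ζ₁ : ℝ, 0 < ζ₁ ∧ (16130 + 96 * C₀) * ζ₁ ≤ ζ ∧
      (1 + 2 * C₀) * ζ₁ ≤ η / 2 := by
    refine ⟨min (ζ / (16130 + 96 * C₀)) (η / 2 / (1 + 2 * C₀)), lt_min (by positivity)
      (by positivity), ?_, ?_⟩
    · calc (16130 + 96 * C₀) * min (ζ / (16130 + 96 * C₀)) (η / 2 / (1 + 2 * C₀)) ≤
          (16130 + 96 * C₀) * (ζ / (16130 + 96 * C₀)) :=
            mul_le_mul_of_nonneg_left (min_le_left _ _) (by positivity)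
        _ = ζ := mul_div_cancel₀ _ (by positivity)
    · calc (1 + 2 * C₀) * min (ζ / (16130 + 96 * C₀)) (η / 2 / (1 + 2 * C₀)) ≤
          (1 + 2 * C₀) * (η / 2 / (1 + 2 * C₀)) :=
            mul_le_mul_of_nonneg_left (min_le_right _ _) (by positivity)
        _ = η / 2 := mul_div_cancel₀ _ (by positivity)
  obtain ⟨K₁, hK₁, hK₁'⟩ := exists_finset_preimage (am₁ i₁ i₂) 𝓔₁ K
  obtain ⟨K₂, hK₂, hK₂'⟩ := exists_finset_preimage (am₂ i₁ i₂) 𝓔₂ K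
  obtain ⟨N₁, hN₁⟩ := hm₁ (T.image (Function.invFun (am₁ i₁ i₂)) ∪ Finset.univ.image i₁)
    (K₁ ∪ Finset.univ.image i₁) (by
      intro k hk
      rcases Finset.mem_union.1 hk with hk | hk
      · exact hK₁ k hk
      · obtain ⟨h, _, rfl⟩ := Finset.mem_image.1 hk
        exact he₁ h) η ζ₁ hη0 hηη₁ hζ₁0
  obtain ⟨N₂, hN₂⟩ := hm₂ (T.image (Function.invFun (am₂ i₁ i₂)) ∪ Finset.univ.image i₂)
    (K₂ ∪ Finset.univ.image i₂) (by
      intro k hk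
      rcases Finset.mem_union.1 hk with hk | hk
      · exact hK₂ k hk
      · obtain ⟨h, _, rfl⟩ := Finset.mem_image.1 hk
        exact he₂ h) η ζ₁ hη0 hηη₂ hζ₁0
  refine ⟨max N₁ N₂, ?_⟩
  intro A hA
  obtain ⟨B₁, J₁, hJ₁, hd₁, ht₁, hk₁⟩ := hN₁ (A.res (am₁ i₁ i₂)) ((le_max_left _ _).trans hA)
  obtain ⟨B₂, J₂, hJ₂, hd₂, ht₂, hk₂⟩ := hN₂ (A.res (am₂ i₁ i₂)) ((le_max_right _ _).trans hA)
  have hdr₁ : (A.res (am₁ i₁ i₂)).dim = A.dim := rfl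
  have hdr₂ : (A.res (am₂ i₁ i₂)).dim = A.dim := rfl
  rw [hdr₁] at hd₁ ht₁ hk₁
  rw [hdr₂] at hd₂ ht₂ hk₂
  set N : ℝ := (A.dim : ℝ) with hN
  have hN0 : 0 ≤ N := Nat.cast_nonneg _
  -- bookkeeping quantities
  set p : ℝ := η * N with hp
  set q : ℝ := η * s * N with hq
  set z : ℝ := ζ₁ * N with hz
  have hp0 : 0 ≤ p := by positivity
  have hq0 : 0 ≤ q := by positivity
  have hz0 : 0 ≤ z := by positivity
  have hqp : q ≤ p := mul_le_mul_of_nonneg_right hηs1 hN0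
  have hCq : C * q ≤ p / 2 := by
    calc C * q = (C * s) * p := by rw [hq, hp]; ring
      _ ≤ 1 / 2 * p := mul_le_mul_of_nonneg_right hsC hp0
      _ = p / 2 := by ring
  have hzζ : (16130 + 96 * C₀) * z ≤ ζ * N := by
    calc (16130 + 96 * C₀) * z = ((16130 + 96 * C₀) * ζ₁) * N := by rw [hz]; ring
      _ ≤ ζ * N := mul_le_mul_of_nonneg_right hζ₁a hN0
  have hzp : (1 + 2 * C₀) * z ≤ p / 2 := by
    calc (1 + 2 * C₀) * z = ((1 + 2 * C₀) * ζ₁) * N := by rw [hz]; ring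
      _ ≤ (η / 2) * N := mul_le_mul_of_nonneg_right hζ₁b hN0
      _ = p / 2 := by rw [hp]; ring
  have hC₀z : 0 ≤ C₀ * z := mul_nonneg hC₀ hz0
  have hd₁' : |(B₁.dim : ℝ) - (1 - η) * N| ≤ C₁ * q + z := by
    refine hd₁.trans (le_of_eq ?_)
    rw [hq, hz]; ring
  have hd₂' : |(B₂.dim : ℝ) - (1 - η) * N| ≤ C₂ * q + z := by
    refine hd₂.trans (le_of_eq ?_)
    rw [hq, hz]; ring
  have hcodim : hsSq (1 - J₂ * J₂ᴴ) ≤ M * p + 4 * z := by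
    have h1 : (1 - J₂ * J₂ᴴ)ᴴ = 1 - J₂ * J₂ᴴ := by
      rw [conjTranspose_sub, conjTranspose_one, conjTranspose_mul, conjTranspose_conjTranspose]
    have h2 : (1 - J₂ * J₂ᴴ) * (1 - J₂ * J₂ᴴ) = 1 - J₂ * J₂ᴴ := by
      have h3 : J₂ * J₂ᴴ * (J₂ * J₂ᴴ) = J₂ * J₂ᴴ := by
        calc J₂ * J₂ᴴ * (J₂ * J₂ᴴ) = J₂ * (J₂ᴴ * J₂) * J₂ᴴ := by simp only [Matrix.mul_assoc]
          _ = _ := by rw [hJ₂, Matrix.mul_one]
      rw [Matrix.sub_mul, Matrix.mul_sub, Matrix.mul_sub, h3]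
      simp
    have h3 := hsSq_proj _ h1 h2
    rw [trace_sub, trace_one, trace_mul_comm, hJ₂, trace_one] at h3
    have h4 : hsSq (1 - J₂ * J₂ᴴ) = N - B₂.dim := by
      have h5 : ((hsSq (1 - J₂ * J₂ᴴ) : ℝ) : ℂ) = ((N - B₂.dim : ℝ) : ℂ) := by
        rw [h3, hN]
        push_cast
        rfl
      exact_mod_cast h5
    rw [h4]
    have h5 := (abs_le.1 hd₂').1
    have h6 : (1 - η) * N = N - p := by rw [hp]; ring
    rw [h6] at h5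
    have h7 : C₂ * q ≤ C₂ * p := mul_le_mul_of_nonneg_left hqp hC₂
    have h8 : (1 + C₂) * p ≤ M * p := mul_le_mul_of_nonneg_right (by linarith) hp0
    have h9 : (1 + C₂) * p = p + C₂ * p := by ring
    linarith
  have hint : ∀ h, hsSq (B₂.a (i₂ h) * (J₂ᴴ * J₁) - (J₂ᴴ * J₁) * B₁.a (i₁ h)) ≤ M * p + 4 * z := by
    intro h
    set u := A.a (am₁ i₁ i₂ (i₁ h)) with hu
    have hu' : A.a (am₂ i₁ i₂ (i₂ h)) = u := by rw [hu, am_eq]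
    have e1 : hsSq (u * J₁ - J₁ * B₁.a (i₁ h)) ≤ c₁ (i₁ h) * p + z := by
      refine (ht₁ (i₁ h) (Finset.mem_union_right _
        (Finset.mem_image_of_mem _ (Finset.mem_univ h)))).trans (le_of_eq ?_)
      rw [hp, hz]; ring
    have e2 : hsSq (u * J₂ - J₂ * B₂.a (i₂ h)) ≤ c₂ (i₂ h) * p + z := by
      have := ht₂ (i₂ h) (Finset.mem_union_right _
        (Finset.mem_image_of_mem _ (Finset.mem_univ h)))
      have h2 : (A.res (am₂ i₁ i₂)).a (i₂ h) = u := hu'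
      rw [h2] at this
      refine this.trans (le_of_eq ?_)
      rw [hp, hz]; ring
    have hu1 : uᴴ * u = 1 := A.st_mul _
    have hu2 : u * uᴴ = 1 := A.mul_st _
    have e3 : B₂.a (i₂ h) * (J₂ᴴ * J₁) - (J₂ᴴ * J₁) * B₁.a (i₁ h) =
        (B₂.a (i₂ h) * J₂ᴴ - J₂ᴴ * u) * J₁ + J₂ᴴ * (u * J₁ - J₁ * B₁.a (i₁ h)) := by
      rw [Matrix.sub_mul, Matrix.mul_sub]
      simp only [Matrix.mul_assoc]
      abel
    have e4 : hsSq (B₂.a (i₂ h) * J₂ᴴ - J₂ᴴ * u) = hsSq (u * J₂ - J₂ * B₂.a (i₂ h)) := by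
      have e5 : B₂.a (i₂ h) * J₂ᴴ - J₂ᴴ * u =
          B₂.a (i₂ h) * (u * J₂ - J₂ * B₂.a (i₂ h))ᴴ * u := by
        rw [conjTranspose_sub, conjTranspose_mul, conjTranspose_mul, Matrix.mul_sub,
          Matrix.sub_mul, ← Matrix.mul_assoc (B₂.a (i₂ h)) (B₂.a (i₂ h))ᴴ, B₂.mul_st,
          Matrix.one_mul, Matrix.mul_assoc (B₂.a (i₂ h)), Matrix.mul_assoc J₂ᴴ, hu1,
          Matrix.mul_one]
      rw [e5, hsSq_mul_coisometry u hu2, hsSq_isometry_mul _ (B₂.st_mul _), hsSq_conjTranspose]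
    rw [e3]
    refine (hsSq_add_le _ _).trans ?_
    have e5 : hsSq ((B₂.a (i₂ h) * J₂ᴴ - J₂ᴴ * u) * J₁) ≤ c₂ (i₂ h) * p + z := by
      refine (hsSq_mul_isometry_le J₁ hJ₁ _).trans ?_
      rw [e4]
      exact e2
    have e6 : hsSq (J₂ᴴ * (u * J₁ - J₁ * B₁.a (i₁ h))) ≤ c₁ (i₁ h) * p + z :=
      (hsSq_coisometry_mul_le J₂ hJ₂ _).trans e1
    have e7 : (2 * c₁ (i₁ h) + 2 * c₂ (i₂ h)) * p ≤ M * p :=
      mul_le_mul_of_nonneg_right (hMh h) hp0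
    have e8 : (2 * c₁ (i₁ h) + 2 * c₂ (i₂ h)) * p = 2 * (c₁ (i₁ h) * p) + 2 * (c₂ (i₂ h) * p) := by
      ring
    linarith
  have hk₁' : ∀ k ∈ K₁ ∪ Finset.univ.image i₁,
      ‖B₁.chi k - ((1 - η : ℝ) : ℂ) * A.chi (am₁ i₁ i₂ k)‖ ≤ C₁ * q + z := by
    intro k hk
    refine (hk₁ k hk).trans (le_of_eq ?_)
    rw [hq, hz]; ring
  have hk₂' : ∀ k ∈ K₂ ∪ Finset.univ.image i₂,
      ‖B₂.chi k - ((1 - η : ℝ) : ℂ) * A.chi (am₂ i₁ i₂ k)‖ ≤ C₂ * q + z := by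
    intro k hk
    refine (hk₂ k hk).trans (le_of_eq ?_)
    rw [hq, hz]; ring
  have hΔ : ∀ h, ‖B₁.chi (i₁ h) - B₂.chi (i₂ h)‖ ≤ Dd * q + 2 * z := by
    intro h
    have e1 := hk₁' (i₁ h) (Finset.mem_union_right _
        (Finset.mem_image_of_mem _ (Finset.mem_univ h)))
    have e2 := hk₂' (i₂ h) (Finset.mem_union_right _
        (Finset.mem_image_of_mem _ (Finset.mem_univ h)))
    rw [← am_eq] at e2
    have e3 : B₁.chi (i₁ h) - B₂.chi (i₂ h) =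
        (B₁.chi (i₁ h) - ((1 - η : ℝ) : ℂ) * A.chi (am₁ i₁ i₂ (i₁ h))) -
        (B₂.chi (i₂ h) - ((1 - η : ℝ) : ℂ) * A.chi (am₁ i₁ i₂ (i₁ h))) := by ring
    rw [e3]
    refine (norm_sub_le _ _).trans ?_
    have e4 : Dd * q = C₁ * q + C₂ * q := by rw [hDd]; ring
    linarith
  obtain ⟨R₁, R₂, Θ, hΘ1, hΘ2, hΘint, hR₁, hR₂, hΘJ⟩ := hcore B₁ B₂ A.X J₁ J₂ hJ₁ hJ₂
    (M * p + 4 * z) (Dd * q + 2 * z) hcodim hint hΔ
  have hC₀Δ : C₀ * (Dd * q + 2 * z) = C₀ * Dd * q + 2 * (C₀ * z) := by ring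
  rw [hC₀Δ] at hR₁ hR₂ hΘJ
  have hCqe : C * q = C₁ * q + C₂ * q + C₀ * Dd * q := by rw [hC]; ring
  have hC₁q : 0 ≤ C₁ * q := mul_nonneg hC₁ hq0
  have hC₂q : 0 ≤ C₂ * q := mul_nonneg hC₂ hq0
  have hC₀Dq : 0 ≤ C₀ * Dd * q := mul_nonneg hC₀D hq0
  have hzp' : (1 + 2 * C₀) * z = z + 2 * (C₀ * z) := by ring
  have hzζ' : (16130 + 96 * C₀) * z = 16130 * z + 96 * (C₀ * z) := by ring
  have hdim : B₁.dim + R₁.dim ≤ A.dim := by
    have h5 := (abs_le.1 hd₁').2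
    have h6 : (1 - η) * N = N - p := by rw [hp]; ring
    rw [h6] at h5
    have h7 : (B₁.dim : ℝ) + R₁.dim ≤ N := by linarith
    rw [hN] at h7
    exact_mod_cast h7
  obtain ⟨B, J, hJ, hBd, hb₁, hb₂, hχ₁, hχ₂⟩ := glue_del i₁ i₂ A B₁ R₁ B₂ R₂ J₁ J₂ hJ₁ Θ hΘ1 hΘ2
    hΘint hdim
  have hR₁nn : (0 : ℝ) ≤ R₁.dim := Nat.cast_nonneg _
  have hfin : (C * η * s + ζ) * N = C * q + ζ * N := by rw [hq]; ring
  have hchiR₁ : ∀ k, ‖R₁.chi k‖ ≤ R₁.dim := fun k => trace_unitary_le _ (R₁.st_mul k)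
  have hchiR₂ : ∀ k, ‖R₂.chi k‖ ≤ R₂.dim := fun k => trace_unitary_le _ (R₂.st_mul k)
  refine ⟨B, J, hJ, ?_, ?_, ?_⟩
  · rw [hBd, hfin]
    push_cast
    have e1 : (B₁.dim : ℝ) + R₁.dim - (1 - η) * N = ((B₁.dim : ℝ) - (1 - η) * N) + R₁.dim := by
      ring
    rw [e1]
    refine (abs_add_le _ _).trans ?_
    rw [abs_of_nonneg hR₁nn]
    linarith
  · intro t ht
    set w₁ := Function.invFun (am₁ i₁ i₂) t with hw₁
    set w₂ := Function.invFun (am₂ i₁ i₂) t with hw₂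
    have hw₁0 : 0 ≤ c₁ w₁ * p := mul_nonneg (hc₁ _) hp0
    have hw₂0 : 0 ≤ c₂ w₂ * p := mul_nonneg (hc₂ _) hp0
    have hgoal : ((fun t => 2 * c₁ (Function.invFun (am₁ i₁ i₂) t) +
        2 * c₂ (Function.invFun (am₂ i₁ i₂) t) + BIG) t * η + ζ) * N =
        2 * (c₁ w₁ * p) + 2 * (c₂ w₂ * p) + (4032 * (M * p) + 48 * (C₀ * Dd * p)) + ζ * N := by
      simp only [← hw₁, ← hw₂, hBIG, hp]
      ring
    rw [hgoal]
    have hC₀Dqp : C₀ * Dd * q ≤ C₀ * Dd * p := mul_le_mul_of_nonneg_left hqp hC₀D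
    have hC₀Dp : 0 ≤ C₀ * Dd * p := mul_nonneg hC₀D hp0
    have hMp : 0 ≤ M * p := mul_nonneg hM0 hp0
    rcases hT t ht with ht' | ht'
    · have e1 : am₁ i₁ i₂ w₁ = t := Function.invFun_eq ht'
      have e2 := hb₁ w₁
      rw [e1] at e2
      have e3 := ht₁ w₁ (Finset.mem_union_left _ (Finset.mem_image_of_mem _ ht))
      have e4 : (A.res (am₁ i₁ i₂)).a w₁ = A.a t := by
        change A.a (am₁ i₁ i₂ w₁) = A.a t
        rw [e1]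
      rw [e4] at e3
      have e5 : (c₁ w₁ * η + ζ₁) * N = c₁ w₁ * p + z := by rw [hp, hz]; ring
      rw [e5] at e3
      refine e2.trans ?_
      linarith
    · have e1 : am₂ i₁ i₂ w₂ = t := Function.invFun_eq ht'
      have e2 := hb₂ w₂
      rw [e1] at e2
      have e3 := ht₂ w₂ (Finset.mem_union_left _ (Finset.mem_image_of_mem _ ht))
      have e4 : (A.res (am₂ i₁ i₂)).a w₂ = A.a t := by
        change A.a (am₂ i₁ i₂ w₂) = A.a t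
        rw [e1]
      rw [e4] at e3
      have e5 : (c₂ w₂ * η + ζ₁) * N = c₂ w₂ * p + z := by rw [hp, hz]; ring
      rw [e5] at e3
      refine e2.trans ?_
      linarith
  · intro k hk
    rw [hfin]
    rcases hK k hk with hk' | hk'
    · obtain ⟨k₁, hk₁m, rfl⟩ := hK₁' k hk hk'
      have e1 := hk₁' k₁ (Finset.mem_union_left _ hk₁m)
      rw [hχ₁]
      have e2 : B₁.chi k₁ + R₁.chi k₁ - ((1 - η : ℝ) : ℂ) * A.chi (am₁ i₁ i₂ k₁) =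
          (B₁.chi k₁ - ((1 - η : ℝ) : ℂ) * A.chi (am₁ i₁ i₂ k₁)) + R₁.chi k₁ := by ring
      rw [e2]
      refine (norm_add_le _ _).trans ?_
      have e3 := hchiR₁ k₁
      linarith
    · obtain ⟨k₂, hk₂m, rfl⟩ := hK₂' k hk hk'
      have e1 := hk₂' k₂ (Finset.mem_union_left _ hk₂m)
      rw [hχ₂]
      have e2 : B₂.chi k₂ + R₂.chi k₂ - ((1 - η : ℝ) : ℂ) * A.chi (am₂ i₁ i₂ k₂) =
          (B₂.chi k₂ - ((1 - η : ℝ) : ℂ) * A.chi (am₂ i₁ i₂ k₂)) + R₂.chi k₂ := by ring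
      rw [e2]
      refine (norm_add_le _ _).trans ?_
      have e3 := hchiR₂ k₂
      linarith

theorem pDelHS_amalgam (hf₁ : Group.FG G₁) (hf₂ : Group.FG G₂) (i₁ : H →* G₁) (i₂ : H →* G₂)
    (hres : ∀ h, InRes G₁ (i₁ h) ↔ InRes G₂ (i₂ h)) (𝓔₁ : Set G₁) (𝓔₂ : Set G₂)
    (he₁ : ∀ h, i₁ h ∈ 𝓔₁) (he₂ : ∀ h, i₂ h ∈ 𝓔₂) (h₁ : PDelHS G₁ 𝓔₁) (h₂ : PDelHS G₂ 𝓔₂) :
    PDelHS (Amalgam i₁ i₂) (am₁ i₁ i₂ '' 𝓔₁ ∪ am₂ i₁ i₂ '' 𝓔₂) :=
  pDelHS_of_gen _ _ (closure_ranges i₁ i₂)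
    (pDelHSOn_amalgam hf₁ hf₂ i₁ i₂ hres 𝓔₁ 𝓔₂ he₁ he₂ h₁ h₂)

end two

end Pool.Agent.Helper94.HS
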