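import Mathlib
import Pool.Agent.Helper94.HS.PDelAm

/-!
Flexible stability and proportional deletion imply stability.
-/

namespace Pool.Agent.Helper94.HS

open Matrix

lemma hsSq_codim {X Y : Type} [Fintype X] [DecidableEq X] [Fintype Y] [DecidableEq Y]
    (J : Matrix X Y ℂ) (hJ : Jᴴ * J = 1) :
    hsSq (1 - J * Jᴴ) = (Fintype.card X : ℝ) - Fintype.card Y := by
  have h1 : (1 - J * Jᴴ)ᴴ = 1 - J * Jᴴ := by
    rw [conjTranspose_sub, conjTranspose_one, conjTranspose_mul, conjTranspose_conjTranspose]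
  have h2 : (1 - J * Jᴴ) * (1 - J * Jᴴ) = 1 - J * Jᴴ := by
    have h3 : J * Jᴴ * (J * Jᴴ) = J * Jᴴ := by
      calc J * Jᴴ * (J * Jᴴ) = J * (Jᴴ * J) * Jᴴ := by simp only [Matrix.mul_assoc]
        _ = _ := by rw [hJ, Matrix.mul_one]
    rw [Matrix.sub_mul, Matrix.mul_sub, Matrix.mul_sub, h3]
    simp
  have h3 := hsSq_proj _ h1 h2
  rw [trace_sub, trace_one, trace_mul_comm, hJ, trace_one] at h3
  have h5 : ((hsSq (1 - J * Jᴴ) : ℝ) : ℂ) =
      (((Fintype.card X : ℝ) - Fintype.card Y : ℝ) : ℂ) := by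
    rw [h3]
    push_cast
    rfl
  exact_mod_cast h5

theorem strictHSOn_of_flex_pDel {G S : Type} [Group G] [Finite S] (g : S → G) (𝓔 : Set G)
    (hf : FlexHSOn' S g) (hd : PDelHS G 𝓔) : StrictHSOn S g := by
  classical
  have := Fintype.ofFinite S
  obtain ⟨c, C, η₀, hc, hC, hη₀, _, hdel⟩ := hd
  intro ε hε
  set cs : ℝ := ∑ s, c (g s) with hcs
  have hcs0 : 0 ≤ cs := Finset.sum_nonneg (fun s _ => hc _)
  have hcss : ∀ s, c (g s) ≤ cs := fun s =>
    Finset.single_le_sum (f := fun s => c (g s)) (fun s _ => hc _) (Finset.mem_univ s)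
  obtain ⟨η, hη0, hηη₀, hηC, hηε, hη1⟩ : ∃ η : ℝ, 0 < η ∧ η ≤ η₀ ∧ C * Real.sqrt η ≤ 1 / 4 ∧
      (8 * cs + 144) * η ≤ ε / 4 ∧ η ≤ 1 / 2 := by
    refine ⟨min (min η₀ (1 / 2)) (min (1 / (16 * (C + 1) ^ 2)) (ε / 4 / (8 * cs + 144))),
      lt_min (lt_min hη₀ (by norm_num)) (lt_min (by positivity) (by positivity)),
      (min_le_left _ _).trans (min_le_left _ _), ?_, ?_, (min_le_left _ _).trans (min_le_right _ _)⟩
    · have h1 : Real.sqrt (min (min η₀ (1 / 2))
          (min (1 / (16 * (C + 1) ^ 2)) (ε / 4 / (8 * cs + 144)))) ≤ 1 / (4 * (C + 1)) := by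
        rw [Real.sqrt_le_left (by positivity)]
        refine ((min_le_right _ _).trans (min_le_left _ _)).trans (le_of_eq ?_)
        rw [div_pow, one_pow]
        ring
      calc C * _ ≤ (C + 1) * (1 / (4 * (C + 1))) :=
            mul_le_mul (by linarith) h1 (Real.sqrt_nonneg _) (by linarith)
        _ = 1 / 4 := by field_simp
    · calc (8 * cs + 144) * _ ≤ (8 * cs + 144) * (ε / 4 / (8 * cs + 144)) :=
            mul_le_mul_of_nonneg_left ((min_le_right _ _).trans (min_le_right _ _))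
              (by positivity)
        _ = ε / 4 := mul_div_cancel₀ _ (by positivity)
  obtain ⟨ζ, hζ0, hζη, hζε⟩ : ∃ ζ : ℝ, 0 < ζ ∧ ζ ≤ η / 4 ∧ 8 * ζ ≤ ε / 4 :=
    ⟨min (η / 4) (ε / 32), lt_min (by linarith) (by linarith), min_le_left _ _, by
      have := min_le_right (η / 4) (ε / 32)
      linarith⟩
  obtain ⟨N₀, hN₀⟩ := hdel (Finset.univ.image g) ∅ (fun k hk => absurd hk (Finset.notMem_empty k))
    η ζ hη0 hηη₀ hζ0
  obtain ⟨ε₁, hε₁0, hε₁η, hε₁ε, hε₁N⟩ : ∃ ε₁ : ℝ, 0 < ε₁ ∧ ε₁ ≤ η / 2 ∧ 100 * ε₁ ≤ ε / 4 ∧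
      ε₁ * (N₀ + 1) ≤ 1 := by
    refine ⟨min (η / 2) (min (ε / 400) (1 / (N₀ + 1))), lt_min (by linarith) (lt_min (by linarith)
      (by positivity)), min_le_left _ _, ?_, ?_⟩
    · have := (min_le_right (η / 2) (min (ε / 400) (1 / ((N₀ : ℝ) + 1)))).trans (min_le_left _ _)
      linarith
    · have := (min_le_right (η / 2) (min (ε / 400) (1 / ((N₀ : ℝ) + 1)))).trans (min_le_right _ _)
      calc _ ≤ 1 / ((N₀ : ℝ) + 1) * (N₀ + 1) := mul_le_mul_of_nonneg_right this (by positivity)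
        _ = 1 := by field_simp
  obtain ⟨δ, hδ, E, hE, hmain⟩ := hf ε₁ hε₁0
  refine ⟨δ, hδ, E, hE, ?_⟩
  intro X _ _ _ φ hφ
  have hX : (0 : ℝ) < Fintype.card X := by exact_mod_cast Fintype.card_pos
  set N : ℝ := (Fintype.card X : ℝ) with hN
  obtain ⟨A, J, hJ, hAd, hAJ⟩ := hmain X φ (by
    intro e he
    have h1 := hφ e he
    unfold ud at h1
    rw [div_le_iff₀ hX] at h1
    exact h1)
  have hcod := hsSq_codim J hJ
  have hcod' : hsSq (1 - J * Jᴴ) = A.dim - N := hcod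
  have hNA : N ≤ A.dim := by
    have := hsSq_nonneg (1 - J * Jᴴ)
    linarith
  have hcod2 : hsSq (1 - J * Jᴴ) ≤ ε₁ * N := by
    rw [hcod']
    linarith
  by_cases hbig : N₀ ≤ A.dim
  · obtain ⟨B, J', hJ', hBd, hBt, -⟩ := hN₀ A hbig
    set N' : ℝ := (A.dim : ℝ) with hN'
    have hN'0 : 0 < N' := by linarith
    have hηs : 0 ≤ η * N' := by positivity
    have hq : (C * η * Real.sqrt η + ζ) * N' ≤ η / 2 * N' := by
      apply mul_le_mul_of_nonneg_right _ hN'0.le
      have : C * η * Real.sqrt η = (C * Real.sqrt η) * η := by ring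
      rw [this]
      have h2 : (C * Real.sqrt η) * η ≤ 1 / 4 * η := mul_le_mul_of_nonneg_right hηC hη0.le
      linarith
    have hBd' := hBd.trans hq
    have hB1 := (abs_le.1 hBd').1
    have hB2 := (abs_le.1 hBd').2
    have hN'N : N' ≤ (1 + η / 2) * N := by
      refine hAd.trans (mul_le_mul_of_nonneg_right (by linarith) hX.le)
    have hN'2 : N' ≤ 2 * N := by
      refine hN'N.trans (mul_le_mul_of_nonneg_right (by linarith) hX.le)
    have hBN : (B.dim : ℝ) ≤ N := by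
      have h1 : (B.dim : ℝ) ≤ (1 - η / 2) * N' := by linarith
      have h2 : (1 - η / 2) * N' ≤ (1 - η / 2) * ((1 + η / 2) * N) :=
        mul_le_mul_of_nonneg_left hN'N (by linarith)
      have h3 : (1 - η / 2) * ((1 + η / 2) * N) = N - η ^ 2 / 4 * N := by ring
      have h4 : 0 ≤ η ^ 2 / 4 * N := by positivity
      linarith
    have hBN' : N - 3 / 2 * η * N ≤ B.dim := by
      have h1 : (1 - 3 / 2 * η) * N' ≤ B.dim := by linarith
      have h2 : (1 - 3 / 2 * η) * N ≤ (1 - 3 / 2 * η) * N' :=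
        mul_le_mul_of_nonneg_left hNA (by linarith)
      linarith
    have hBX : B.dim ≤ Fintype.card X := by
      rw [hN] at hBN
      exact_mod_cast hBN
    obtain ⟨k, hk⟩ := Nat.exists_eq_add_of_le hBX
    have hk' : (k : ℝ) ≤ 3 / 2 * η * N := by
      have : N = B.dim + k := by
        rw [hN]
        exact_mod_cast hk
      linarith
    set D : Matrix X B.X ℂ := Jᴴ * J' with hD
    set M : Matrix X (B.X ⊕ Fin k) ℂ := fromCols D (0 : Matrix X (Fin k) ℂ) with hM
    have hcard : Fintype.card X = Fintype.card (B.X ⊕ Fin k) := by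
      rw [Fintype.card_sum, Fintype.card_fin]
      exact hk
    obtain ⟨Θ, hΘ1, hΘ2, hΘ3⟩ := exists_near_unitary hcard M
    have hMM : hsSq (1 - Mᴴ * M) ≤ ε₁ * N + k := by
      have h1 : 1 - Mᴴ * M = fromBlocks (1 - Dᴴ * D) 0 0 1 := by
        rw [hM, conjTranspose_fromCols_eq_fromRows_conjTranspose, fromRows_mul_fromCols]
        ext i j
        rcases i with i | i <;> rcases j with j | j <;> simp [Matrix.one_apply]
      rw [h1, hsSq_fromBlocks, hsSq_zero, hsSq_zero]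
      have h2 : hsSq (1 - Dᴴ * D) ≤ ε₁ * N := by
        have h3 : 1 - Dᴴ * D = J'ᴴ * ((1 - J * Jᴴ) * J') := by
          rw [hD, conjTranspose_mul, conjTranspose_conjTranspose, Matrix.sub_mul, Matrix.mul_sub,
            Matrix.one_mul, hJ']
          simp only [Matrix.mul_assoc]
        rw [h3]
        refine (hsSq_coisometry_mul_le J' hJ' _).trans ?_
        exact (hsSq_mul_isometry_le J' hJ' _).trans hcod2
      have h3 : hsSq (1 : Matrix (Fin k) (Fin k) ℂ) = k := by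
        rw [hsSq_unitary _ (by simp), Fintype.card_fin]
      rw [h3]
      linarith
    let B' : URep G := B.add (URep.triv G k)
    have hΘ2' : (Θᴴ)ᴴ * Θᴴ = 1 := by rw [conjTranspose_conjTranspose, hΘ2]
    have hΘ1' : Θᴴ * (Θᴴ)ᴴ = 1 := by rw [conjTranspose_conjTranspose, hΘ1]
    refine ⟨(B'.conj (Z := X) Θᴴ hΘ2' hΘ1').toHom, ?_⟩
    intro s
    unfold ud
    rw [div_le_iff₀ hX]
    set F : Matrix (B.X ⊕ Fin k) (B.X ⊕ Fin k) ℂ := fromBlocks (B.a (g s)) 0 0 1 with hF
    have hF1 : F * Fᴴ = 1 := B'.mul_st (g s)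
    set U : Matrix X X ℂ := (φ (FreeGroup.of s) : Matrix X X ℂ) with hU
    have hU1 : Uᴴ * U = 1 := uni_star_mul _
    have hU2 : U * Uᴴ = 1 := uni_mul_star _
    change hsSq (U - (Θᴴ)ᴴ * F * Θᴴ) ≤ ε * N
    have e1 : hsSq (U - (Θᴴ)ᴴ * F * Θᴴ) = hsSq (U * Θ - Θ * F) := by
      rw [← hsSq_mul_coisometry Θ hΘ2 (U - (Θᴴ)ᴴ * F * Θᴴ)]
      congr 1
      rw [Matrix.sub_mul, conjTranspose_conjTranspose, Matrix.mul_assoc (Θ * F), hΘ1,
        Matrix.mul_one]
    have e2 : U * Θ - Θ * F = (U * M - M * F) + (U * (Θ - M) + -((Θ - M) * F)) := by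
      rw [Matrix.mul_sub, Matrix.sub_mul]
      abel
    have e3 : U * M - M * F = fromCols (U * D - D * B.a (g s)) (0 : Matrix X (Fin k) ℂ) := by
      rw [hM, hF, mul_fromCols, fromCols_mul_fromBlocks]
      ext i j
      rcases j with j | j <;> simp
    have e4 : U * D - D * B.a (g s) = (U * Jᴴ - Jᴴ * A.a (g s)) * J' +
        Jᴴ * (A.a (g s) * J' - J' * B.a (g s)) := by
      rw [hD, Matrix.sub_mul, Matrix.mul_sub]
      simp only [Matrix.mul_assoc]
      abel
    have e5 : hsSq (U * Jᴴ - Jᴴ * A.a (g s)) = hsSq (A.a (g s) * J - J * U) := by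
      have e6 : U * Jᴴ - Jᴴ * A.a (g s) = U * (A.a (g s) * J - J * U)ᴴ * A.a (g s) := by
        rw [conjTranspose_sub, conjTranspose_mul, conjTranspose_mul, Matrix.mul_sub,
          Matrix.sub_mul, ← Matrix.mul_assoc U Uᴴ, hU2, Matrix.one_mul, Matrix.mul_assoc U,
          Matrix.mul_assoc Jᴴ, A.st_mul, Matrix.mul_one]
      rw [e6, hsSq_mul_coisometry _ (A.mul_st _), hsSq_isometry_mul U hU1, hsSq_conjTranspose]
    have e6 : hsSq (U * D - D * B.a (g s)) ≤ 2 * (ε₁ * N) + 2 * ((c (g s) * η + ζ) * N') := by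
      rw [e4]
      refine (hsSq_add_le _ _).trans ?_
      have h1 : hsSq ((U * Jᴴ - Jᴴ * A.a (g s)) * J') ≤ ε₁ * N := by
        refine (hsSq_mul_isometry_le J' hJ' _).trans ?_
        rw [e5]
        exact hAJ s
      have h2 : hsSq (Jᴴ * (A.a (g s) * J' - J' * B.a (g s))) ≤ (c (g s) * η + ζ) * N' :=
        (hsSq_coisometry_mul_le J hJ _).trans (hBt (g s)
          (Finset.mem_image_of_mem _ (Finset.mem_univ s)))
      linarith
    have e7 : hsSq (U * (Θ - M) + -((Θ - M) * F)) ≤ 4 * hsSq (Θ - M) := by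
      refine (hsSq_add_le _ _).trans ?_
      rw [hsSq_neg, hsSq_isometry_mul U hU1, hsSq_mul_coisometry F hF1]
      linarith
    rw [e1, e2]
    refine (hsSq_add_le _ _).trans ?_
    rw [e3, hsSq_fromCols, hsSq_zero, add_zero]
    have e8 : (c (g s) * η + ζ) * N' ≤ 2 * (cs * η * N) + 2 * (ζ * N) := by
      have h1 : c (g s) * η ≤ cs * η := mul_le_mul_of_nonneg_right (hcss s) hη0.le
      calc (c (g s) * η + ζ) * N' ≤ (cs * η + ζ) * (2 * N) := by
            apply mul_le_mul (by linarith) hN'2 hN'0.le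
            have : 0 ≤ cs * η := by positivity
            linarith
        _ = _ := by ring
    have e9 : (8 * cs + 144) * η * N ≤ ε / 4 * N := mul_le_mul_of_nonneg_right hηε hX.le
    have e10 : (8 * cs + 144) * η * N = 8 * (cs * η * N) + 144 * (η * N) := by ring
    have e11 : 8 * ζ * N ≤ ε / 4 * N := mul_le_mul_of_nonneg_right hζε hX.le
    have e12 : 100 * ε₁ * N ≤ ε / 4 * N := mul_le_mul_of_nonneg_right hε₁ε hX.le
    have e13 : 0 ≤ ε * N := by positivity
    linarith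
  · push Not at hbig
    have hA1 : (A.dim : ℝ) < N + 1 := by
      have h1 : N < N₀ + 1 := by
        have : (A.dim : ℝ) < N₀ := by exact_mod_cast hbig
        linarith
      have h2 : ε₁ * N < ε₁ * (N₀ + 1) := mul_lt_mul_of_pos_left h1 hε₁0
      linarith
    have hA2 : A.dim = Fintype.card X := by
      rw [hN] at hA1 hNA
      have h1 : A.dim < Fintype.card X + 1 := by exact_mod_cast hA1
      have h2 : Fintype.card X ≤ A.dim := by exact_mod_cast hNA
      omega
    have hJ2 : J * Jᴴ = 1 := by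
      have h1 : hsSq (1 - J * Jᴴ) = 0 := by
        rw [hcod', hN, hA2, sub_self]
      have h2 := hsSq_eq_zero h1
      exact (sub_eq_zero.1 h2).symm
    refine ⟨(A.conj J hJ hJ2).toHom, ?_⟩
    intro s
    unfold ud
    rw [div_le_iff₀ hX]
    change hsSq ((φ (FreeGroup.of s) : Matrix X X ℂ) - Jᴴ * A.a (g s) * J) ≤ ε * N
    have e1 : hsSq ((φ (FreeGroup.of s) : Matrix X X ℂ) - Jᴴ * A.a (g s) * J) =
        hsSq (A.a (g s) * J - J * (φ (FreeGroup.of s) : Matrix X X ℂ)) := by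
      rw [← hsSq_isometry_mul J hJ, hsSq_sub_comm]
      congr 1
      rw [Matrix.mul_sub]
      congr 1
      rw [← Matrix.mul_assoc, ← Matrix.mul_assoc, hJ2, Matrix.one_mul]
    rw [e1]
    refine (hAJ s).trans (mul_le_mul_of_nonneg_right ?_ hX.le)
    linarith

/-- Flexible stability and proportional deletion imply stability. -/
theorem hsStable_of_flex_pDel {G : Type} [Group G] (𝓔 : Set G) (hf : FlexHSStable G)
    (hd : PDelHS G 𝓔) : HSStable G := by
  obtain ⟨hfg, hf⟩ := hf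
  obtain ⟨T, hT, hTf⟩ := Group.fg_iff.1 hfg
  have : Finite T := hTf
  have hr : Subgroup.closure (Set.range (Subtype.val : T → G)) = ⊤ := by
    rw [Subtype.range_coe]
    exact hT
  have k := flexHSOn'_of_flexHSStableOn _ (hf T Subtype.val hr)
  exact hsStable_of_strictHSOn _ hr (strictHSOn_of_flex_pDel _ 𝓔 k hd)

end Pool.Agent.Helper94.HS
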