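import Mathlib
import Pool.Agent.Helper94.HS.Strict
import Pool.Agent.Helper94.Delete

/-!
Amenable groups which are Hilbert-Schmidt stable are residually finite.
-/

namespace Pool.Agent.Helper94.HS

open Matrix

section perm

variable {X : Type} [Fintype X] [DecidableEq X]

/-- permutation matrix -/
def pmat (σ : Equiv.Perm X) : Matrix X X ℂ := (1 : Matrix X X ℂ).submatrix id σ

omit [Fintype X] in
lemma pmat_apply (σ : Equiv.Perm X) (i j : X) : pmat σ i j = if i = σ j then 1 else 0 := by
  unfold pmat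
  rw [submatrix_apply, one_apply]
  rfl

lemma pmat_mul (σ τ : Equiv.Perm X) : pmat σ * pmat τ = pmat (σ * τ) := by
  ext i k
  rw [mul_apply, Finset.sum_eq_single (τ k)]
  · rw [pmat_apply, pmat_apply, pmat_apply, if_pos rfl, mul_one]
    rfl
  · intro j _ hj
    rw [pmat_apply τ, if_neg hj, mul_zero]
  · intro h
    exact absurd (Finset.mem_univ _) h

lemma pmat_one : pmat (1 : Equiv.Perm X) = 1 := by
  ext i j
  rw [pmat_apply, one_apply]
  rfl

lemma pmat_star (σ : Equiv.Perm X) : (pmat σ)ᴴ * pmat σ = 1 := by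
  have h1 : (pmat σ)ᴴ = pmat σ⁻¹ := by
    ext i j
    rw [conjTranspose_apply, pmat_apply, pmat_apply]
    have h2 : (j = σ i) ↔ (i = σ⁻¹ j) := by
      rw [Equiv.Perm.eq_inv_iff_eq]
      exact eq_comm
    by_cases h : j = σ i
    · rw [if_pos h, if_pos (h2.1 h)]
      simp
    · rw [if_neg h, if_neg (fun h' => h (h2.2 h'))]
      simp
  rw [h1, pmat_mul, inv_mul_cancel, pmat_one]

lemma hsSq_pmat_sub (σ τ : Equiv.Perm X) :
    hsSq (pmat σ - pmat τ) = 2 * Nat.card {x // σ x ≠ τ x} := by
  classical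
  unfold hsSq
  rw [Finset.sum_comm]
  have h1 : ∀ j : X, ∑ i, ‖(pmat σ - pmat τ) i j‖ ^ 2 = if σ j ≠ τ j then 2 else 0 := by
    intro j
    by_cases h : σ j = τ j
    · rw [if_neg (fun h' => h' h)]
      apply Finset.sum_eq_zero
      intro i _
      rw [Matrix.sub_apply, pmat_apply, pmat_apply, h, sub_self]
      simp
    · rw [if_pos h]
      have h2 : ∀ i, ‖(pmat σ - pmat τ) i j‖ ^ 2 =
          (if i = σ j then (1 : ℝ) else 0) + (if i = τ j then (1 : ℝ) else 0) := by
        intro i
        rw [Matrix.sub_apply, pmat_apply, pmat_apply]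
        by_cases h3 : i = σ j
        · have h4 : i ≠ τ j := fun h4 => h (h3.symm.trans h4)
          rw [if_pos h3, if_neg h4, if_pos h3, if_neg h4]
          simp
        · rw [if_neg h3, if_neg h3]
          by_cases h4 : i = τ j
          · rw [if_pos h4, if_pos h4]
            simp
          · rw [if_neg h4, if_neg h4]
            simp
      simp only [h2]
      rw [Finset.sum_add_distrib, Finset.sum_ite_eq', Finset.sum_ite_eq']
      simp
      norm_num
  simp only [h1]
  rw [Finset.sum_ite]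
  simp only [Finset.sum_const, nsmul_eq_mul, mul_zero, add_zero]
  rw [Nat.card_eq_fintype_card, Fintype.card_subtype]
  ring

end perm

theorem res_of_amenable_hs {G : Type} [Group G] (hfg : Group.FG G) (hG : FolnerAmenable G)
    (hs : AStabHS G) (g : G) (hg : InRes G g) : g = 1 := by
  classical
  by_contra hg1
  obtain ⟨T', δ, hδ, hstab⟩ := hs {g} (1 / 2) (by norm_num)
  set κ : ℝ := min (δ / 4) (1 / 4) with hκ
  have hκ0 : 0 < κ := lt_min (by linarith) (by norm_num)
  obtain ⟨F, hF, hFne, hFb⟩ := hG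
    (((insert g (T' ∪ (T' ×ˢ T').image (fun q => q.1 * q.2)) : Finset G)) : Set G) κ
    (Finset.finite_toSet _) hκ0
  have : Finite F := hF
  have hne : Nonempty F := hFne.to_subtype
  have := Fintype.ofFinite F
  set N : ℝ := (Nat.card F : ℝ) with hN
  have hNpos : 0 < N := by
    rw [hN]
    exact_mod_cast Nat.card_pos
  have hNf : N = (Fintype.card F : ℝ) := by
    rw [hN, Nat.card_eq_fintype_card]
  have hb : ∀ s, s ∈ insert g (T' ∪ (T' ×ˢ T').image (fun q => q.1 * q.2)) →
      (Nat.card {x : F // s * x.1 ∉ F} : ℝ) ≤ κ * N := by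
    intro s hs
    refine le_trans (le_of_eq ?_) (hFb s (Finset.mem_coe.2 hs))
    congr 1
    exact Nat.card_congr
      { toFun := fun x => ⟨x.1.1, x.1.2, x.2⟩
        invFun := fun x => ⟨⟨x.1, x.2.1⟩, x.2.2⟩
        left_inv := fun _ => rfl
        right_inv := fun _ => rfl }
  choose ρ hρ using fun s : G => exists_restriction
    (Function.Embedding.subtype (fun x => x ∈ F)) (Equiv.mulLeft s)
  have hρ' : ∀ s (x : F), s * x.1 ∈ F → (ρ s x : G) = s * x.1 := by
    intro s x hx
    have h1 := hρ s x ⟨s * x.1, hx⟩ rfl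
    exact congrArg Subtype.val h1
  let φ : G → Matrix.unitaryGroup F ℂ := fun s =>
    ⟨pmat (ρ s), Matrix.mem_unitaryGroup_iff'.2 (pmat_star (ρ s))⟩
  obtain ⟨ψ, hψ⟩ := hstab F φ (by
    intro s hs t ht
    unfold ud
    rw [← hNf, div_le_iff₀ hNpos]
    have h0 : ((φ s * φ t : Matrix.unitaryGroup F ℂ) : Matrix F F ℂ) - (φ (s * t) : Matrix F F ℂ) =
        pmat (ρ s * ρ t) - pmat (ρ (s * t)) := by
      rw [← pmat_mul]
      rfl
    rw [h0, hsSq_pmat_sub]
    have h1 : (Nat.card {x : F // (ρ s * ρ t) x ≠ ρ (s * t) x} : ℝ) ≤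
        Nat.card {x : F // t * x.1 ∉ F} + Nat.card {x : F // (s * t) * x.1 ∉ F} := by
      apply card_le_add_of_imp
      intro x hx
      by_contra hcon
      push Not at hcon
      obtain ⟨h1, h2⟩ := hcon
      apply hx
      apply Subtype.ext
      have h3 := hρ' t x h1
      have h4 : s * (ρ t x : G) = s * t * x.1 := by rw [h3, mul_assoc]
      rw [Equiv.Perm.mul_apply, hρ' s (ρ t x) (by rw [h4]; exact h2), h4, hρ' (s * t) x h2]
    have h2 := hb t (Finset.mem_insert_of_mem (Finset.mem_union_left _ ht))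
    have h3 := hb (s * t) (Finset.mem_insert_of_mem (Finset.mem_union_right _
      (Finset.mem_image.2 ⟨(s, t), Finset.mem_product.2 ⟨hs, ht⟩, rfl⟩)))
    have h4 : κ ≤ δ / 4 := min_le_left _ _
    have h5 : κ * N ≤ δ / 4 * N := mul_le_mul_of_nonneg_right h4 hNpos.le
    linarith)
  have h1 := hψ g (Finset.mem_singleton_self g)
  have h2 : (ψ g : Matrix F F ℂ) = 1 := malcev hfg (URep.ofHom ψ) g hg
  unfold ud at h1
  rw [h2, ← hNf, div_le_iff₀ hNpos] at h1
  have h0 : (φ g : Matrix F F ℂ) - 1 = pmat (ρ g) - pmat 1 := by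
    rw [pmat_one]
  rw [h0, hsSq_pmat_sub] at h1
  have h3 : (Nat.card F : ℝ) ≤ Nat.card {x : F // ρ g x ≠ (1 : Equiv.Perm F) x} +
      Nat.card {x : F // g * x.1 ∉ F} := by
    have e : Nat.card F = Nat.card {x : F // True} :=
      (Nat.card_congr (Equiv.subtypeUnivEquiv (fun _ => trivial))).symm
    rw [e]
    apply card_le_add_of_imp
    intro x _
    by_cases hx : g * x.1 ∈ F
    · left
      intro hcon
      have h4 := hρ' g x hx
      rw [hcon] at h4
      apply hg1
      have h5 : x.1 = g * x.1 := h4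
      exact (mul_eq_right.1 h5.symm)
    · exact Or.inr hx
  have h4 := hb g (Finset.mem_insert_self _ _)
  have h5 : κ ≤ 1 / 4 := min_le_right _ _
  have h6 : κ * N ≤ 1 / 4 * N := mul_le_mul_of_nonneg_right h5 hNpos.le
  linarith

end Pool.Agent.Helper94.HS
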