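import Mathlib
import Pool.Agent.Helper94.TreeHSDefs
import Pool.Agent.Helper94.TreeGood
import Pool.Agent.Helper94.HS.AmenResHS

/-!
Fundamental groups of finite trees of amenable groups stable in Hilbert-Schmidt norm, with finite
edge groups, are stable in Hilbert-Schmidt norm.
-/

namespace Pool.Agent.Helper94.HS

open Matrix Filter

lemma hsStable_of_mulEquiv {G G' : Type} [Group G] [Group G'] (e : G ≃* G') (h : HSStable G) :
    HSStable G' := by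
  intro X _ _ _ φ hφ
  obtain ⟨ψ, hψ⟩ := h X (fun n g => φ n (e g)) (by
    intro a b
    have h1 := hφ (e a) (e b)
    rwa [← map_mul] at h1)
  refine ⟨fun n => (ψ n).comp e.symm.toMonoidHom, ?_⟩
  intro a
  have h1 := hψ (e.symm a)
  rw [MulEquiv.apply_symm_apply] at h1
  exact h1

lemma pDelHS_of_mulEquiv {G G' : Type} [Group G] [Group G'] (e : G ≃* G')
    (𝓔 : Set G) (h : PDelHS G 𝓔) : PDelHS G' (e '' 𝓔) := by
  classical
  obtain ⟨c, C, η₀, hc, hC, hη₀, hη₀', h⟩ := h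
  refine ⟨fun t => c (e.symm t), C, η₀, fun t => hc _, hC, hη₀, hη₀', ?_⟩
  intro T K hK η ζ hη0 hη1 hζ
  obtain ⟨N₀, hN₀⟩ := h (T.image e.symm) (K.image e.symm) (by
    intro k hk
    obtain ⟨k', hk', rfl⟩ := Finset.mem_image.1 hk
    obtain ⟨x, hx, hxk⟩ := hK k' hk'
    rw [← hxk, MulEquiv.symm_apply_apply]
    exact hx) η ζ hη0 hη1 hζ
  refine ⟨N₀, ?_⟩
  intro A hA
  obtain ⟨B, J, hJ, h1, h2, h3⟩ := hN₀ (A.res e.toMonoidHom) hA
  refine ⟨B.res e.symm.toMonoidHom, J, hJ, h1, ?_, ?_⟩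
  · intro t ht
    have h4 := h2 (e.symm t) (Finset.mem_image_of_mem _ ht)
    have h5 : (A.res e.toMonoidHom).a (e.symm t) = A.a t := by
      change A.a (e (e.symm t)) = A.a t
      rw [MulEquiv.apply_symm_apply]
    rw [h5] at h4
    exact h4
  · intro k hk
    have h4 := h3 (e.symm k) (Finset.mem_image_of_mem _ hk)
    have h5 : (A.res e.toMonoidHom).chi (e.symm k) = A.chi k := by
      change A.chi (e (e.symm k)) = A.chi k
      rw [MulEquiv.apply_symm_apply]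
    rw [h5] at h4
    exact h4

/-- Everything we know about tree products. -/
theorem treeProductHS_good {G : Type} [Group G] {𝓕 : Set (Subgroup G)}
    (h : TreeProductHS G 𝓕) :
    Group.FG G ∧ HSStable G ∧ (∀ J ∈ 𝓕, ∀ g ∈ J, InRes G g → g = 1) ∧
      PDelHS G {g | ∃ J ∈ 𝓕, g ∈ J} := by
  induction h with
  | vertex G hfg ham hst =>
    have := countable_of_fg hfg
    have ha := aStabHS_of_hsStable hst
    exact ⟨hfg, hst, fun _ _ g _ hg => res_of_amenable_hs hfg ham ha g hg,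
      pDelHS_of_amenable ham ha _⟩
  | @edge G₁ G₂ H G _ _ _ _ _ 𝓕₁ 𝓕₂ i₁ i₂ j₁ j₂ hG _ _ hi₁ hi₂ hr₁ hr₂ ih₁ ih₂ =>
    obtain ⟨f₁, s₁, r₁, d₁⟩ := ih₁
    obtain ⟨f₂, s₂, r₂, d₂⟩ := ih₂
    have hres : ∀ h, InRes G₁ (i₁ h) ↔ InRes G₂ (i₂ h) := by
      intro h
      have k1 : InRes G₁ (i₁ h) → h = 1 := by
        intro hh
        have e := r₁ _ hr₁ (i₁ h) ⟨h, rfl⟩ hh
        exact hi₁ (e.trans (map_one i₁).symm)
      have k2 : InRes G₂ (i₂ h) → h = 1 := by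
        intro hh
        have e := r₂ _ hr₂ (i₂ h) ⟨h, rfl⟩ hh
        exact hi₂ (e.trans (map_one i₂).symm)
      constructor
      · intro hh
        rw [k1 hh, map_one]
        intro Q _ _ f
        exact map_one f
      · intro hh
        rw [k2 hh, map_one]
        intro Q _ _ f
        exact map_one f
    obtain ⟨e, he₁, he₂⟩ := exists_mulEquiv_amalgam i₁ i₂ j₁ j₂ hG
    have hd := pDelHS_amalgam f₁ f₂ i₁ i₂ hres {g | ∃ J ∈ 𝓕₁, g ∈ J} {g | ∃ J ∈ 𝓕₂, g ∈ J}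
      (fun h => ⟨_, hr₁, ⟨h, rfl⟩⟩) (fun h => ⟨_, hr₂, ⟨h, rfl⟩⟩) d₁ d₂
    have hfl := flexHSStable_amalgam i₁ i₂ hres (flexHSStable_of_hsStable f₁ s₁)
      (flexHSStable_of_hsStable f₂ s₂)
    have hst := hsStable_of_flex_pDel _ hfl hd
    have hfg : Group.FG G := by
      have := fg_amalgam i₁ i₂ f₁ f₂
      exact Group.fg_of_surjective (f := e.toMonoidHom) e.surjective
    have hj₁ : ∀ x, e (am₁ i₁ i₂ x) = j₁ x := fun x => DFunLike.congr_fun he₁ x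
    have hj₂ : ∀ x, e (am₂ i₁ i₂ x) = j₂ x := fun x => DFunLike.congr_fun he₂ x
    refine ⟨hfg, hsStable_of_mulEquiv e hst, ?_, ?_⟩
    · have aux : ∀ x : Amalgam i₁ i₂, InRes G (e x) → InRes (Amalgam i₁ i₂) x := by
        intro x hx Q _ _ f
        have h2 := hx Q (f.comp e.symm.toMonoidHom)
        have h3 : (f.comp e.symm.toMonoidHom) (e x) = f x := by
          change f (e.symm (e x)) = f x
          rw [MulEquiv.symm_apply_apply]
        rwa [h3] at h2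
      rintro J (⟨J₁, hJ₁, rfl⟩ | ⟨J₂, hJ₂, rfl⟩) g hg hgr
      · obtain ⟨x, hx, rfl⟩ := hg
        rw [← hj₁] at hgr
        rw [r₁ J₁ hJ₁ x hx (inRes_am₁ i₁ i₂ hres x (aux _ hgr)), map_one]
      · obtain ⟨x, hx, rfl⟩ := hg
        rw [← hj₂] at hgr
        rw [r₂ J₂ hJ₂ x hx (inRes_am₂ i₁ i₂ hres x (aux _ hgr)), map_one]
    · have hd' := pDelHS_of_mulEquiv e _ hd
      have hset : e '' (am₁ i₁ i₂ '' {g | ∃ J ∈ 𝓕₁, g ∈ J} ∪
          am₂ i₁ i₂ '' {g | ∃ J ∈ 𝓕₂, g ∈ J}) =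
          {g | ∃ J ∈ Subgroup.map j₁ '' 𝓕₁ ∪ Subgroup.map j₂ '' 𝓕₂, g ∈ J} := by
        ext g
        constructor
        · rintro ⟨_, (⟨x, ⟨J, hJ, hx⟩, rfl⟩ | ⟨x, ⟨J, hJ, hx⟩, rfl⟩), rfl⟩
          · exact ⟨J.map j₁, Or.inl ⟨J, hJ, rfl⟩, ⟨x, hx, (hj₁ x).symm⟩⟩
          · exact ⟨J.map j₂, Or.inr ⟨J, hJ, rfl⟩, ⟨x, hx, (hj₂ x).symm⟩⟩
        · rintro ⟨_, (⟨J, hJ, rfl⟩ | ⟨J, hJ, rfl⟩), ⟨x, hx, rfl⟩⟩
          · exact ⟨_, Or.inl ⟨x, ⟨J, hJ, hx⟩, rfl⟩, hj₁ x⟩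
          · exact ⟨_, Or.inr ⟨x, ⟨J, hJ, hx⟩, rfl⟩, hj₂ x⟩
      rw [hset] at hd'
      exact hd'

theorem hsStable_of_treeProductHS {G : Type} [Group G] {𝓕 : Set (Subgroup G)}
    (h : TreeProductHS G 𝓕) : HSStable G :=
  (treeProductHS_good h).2.1

end Pool.Agent.Helper94.HS
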